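import Mathlib
import Pool.Agent.N875.X15.Main
import Pool.Agent.N916.GB.Stm
import Pool.Agent.N218.GB.Fin
import Pool.Agent.N969.P15.Defs

/-!
# Project UT (helper873): simultaneous twists of all the curves with a subgroup `Z/2 x Z/4`

`E = EQ n a b : y² = x (x - n a²) (x - n b²)` is the quadratic twist by `-n` of `y² = x (x + a²) (x + b²)`,
`a`, `b` coprime, `a` odd, `b ≠ 0` even, `n ≡ 3 mod 8` squarefree. `Adm n a b`: `-n` is not a nonzero square
modulo the odd primes dividing `a b`, `n` is not a nonzero square modulo the odd primes dividing `a² - b²`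
(`ℓ ∣ n` is allowed). The 2-isogeny `E → E'`, `E' : y² = x (x + n (a + b)²) (x + n (a - b)²)` has Selmer groups
which do not depend on `a`, `b`: `SA n` (for `E'(ℚ) → E(ℚ)`) and `SB n`, both of order `2 * r4`, where `r4` is the
order of the group of the squares of the classes of order `1, 2, 4` of `ℚ(√-n)`.
Statements of the parts. They are independent of each other.
-/

set_option autoImplicit false
set_option linter.unusedVariables false

open scoped Classical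

namespace Pool.Agent.N873.UT

open Finset NumberField
open Pool.Agent.TH841.SH (LocC SelG IsR)
open Pool.Agent.TH841.SH.D (Sha)
open Pool.Agent.Z702 (LocI WZ)
open Pool.Agent.Y703.CX (sm la jj XX eL zz kk S_SIE)
open Pool.Agent.Y703.CQ (nr sg)
open Pool.Agent.N973.ND (uu)
open Pool.Agent.N916.GB (Po SA S_BIL S_EQ S_LA S_BOX CntP S_HAL S_ME8 S_BAD S_FE1 S_FE2 S_ND Nd Gd eta)
open Pool.Agent.N969.P15 (Qc)

/-! ### The curves -/

/-- `y² = x (x - n a²) (x - n b²)` -/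
def Em (n a b : ℤ) : WeierstrassCurve ℤ := ⟨0, -(n * (a ^ 2 + b ^ 2)), 0, n ^ 2 * a ^ 2 * b ^ 2, 0⟩

/-- the curve over `ℚ` -/
abbrev EQ (n a b : ℤ) : WeierstrassCurve ℚ := (Em n a b).map (Int.castRingHom ℚ)

/-- the admissible triples -/
structure Adm (n : ℕ) (a b : ℤ) : Prop where
  sqf : Squarefree n
  n8 : n % 8 = 3
  cop : IsCoprime a b
  a2 : a % 2 = 1
  b2 : b % 2 = 0
  b0 : b ≠ 0
  ab : ∀ p : ℕ, p.Prime → p ≠ 2 → (p : ℤ) ∣ a * b → jacobiSym (-n) p ≠ 1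
  dd : ∀ p : ℕ, p.Prime → p ≠ 2 → (p : ℤ) ∣ a ^ 2 - b ^ 2 → jacobiSym n p ≠ 1

/-! ### The Selmer groups of the 2-isogenies -/

/-- the classes `d > 0` supported in `n` which are `1` or `n` in `ℚ_p` modulo squares for all `p ∣ n` -/
def SA (n : ℕ) : Set ℤ := {d | Squarefree d ∧ 0 < d ∧ (∀ p : ℕ, p.Prime → (p : ℤ) ∣ d → p ∣ n) ∧
  ∀ (p : ℕ) [Fact p.Prime], p ∣ n → IsSquare (d : ℚ_[p]) ∨ IsSquare ((d : ℚ_[p]) * n)}

/-- the classes `d ≡ 1 mod 4` supported in `n` which are `1` or `-n` in `ℚ_p` modulo squares for all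
`p ∣ n` -/
def SB (n : ℕ) : Set ℤ := {d | Squarefree d ∧ d % 4 = 1 ∧ (∀ p : ℕ, p.Prime → (p : ℤ) ∣ d → p ∣ n) ∧
  ∀ (p : ℕ) [Fact p.Prime], p ∣ n → IsSquare (d : ℚ_[p]) ∨ IsSquare ((d : ℚ_[p]) * (-n))}

/-- the order `2 ^ r` of the group of the squares of the classes killed by `4` (`r` is the 4-rank) -/
noncomputable def r4 (K : Type) [Field K] [NumberField K] : ℕ :=
  Nat.card {y : ClassGroup (𝓞 K) // ∃ x : ClassGroup (𝓞 K), x ^ 4 = 1 ∧ x ^ 2 = y}

/-- UT-CA: `#SA n = 2 * r4` (`Y473.FK.Alg.count`, see `N875.X15.qc_iff_class`). -/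
def S_CA : Prop := ∀ (n : ℕ), Squarefree n → n % 4 = 3 → ∀ (K : Type) [Field K] [NumberField K],
  Module.finrank ℚ K = 2 → (∃ s : K, s ^ 2 = -(n : K)) → (SA n).Finite ∧ (SA n).ncard = 2 * r4 K

/-- UT-CB: `#SB n = #SA n`: the two systems of linear equations are transposed to each other
(see `N875.X15.transpose_criterion`, `rc_of`, `nc_of`, where this is done for the trivial kernels). -/
def S_CB : Prop := ∀ (n : ℕ), Squarefree n → n % 4 = 3 → (SB n).Finite ∧ (SB n).ncard = (SA n).ncard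

/-! ### The local images. `u = x`, `v = x - n a²`, `w = x - n b²` for a local point `(x, y)`, `y ≠ 0` -/

/-- the points -/
structure Pt3 {K : Type} [Field K] (n a b : ℤ) (u v w : K) : Prop where
  u0 : u ≠ 0
  v0 : v ≠ 0
  w0 : w ≠ 0
  uv : u - v = n * a ^ 2
  uw : u - w = n * b ^ 2
  sq : IsSquare (u * v * w)

/-- UT-RAM: the odd primes dividing `n`. `α = val (n a²) = 1 + 2 val a`, `β = val (n b²)`, one of them is `1`.
The statement is symmetric in `v`, `w` (if `u` is a square then `v w` is one), so let `β = 1`.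
`val u ≤ 0`: `v ~ u ~ w` (`~`: equal modulo squares), so all are squares. `val u > α`: `v ~ w ~ -n`,
`u ~ 1`. `val u = α > 1`: `w ~ -n`, `u v ~ -n` has odd valuation, `val v` is even and `≥ α`, so `> α` and `u ~ n`.
`1 < val u < α`: `v ~ u`, `w ~ -n`: `u v w ~ -n`, contradiction. `val u = 1 < α`: `v ~ u`, so `w ~ 1`, `val w` is
even and `≥ 1`, so `≥ 2`, and `u ~ n b² ~ n`. `val u = 1 = α`: `val v + val w` is odd, so one of them is `> 1` and
`u ~ n`. -/
def S_RAM : Prop := ∀ (n : ℕ) (a b : ℤ), Adm n a b → ∀ (p : ℕ) [Fact p.Prime], p ∣ n →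
  ∀ u v w : ℚ_[p], Pt3 n a b u v w →
    (IsSquare u ∨ IsSquare (u * n)) ∧ (IsSquare u → IsSquare v ∨ IsSquare (v * (-n)))

/-- UT-UNR: the odd primes not dividing `n`. If one of the valuations is negative then they are equal, and
even. Let all be `≥ 0`. `p ∤ a b (a² - b²)`: at most one of `u`, `v`, `w` is not a unit. `p ∣ a`: `u - w` is a unit.
If `w` is not a unit then `u`, `v` are. If `w` is a unit and `u` is not then `w ~ -n`, a non-square (`p ∣ a b`).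
`k = val a`: `val u < 2 k` gives `v ~ u`, `u v w ~ -n`, contradiction; `val u > 2 k` gives `v ~ -n`, so `u ~ 1`;
`val u = 2 k` is even, and so is `val v`. `p ∣ b`: the same with `v`, `w` exchanged. `p ∣ a² - b²`: `u - v` and
`u - w` are units; if `u` is not a unit then `v`, `w` are. If `v` is not a unit then neither is `w` and
`u ≡ n a²`, so `u ~ n`. -/
def S_UNR : Prop := ∀ (n : ℕ) (a b : ℤ), Adm n a b → ∀ (p : ℕ) [Fact p.Prime], p ≠ 2 → ¬ p ∣ n →
  ∀ u v w : ℚ_[p], Pt3 n a b u v w → Even u.valuation ∧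
    (Even v.valuation ∨ ((p : ℤ) ∣ a ^ 2 - b ^ 2 ∧ IsSquare (u * n)))

/-- UT-TWO: the prime `2`. `val u < 0`: the valuations are equal and even; `v = u (1 - n a² / u)` and
`1 - n a² / u` is `1` or `5` modulo `8`. `val u = 0`: `val v` is even and `≥ 1`, so `≥ 2`, `u ≡ n a² ≡ 3 mod 4`.
`val u = s > 0`, `k = val b`: `v ≡ -n a² + u`, a unit. `s < 2 k`: `v (1 - n b² / u) ≡ 1 mod 8`, where `v` is `3` or
`7` (`s = 1`), `1` (`s = 2`), `5` (`s ≥ 3`) modulo `8` and `1 - n b² / u` is `3` or `7` (`2 k - s = 1`), `5` (`2 k - s = 2`),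
`1` (`2 k - s ≥ 3`) modulo `8`; for `s` odd this is impossible: `s = 1`, `2 k - s = 1`: the product is always `5`.
`s = 2 k`: even. `s > 2 k`: `w ~ -n b² (1 - u / (n b²))` has even valuation. In all the cases with
`s > 0` it follows that `s ≥ 2` and `v ≡ 1 mod 4`. -/
def S_TWO : Prop := ∀ (n : ℕ) (a b : ℤ), Adm n a b →
  ∀ u v w : ℚ_[2], Pt3 n a b u v w → Even u.valuation ∧
    (IsSquare u ∨ IsSquare (5 * u) → IsSquare v ∨ IsSquare (5 * v))

/-- UT-SEL: the 2-Selmer group. The first coordinate of a pair `(d1, d2)` lies in `SA n`. If `(d1, d2)`,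
`(d1, e2)` are two pairs with the same first coordinate then the squarefree part of `d2 e2` lies in `SB n`:
locally `u ~ u'`; if `u ~ 1` (at `2`: `u ~ 1, 5`) this is clear, otherwise `u ~ n` (at `2`: `u ~ 3, 7`; for `p ∤ n` one
only needs the case that `val v` is odd) and one replaces both points by their
sums with `(n a², 0)`: `u ↦ n a² w / v`, `v ↦ n² a² (a² - b²) / v`, `w ↦ n (a² - b²) u / v`. -/
def S_SEL : Prop := S_RAM → S_UNR → S_TWO → ∀ (n : ℕ) (a b : ℤ), Adm n a b → (SA n).Finite → (SB n).Finite →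
  (SelG 0 (n * a ^ 2) (n * b ^ 2)).Finite ∧
    (SelG 0 (n * a ^ 2) (n * b ^ 2)).ncard ≤ (SA n).ncard * (SB n).ncard

/-- UT-RK: rank and `Ш` from the Selmer group (see `N875.X15.rank_sha`, `N875.X15.fg_E`). -/
def S_RK : Prop := ∀ (n : ℕ) (a b : ℤ), Adm n a b → ∀ N : ℕ,
  (SelG 0 (n * a ^ 2) (n * b ^ 2)).Finite → (SelG 0 (n * a ^ 2) (n * b ^ 2)).ncard ≤ (2 * N) ^ 2 →
  Finite {x : Sha (EQ n a b) // x + x = 0} ∧
  2 ^ Module.finrank ℤ (EQ n a b).toAffine.Point * Nat.card {x : Sha (EQ n a b) // x + x = 0} ≤ N ^ 2 ∧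
  (N = 1 → Finite (EQ n a b).toAffine.Point ∧
    ∀ (k : ℕ) (x : Sha (EQ n a b)), (2 ^ k : ℕ) • x = 0 → x = 0)

/-! ### The converse -/

/-- UT-LI: the classes of `SB n` are everywhere locally classes of points of `E'`. At `p ∣ n`: `d ~ 1, -n`, the
classes of `O` and `(-n (a + b)², 0)`; at `2` as well, since `d ≡ 1 mod 4` and `-n ≡ 5 mod 8`. At the odd `p ∤ n`:
clear if `d ~ 1, -n`; otherwise `d` is not a square and `-n` is one. Then `p ∤ a b`. `p ∤ a² - b²`: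
`Z894.LG.aux`. `p ∣ a² - b²`: `n` is not a square, so neither is `-1`; let `p ∣ a + b` (or `a - b`), `-n = t²` modulo `p`;
there is `s ≠ 0` such that `s² + t² (a - b)²` is not a square, and `x = s² - n (a - b)²` is the
abscissa of a point of `E'`. The real place: `d > 0`, or `d < 0`: `x` between `-n (a + b)²` and `-n (a - b)²`.
See `N875.X15.loc_all` and `Z702.Defs` (`S_LQ`). -/
def S_LI : Prop := ∀ (n : ℕ) (a b : ℤ), Adm n a b → ∀ d ∈ SB n,
  (∀ (p : ℕ) [Fact p.Prime], LocI ℚ_[p] (-(n * (a ^ 2 + b ^ 2))) (n ^ 2 * a ^ 2 * b ^ 2) d) ∧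
    LocI ℝ (-(n * (a ^ 2 + b ^ 2))) (n ^ 2 * a ^ 2 * b ^ 2) d

/-- UT-TO: if `E(ℚ)` is finite then the rational points of `E'` have the classes `1`, `-n` (there is no
rational point of order four on `E'`); see `N875.X15.tor4`. -/
def S_TO : Prop := ∀ (n : ℕ) (a b : ℤ), Adm n a b →
  Finite (WZ (-(n * (a ^ 2 + b ^ 2))) (n ^ 2 * a ^ 2 * b ^ 2)).toAffine.Point → ∀ d : ℤ,
  LocI ℚ (-(n * (a ^ 2 + b ^ 2))) (n ^ 2 * a ^ 2 * b ^ 2) d →
  IsSquare (d : ℚ) ∨ IsSquare ((d : ℚ) * (-n))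

/-- UT-CV: the converse (see `N875.X15.sha_ex15`, `nc_of_fin`; `EQ n a b = WZ ..` up to casts). -/
def S_CV : Prop := S_LI → S_TO → ∀ (n : ℕ) (a b : ℤ), Adm n a b →
  Finite (EQ n a b).toAffine.Point → (∀ x : Sha (EQ n a b), x + x = 0 → x = 0) →
  SB n ⊆ {1, -(n : ℤ)}

/-! ### The natural density, modulus `M` -/

/-- the class of the sets of primes; `K` is a set of residues modulo `M` -/
def ClM (M : ℕ) (K S : Finset ℕ) : Prop := (∀ p ∈ S, Po p) ∧ (∏ p ∈ S, p) % M ∈ K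

/-- the sets of the class with product at most `X` -/
noncomputable def SM (M : ℕ) (K : Finset ℕ) (X : ℕ) : Finset (Finset ℕ) :=
  (range (X + 1)).powerset.filter fun S => ClM M K S ∧ ∏ p ∈ S, p ≤ X

/-- the residues -/
def OkM (M : ℕ) (K : Finset ℕ) : Prop := 0 < M ∧ 4 ∣ M ∧ ∀ a ∈ K, a < M ∧ a % 4 = 3

/-- the regular sets -/
noncomputable def RM (M : ℕ) (K : Finset ℕ) (X z H k V : ℕ) : Finset (Finset ℕ) :=
  (SM M K X).filter fun S => Set.InjOn (jj H) (la z S : Set ℕ) ∧ S.card ≤ k ∧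
    (∏ p ∈ sm z S, p) * ∏ p ∈ la z S, XX H (jj H p) ≤ X ∧
    2 * (sm z S).card + V ≤ ((la z S).filter fun p => p % 4 = 3).card

/-- UT-KEY: the sum over the boxes (`N218/GB/KEY.lean` with `120` replaced by `M`). -/
def S_KEYM : Prop := S_BIL → S_EQ → S_LA → S_BOX → ∀ ε : ℝ, 0 < ε → ∃ (V₀ : ℕ) (C : ℝ), 1 ≤ C ∧
  ∀ (M : ℕ) (K : Finset ℕ), OkM M K →
  ∀ (X z H k N : ℕ) (κ : ℝ), 1 ≤ X → 1 ≤ H → 1 ≤ z → 0 ≤ κ → C ≤ κ ^ 12 * z →
  (H : ℝ) * Real.log X < N →
  |(((RM M K X z H k V₀).filter fun S => Nd (sm z S) (la z S) ∧ Gd false 0 0 S).card : ℝ) -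
      eta * (((RM M K X z H k V₀).filter fun S => Nd (sm z S) (la z S)).card : ℝ)| ≤
    ε * ((RM M K X z H k V₀).card : ℝ) +
    (M * N + M : ℝ) ^ k * (3 ^ (9 * k ^ 2 + 9) * κ) * (X * (1 + Real.log X))

/-- UT-DM: the proportion of the good sets. -/
def S_DM : Prop := ∀ (M : ℕ) (K : Finset ℕ), OkM M K →
  ∀ ε : ℝ, 0 < ε → ∃ X₀ : ℕ, ∀ X : ℕ, X₀ ≤ X →
  |(((SM M K X).filter (Gd false 0 0)).card : ℝ) - eta * ((SM M K X).card : ℝ)| ≤ ε * X

/-- UT-ASY: the assembly (`N218/GB/Asy.lean` with `120` replaced by `M`; `X₀` may depend on `M`). -/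
def S_ASYM : Prop := S_BIL → S_EQ → S_LA → S_BOX → S_KEYM → CntP → S_SIE → S_HAL → S_ME8 → S_BAD →
  S_FE1 → S_FE2 → S_ND → S_DM

/-- the numbers: no admissible pair of a finite set is excluded -/
def NF (F : Finset (ℤ × ℤ)) : Set ℕ := {n | Squarefree n ∧ n % 8 = 3 ∧ ∀ c ∈ F, Adm n c.1 c.2}

/-- the pairs -/
def Pr (c : ℤ × ℤ) : Prop := IsCoprime c.1 c.2 ∧ c.1 % 2 = 1 ∧ c.2 % 2 = 0 ∧ c.2 ≠ 0

/-- UT-LOW: `NF F` has positive lower density. It contains the squarefree `n ≡ 3 mod 8` such that, for the odd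
primes `ℓ ≤ B` (`B` larger than all `|a b|`, `|a² - b²|`), `ℓ ∣ n` if `ℓ ≡ 3 mod 4` and `n` is not a
square modulo `ℓ` if `ℓ ≡ 1 mod 4`: the numbers `n = P m`, `P` the product of the `ℓ ≡ 3 mod 4`, `m` in a
residue class prime to the modulus `M = 8 ∏ ℓ`: see `N856.JL.Tr.lowM`. -/
def S_LOW : Prop := ∀ F : Finset (ℤ × ℤ), (∀ c ∈ F, Pr c) → ∃ c : ℝ, 0 < c ∧ ∃ X₀ : ℕ, ∀ X : ℕ, X₀ ≤ X →
  c * X ≤ (((Icc 1 X).filter fun n => n ∈ NF F).card : ℝ)

/-- UT-TR: translation (see `N916/GB/Tr.lean`): `NF F` is the set of the squarefree `n` in a set `K` of residue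
classes modulo `M = 8 ∏ ℓ`; `S ↦ ∏ S`, `n ↦ n.primeFactors`; `Gd false 0 0 n.primeFactors ↔ Qc n`. -/
def S_TR : Prop := S_DM → ∀ F : Finset (ℤ × ℤ), (∀ c ∈ F, Pr c) → ∀ ε : ℝ, 0 < ε →
  ∃ X₀ : ℕ, ∀ X : ℕ, X₀ ≤ X →
  |(((Icc 1 X).filter fun n => n ∈ NF F ∧ Qc n).card : ℝ) -
    eta * (((Icc 1 X).filter fun n => n ∈ NF F).card : ℝ)| ≤ ε * X

end Pool.Agent.N873.UT
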