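import Pool.Agent.N873.UT.Stm
import Pool.Agent.N218.GB.Asy

/-!
# UT-ASY: the final asymptotics modulo `M` (after `Pool/Agent/N218/GB/Asy.lean`)
-/

set_option autoImplicit false

open scoped Classical
open Finset Filter

namespace Pool.Agent.N873.UT.ASY

open Pool.Agent.N873.UT
open Pool.Agent.N916.GB (Po S_BIL S_EQ S_LA S_BOX CntP S_HAL S_ME8 S_BAD S_FE1 S_FE2 S_ND Nd N8 Gd eta)
open Pool.Agent.Y703.CX (sm la jj XX eL zz kk S_SIE eL_tendsto logX_eq HH NN ev_eL one_le_exp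
  HH_ge HH_le HH_pos kk_ge kk_le X_pos one_add_log lin_le kap zz_ge zz_pos kap_nonneg kap_pow kap_le)
open Pool.Agent.N218.GB.Asy (eta_mem Sml sml_of sml_add sml_eps sml_many sml_cut sml_coll log_three
  SA_card cmp)

/-- the main error term -/
theorem sml_main {C : ℝ} (M : ℕ) (hC : 1 ≤ C) : Sml fun X => ((M : ℝ) * (NN X : ℝ) + M) ^ kk X *
    (3 ^ (9 * kk X ^ 2 + 9) * kap C X) * (X * (1 + Real.log X)) := by
  apply sml_of (C := 4 * C) (a := 1) (by norm_num)
  filter_upwards [ev_eL 20000, ev_eL (4 * (M : ℝ))] with X hX hXM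
  set l := eL X with hl
  have h0 : 0 < eL X := by linarith
  have h1 : 1 ≤ eL X := by linarith
  have hX0 : (0 : ℝ) ≤ X := Nat.cast_nonneg _
  have hM0 : (0 : ℝ) ≤ M := Nat.cast_nonneg _
  have hN0 : 0 ≤ (M : ℝ) * (NN X : ℝ) + M := by positivity
  have hN : (M : ℝ) * (NN X : ℝ) + M ≤ Real.exp (5 * l) := by
    have h2 : (NN X : ℝ) ≤ HH X * Real.log X + 1 := by
      unfold NN
      push_cast
      have := Nat.floor_le (a := (HH X : ℝ) * Real.log X)
        (mul_nonneg (Nat.cast_nonneg _) (Real.log_natCast_nonneg X))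
      linarith
    have h3 : (HH X : ℝ) * Real.log X ≤ 2 * Real.exp (4 * l) := by
      rw [logX_eq h0]
      calc (HH X : ℝ) * Real.exp (eL X) ≤ 2 * Real.exp (3 * eL X) * Real.exp (eL X) :=
            mul_le_mul_of_nonneg_right (HH_le h0) (Real.exp_pos _).le
        _ = 2 * Real.exp (4 * l) := by
            rw [mul_assoc, ← Real.exp_add]
            congr 2
            rw [hl]
            ring
    have h4 : 1 ≤ Real.exp (4 * l) := one_le_exp (by linarith)
    have h5 : 4 * (M : ℝ) ≤ Real.exp l := by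
      have := Real.add_one_le_exp l
      linarith
    have h6 : Real.exp (5 * l) = Real.exp l * Real.exp (4 * l) := by
      rw [← Real.exp_add]; congr 1; ring
    have h7 : (NN X : ℝ) + 1 ≤ 4 * Real.exp (4 * l) := by linarith
    calc (M : ℝ) * (NN X : ℝ) + M = M * ((NN X : ℝ) + 1) := by ring
      _ ≤ M * (4 * Real.exp (4 * l)) := mul_le_mul_of_nonneg_left h7 hM0
      _ = 4 * M * Real.exp (4 * l) := by ring
      _ ≤ Real.exp l * Real.exp (4 * l) := mul_le_mul_of_nonneg_right h5 (Real.exp_pos _).le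
      _ = Real.exp (5 * l) := h6.symm
  have hkk := kk_le h1
  have hkk0 : (0 : ℝ) ≤ kk X := Nat.cast_nonneg _
  have hA : ((M : ℝ) * (NN X : ℝ) + M) ^ kk X ≤ Real.exp (55 * l ^ 2) := by
    calc ((M : ℝ) * (NN X : ℝ) + M) ^ kk X ≤ (Real.exp (5 * l)) ^ kk X :=
          pow_le_pow_left₀ hN0 hN _
      _ = Real.exp (kk X * (5 * l)) := (Real.exp_nat_mul _ _).symm
      _ ≤ Real.exp (55 * l ^ 2) := by
          apply Real.exp_le_exp.2
          nlinarith
  have hB : (3 : ℝ) ^ (9 * kk X ^ 2 + 9) ≤ Real.exp (1210 * l ^ 2) := by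
    have e : (3 : ℝ) ^ (9 * kk X ^ 2 + 9) = Real.exp ((9 * (kk X : ℝ) ^ 2 + 9) * Real.log 3) := by
      rw [mul_comm (9 * (kk X : ℝ) ^ 2 + 9) (Real.log 3), Real.exp_mul, Real.exp_log (by norm_num)]
      rw [← Real.rpow_natCast]
      congr 1
      push_cast
      ring
    rw [e]
    apply Real.exp_le_exp.2
    have h2 := log_three
    have h3 : (kk X : ℝ) ^ 2 ≤ 121 * l ^ 2 := by nlinarith
    have h4 : 0 ≤ (kk X : ℝ) ^ 2 := sq_nonneg _
    have h5 : (9 * (kk X : ℝ) ^ 2 + 9) * Real.log 3 ≤ (9 * (kk X : ℝ) ^ 2 + 9) * 1.1 :=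
      mul_le_mul_of_nonneg_left h2 (by positivity)
    have h6 : 1 ≤ l ^ 2 := one_le_pow₀ h1
    linarith
  have hK := kap_le hC h1
  have hLg := one_add_log h0
  have hmain : ((M : ℝ) * (NN X : ℝ) + M) ^ kk X * (3 ^ (9 * kk X ^ 2 + 9) * kap C X) *
      (X * (1 + Real.log X)) ≤ Real.exp (55 * l ^ 2) * (Real.exp (1210 * l ^ 2) *
        (2 * C * Real.exp (-l ^ 3 / 12))) * (X * (2 * Real.exp l)) := by
    have := kap_nonneg hC X
    have : 0 ≤ 1 + Real.log X := by
      have := Real.log_natCast_nonneg X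
      linarith
    gcongr
  refine hmain.trans ?_
  have e : Real.exp (55 * l ^ 2) * (Real.exp (1210 * l ^ 2) *
        (2 * C * Real.exp (-l ^ 3 / 12))) * (X * (2 * Real.exp l)) =
      4 * C * (X * Real.exp (55 * l ^ 2 + 1210 * l ^ 2 + -l ^ 3 / 12 + l)) := by
    rw [Real.exp_add, Real.exp_add, Real.exp_add]
    ring
  rw [e]
  have h9 : 55 * l ^ 2 + 1210 * l ^ 2 + -l ^ 3 / 12 + l ≤ -1 * l := by
    have h10 : 20000 * l ^ 2 ≤ l ^ 3 := by
      have : l ^ 3 = l * l ^ 2 := by ring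
      rw [this]
      exact mul_le_mul_of_nonneg_right hX (sq_nonneg l)
    have h11 : l ≤ l ^ 2 := by nlinarith
    linarith
  have h11 := Real.exp_le_exp.2 h9
  have hC0 : (0 : ℝ) ≤ 4 * C := by linarith
  gcongr

/-! ### The sets -/

theorem SM_sub (M : ℕ) (K : Finset ℕ) (X : ℕ) : SM M K X ⊆ Pool.Agent.N916.GB.SA X := by
  intro S hS
  unfold SM at hS
  unfold Pool.Agent.N916.GB.SA
  rw [mem_filter] at hS ⊢
  exact ⟨hS.1, hS.2.1.1, hS.2.2⟩

/-- the sets outside the regular part -/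
theorem out_sub (hND : S_ND) (M : ℕ) (K : Finset ℕ) (X z H k V : ℕ) :
    SM M K X \ ((RM M K X z H k V).filter fun S => Nd (sm z S) (la z S)) ⊆
      ((((((Pool.Agent.N916.GB.SA X).filter fun S => k < S.card) ∪
      ((Pool.Agent.N916.GB.SA X).filter fun S => S.card ≤ k ∧
        X < (∏ p ∈ sm z S, p) * ∏ p ∈ la z S, XX H (jj H p))) ∪
      ((Pool.Agent.N916.GB.SA X).filter fun S => ¬ Set.InjOn (jj H) (la z S : Set ℕ))) ∪
      ((Pool.Agent.N916.GB.SA X).filter fun S => ((la z S).filter fun p => p % 4 = 3).card <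
        2 * (sm z S).card + V)) ∪
      ((Pool.Agent.N916.GB.SA X).filter fun S => S.card ≤ k ∧ ¬ N8 (sm z S) (la z S))) ∪
      (((Pool.Agent.N916.GB.SA X).filter fun S => ∀ p ∈ la z S, p % 8 ≠ 3 % 8) ∪
      ((Pool.Agent.N916.GB.SA X).filter fun S => ∀ p ∈ la z S, p % 8 ≠ 5 % 8)) := by
  intro S hS
  rw [Finset.mem_sdiff, Finset.mem_filter] at hS
  obtain ⟨h1', h2⟩ := hS
  have h1 := SM_sub M K X h1'
  simp only [mem_union, mem_filter]
  by_contra hc
  push Not at hc
  obtain ⟨⟨⟨⟨⟨c1, c2⟩, c3⟩, c4⟩, c5⟩, c6, c7⟩ := hc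
  have d1 : S.card ≤ k := c1 h1
  have d2 := c2 h1 d1
  have d3 := c3 h1
  have d4 := c4 h1
  have d5 := c5 h1 d1
  obtain ⟨p3, hp3, hp3'⟩ := c6 h1
  obtain ⟨p5, hp5, hp5'⟩ := c7 h1
  have hS : ∀ p ∈ S, Po p := by
    unfold Pool.Agent.N916.GB.SA at h1
    exact (mem_filter.1 h1).2.1
  have d6 : Nd (sm z S) (la z S) := by
    apply hND _ _ _ _ d5
    · exact ⟨p3, hp3, by simpa using hp3'⟩
    · exact ⟨p5, hp5, by simpa using hp5'⟩
    · exact fun p hp => hS p (mem_filter.1 hp).1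
    · exact fun p hp => hS p (mem_filter.1 hp).1
  apply h2
  refine ⟨?_, d6⟩
  unfold RM
  rw [mem_filter]
  exact ⟨h1', d3, d1, d2, d4⟩

/-- **UT-ASY: the proportion of the good sets, from the parts.** -/
theorem _root_.Pool.Agent.N873.UT.t_ASYM : S_ASYM := by
  intro h1 h3 h4 h5 hK hC hS hH hM hB hF1 hF2 hND M K hOk ε hε
  obtain ⟨V, C, hC1, hkey⟩ := hK h1 h3 h4 h5 (ε / 2) (by linarith)
  have s1 := sml_many hC
  have s2 := sml_cut hC
  have s3 := sml_coll hC
  have s4 := sml_eps (hF2 hS hM V)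
  have s5 := sml_eps (hB hS hH hM)
  have s6 := sml_eps (hF1 hS hM 3 (by norm_num))
  have s7 := sml_eps (hF1 hS hM 5 (by norm_num))
  have s8 := sml_main M hC1
  have stot := sml_add (sml_add (sml_add (sml_add (sml_add (sml_add s1 s2) s3) s4) s5)
    (sml_add s6 s7)) s8
  have hev := stot (ε / 2) (by linarith)
  have hev2 : ∀ᶠ X : ℕ in atTop, |(((SM M K X).filter (Gd false 0 0)).card : ℝ) -
      eta * ((SM M K X).card : ℝ)| ≤ ε * X := by
    filter_upwards [hev, ev_eL 1] with X hX hl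
    have hl0 : 0 < eL X := by linarith
    have hXp := X_pos hl0
    have hNN : (HH X : ℝ) * Real.log X < NN X := by
      unfold NN
      push_cast
      exact Nat.lt_floor_add_one _
    have hmain := hkey M K hOk X (zz X) (HH X) (kk X) (NN X) (kap C X) hXp (HH_pos hl0)
      (zz_pos hl) (kap_nonneg hC1 X) (kap_pow hC1 hl) hNN
    set T := (RM M K X (zz X) (HH X) (kk X) V).filter fun S => Nd (sm (zz X) S) (la (zz X) S) with hT
    have hTG : (RM M K X (zz X) (HH X) (kk X) V).filter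
        (fun S => Nd (sm (zz X) S) (la (zz X) S) ∧ Gd false 0 0 S) = T.filter (Gd false 0 0) := by
      rw [hT, filter_filter]
    rw [hTG] at hmain
    have hTS : T ⊆ SM M K X := (filter_subset _ _).trans (filter_subset _ _)
    have hRS : ((RM M K X (zz X) (HH X) (kk X) V).card : ℝ) ≤ X := by
      exact_mod_cast (card_le_card ((filter_subset _ _).trans (SM_sub M K X))).trans (SA_card X)
    have hcmp := cmp (Gd false 0 0) T (SM M K X) hTS eta eta_mem.1 eta_mem.2
    have hout : ((SM M K X \ T).card : ℝ) ≤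
        ((((((Pool.Agent.N916.GB.SA X).filter fun S => kk X < S.card).card : ℝ) +
        (((Pool.Agent.N916.GB.SA X).filter fun S => S.card ≤ kk X ∧
          X < (∏ p ∈ sm (zz X) S, p) * ∏ p ∈ la (zz X) S, XX (HH X) (jj (HH X) p)).card : ℝ)) +
        (((Pool.Agent.N916.GB.SA X).filter fun S =>
          ¬ Set.InjOn (jj (HH X)) (la (zz X) S : Set ℕ)).card : ℝ)) +
        (((Pool.Agent.N916.GB.SA X).filter fun S => ((la (zz X) S).filter fun p => p % 4 = 3).card <
          2 * (sm (zz X) S).card + V).card : ℝ) +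
        (((Pool.Agent.N916.GB.SA X).filter fun S =>
          S.card ≤ kk X ∧ ¬ N8 (sm (zz X) S) (la (zz X) S)).card : ℝ)) +
        ((((Pool.Agent.N916.GB.SA X).filter fun S => ∀ p ∈ la (zz X) S, p % 8 ≠ 3 % 8).card : ℝ) +
        (((Pool.Agent.N916.GB.SA X).filter fun S => ∀ p ∈ la (zz X) S, p % 8 ≠ 5 % 8).card : ℝ)) := by
      have g := card_le_card (out_sub hND M K X (zz X) (HH X) (kk X) V)
      rw [← hT] at g
      have g2 := (g.trans (card_union_le _ _)).trans (Nat.add_le_add ((card_union_le _ _).trans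
        (Nat.add_le_add_right ((card_union_le _ _).trans
        (Nat.add_le_add_right ((card_union_le _ _).trans
        (Nat.add_le_add_right (card_union_le _ _) _)) _)) _)) (card_union_le _ _))
      exact_mod_cast g2
    have g1 : ε / 2 * ((RM M K X (zz X) (HH X) (kk X) V).card : ℝ) ≤ ε / 2 * X :=
      mul_le_mul_of_nonneg_left hRS (by positivity)
    linarith
  obtain ⟨X₀, h0⟩ := eventually_atTop.1 hev2
  exact ⟨X₀, fun X hX => h0 X hX⟩

end Pool.Agent.N873.UT.ASY
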