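import Pool.Agent.N873.UT.Stm2
import Pool.Agent.N873.UT.ASY

/-!
# UT-ASYG: the final asymptotics for any property (after `Pool/Agent/N873/UT/ASY.lean`)
-/

set_option autoImplicit false

open scoped Classical
open Finset Filter

namespace Pool.Agent.N873.UT.ASYG

open Pool.Agent.N873.UT
open Pool.Agent.N916.GB (Po S_BIL S_EQ S_LA S_BOX CntP S_HAL S_ME8 S_BAD S_FE1 S_FE2 S_ND Nd N8 Gd eta)
open Pool.Agent.Y703.CX (sm la jj XX eL zz kk S_SIE eL_tendsto logX_eq HH NN ev_eL one_le_exp
  HH_ge HH_le HH_pos kk_ge kk_le X_pos one_add_log lin_le kap zz_ge zz_pos kap_nonneg kap_pow kap_le)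
open Pool.Agent.N218.GB.Asy (Sml sml_of sml_add sml_eps sml_many sml_cut sml_coll log_three
  SA_card cmp)
open Pool.Agent.N873.UT.ASY (sml_main SM_sub out_sub)

/-- **UT-ASYG: the proportion of the sets with the property, from the parts.** -/
theorem _root_.Pool.Agent.N873.UT.t_ASYG : S_ASYG := by
  intro P e he0 he1 hK hC hS hH hM hB hF1 hF2 hND M K hOk ε hε
  obtain ⟨V, C, hC1, hkey⟩ := hK (ε / 2) (by linarith)
  have s1 := sml_many hC
  have s2 := sml_cut hC
  have s3 := sml_coll hC
  have s4 := sml_eps (hF2 hS hM V)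
  have s5 := sml_eps (hB hS hH hM)
  have s6 := sml_eps (hF1 hS hM 3 (by norm_num))
  have s7 := sml_eps (hF1 hS hM 5 (by norm_num))
  have s8 := sml_main M hC1
  have stot := sml_add (sml_add (sml_add (sml_add (sml_add (sml_add s1 s2) s3) s4) s5)
    (sml_add s6 s7)) s8
  have hev := stot (ε / 2) (by linarith)
  have hev2 : ∀ᶠ X : ℕ in atTop, |(((SM M K X).filter P).card : ℝ) -
      e * ((SM M K X).card : ℝ)| ≤ ε * X := by
    filter_upwards [hev, ev_eL 1] with X hX hl
    have hl0 : 0 < eL X := by linarith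
    have hXp := X_pos hl0
    have hNN : (HH X : ℝ) * Real.log X < NN X := by
      unfold NN
      push_cast
      exact Nat.lt_floor_add_one _
    have hmain := hkey M K hOk X (zz X) (HH X) (kk X) (NN X) (kap C X) hXp (HH_pos hl0)
      (zz_pos hl) (kap_nonneg hC1 X) (kap_pow hC1 hl) hNN
    set T := (RM M K X (zz X) (HH X) (kk X) V).filter fun S => Nd (sm (zz X) S) (la (zz X) S) with hT
    have hTG : (RM M K X (zz X) (HH X) (kk X) V).filter
        (fun S => Nd (sm (zz X) S) (la (zz X) S) ∧ P S) = T.filter P := by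
      rw [hT, filter_filter]
    rw [hTG] at hmain
    have hTS : T ⊆ SM M K X := (filter_subset _ _).trans (filter_subset _ _)
    have hRS : ((RM M K X (zz X) (HH X) (kk X) V).card : ℝ) ≤ X := by
      exact_mod_cast (card_le_card ((filter_subset _ _).trans (SM_sub M K X))).trans (SA_card X)
    have hcmp := cmp P T (SM M K X) hTS e he0 he1
    have hout : ((SM M K X \ T).card : ℝ) ≤
        ((((((Pool.Agent.N916.GB.SA X).filter fun S => kk X < S.card).card : ℝ) +
        (((Pool.Agent.N916.GB.SA X).filter fun S => S.card ≤ kk X ∧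
          X < (∏ p ∈ sm (zz X) S, p) * ∏ p ∈ la (zz X) S, XX (HH X) (jj (HH X) p)).card : ℝ)) +
        (((Pool.Agent.N916.GB.SA X).filter fun S =>
          ¬ Set.InjOn (jj (HH X)) (la (zz X) S : Set ℕ)).card : ℝ)) +
        (((Pool.Agent.N916.GB.SA X).filter fun S => ((la (zz X) S).filter fun p => p % 4 = 3).card <
          2 * (sm (zz X) S).card + V).card : ℝ) +
        (((Pool.Agent.N916.GB.SA X).filter fun S =>
          S.card ≤ kk X ∧ ¬ N8 (sm (zz X) S) (la (zz X) S)).card : ℝ)) +
        ((((Pool.Agent.N916.GB.SA X).filter fun S => ∀ p ∈ la (zz X) S, p % 8 ≠ 3 % 8).card : ℝ) +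
        (((Pool.Agent.N916.GB.SA X).filter fun S => ∀ p ∈ la (zz X) S, p % 8 ≠ 5 % 8).card : ℝ)) := by
      have g := card_le_card (out_sub hND M K X (zz X) (HH X) (kk X) V)
      rw [← hT] at g
      have g2 := (g.trans (card_union_le _ _)).trans (Nat.add_le_add ((card_union_le _ _).trans
        (Nat.add_le_add_right ((card_union_le _ _).trans
        (Nat.add_le_add_right ((card_union_le _ _).trans
        (Nat.add_le_add_right (card_union_le _ _) _)) _)) _)) (card_union_le _ _))
      exact_mod_cast g2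
    have g1 : ε / 2 * ((RM M K X (zz X) (HH X) (kk X) V).card : ℝ) ≤ ε / 2 * X :=
      mul_le_mul_of_nonneg_left hRS (by positivity)
    linarith
  obtain ⟨X₀, h0⟩ := eventually_atTop.1 hev2
  exact ⟨X₀, fun X hX => h0 X hX⟩

end Pool.Agent.N873.UT.ASYG
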