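import Pool.Agent.N873.UT.Stm2
import Pool.Agent.N958.GB.BOX

/-!
# UT2-BOXR: the boxes for the number of solutions (after `Pool/Agent/N958/GB/BOX.lean`)
-/

set_option autoImplicit false
set_option linter.unusedSectionVars false

open scoped Classical

namespace Pool.Agent.N873.UT

open Finset
open Pool.Agent.Y703.CQ (nr sg)
open Pool.Agent.N973.ND (uu nr_rec nr_self)
open Pool.Agent.N916.GB
open Pool.Agent.N958.GB

namespace BOXR

theorem sl_equiv {V W : Type} [Fintype V] [Fintype W] (e : V ≃ W) (N : W → W → ZMod 2) :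
    sl (fun i j : V => N (e i) (e j)) = sl N := by
  unfold sl
  refine card_bij (fun x _ => fun w => x (e.symm w)) ?_ ?_ ?_
  · intro x hx
    rw [mem_filter] at hx ⊢
    refine ⟨mem_univ _, fun q => ?_⟩
    have h := hx.2 (e.symm q)
    rw [← e.sum_comp]
    simpa using h
  · intro x _ y _ h
    funext v
    simpa using congrFun h (e v)
  · intro y hy
    rw [mem_filter] at hy
    refine ⟨fun v => y (e v), ?_, ?_⟩
    · rw [mem_filter]
      refine ⟨mem_univ _, fun q => ?_⟩
      have h := hy.2 (e q)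
      rw [← e.sum_comp] at h
      exact h
    · funext w
      simp

theorem Gr_iff {V : Type} [Fintype V] (k : ℕ) {ρ : V → ℕ} (hρ : Function.Injective ρ)
    {S : Finset ℕ} (hS : univ.image ρ = Vt false S) (h2 : ∀ i, ρ i ≠ 2) :
    Gr k S ↔ sl (NR 0 0 ρ) = 2 ^ (k + 1) := by
  have hS' : univ.image ρ = S := hS
  have hm : ∀ i, ρ i ∈ S := fun i => by
    rw [← hS']
    exact mem_image_of_mem _ (mem_univ _)
  have hb : Function.Bijective (fun i : V => (⟨ρ i, hm i⟩ : S)) := by
    constructor
    · intro i j h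
      exact hρ (congrArg Subtype.val h)
    · rintro ⟨x, hx⟩
      have hx' := hx
      rw [← hS', mem_image] at hx'
      obtain ⟨i, -, hi⟩ := hx'
      exact ⟨i, Subtype.ext hi⟩
  have h1 := sl_equiv (Equiv.ofBijective _ hb) (fun q p : S => nr (p : ℕ) (q : ℕ))
  have h3 : (NR 0 0 ρ) = fun i j : V => (fun q p : S => nr (p : ℕ) (q : ℕ))
      (Equiv.ofBijective _ hb i) (Equiv.ofBijective _ hb j) := by
    funext i j
    exact sy_ne 0 0 (h2 j)
  unfold Gr
  rw [h3, h1]

end BOXR

open BOXR

/-- **The count in a box.** -/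
theorem t_BOXR : S_BOXR := by
  intro hEQ hLA k₁ ε hε
  obtain ⟨V₀, hV₀⟩ := hLA k₁ ε hε
  refine ⟨V₀ + 2, ?_⟩
  intro ι _ _ τ C X κ S₀ hκ hCX hHB hS₀ hC hdis hpar hcnt
  set R : ℝ := 2 ^ (ps ι).card * (κ * ∏ j, (X j : ℝ)) with hR
  have hR0 : 0 ≤ R := mul_nonneg (by positivity)
    (mul_nonneg hκ (Finset.prod_nonneg fun j _ => by positivity))
  -- facts on tuples
  have hinj : ∀ p ∈ Fintype.piFinset C, Function.Injective p := by
    intro p hp i j hij
    rw [Fintype.mem_piFinset] at hp
    by_contra hne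
    have h1 := Finset.disjoint_left.1 (hdis i j hne) (hp i)
    rw [hij] at h1
    exact h1 (hp j)
  have hτ : ∀ p ∈ Fintype.piFinset C, ∀ i, p i % 4 = τ i := by
    intro p hp i
    rw [Fintype.mem_piFinset] at hp
    exact (hC i _ (hp i)).2.2
  have hd : ∀ p ∈ Fintype.piFinset C, ∀ i, p i ∉ S₀ := by
    intro p hp i
    rw [Fintype.mem_piFinset] at hp
    exact (hC i _ (hp i)).2.1
  have hpr : ∀ p ∈ Fintype.piFinset C, ∀ i, Po (p i) := by
    intro p hp i
    rw [Fintype.mem_piFinset] at hp
    exact (hC i _ (hp i)).1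
  have h2S : 2 ∉ S₀ := fun h => (hS₀ 2 h).2 rfl
  have ht : ∀ v ∈ Vt false S₀, v ≠ 2 := by
    intro v hv hv2
    rcases mem_Vt.1 hv with h | h
    · exact absurd h.1 (by decide)
    · exact absurd (hv2 ▸ h) h2S
  -- the part with given labels
  have h1 : ∀ β : ι → Lb S₀, LN S₀ τ β →
      |(((Fintype.piFinset C).filter fun p => (fun i => lb S₀ (p i)) = β ∧
          Gr k₁ (S₀ ∪ univ.image p)).card : ℝ) -
        etaR k₁ * (((Fintype.piFinset C).filter fun p => (fun i => lb S₀ (p i)) = β).card : ℝ)| ≤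
      ε * (((Fintype.piFinset C).filter fun p => (fun i => lb S₀ (p i)) = β).card : ℝ) + R := by
    intro β hβ
    by_cases hemp : ((Fintype.piFinset C).filter fun p => (fun i => lb S₀ (p i)) = β) = ∅
    · have he2 : ((Fintype.piFinset C).filter fun p => (fun i => lb S₀ (p i)) = β ∧
          Gr k₁ (S₀ ∪ univ.image p)) = ∅ := by
        rw [← Finset.filter_filter, hemp, Finset.filter_empty]
      rw [he2, hemp]
      simpa using hR0
    obtain ⟨p₀, hp₀⟩ := Finset.nonempty_iff_ne_empty.2 hemp
    rw [Finset.mem_filter] at hp₀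
    obtain ⟨hp₀, hp₀β⟩ := hp₀
    set C' : ι → Finset ℕ := fun i => (C i).filter fun q => lb S₀ q = β i with hC'
    have hpi : (Fintype.piFinset C).filter (fun p => (fun i => lb S₀ (p i)) = β) =
        Fintype.piFinset C' := by
      ext p
      simp only [Finset.mem_filter, Fintype.mem_piFinset, hC']
      constructor
      · rintro ⟨h2, h3⟩ i
        exact ⟨h2 i, congrFun h3 i⟩
      · intro h2
        exact ⟨fun i => (h2 i).1, funext fun i => (h2 i).2⟩
    set r₀ := rr false S₀ p₀ with hr₀
    have hrp : ∀ i, (r₀ i).Prime := by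
      rintro (v | k)
      · rcases mem_Vt.1 v.2 with h | h
        · show (v : ℕ).Prime
          rw [h.2]
          exact Nat.prime_two
        · exact (hS₀ _ h).1
      · exact (hpr p₀ hp₀ k).1
    have hrinj : Function.Injective r₀ :=
      rr_inj false (hinj p₀ hp₀) (hd p₀ hp₀) fun i => (hpr p₀ hp₀ i).2
    have hur : ∀ k : ι, ud 0 r₀ (Sum.inr k) = if τ k = 3 then 1 else 0 := by
      intro k
      rw [← uu_eq (hτ p₀ hp₀ k)]
      exact if_neg (hpr p₀ hp₀ k).2
    have h2 := hV₀ (Vt false S₀) ι (wd 0 r₀) (ud 0 r₀) (NR 0 0 r₀)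
      (fun k => if_neg (hpr p₀ hp₀ k).2)
      (by
        rw [Fintype.sum_sum_type]
        have a1 : ∑ i, ud 0 r₀ (Sum.inr i : (Vt false S₀ : Finset ℕ) ⊕ ι) =
            (((univ.filter fun i => τ i = 3).card : ℕ) : ZMod 2) := by
          rw [card_filter]
          push_cast
          exact sum_congr rfl fun i _ => hur i
        have a2 : ∑ v : (Vt false S₀ : Finset ℕ),
            ud 0 r₀ (Sum.inl v : (Vt false S₀ : Finset ℕ) ⊕ ι) =
            ∑ x ∈ S₀, uu x := by
          have a20 : ∑ v : (Vt false S₀ : Finset ℕ),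
              ud 0 r₀ (Sum.inl v : (Vt false S₀ : Finset ℕ) ⊕ ι) =
              ∑ x ∈ Vt false S₀, if x = 2 then 0 else uu x := by
            rw [← Finset.sum_coe_sort (Vt false S₀)]
            rfl
          rw [a20]
          exact sum_congr rfl fun x hx => if_neg (hS₀ x hx).2
        rw [a1, a2, sum_uu, ← Nat.cast_add, ← ZMod.natCast_mod, hpar]
        rfl)
      (fun i j hij => rec_NR 0 0 hrinj hrp i j hij)
      (by
        intro v hv
        exfalso
        have hv'' : (if (v : ℕ) = 2 then (0 : ZMod 2) else 1) = 0 := hv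
        rw [if_neg (ht v v.2)] at hv''
        exact absurd hv'' (by decide))
      (by
        intro b s' hbs
        set w : ℕ → ZMod 2 := fun n => if h : n ∈ Vt false S₀ then b ⟨n, h⟩ else 0 with hw
        have hw1 : ∀ v : (Vt false S₀ : Finset ℕ), w v = b v := fun v => by
          rw [hw]
          exact dif_pos v.2
        have hw2 : ∀ n, n ∉ Vt false S₀ → w n = 0 := fun n hn => by
          rw [hw]
          exact dif_neg hn
        obtain ⟨k, hk⟩ := hβ w s' (by
          rcases hbs with ⟨v, hv⟩ | h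
          · exact Or.inl ⟨v, Vt_sub false S₀ v.2, by rw [hw1]; exact hv⟩
          · exact Or.inr h)
        refine ⟨k, ?_⟩
        rw [hur]
        intro h0
        apply hk
        refine Eq.trans ?_ h0
        congr 1
        rw [← hp₀β]
        have c1 : ∑ v : (insert 2 S₀ : Finset ℕ), w v * (lb S₀ (p₀ k)).1 v =
            ∑ v ∈ insert 2 S₀, w v * nr (p₀ k) v := by
          rw [← Finset.sum_coe_sort (insert 2 S₀)]
          rfl
        have c2 : ∑ v ∈ Vt false S₀, w v * nr (p₀ k) v = ∑ v ∈ insert 2 S₀, w v * nr (p₀ k) v :=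
          sum_subset (Vt_sub false S₀) fun x _ hx => by rw [hw2 x hx, zero_mul]
        have c3 : ∑ v : (Vt false S₀ : Finset ℕ), b v * NR 0 0 r₀ (Sum.inl v) (Sum.inr k) =
            ∑ v ∈ Vt false S₀, w v * nr (p₀ k) v := by
          rw [← Finset.sum_coe_sort (Vt false S₀)]
          refine sum_congr rfl fun v _ => ?_
          rw [hw1]
          congr 1
          exact sy_ne 0 0 (hpr p₀ hp₀ k).2
        exact (c1.trans c2.symm).trans c3.symm)
      (by
        have d1 : Fintype.card (Vt false S₀ : Finset ℕ) ≤ S₀.card + 1 := by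
          rw [Fintype.card_coe]
          exact (card_le_card (Vt_sub false S₀)).trans (card_insert_le _ _)
        have d2 : (univ.filter fun k : ι => ud 0 r₀ (Sum.inr k) = 1) =
            univ.filter fun i => τ i = 3 := by
          refine filter_congr fun k _ => ?_
          rw [hur]
          by_cases h : τ k = 3
          · rw [if_pos h]
            exact ⟨fun _ => h, fun _ => rfl⟩
          · rw [if_neg h]
            exact ⟨fun h' => absurd h' (by decide), fun h' => absurd h' h⟩
        rw [d2]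
        omega)
    set Q : (ps ι → ZMod 2) → Prop :=
      fun σ => sl (pt (NR 0 0 r₀) (sx (σ + sgm p₀))) = 2 ^ (k₁ + 1) with hQ
    have h3 := hEQ ι C' X κ hκ
      (fun i => (Finset.card_le_card (Finset.filter_subset _ _)).trans (hCX i))
      (HB_sub hHB fun i q => lb S₀ q = β i) Q
    have h4 : ((Fintype.piFinset C).filter fun p => (fun i => lb S₀ (p i)) = β ∧
        Gr k₁ (S₀ ∪ univ.image p)) = ((Fintype.piFinset C').filter fun p =>
          Q fun e => nr (p e.1.1) (p e.1.2)) := by
      rw [← hpi, Finset.filter_filter]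
      refine Finset.filter_congr fun p hp => ?_
      refine and_congr_right fun hl => ?_
      rw [Gr_iff k₁ (rr_inj false (hinj p hp) (hd p hp) fun i => (hpr p hp i).2) (rr_im false)
        (by
          rintro (v | i)
          · exact ht v v.2
          · exact (hpr p hp i).2)]
      have a0 := two_tuples false 0 0 (hinj p hp) (hinj p₀ hp₀) (hpr p hp) (hpr p₀ hp₀)
        (hτ p hp) (hτ p₀ hp₀) fun i => by
          have a1 := congrFun hl i
          have a2 := congrFun hp₀β i
          exact a1.trans a2.symm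
      show sl (NR 0 0 (rr false S₀ p)) = 2 ^ (k₁ + 1) ↔
        sl (pt (NR 0 0 r₀) (sx (sgm p + sgm p₀))) = 2 ^ (k₁ + 1)
      rw [a0]
    have h5 : (((Fintype.piFinset C').card : ℕ) : ℝ) = ∏ j, ((C' j).card : ℝ) := by
      rw [Fintype.card_piFinset]
      push_cast
      rfl
    rw [h4, hpi, h5]
    have hQc : (univ.filter Q).card =
        (univ.filter fun σ : ps ι → ZMod 2 =>
          sl (pt (NR 0 0 r₀) (sx σ)) = 2 ^ (k₁ + 1)).card := by
      refine card_bij (fun σ _ => σ + sgm p₀) ?_ ?_ ?_
      · intro σ hσ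
        rw [mem_filter] at hσ ⊢
        exact ⟨mem_univ _, hσ.2⟩
      · intro σ _ σ' _ h
        exact add_right_cancel h
      · intro σ hσ
        refine ⟨σ - sgm p₀, ?_, sub_add_cancel _ _⟩
        rw [mem_filter] at hσ ⊢
        refine ⟨mem_univ _, ?_⟩
        simp only [hQ, sub_add_cancel]
        exact hσ.2
    have h2' : |((univ.filter Q).card : ℝ) / 2 ^ (ps ι).card - etaR k₁| ≤ ε := by
      rw [hQc]
      exact h2
    set n : ℝ := (((Fintype.piFinset C').filter fun p =>
          Q fun e => nr (p e.1.1) (p e.1.2)).card : ℝ) with hn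
    set q : ℝ := ((univ.filter Q).card : ℝ) / 2 ^ (ps ι).card with hq
    set P : ℝ := ∏ j, ((C' j).card : ℝ) with hP
    have hP0 : 0 ≤ P := Finset.prod_nonneg fun j _ => by positivity
    have h6 : |n - etaR k₁ * P| ≤ |n - q * P| + |q - etaR k₁| * P := by
      have h7 : n - etaR k₁ * P = (n - q * P) + (q - etaR k₁) * P := by ring
      have h8 : |(q - etaR k₁) * P| = |q - etaR k₁| * P := by rw [abs_mul, abs_of_nonneg hP0]
      rw [h7, ← h8]
      exact abs_add_le _ _
    have h7 : |q - etaR k₁| * P ≤ ε * P := mul_le_mul_of_nonneg_right h2' hP0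
    have h8 : |n - q * P| ≤ R := by convert h3
    linarith
  -- sum over the labels
  set LL := univ.filter (fun β : ι → Lb S₀ => LN S₀ τ β) with hLL
  have hfib : ∀ T : (ι → ℕ) → Prop,
      (((Fintype.piFinset C).filter fun p => Nd S₀ (univ.image p) ∧ T p).card : ℝ) =
      ∑ β ∈ LL, (((Fintype.piFinset C).filter fun p =>
        (fun i => lb S₀ (p i)) = β ∧ T p).card : ℝ) := by
    intro T
    rw [Finset.card_eq_sum_card_fiberwise (f := fun (p : ι → ℕ) (i : ι) => lb S₀ (p i))
      (t := LL) (by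
        intro p hp
        rw [Finset.mem_coe, Finset.mem_filter] at hp
        rw [Finset.mem_coe, hLL, Finset.mem_filter]
        exact ⟨Finset.mem_univ _, (nd_iff (hτ p hp.1)).1 hp.2.1⟩)]
    push_cast
    refine Finset.sum_congr rfl fun β hβ => ?_
    rw [hLL, Finset.mem_filter] at hβ
    congr 2
    ext p
    simp only [Finset.mem_filter]
    constructor
    · rintro ⟨⟨h3, h4, h4'⟩, h5⟩
      exact ⟨h3, h5, h4'⟩
    · rintro ⟨h3, h4, h5⟩
      refine ⟨⟨h3, ?_, h5⟩, h4⟩
      rw [nd_iff (hτ p h3), h4]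
      exact hβ.2
  have hf1 := hfib fun p => Gr k₁ (S₀ ∪ univ.image p)
  have hf2 := hfib fun _ => True
  simp only [and_true] at hf2
  rw [hf1, hf2, Finset.mul_sum, ← Finset.sum_sub_distrib]
  refine (Finset.abs_sum_le_sum_abs _ _).trans ?_
  refine (Finset.sum_le_sum fun β hβ => h1 β (Finset.mem_filter.1 hβ).2).trans ?_
  rw [Finset.sum_add_distrib, ← Finset.mul_sum, Finset.sum_const, nsmul_eq_mul]
  have h5 : ((LL.card : ℕ) : ℝ) ≤ 2 ^ ((2 * S₀.card + 1) * Fintype.card ι) := by
    have h6 : LL.card ≤ Fintype.card (ι → Lb S₀) := Finset.card_le_univ _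
    rw [Fintype.card_fun, Fintype.card_prod, Fintype.card_fun, Fintype.card_fun, ZMod.card,
      Fintype.card_coe, Fintype.card_coe, ← pow_add, ← pow_mul, card_insert_of_notMem h2S] at h6
    have h7 : (S₀.card + 1 + S₀.card) * Fintype.card ι =
        (2 * S₀.card + 1) * Fintype.card ι := by
      ring
    rw [h7] at h6
    exact_mod_cast h6
  have h6 := mul_le_mul_of_nonneg_right h5 hR0
  rw [pow_add, mul_assoc]
  linarith

end Pool.Agent.N873.UT

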