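import Pool.Agent.N873.UT.Stm

/-!
# Project UT: assembly
-/

set_option autoImplicit false

open scoped Classical

namespace Pool.Agent.N873.UT

open Finset Filter NumberField
open Pool.Agent.TH841.SH (LocC SelG IsR)
open Pool.Agent.TH841.SH.D (Sha)
open Pool.Agent.N916.GB (eta)
open Pool.Agent.N969.P15 (Qc)

/-- the parts -/
structure Parts : Prop where
  ca : S_CA
  cb : S_CB
  sel : ∀ (n : ℕ) (a b : ℤ), Adm n a b → (SA n).Finite → (SB n).Finite →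
    (SelG 0 (n * a ^ 2) (n * b ^ 2)).Finite ∧
      (SelG 0 (n * a ^ 2) (n * b ^ 2)).ncard ≤ (SA n).ncard * (SB n).ncard
  rk : S_RK
  cv : ∀ (n : ℕ) (a b : ℤ), Adm n a b →
    Finite (EQ n a b).toAffine.Point → (∀ x : Sha (EQ n a b), x + x = 0 → x = 0) →
    SB n ⊆ {1, -(n : ℤ)}
  low : S_LOW
  tr : ∀ F : Finset (ℤ × ℤ), (∀ c ∈ F, Pr c) → ∀ ε : ℝ, 0 < ε →
    ∃ X₀ : ℕ, ∀ X : ℕ, X₀ ≤ X →
    |(((Icc 1 X).filter fun n => n ∈ NF F ∧ Qc n).card : ℝ) -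
      eta * (((Icc 1 X).filter fun n => n ∈ NF F).card : ℝ)| ≤ ε * X

/-- finitely many rational points and `Ш[2 ^ ∞] = 0` -/
def Triv (n : ℕ) (a b : ℤ) : Prop := Finite (EQ n a b).toAffine.Point ∧
  ∀ (k : ℕ) (x : Sha (EQ n a b)), (2 ^ k : ℕ) • x = 0 → x = 0

lemma qc_iff {n : ℕ} (hn : n ≠ 0) : Qc n ↔ Pool.Agent.N875.X15.Qc n := by
  unfold Pool.Agent.N969.P15.Qc Pool.Agent.N875.X15.Qc
  refine forall_congr' fun b => forall_congr' fun c => forall_congr' fun hbc => ?_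
  have hb : b ≠ 0 := by rintro rfl; rw [zero_mul] at hbc; exact hn hbc.symm
  have hc : c ≠ 0 := by rintro rfl; rw [mul_zero] at hbc; exact hn hbc.symm
  have e1 : (∀ p ∈ c.primeFactors, jacobiSym b p = 1) ↔
      ∀ p : ℕ, p.Prime → p ∣ c → jacobiSym b p = 1 :=
    ⟨fun h p hp hpc => h p (Nat.mem_primeFactors.2 ⟨hp, hpc, hc⟩),
      fun h p hp => h p (Nat.mem_primeFactors.1 hp).1 (Nat.mem_primeFactors.1 hp).2.1⟩
  have e2 : (∀ p ∈ b.primeFactors, jacobiSym c p = 1) ↔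
      ∀ p : ℕ, p.Prime → p ∣ b → jacobiSym c p = 1 :=
    ⟨fun h p hp hpc => h p (Nat.mem_primeFactors.2 ⟨hp, hpc, hb⟩),
      fun h p hp => h p (Nat.mem_primeFactors.1 hp).1 (Nat.mem_primeFactors.1 hp).2.1⟩
  rw [e1, e2]

lemma SA_sub {n : ℕ} (h4 : n % 4 = 3) (h : Pool.Agent.N875.X15.NC (-(n : ℤ))) :
    SA n ⊆ {1, (n : ℤ)} := by
  rintro d ⟨h1, h2, h3, h5⟩
  rcases h d h2 h1 (fun p hp hpd => (Pool.Agent.N875.X15.ram_iff h4 p).2 (h3 p hp hpd))
    (fun p hp hp2 hpm => by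
      rw [dvd_neg] at hpm
      have := h5 p (by exact_mod_cast hpm)
      push_cast
      rwa [neg_neg]) with h6 | h6
  · exact Or.inl h6
  · right
    rw [neg_neg] at h6
    exact h6

lemma nc_of_SA {n : ℕ} (h4 : n % 4 = 3) (h : SA n ⊆ {1, (n : ℤ)}) :
    Pool.Agent.N875.X15.NC (-(n : ℤ)) := by
  intro d h1 h2 h3 h5
  have h6 : d ∈ SA n := by
    refine ⟨h2, h1, fun p hp hpd => (Pool.Agent.N875.X15.ram_iff h4 p).1 (h3 p hp hpd),
      fun p hp hpn => ?_⟩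
    have hp2 : p ≠ 2 := by
      rintro rfl
      omega
    have := h5 p hp2 (by rw [dvd_neg]; exact_mod_cast hpn)
    push_cast at this
    rwa [neg_neg] at this
  rcases h h6 with h7 | h7
  · exact Or.inl h7
  · right
    rw [neg_neg]
    exact h7

lemma SB_sub {n : ℕ} (h4 : n % 4 = 3) (h : Pool.Agent.N875.X15.RC (-(n : ℤ))) :
    SB n ⊆ {1, -(n : ℤ)} := by
  rintro d ⟨h1, h2, h3, h5⟩
  rcases h d h1 (fun p hp hpd => (Pool.Agent.N875.X15.ram_iff h4 p).2 (h3 p hp hpd))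
    (fun _ => h2) (fun p hp hpm => by
      have := h5 p ((Pool.Agent.N875.X15.ram_iff h4 p).1 hpm)
      push_cast
      exact this) with h6 | h6
  · exact Or.inl h6
  · exact Or.inr h6

lemma one_mem_SA (n : ℕ) : (1 : ℤ) ∈ SA n := by
  refine ⟨squarefree_one, one_pos, fun p hp h => ?_, fun p _ _ => Or.inl ?_⟩
  · have h1 : (p : ℤ) = 1 ∨ (p : ℤ) = -1 := Int.isUnit_iff.1 (isUnit_of_dvd_one h)
    have := hp.one_lt
    omega
  · exact ⟨1, by norm_num⟩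

lemma n_mem_SA {n : ℕ} (hn : Squarefree n) : (n : ℤ) ∈ SA n := by
  refine ⟨Int.squarefree_natCast.2 hn, ?_, fun p hp h => by exact_mod_cast h,
    fun p _ _ => Or.inr ?_⟩
  · have := hn.ne_zero
    omega
  · exact ⟨(n : ℚ_[p]), by push_cast; ring⟩

lemma card_two {S : Set ℤ} {x y : ℤ} (h : S ⊆ {x, y}) : S.Finite ∧ S.ncard ≤ 2 :=
  ⟨(Set.toFinite _).subset h, (Set.ncard_le_ncard h).trans
    ((Set.ncard_insert_le x {y}).trans (by rw [Set.ncard_singleton]))⟩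

/-- **The criterion**: the condition does not depend on `a`, `b`. -/
theorem triv_iff (P : Parts) {n : ℕ} {a b : ℤ} (h : Adm n a b) : Triv n a b ↔ Qc n := by
  have h4 : n % 4 = 3 := by
    have := h.n8
    omega
  rw [qc_iff h.sqf.ne_zero]
  constructor
  · rintro ⟨h1, h2⟩
    have h3 := P.cv n a b h h1 (fun x hx => h2 1 x (by rw [pow_one, two_nsmul]; exact hx))
    obtain ⟨h5, h6⟩ := P.cb n h.sqf h4
    have h7 := (card_two h3).2
    rw [h6] at h7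
    have hfin : (SA n).Finite := by
      by_contra hcon
      -- an infinite set has `ncard = 0`, and so has `SB n`, which contains `1`
      have h8 : (SA n).ncard = 0 := Set.Infinite.ncard hcon
      rw [h8, Set.ncard_eq_zero h5] at h6
      have h9 : (1 : ℤ) ∈ SB n := by
        refine ⟨squarefree_one, by norm_num, fun p hp h => ?_, fun p _ _ => Or.inl ?_⟩
        · have h1 : (p : ℤ) = 1 ∨ (p : ℤ) = -1 := Int.isUnit_iff.1 (isUnit_of_dvd_one h)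
          have := hp.one_lt
          omega
        · exact ⟨1, by norm_num⟩
      rw [h6] at h9
      exact h9
    have hn1 : (1 : ℤ) ≠ n := by
      have := h.n8
      omega
    have hsub : ({1, (n : ℤ)} : Set ℤ) ⊆ SA n := by
      rintro x (rfl | rfl)
      · exact one_mem_SA n
      · exact n_mem_SA h.sqf
    have heq := Set.eq_of_subset_of_ncard_le hsub (by rw [Set.ncard_pair hn1]; exact h7) hfin
    exact Pool.Agent.N875.X15.qc_of_nc h.sqf h4 (nc_of_SA h4 heq.ge)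
  · intro hQ
    obtain ⟨h1, h2⟩ := card_two (SA_sub h4 (Pool.Agent.N875.X15.nc_of h.sqf h4 hQ))
    obtain ⟨h3, h5⟩ := card_two (SB_sub h4 (Pool.Agent.N875.X15.rc_of h.sqf h4 hQ))
    obtain ⟨h6, h7⟩ := P.sel n a b h h1 h3
    exact (P.rk n a b h 1 h6 (h7.trans (by
      calc (SA n).ncard * (SB n).ncard ≤ 2 * 2 := Nat.mul_le_mul h2 h5
        _ = (2 * 1) ^ 2 := by norm_num))).2.2 rfl

/-- **The bound in terms of the class group.** -/
theorem bound (P : Parts) {n : ℕ} {a b : ℤ} (h : Adm n a b) (K : Type) [Field K] [NumberField K]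
    (h2 : Module.finrank ℚ K = 2) (hs : ∃ s : K, s ^ 2 = -(n : K)) :
    Finite {x : Sha (EQ n a b) // x + x = 0} ∧
    2 ^ Module.finrank ℤ (EQ n a b).toAffine.Point * Nat.card {x : Sha (EQ n a b) // x + x = 0} ≤
      r4 K ^ 2 := by
  have h4 : n % 4 = 3 := by
    have := h.n8
    omega
  obtain ⟨h1, h3⟩ := P.ca n h.sqf h4 K h2 hs
  obtain ⟨h5, h6⟩ := P.cb n h.sqf h4
  obtain ⟨h7, h8⟩ := P.sel n a b h h1 h5
  obtain ⟨h9, h10, -⟩ := P.rk n a b h (r4 K) h7 (h8.trans (by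
    rw [h6, h3, sq]))
  exact ⟨h9, h10⟩

/-- the 4-rank is zero if and only if `r4 = 1`, if and only if `Qc n` -/
theorem r4_iff {n : ℕ} (hn : Squarefree n) (h4 : n % 4 = 3) (K : Type) [Field K]
    [NumberField K] (h2 : Module.finrank ℚ K = 2) (hs : ∃ s : K, s ^ 2 = -(n : K)) :
    (∀ c : ClassGroup (𝓞 K), c ^ 4 = 1 → c ^ 2 = 1) ↔ Qc n := by
  rw [qc_iff hn.ne_zero]
  exact Pool.Agent.N875.X15.qc_iff_class hn h4 K h2 hs

lemma card_lim {A B : ℕ → ℕ} {c : ℝ} (hc : 0 < c) {X₁ : ℕ} (h1 : ∀ X : ℕ, X₁ ≤ X → c * X ≤ (B X : ℝ))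
    (h2 : ∀ ε : ℝ, 0 < ε → ∃ X₀ : ℕ, ∀ X : ℕ, X₀ ≤ X → |(A X : ℝ) - eta * (B X : ℝ)| ≤ ε * X) :
    Tendsto (fun X => (A X : ℝ) / (B X : ℝ)) atTop (nhds eta) := by
  rw [Metric.tendsto_atTop]
  intro ε hε
  obtain ⟨X₀, hX₀⟩ := h2 (c * ε / 2) (by positivity)
  refine ⟨max (max X₀ X₁) 1, fun X hX => ?_⟩
  have hX0 : X₀ ≤ X := (le_max_left _ _).trans ((le_max_left _ _).trans hX)
  have hX1 : X₁ ≤ X := (le_max_right _ _).trans ((le_max_left _ _).trans hX)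
  have hXp : 1 ≤ X := (le_max_right _ _).trans hX
  have hXR : (0 : ℝ) < X := by exact_mod_cast hXp
  have hB := h1 X hX1
  have hB0 : (0 : ℝ) < B X := lt_of_lt_of_le (by positivity) hB
  have hA := hX₀ X hX0
  rw [Real.dist_eq]
  have e : (A X : ℝ) / (B X : ℝ) - eta = ((A X : ℝ) - eta * (B X : ℝ)) / (B X : ℝ) := by
    field_simp
  rw [e, abs_div, abs_of_pos hB0, div_lt_iff₀ hB0]
  calc |(A X : ℝ) - eta * (B X : ℝ)| ≤ c * ε / 2 * X := hA
    _ = ε / 2 * (c * X) := by ring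
    _ ≤ ε / 2 * B X := by gcongr
    _ < ε * B X := by nlinarith

/-- **The natural density.** -/
theorem density (P : Parts) (F : Finset (ℤ × ℤ)) (hF : ∀ c ∈ F, Pr c) (T : Set ℕ)
    (hT : ∀ n ∈ NF F, (n ∈ T ↔ Qc n)) :
    Tendsto (fun X : ℕ => (((Icc 1 X).filter fun n => n ∈ NF F ∧ n ∈ T).card : ℝ) /
      (((Icc 1 X).filter fun n => n ∈ NF F).card : ℝ)) atTop (nhds eta) := by
  obtain ⟨c, hc, X₁, h1⟩ := P.low F hF
  refine card_lim (A := fun X => ((Icc 1 X).filter fun n => n ∈ NF F ∧ n ∈ T).card)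
    (B := fun X => ((Icc 1 X).filter fun n => n ∈ NF F).card) hc h1 ?_
  intro ε hε
  obtain ⟨X₀, h2⟩ := P.tr F hF ε hε
  refine ⟨X₀, fun X hX => ?_⟩
  have e : ((Icc 1 X).filter fun n => n ∈ NF F ∧ n ∈ T) =
      ((Icc 1 X).filter fun n => n ∈ NF F ∧ Qc n) := by
    refine filter_congr fun n _ => ?_
    constructor
    · rintro ⟨g1, g2⟩
      exact ⟨g1, (hT n g1).1 g2⟩
    · rintro ⟨g1, g2⟩
      exact ⟨g1, (hT n g1).2 g2⟩
  simp only [e]
  exact h2 X hX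

end Pool.Agent.N873.UT
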