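import Mathlib
import Pool.Agent.N873.UT.Stm
import Pool.Agent.N916.GB.LA

/-!
# Project UT (helper873): the full law of the 4-rank

Second list of statements: the natural density of the `n` of `NF F` with `r4 = 2 ^ R` is
`etaR R = η 2^(-R²) ∏_{i ≤ R} (1 - 2^(-i))^(-2)`. The parts are independent of each other.
-/

set_option autoImplicit false
set_option linter.unusedVariables false

open scoped Classical

namespace Pool.Agent.N873.UT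

open Finset
open Pool.Agent.Y703.CX (sm la jj XX eL zz kk S_SIE)
open Pool.Agent.Y703.CQ (nr sg)
open Pool.Agent.N973.ND (uu)
open Pool.Agent.N916.GB (Po S_BIL S_EQ CntP S_HAL S_ME8 S_BAD S_FE1 S_FE2 S_ND Nd eta ps sx pt HB)

/-- the number of the solutions of a system -/
noncomputable def sl {V : Type} [Fintype V] (N : V → V → ZMod 2) : ℕ :=
  (univ.filter fun x : V → ZMod 2 => ∀ q, ∑ p, (x p + x q) * N q p = 0).card

/-- the limit law `η / (2 ^ (R ^ 2) ((1 - 1/2) ⋯ (1 - 1/2^R))²)` -/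
noncomputable def etaR (R : ℕ) : ℝ :=
  eta / (2 ^ R ^ 2 * (∏ i ∈ range R, (1 - (1 / 2 : ℝ) ^ (i + 1))) ^ 2)

/-- the sets of odd primes with `2 ^ (R + 1)` solutions of the system of Rédei -/
def Gr (R : ℕ) (S : Finset ℕ) : Prop := sl (fun q p : S => nr (p : ℕ) (q : ℕ)) = 2 ^ (R + 1)

/-- UT-LAR: the probability that a random completion has `2 ^ (R + 1)` solutions (see
`N916.GB.t_LA`, the case `R = 0`). -/
def S_LAR : Prop := ∀ (R : ℕ) (ε : ℝ), 0 < ε → ∃ V₀ : ℕ, ∀ (U J : Type) [Fintype U] [Fintype J]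
  [LinearOrder J] (w u : U ⊕ J → ZMod 2) (N : U ⊕ J → U ⊕ J → ZMod 2),
  (∀ k, w (Sum.inr k) = 1) → ∑ i, u i = 1 →
  (∀ i j, i ≠ j → w i * N i j + w j * N j i = u i * u j) →
  (∀ v, w (Sum.inl v) = 0 → u (Sum.inl v) = 1 ∧ ∀ v', w (Sum.inl v') = 0 → v = v') →
  (∀ (b : U → ZMod 2) (s : ZMod 2), ((∃ v, b v ≠ 0) ∨ s ≠ 0) →
    ∃ k, ∑ v, b v * N (Sum.inl v) (Sum.inr k) + s * u (Sum.inr k) ≠ 0) →
  2 * Fintype.card U + V₀ ≤ (univ.filter fun k : J => u (Sum.inr k) = 1).card →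
  |((univ.filter fun σ : ps J → ZMod 2 => sl (pt N (sx σ)) = 2 ^ (R + 1)).card : ℝ) /
    2 ^ (ps J).card - etaR R| ≤ ε

/-- UT-TAIL: the tail of the law: `∑_{r > R} η_r ≤ 1 / |GL_(R+1)(𝔽₂)| ≤ 4 / 2^((R+1)²)`. -/
def S_TAIL : Prop := ∀ R : ℕ, 0 ≤ 1 - ∑ r ∈ range (R + 1), etaR r ∧
  1 - ∑ r ∈ range (R + 1), etaR r ≤ 4 * (1 / 2 : ℝ) ^ (R + 1) ^ 2

/-- the count in a box, for a property `P` of sets of primes with the limit `e` -/
def BX (P : Finset ℕ → Prop) (e : ℝ) : Prop := ∀ ε : ℝ, 0 < ε → ∃ V₀ : ℕ, ∀ (ι : Type)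
  [Fintype ι] [LinearOrder ι] (τ : ι → ℕ) (C : ι → Finset ℕ) (X : ι → ℕ) (κ : ℝ) (S₀ : Finset ℕ),
  0 ≤ κ → (∀ i, (C i).card ≤ X i) → HB C X κ →
  (∀ v ∈ S₀, Po v) → (∀ i, ∀ p ∈ C i, Po p ∧ p ∉ S₀ ∧ p % 4 = τ i) →
  (∀ i l, i ≠ l → Disjoint (C i) (C l)) →
  ((S₀.filter fun p => p % 4 = 3).card + (univ.filter fun i => τ i = 3).card) % 2 = 1 →
  2 * S₀.card + V₀ ≤ (univ.filter fun i => τ i = 3).card →
  |(((Fintype.piFinset C).filter fun p => Nd S₀ (univ.image p) ∧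
        P (S₀ ∪ univ.image p)).card : ℝ) -
      e * (((Fintype.piFinset C).filter fun p => Nd S₀ (univ.image p)).card : ℝ)| ≤
    ε * (((Fintype.piFinset C).filter fun p => Nd S₀ (univ.image p)).card : ℝ) +
    2 ^ ((2 * S₀.card + 1) * Fintype.card ι + (ps ι).card) * (κ * ∏ j, (X j : ℝ))

/-- UT-BOXR: the boxes (`N958/GB/BOX.lean` with `Gd t r s` replaced by `Gr R`, `Gv N` by
`sl N = 2 ^ (R + 1)` and `eta` by `etaR R`; `t = false`, `r = s = 0`). -/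
def S_BOXR : Prop := S_EQ → S_LAR → ∀ R : ℕ, BX (Gr R) (etaR R)

/-- the sum over the boxes, for a property `P` with the limit `e` -/
def KY (P : Finset ℕ → Prop) (e : ℝ) : Prop := ∀ ε : ℝ, 0 < ε → ∃ (V₀ : ℕ) (C : ℝ), 1 ≤ C ∧
  ∀ (M : ℕ) (K : Finset ℕ), OkM M K →
  ∀ (X z H k N : ℕ) (κ : ℝ), 1 ≤ X → 1 ≤ H → 1 ≤ z → 0 ≤ κ → C ≤ κ ^ 12 * z →
  (H : ℝ) * Real.log X < N →
  |(((RM M K X z H k V₀).filter fun S => Nd (sm z S) (la z S) ∧ P S).card : ℝ) -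
      e * (((RM M K X z H k V₀).filter fun S => Nd (sm z S) (la z S)).card : ℝ)| ≤
    ε * ((RM M K X z H k V₀).card : ℝ) +
    (M * N + M : ℝ) ^ k * (3 ^ (9 * k ^ 2 + 9) * κ) * (X * (1 + Real.log X))

/-- UT-KEYG: the sum over the boxes (the proof of `S_KEYM`, where `Gd false 0 0` and `eta` enter
only through the statement for the boxes). -/
def S_KEYG : Prop := S_BIL → ∀ (P : Finset ℕ → Prop) (e : ℝ), 0 ≤ e → e ≤ 1 → BX P e → KY P e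

/-- the proportion in the classes -/
def DMP (P : Finset ℕ → Prop) (e : ℝ) : Prop := ∀ (M : ℕ) (K : Finset ℕ), OkM M K →
  ∀ ε : ℝ, 0 < ε → ∃ X₀ : ℕ, ∀ X : ℕ, X₀ ≤ X →
  |(((SM M K X).filter P).card : ℝ) - e * ((SM M K X).card : ℝ)| ≤ ε * X

/-- UT-ASYG: the assembly (the proof of `S_ASYM`). -/
def S_ASYG : Prop := ∀ (P : Finset ℕ → Prop) (e : ℝ), 0 ≤ e → e ≤ 1 → KY P e →
  CntP → S_SIE → S_HAL → S_ME8 → S_BAD → S_FE1 → S_FE2 → S_ND → DMP P e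

/-- UT-SLN: the solutions of the system are the elements of `SB n`: `x ↦ d = ∏_{x p = 1} p*`,
`p* = p` or `-p`, `p* ≡ 1 mod 4`; `nr p q = 0` iff `q` is a square modulo `p` iff `p*` is a square modulo `q`. Row
`q` with `x q = 0` says `d ~ 1`, row `q` with `x q = 1` says `-n / d ~ 1` in `ℚ_q`. -/
def S_SLN : Prop := ∀ n : ℕ, Squarefree n → n % 4 = 3 →
  sl (fun q p : n.primeFactors => nr (p : ℕ) (q : ℕ)) = (SB n).ncard

/-- UT-TRR: translation to numbers -/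
def S_TRR : Prop := ∀ (R : ℕ) (e : ℝ), DMP (Gr R) e → ∀ F : Finset (ℤ × ℤ), (∀ c ∈ F, Pr c) →
  ∀ ε : ℝ, 0 < ε → ∃ X₀ : ℕ, ∀ X : ℕ, X₀ ≤ X →
  |(((Icc 1 X).filter fun n => n ∈ NF F ∧
      sl (fun q p : n.primeFactors => nr (p : ℕ) (q : ℕ)) = 2 ^ (R + 1)).card : ℝ) -
    e * (((Icc 1 X).filter fun n => n ∈ NF F).card : ℝ)| ≤ ε * X

end Pool.Agent.N873.UT
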