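import Mathlib
import Pool.Agent.N873.UT.Fin
import Pool.Agent.N873.UT.Stm2

/-!
# Project UT: assembly of the full law
-/

set_option autoImplicit false

open scoped Classical

namespace Pool.Agent.N873.UT

open Finset Filter NumberField
open Pool.Agent.N916.GB (eta)
open Pool.Agent.Y703.CQ (nr)
open Pool.Agent.N969.P15 (Qc)
open Pool.Agent.TH841.SH.D (Sha)

/-- the number of the solutions of the system of `n` -/
noncomputable def gs (n : ℕ) : ℕ := sl (fun q p : n.primeFactors => nr (p : ℕ) (q : ℕ))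

/-- the parts -/
structure Parts2 : Prop where
  p : Parts
  sln : S_SLN
  tail : S_TAIL
  trr : ∀ (R : ℕ) (F : Finset (ℤ × ℤ)), (∀ c ∈ F, Pr c) → ∀ ε : ℝ, 0 < ε →
    ∃ X₀ : ℕ, ∀ X : ℕ, X₀ ≤ X →
    |(((Icc 1 X).filter fun n => n ∈ NF F ∧ gs n = 2 ^ (R + 1)).card : ℝ) -
      etaR R * (((Icc 1 X).filter fun n => n ∈ NF F).card : ℝ)| ≤ ε * X

theorem gs_iff (P : Parts2) {n : ℕ} (hn : Squarefree n) (h4 : n % 4 = 3) (K : Type) [Field K]
    [NumberField K] (h2 : Module.finrank ℚ K = 2) (hs : ∃ s : K, s ^ 2 = -(n : K)) :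
    gs n = 2 * r4 K := by
  unfold gs
  rw [P.sln n hn h4, (P.p.cb n hn h4).2, (P.p.ca n hn h4 K h2 hs).2]

/-- the field -/
theorem exK (n : ℕ) (h : n ≠ 0) : ∃ (K : Type) (_ : Field K) (_ : NumberField K),
    Module.finrank ℚ K = 2 ∧ ∃ s : K, s ^ 2 = -(n : K) := by
  have hirr : Irreducible (Polynomial.X ^ 2 - Polynomial.C (-(n : ℚ)) : Polynomial ℚ) := by
    rw [X_pow_sub_C_irreducible_iff_of_prime Nat.prime_two]
    intro b hb
    have h1 : 0 ≤ b ^ 2 := sq_nonneg b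
    rw [hb] at h1
    have h2 : (0 : ℚ) < n := by
      have : 0 < n := by omega
      exact_mod_cast this
    linarith
  have hF : Fact (Irreducible (Polynomial.X ^ 2 - Polynomial.C (-(n : ℚ)) : Polynomial ℚ)) := ⟨hirr⟩
  have hne : (Polynomial.X ^ 2 - Polynomial.C (-(n : ℚ)) : Polynomial ℚ) ≠ 0 := hirr.ne_zero
  have hfin : Module.Finite ℚ
      (AdjoinRoot (Polynomial.X ^ 2 - Polynomial.C (-(n : ℚ)) : Polynomial ℚ)) :=
    (AdjoinRoot.powerBasis hne).finite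
  refine ⟨AdjoinRoot (Polynomial.X ^ 2 - Polynomial.C (-(n : ℚ)) : Polynomial ℚ), inferInstance, ⟨⟩,
    ?_, AdjoinRoot.root _, ?_⟩
  · rw [(AdjoinRoot.powerBasis hne).finrank, AdjoinRoot.powerBasis_dim]
    exact Polynomial.natDegree_X_pow_sub_C
  · have := AdjoinRoot.eval₂_root (Polynomial.X ^ 2 - Polynomial.C (-(n : ℚ)) : Polynomial ℚ)
    simp at this
    linear_combination this

lemma card_lim' {A B : ℕ → ℕ} {c e : ℝ} (hc : 0 < c) {X₁ : ℕ}
    (h1 : ∀ X : ℕ, X₁ ≤ X → c * X ≤ (B X : ℝ))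
    (h2 : ∀ ε : ℝ, 0 < ε → ∃ X₀ : ℕ, ∀ X : ℕ, X₀ ≤ X → |(A X : ℝ) - e * (B X : ℝ)| ≤ ε * X) :
    Tendsto (fun X => (A X : ℝ) / (B X : ℝ)) atTop (nhds e) := by
  rw [Metric.tendsto_atTop]
  intro ε hε
  obtain ⟨X₀, hX₀⟩ := h2 (c * ε / 2) (by positivity)
  refine ⟨max (max X₀ X₁) 1, fun X hX => ?_⟩
  have hX0 : X₀ ≤ X := (le_max_left _ _).trans ((le_max_left _ _).trans hX)
  have hX1 : X₁ ≤ X := (le_max_right _ _).trans ((le_max_left _ _).trans hX)
  have hXp : 1 ≤ X := (le_max_right _ _).trans hX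
  have hXR : (0 : ℝ) < X := by exact_mod_cast hXp
  have hB := h1 X hX1
  have hB0 : (0 : ℝ) < B X := lt_of_lt_of_le (by positivity) hB
  have hA := hX₀ X hX0
  rw [Real.dist_eq]
  have e1 : (A X : ℝ) / (B X : ℝ) - e = ((A X : ℝ) - e * (B X : ℝ)) / (B X : ℝ) := by
    field_simp
  rw [e1, abs_div, abs_of_pos hB0, div_lt_iff₀ hB0]
  calc |(A X : ℝ) - e * (B X : ℝ)| ≤ c * ε / 2 * X := hA
    _ = ε / 2 * (c * X) := by ring
    _ ≤ ε / 2 * B X := by gcongr
    _ < ε * B X := by nlinarith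

/-- **The law of the 4-rank.** -/
theorem law (P : Parts2) (F : Finset (ℤ × ℤ)) (hF : ∀ c ∈ F, Pr c) (R : ℕ) :
    Tendsto (fun X : ℕ => (((Icc 1 X).filter fun n => n ∈ NF F ∧ gs n = 2 ^ (R + 1)).card : ℝ) /
      (((Icc 1 X).filter fun n => n ∈ NF F).card : ℝ)) atTop (nhds (etaR R)) := by
  obtain ⟨c, hc, X₁, h1⟩ := P.p.low F hF
  exact card_lim' (A := fun X => ((Icc 1 X).filter fun n => n ∈ NF F ∧ gs n = 2 ^ (R + 1)).card)
    (B := fun X => ((Icc 1 X).filter fun n => n ∈ NF F).card) hc h1 (P.trr R F hF)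

/-- **The tail.** -/
theorem tailb (P : Parts2) (F : Finset (ℤ × ℤ)) (hF : ∀ c ∈ F, Pr c) (R : ℕ) (T : Set ℕ)
    (hT : ∀ n ∈ NF F, ∀ r ≤ R, gs n = 2 ^ (r + 1) → n ∉ T) (ε : ℝ) (hε : 0 < ε) :
    ∀ᶠ X : ℕ in atTop, (((Icc 1 X).filter fun n => n ∈ NF F ∧ n ∈ T).card : ℝ) ≤
      (4 * (1 / 2 : ℝ) ^ (R + 1) ^ 2 + ε) * (((Icc 1 X).filter fun n => n ∈ NF F).card : ℝ) := by
  obtain ⟨c, hc, X₁, h1⟩ := P.p.low F hF
  have hl := tendsto_finsetSum (range (R + 1)) fun r _ => law P F hF r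
  have hev := hl.eventually (lt_mem_nhds (show ∑ r ∈ range (R + 1), etaR r - ε <
    ∑ r ∈ range (R + 1), etaR r by linarith))
  filter_upwards [hev, eventually_ge_atTop (max X₁ 1)] with X hX hX'
  have hX1 : X₁ ≤ X := (le_max_left _ _).trans hX'
  have hXp : 1 ≤ X := (le_max_right _ _).trans hX'
  have hXR : (0 : ℝ) < X := by exact_mod_cast hXp
  set B : ℝ := (((Icc 1 X).filter fun n => n ∈ NF F).card : ℝ) with hB
  have hB0 : 0 < B := lt_of_lt_of_le (by positivity) (h1 X hX1)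
  have hsum : (((Icc 1 X).filter fun n => n ∈ NF F ∧ n ∈ T).card : ℝ) +
      ∑ r ∈ range (R + 1), (((Icc 1 X).filter fun n => n ∈ NF F ∧ gs n = 2 ^ (r + 1)).card : ℝ) ≤
      B := by
    rw [hB, ← Nat.cast_sum, ← Nat.cast_add, Nat.cast_le]
    rw [← card_biUnion (s := range (R + 1))
      (t := fun r => (Icc 1 X).filter fun n => n ∈ NF F ∧ gs n = 2 ^ (r + 1))]
    · rw [← card_union_of_disjoint]
      · refine card_le_card fun n hn => ?_
        rw [mem_union, mem_biUnion] at hn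
        rw [mem_filter]
        rcases hn with hn | ⟨r, -, hn⟩
        · rw [mem_filter] at hn
          exact ⟨hn.1, hn.2.1⟩
        · rw [mem_filter] at hn
          exact ⟨hn.1, hn.2.1⟩
      · rw [Finset.disjoint_left]
        intro n hn hn'
        rw [mem_biUnion] at hn'
        obtain ⟨r, hr, hn'⟩ := hn'
        rw [mem_filter] at hn hn'
        rw [mem_range] at hr
        exact hT n hn.2.1 r (by omega) hn'.2.2 hn.2.2
    · intro r _ r' _ hrr
      rw [Function.onFun, Finset.disjoint_left]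
      intro n hn hn'
      rw [mem_filter] at hn hn'
      have h3 : 2 ^ (r + 1) = 2 ^ (r' + 1) := hn.2.2.symm.trans hn'.2.2
      have := Nat.pow_right_injective (le_refl 2) h3
      exact hrr (by omega)
  have h4 := (P.tail R).2
  have h5 : (∑ r ∈ range (R + 1), etaR r - ε) * B ≤
      ∑ r ∈ range (R + 1), (((Icc 1 X).filter fun n => n ∈ NF F ∧ gs n = 2 ^ (r + 1)).card : ℝ) := by
    rw [← sum_div, lt_div_iff₀ hB0] at hX
    exact hX.le
  have h6 : (1 - ∑ r ∈ range (R + 1), etaR r) * B ≤ (4 * (1 / 2 : ℝ) ^ (R + 1) ^ 2) * B :=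
    mul_le_mul_of_nonneg_right h4 hB0.le
  nlinarith

end Pool.Agent.N873.UT
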