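import Pool.Agent.N873.UT.Stm2
import Pool.Agent.N873.UT.KEY

/-! UT-KEYG: the sum over the boxes, modulus `M`, any property (after UT/KEY.lean by helper614). -/

set_option autoImplicit false

open scoped Classical

namespace Pool.Agent.N873.UT.KEYG2

open Finset
open Pool.Agent.N873.UT.KEY
open Pool.Agent.Y703.CX (sm la jj XX)
open Pool.Agent.N916.GB (Po S_BIL Nd HB ps)
open Pool.Agent.N218.GB.KEY (le_XX cl_prime cl_odd sm_la_card sm_la_prod prod_mod4 root12 Bil
  ps_card card_sub TP mem_TP harm_TP)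
open Pool.Agent.Y703.CQ (nr sg)

/-- the statement of `BX` for given `ε` and `V₀` -/
def BoxP (P : Finset ℕ → Prop) (e : ℝ) (ε : ℝ) (V₀ : ℕ) : Prop := ∀ (ι : Type)
  [Fintype ι] [LinearOrder ι] (τ : ι → ℕ) (C : ι → Finset ℕ) (X : ι → ℕ) (κ : ℝ) (S₀ : Finset ℕ),
  0 ≤ κ → (∀ i, (C i).card ≤ X i) → HB C X κ →
  (∀ v ∈ S₀, Po v) → (∀ i, ∀ p ∈ C i, Po p ∧ p ∉ S₀ ∧ p % 4 = τ i) →
  (∀ i l, i ≠ l → Disjoint (C i) (C l)) →
  ((S₀.filter fun p => p % 4 = 3).card + (univ.filter fun i => τ i = 3).card) % 2 = 1 →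
  2 * S₀.card + V₀ ≤ (univ.filter fun i => τ i = 3).card →
  |(((Fintype.piFinset C).filter fun p => Nd S₀ (univ.image p) ∧
        P (S₀ ∪ univ.image p)).card : ℝ) -
      e * (((Fintype.piFinset C).filter fun p => Nd S₀ (univ.image p)).card : ℝ)| ≤
    ε * (((Fintype.piFinset C).filter fun p => Nd S₀ (univ.image p)).card : ℝ) +
    2 ^ ((2 * S₀.card + 1) * Fintype.card ι + (ps ι).card) * (κ * ∏ j, (X j : ℝ))

variable {P : Finset ℕ → Prop} {e : ℝ}

theorem box_dec {ε : ℝ} {V₀ : ℕ} (hBOX : BoxP P e ε V₀)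
    (ι : Type) [Fintype ι] [inst : DecidableEq ι] (lo : LinearOrder ι) (τ : ι → ℕ)
    (C : ι → Finset ℕ) (X : ι → ℕ) (κ : ℝ) (S₀ : Finset ℕ) (h1 : 0 ≤ κ)
    (h2 : ∀ i, (C i).card ≤ X i) (h3 : HB C X κ)
    (h4 : ∀ v ∈ S₀, Po v)
    (h5 : ∀ i, ∀ p ∈ C i, Po p ∧ p ∉ S₀ ∧ p % 4 = τ i)
    (h6 : ∀ i l, i ≠ l → Disjoint (C i) (C l))
    (h7 : ((S₀.filter fun p => p % 4 = 3).card + (univ.filter fun i => τ i = 3).card) % 2 = 1)
    (h8 : 2 * S₀.card + V₀ ≤ (univ.filter fun i => τ i = 3).card) :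
    |(((Fintype.piFinset C).filter fun p => Nd S₀ (univ.image p) ∧
        P (S₀ ∪ univ.image p)).card : ℝ) -
      e * (((Fintype.piFinset C).filter fun p => Nd S₀ (univ.image p)).card : ℝ)| ≤
    ε * (((Fintype.piFinset C).filter fun p => Nd S₀ (univ.image p)).card : ℝ) +
    2 ^ ((2 * S₀.card + 1) * Fintype.card ι + (ps ι).card) * (κ * ∏ j, (X j : ℝ)) := by
  have h := hBOX ι τ C X κ S₀ h1 h2 h3 h4 h5 h6 h7 h8
  have hd : inst = lo.toDecidableEq := Subsingleton.elim _ _
  subst hd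
  exact h

theorem per_key {ε : ℝ} (hε : 0 ≤ ε) {V : ℕ} (hBOX : BoxP P e ε V)
    {M : ℕ} {K : Finset ℕ} (hOk : OkM M K) {X z H k : ℕ} (hH : 1 ≤ H)
    {κ : ℝ} (hκ : 0 ≤ κ) {S₀ : Finset ℕ} {J : Finset (ℕ × ℕ)} (hk : KP M K X z H k V S₀ J)
    (hHB : HB (fun i : J => CC M z H i) (fun i => XX H i.1.1) κ) :
    |(((RM M K X z H k V).filter fun S => ky M z H S = (S₀, J) ∧
        (Nd (sm z S) (la z S) ∧ P S)).card : ℝ) -
      e * (((RM M K X z H k V).filter fun S => ky M z H S = (S₀, J) ∧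
        Nd (sm z S) (la z S)).card : ℝ)| ≤
    ε * (((RM M K X z H k V).filter fun S => ky M z H S = (S₀, J)).card : ℝ) +
      (3 ^ (9 * k ^ 2 + 9) * κ) * (X / ((∏ p ∈ S₀, p : ℕ) : ℝ)) := by
  have c1 : (univ.filter fun e : J => e.1.2 % 4 = 3).card =
      (J.filter fun e => e.2 % 4 = 3).card := by
    rw [← Finset.card_map (Function.Embedding.subtype (· ∈ J))]
    congr 1
    ext x
    simp only [Finset.mem_map, Finset.mem_filter, Finset.mem_univ, true_and,
      Function.Embedding.coe_subtype]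
    constructor
    · rintro ⟨u, hu, rfl⟩
      exact ⟨u.2, hu⟩
    · rintro ⟨h, h'⟩
      exact ⟨⟨x, h⟩, h', rfl⟩
  have hpar : ((S₀.filter fun p => p % 4 = 3).card + (J.filter fun e => e.2 % 4 = 3).card) % 2 = 1 := by
    have h1 := prod_mod4 S₀ (fun p => p) fun p hp => cl_odd (hk.cl p hp)
    have h2 := prod_mod4 J (fun e => e.2) hk.odd
    have h3 := (hOk.2.2 _ hk.mod).2
    have h4 : ((∏ p ∈ S₀, p) * ∏ e ∈ J, e.2) % M % 4 =
        (((∏ p ∈ S₀, p) % 4) * ((∏ e ∈ J, e.2) % 4)) % 4 := by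
      rw [Nat.mod_mod_of_dvd _ hOk.2.1, Nat.mul_mod]
    rw [h4] at h3
    rcases h1 with ⟨h1, h1'⟩ | ⟨h1, h1'⟩ <;> rcases h2 with ⟨h2, h2'⟩ | ⟨h2, h2'⟩ <;>
      rw [h1', h2'] at h3 <;> omega
  have hinj : Function.Injective (fun i : J => i.1.1) := by
    intro a b hab
    exact Subtype.ext (hk.inj (Finset.mem_coe.2 a.2) (Finset.mem_coe.2 b.2) hab)
  let lo : LinearOrder J := LinearOrder.lift' (fun i : J => i.1.1) hinj
  have hM4 := hOk.2.1
  have hbox := box_dec hBOX J lo (fun e => e.1.2 % 4) (fun i => CC M z H i)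
    (fun i => XX H i.1.1) κ S₀ hκ
    (fun i => by
      refine (Finset.card_filter_le _ _).trans ?_
      rw [Nat.card_Icc]
      omega)
    hHB (fun u hu => hk.cl u hu)
    (fun i p hp => by
      obtain ⟨h3, h4, h5, h6⟩ := CC_facts hM4 hH hp
      refine ⟨h3, fun h => ?_, h6⟩
      have := hk.le p h
      omega)
    (fun i l hil => CC_disj hH i l hil)
    (by
      rw [c1]
      exact hpar)
    (by
      rw [c1]
      exact hk.few)
  have e1 : ((Fintype.piFinset fun i : J => CC M z H i).filter fun p => Nd S₀ (univ.image p) ∧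
      P (S₀ ∪ univ.image p)).card = ((RM M K X z H k V).filter fun S => ky M z H S = (S₀, J) ∧
        (Nd (sm z S) (la z S) ∧ P S)).card := by
    rw [← key_bij hM4 hH hk (fun S => Nd (sm z S) (la z S) ∧ P S)]
    congr 1
    refine Finset.filter_congr fun p hp => ?_
    rw [Fintype.mem_piFinset] at hp
    rw [sm_fill hH hk.le hp, la_fill hH hk.le hp]
  have e2 : ((Fintype.piFinset fun i : J => CC M z H i).filter fun p =>
      Nd S₀ (univ.image p)).card = ((RM M K X z H k V).filter fun S => ky M z H S = (S₀, J) ∧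
        Nd (sm z S) (la z S)).card := by
    rw [← key_bij hM4 hH hk (fun S => Nd (sm z S) (la z S))]
    congr 1
    refine Finset.filter_congr fun p hp => ?_
    rw [Fintype.mem_piFinset] at hp
    rw [sm_fill hH hk.le hp, la_fill hH hk.le hp]
  rw [e1, e2] at hbox
  refine hbox.trans (add_le_add ?_ ?_)
  · have h4 : (((RM M K X z H k V).filter fun S => ky M z H S = (S₀, J) ∧
        Nd (sm z S) (la z S)).card : ℝ) ≤
        (((RM M K X z H k V).filter fun S => ky M z H S = (S₀, J)).card : ℝ) := by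
      have : (RM M K X z H k V).filter (fun S => ky M z H S = (S₀, J) ∧ Nd (sm z S) (la z S)) ⊆
          (RM M K X z H k V).filter fun S => ky M z H S = (S₀, J) := by
        intro S hS
        rw [Finset.mem_filter] at hS ⊢
        exact ⟨hS.1, hS.2.1⟩
      exact_mod_cast Finset.card_le_card this
    exact mul_le_mul_of_nonneg_left h4 hε
  · have hcJ : Fintype.card J = J.card := Fintype.card_coe J
    have hcard := hk.card
    have hJK : J.card ≤ k := by omega
    have hSK : S₀.card ≤ k := by omega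
    obtain ⟨n, hn⟩ : ∃ n : ℕ, n = (@ps J _ lo).card := ⟨_, rfl⟩
    have hpr : n ≤ k * k := by
      rw [hn]
      refine (@ps_card J _ lo).trans ?_
      rw [hcJ]
      exact Nat.mul_le_mul hJK hJK
    rw [← hn]
    have h5 : (2 : ℝ) ^ ((2 * S₀.card + 1) * Fintype.card J + n) ≤ 3 ^ (9 * k ^ 2 + 9) := by
      have hexp : (2 * S₀.card + 1) * Fintype.card J + n ≤ 9 * k ^ 2 + 9 := by
        rw [hcJ]
        have h6 : S₀.card * J.card ≤ k * k := Nat.mul_le_mul hSK hJK
        have h7 : k ≤ k * k := Nat.le_mul_self k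
        have h8 : (2 * S₀.card + 1) * J.card + n = 2 * (S₀.card * J.card) + J.card + n := by ring
        have h9 : k ^ 2 = k * k := by ring
        rw [h8, h9]
        omega
      calc (2 : ℝ) ^ ((2 * S₀.card + 1) * Fintype.card J + n) ≤ 2 ^ (9 * k ^ 2 + 9) :=
            pow_le_pow_right₀ (by norm_num) hexp
        _ ≤ 3 ^ (9 * k ^ 2 + 9) := by
            apply pow_le_pow_left₀ <;> norm_num
    have hN0 : (0 : ℝ) < ((∏ p ∈ S₀, p : ℕ) : ℝ) := by
      exact_mod_cast Finset.prod_pos fun p hp => (cl_prime (hk.cl p hp)).pos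
    have hprod : ∏ j : J, (XX H j.1.1 : ℝ) ≤ X / ((∏ p ∈ S₀, p : ℕ) : ℝ) := by
      have h5 : ∏ j : J, (XX H j.1.1 : ℝ) = ((∏ k ∈ J, XX H k.1 : ℕ) : ℝ) := by
        rw [← Finset.prod_coe_sort J (fun k => XX H k.1)]
        push_cast
        rfl
      rw [h5, le_div_iff₀ hN0, mul_comm]
      exact_mod_cast hk.prod
    calc (2 : ℝ) ^ ((2 * S₀.card + 1) * Fintype.card J + n) *
        (κ * ∏ j : J, (XX H j.1.1 : ℝ)) ≤
        3 ^ (9 * k ^ 2 + 9) * (κ * (X / ((∏ p ∈ S₀, p : ℕ) : ℝ))) := by gcongr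
      _ = _ := by ring

/-- **UT-KEY.** -/
theorem keyG : S_KEYG := by
  intro hBIL P e₀ he0 he1 hBOX ε hε
  obtain ⟨C, hC1, hB⟩ := hBIL
  obtain ⟨V, hV⟩ := hBOX ε hε
  refine ⟨V, C, hC1, ?_⟩
  intro M K hOk X z H k N κ hX hH hz hκ hκz hN
  have hM0 := hOk.1
  have hM4 := hOk.2.1
  set T := (RM M K X z H k V).image (ky M z H) with hT
  set B : ℝ := 3 ^ (9 * k ^ 2 + 9) * κ with hBd
  have hB0 : 0 ≤ B := by positivity
  have hfib : ∀ (P : Finset ℕ → Prop) [DecidablePred P],
      (((RM M K X z H k V).filter fun S => P S).card : ℝ) =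
      ∑ e ∈ T, (((RM M K X z H k V).filter fun S => ky M z H S = e ∧ P S).card : ℝ) := by
    intro P _
    rw [Finset.card_eq_sum_card_fiberwise (f := ky M z H) (t := T) (by
      intro S hS
      rw [Finset.mem_coe, Finset.mem_filter] at hS
      exact Finset.mem_coe.2 (Finset.mem_image_of_mem _ hS.1))]
    push_cast
    refine Finset.sum_congr rfl fun e _ => ?_
    congr 2
    ext S
    simp only [Finset.mem_filter]
    tauto
  have hKP : ∀ e ∈ T, KP M K X z H k V e.1 e.2 := by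
    intro e he
    rw [hT, Finset.mem_image] at he
    obtain ⟨S, hS, rfl⟩ := he
    obtain ⟨f1, f2, f3⟩ := rr_facts hS
    exact (rr_iff hM4 hH f1 (inj_ph f2)).1 hS
  have hf1 := hfib fun S => Nd (sm z S) (la z S) ∧ P S
  have hf2 := hfib fun S => Nd (sm z S) (la z S)
  have hf3 := hfib fun _ => True
  simp only [and_true, Finset.filter_true] at hf3
  rw [hf1, hf2, hf3, Finset.mul_sum, ← Finset.sum_sub_distrib]
  refine (Finset.abs_sum_le_sum_abs _ _).trans ?_
  have h3 : ∀ e ∈ T, |(((RM M K X z H k V).filter fun S => ky M z H S = e ∧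
        (Nd (sm z S) (la z S) ∧ P S)).card : ℝ) -
      e₀ * (((RM M K X z H k V).filter fun S => ky M z H S = e ∧
        Nd (sm z S) (la z S)).card : ℝ)| ≤
      ε * (((RM M K X z H k V).filter fun S => ky M z H S = e).card : ℝ) +
      B * (X / ((∏ p ∈ e.1, p : ℕ) : ℝ)) := by
    intro e he
    obtain ⟨S₀, J⟩ := e
    have hk' := hKP _ he
    exact per_key hε.le hV hOk hH hκ hk' (hb_box hB hM4 hH hz hκ hκz)
  refine (Finset.sum_le_sum h3).trans ?_
  rw [Finset.sum_add_distrib, ← Finset.mul_sum]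
  refine add_le_add le_rfl ?_
  have hsub : T ⊆ (TP X) ×ˢ ((range N ×ˢ range M).powerset.filter fun J => J.card ≤ k) := by
    intro e he
    have hk' := hKP e he
    rw [hT, Finset.mem_image] at he
    obtain ⟨S, hS, rfl⟩ := he
    obtain ⟨f1, f2, f3⟩ := rr_facts hS
    rw [Finset.mem_product, Finset.mem_filter, Finset.mem_powerset]
    refine ⟨mem_TP (fun q hq => cl_prime (hk'.cl q hq)) ?_, ?_, ?_⟩
    · refine le_trans ?_ f3
      exact Nat.le_of_dvd (Finset.prod_pos fun p hp => (cl_prime (f1 p hp)).pos)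
        (Finset.prod_dvd_prod_of_subset _ _ _ (Finset.filter_subset _ _))
    · intro e he
      unfold ky at he
      rw [Finset.mem_image] at he
      obtain ⟨q, hq, rfl⟩ := he
      have hqS := (Finset.mem_filter.1 hq).1
      have hq0 := (cl_prime (f1 q hqS)).pos
      have hqX : q ≤ X := by
        refine le_trans ?_ f3
        exact Nat.le_of_dvd (Finset.prod_pos fun p hp => (cl_prime (f1 p hp)).pos)
          (Finset.dvd_prod_of_mem _ hqS)
      unfold ph
      rw [Finset.mem_product, Finset.mem_range, Finset.mem_range]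
      refine ⟨?_, Nat.mod_lt _ hM0⟩
      have h3 : ((jj H q : ℕ) : ℝ) < N := by
        refine lt_of_le_of_lt (Nat.floor_le (mul_nonneg (Nat.cast_nonneg _)
          (Real.log_nonneg (by exact_mod_cast hq0)))) ?_
        refine lt_of_le_of_lt ?_ hN
        refine mul_le_mul_of_nonneg_left ?_ (Nat.cast_nonneg _)
        exact Real.log_le_log (by exact_mod_cast hq0) (by exact_mod_cast hqX)
      exact_mod_cast h3
    · have := hk'.card
      omega
  refine (Finset.sum_le_sum_of_subset_of_nonneg hsub fun _ _ _ => by positivity).trans ?_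
  rw [Finset.sum_product]
  simp only [Finset.sum_const, nsmul_eq_mul]
  rw [← Finset.mul_sum]
  have h4 : ((((range N ×ˢ range M).powerset.filter fun J => J.card ≤ k).card : ℕ) : ℝ) ≤
      (M * N + M : ℝ) ^ k := by
    have h5 := card_sub (range N ×ˢ range M) k
    rw [Finset.card_product, Finset.card_range, Finset.card_range] at h5
    calc ((((range N ×ˢ range M).powerset.filter fun J => J.card ≤ k).card : ℕ) : ℝ) ≤
          (((N * M + 1) ^ k : ℕ) : ℝ) := by exact_mod_cast h5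
      _ = (N * M + 1 : ℝ) ^ k := by push_cast; ring
      _ ≤ _ := by
        apply pow_le_pow_left₀ (by positivity)
        have : (1 : ℝ) ≤ M := by exact_mod_cast hM0
        linarith
  have h5 : ∑ S ∈ TP X, B * (X / ((∏ p ∈ S, p : ℕ) : ℝ)) ≤ B * (X * (1 + Real.log X)) := by
    have h6 : ∀ S ∈ TP X, B * ((X : ℝ) / ((∏ p ∈ S, p : ℕ) : ℝ)) =
        B * X * (1 / ((∏ p ∈ S, p : ℕ) : ℝ)) := by
      intro S _
      ring
    rw [Finset.sum_congr rfl h6, ← Finset.mul_sum]
    have h7 := mul_le_mul_of_nonneg_left (harm_TP X) (mul_nonneg hB0 (Nat.cast_nonneg X))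
    refine h7.trans (le_of_eq ?_)
    ring
  have h6 : 0 ≤ ∑ S ∈ TP X, B * ((X : ℝ) / ((∏ p ∈ S, p : ℕ) : ℝ)) :=
    Finset.sum_nonneg fun _ _ => by positivity
  rw [mul_assoc]
  gcongr

end Pool.Agent.N873.UT.KEYG2
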