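import Mathlib
import Pool.Agent.N873.UT.Stm2

/-!
# UT-LAR: the law of the number of the solutions of a random completion
-/

set_option autoImplicit false
set_option linter.all false

open scoped Classical

namespace Pool.Agent.N873.UT.LAR

open Finset Filter
open Pool.Agent.N916.GB

theorem sl_eq {V : Type} [Fintype V] (N : V → V → ZMod 2) :
    sl N = Nat.card {x : V → ZMod 2 // ∀ q, ∑ p, (x p + x q) * N q p = 0} := by
  unfold sl
  rw [Nat.card_eq_fintype_card, Fintype.card_subtype]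

section sol

variable {U J : Type} [Fintype U] [Fintype J] [LinearOrder J]

/-- the number of solutions -/
theorem sl_Kr (M : U ⊕ J → U ⊕ J → ZMod 2) (k0 : J) :
    sl M = 2 ^ (Module.finrank (ZMod 2) (Kr M k0) + 1) := by
  haveI : Fintype (Kr M k0) := Fintype.ofFinite _
  have h1 : Nat.card (Kr M k0) = 2 ^ Module.finrank (ZMod 2) (Kr M k0) := by
    rw [Nat.card_eq_fintype_card, Module.card_eq_pow_finrank (K := ZMod 2) (V := Kr M k0), ZMod.card]
  have h2 : sl M = Nat.card (Kr M k0 × ZMod 2) := by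
    rw [sl_eq]
    refine Nat.card_congr ⟨fun x => (⟨x.1 + fun _ => x.1 (Sum.inr k0), ?_⟩, x.1 (Sum.inr k0)),
      fun y => ⟨(y.1 : U ⊕ J → ZMod 2) + fun _ => y.2, ?_⟩, ?_, ?_⟩
    · rw [mem_Kr]
      refine ⟨?_, fun q => ?_⟩
      · rw [Pi.add_apply, z2_add_self]
      · rw [Ev_add, Ev_const, add_zero]
        exact x.2 q
    · intro q
      have h3 := Ev_add M (y.1 : U ⊕ J → ZMod 2) (fun _ => y.2) q
      rw [Ev_const, add_zero, (mem_Kr.1 y.1.2).2 q] at h3
      exact h3
    · intro x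
      refine Subtype.ext (funext fun p => ?_)
      simp only [Pi.add_apply]
      rw [add_assoc, z2_add_self, add_zero]
    · rintro ⟨y, c⟩
      have h4 : (y : U ⊕ J → ZMod 2) (Sum.inr k0) = 0 := (mem_Kr.1 y.2).1
      refine Prod.ext (Subtype.ext (funext fun p => ?_)) ?_
      · simp only [Pi.add_apply, h4, zero_add]
        rw [add_assoc, z2_add_self, add_zero]
      · simp only [Pi.add_apply, h4, zero_add]
  rw [h2, Nat.card_prod, h1, pow_succ, Nat.card_eq_fintype_card, ZMod.card]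

end sol

theorem In_zero {k d : ℕ} (h : d < k) : In k d = 0 :=
  prod_eq_zero (i := d) (mem_range.2 h) (sub_self _)

theorem In_nonneg (k d : ℕ) : 0 ≤ In k d := by
  rcases lt_or_ge d k with h | h
  · rw [In_zero h]
  · refine prod_nonneg fun i hi => ?_
    rw [mem_range] at hi
    have : (2 : ℝ) ^ i ≤ 2 ^ d := pow_le_pow_right₀ (by norm_num) (by omega)
    linarith

theorem In_self_pos (R : ℕ) : 0 < In R R := by
  refine prod_pos fun i hi => ?_
  rw [mem_range] at hi
  have : (2 : ℝ) ^ i < 2 ^ R := pow_lt_pow_right₀ (by norm_num) hi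
  linarith

theorem In_add (R j d : ℕ) : In (R + j) d = In R d * ((2 : ℝ) ^ (R * j) * In j (d - R)) := by
  rcases lt_or_ge d R with h | h
  · rw [In_zero h, zero_mul, In_zero (by omega)]
  · unfold In
    rw [prod_range_add]
    congr 1
    have h1 : (2 : ℝ) ^ (R * j) = ∏ i ∈ range j, (2 : ℝ) ^ R := by
      rw [prod_const, card_range, pow_mul]
    rw [h1, ← prod_mul_distrib]
    refine prod_congr rfl fun i _ => ?_
    rw [mul_sub, ← pow_add, ← pow_add, Nat.add_sub_cancel' h]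

theorem ind (R d : ℕ) : (if d = R then (1 : ℝ) else 0) =
    In R d / In R R * (if d - R = 0 then (1 : ℝ) else 0) := by
  have h0 := (In_self_pos R).ne'
  rcases lt_trichotomy d R with h | h | h
  · rw [if_neg h.ne, In_zero h, zero_div, zero_mul]
  · rw [if_pos h, h, if_pos (Nat.sub_self R), mul_one, div_self h0]
  · rw [if_neg h.ne', if_neg (by omega), mul_zero]

theorem term (R k d : ℕ) : In R d / In R R * ((-1) ^ k * In k (d - R) / mm k) =
    (-1) ^ k * (1 / 2 : ℝ) ^ (R * k) / (mm k * In R R) * In (R + k) d := by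
  rw [In_add]
  have h0 := (In_self_pos R).ne'
  have h1 := (mm_pos k).ne'
  have h2 : (1 / 2 : ℝ) ^ (R * k) * 2 ^ (R * k) = 1 := by
    rw [← mul_pow]
    norm_num
  field_simp
  linear_combination (-(In R d * In k (d - R))) * h2

theorem up {K : ℕ} (hK : Even K) (R d : ℕ) : (if d = R then (1 : ℝ) else 0) ≤
    ∑ k ∈ range (K + 1), (-1) ^ k * (1 / 2 : ℝ) ^ (R * k) / (mm k * In R R) * In (R + k) d := by
  rw [ind, ← sum_congr rfl fun k _ => term R k d, ← mul_sum]
  exact mul_le_mul_of_nonneg_left (bon_even hK _) (div_nonneg (In_nonneg _ _) (In_nonneg _ _))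

theorem lo {K : ℕ} (hK : Odd K) (R d : ℕ) :
    ∑ k ∈ range (K + 1), (-1) ^ k * (1 / 2 : ℝ) ^ (R * k) / (mm k * In R R) * In (R + k) d ≤
      (if d = R then (1 : ℝ) else 0) := by
  rw [ind, ← sum_congr rfl fun k _ => term R k d, ← mul_sum]
  exact mul_le_mul_of_nonneg_left (bon_odd hK _) (div_nonneg (In_nonneg _ _) (In_nonneg _ _))

theorem In_self (R : ℕ) : In R R = 2 ^ R ^ 2 * ∏ i ∈ range R, (1 - (1 / 2 : ℝ) ^ (i + 1)) := by
  unfold In
  have h1 : (2 : ℝ) ^ R ^ 2 = ∏ i ∈ range R, (2 : ℝ) ^ R := by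
    rw [prod_const, card_range, ← pow_mul, sq]
  rw [h1, ← prod_range_reflect (fun i => (1 - (1 / 2 : ℝ) ^ (i + 1))), ← prod_mul_distrib]
  refine prod_congr rfl fun i hi => ?_
  rw [mem_range] at hi
  have h2 : (2 : ℝ) ^ R * (1 / 2 : ℝ) ^ (R - 1 - i + 1) = 2 ^ i := by
    have h3 : R = i + (R - 1 - i + 1) := by omega
    conv_lhs => rw [show (2 : ℝ) ^ R = 2 ^ (i + (R - 1 - i + 1)) by rw [← h3]]
    rw [pow_add, mul_assoc, ← mul_pow]
    norm_num
  rw [mul_sub, mul_one, h2]

theorem qq_pos (R : ℕ) : 0 < ∏ i ∈ range R, (1 - (1 / 2 : ℝ) ^ (i + 1)) := by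
  refine prod_pos fun i _ => ?_
  have : (1 / 2 : ℝ) ^ (i + 1) < 1 := pow_lt_one₀ (by norm_num) (by norm_num) (by omega)
  linarith

theorem etaR_sum (R : ℕ) : Tendsto (fun K : ℕ => ∑ k ∈ range K,
    (-1) ^ k * (1 / 2 : ℝ) ^ (R * k) / (mm k * In R R)) atTop (nhds (etaR R)) := by
  have hx : |(1 / 2 : ℝ) ^ R| ≤ 1 := by
    rw [abs_of_nonneg (by positivity)]
    exact pow_le_one₀ (by norm_num) (by norm_num)
  have h := ((gt_summable hx).hasSum.tendsto_sum_nat).div_const (In R R)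
  have h1 : (∑' i, gt ((1 / 2 : ℝ) ^ R) i) / In R R = etaR R := by
    have h2 := Gs_prod R
    rw [Gs_one] at h2
    have h3 : (∑' i, gt ((1 / 2 : ℝ) ^ R) i) = Gs ((1 / 2) ^ R) := rfl
    rw [h3, In_self]
    unfold etaR
    rw [h2]
    have h4 := (qq_pos R).ne'
    field_simp
  rw [h1] at h
  refine h.congr fun K => ?_
  rw [sum_div]
  refine sum_congr rfl fun k _ => ?_
  unfold gt
  rw [← pow_mul, div_div]

/-- **UT-LAR** -/
theorem t_LAR : S_LAR := by
  intro R ε hε
  have hlim := etaR_sum R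
  rw [Metric.tendsto_atTop] at hlim
  obtain ⟨K0, hK0⟩ := hlim (ε / 2) (by linarith)
  set K : ℕ := 2 * K0 with hK
  set A : ℝ := ∑ k ∈ range (K + 2), (2 : ℝ) ^ ((R + k) ^ 2 + (R + k) + 4) / In R R with hA
  have hI := In_self_pos R
  have hA0 : 0 ≤ A := sum_nonneg fun k _ => by positivity
  obtain ⟨V1, hV1⟩ := pow_unbounded_of_one_lt (A / (ε / 2)) (by norm_num : (1 : ℝ) < 2)
  refine ⟨V1 + 1, ?_⟩
  intro U J _ _ _ w u N hw hu h3 h4 h5 hV
  have hne : (univ.filter fun k : J => u (Sum.inr k) = 1).Nonempty := by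
    rw [← card_pos]
    omega
  obtain ⟨k0, -⟩ := hne
  set P : ℝ := ((univ.filter fun σ : ps J → ZMod 2 => sl (pt N (sx σ)) = 2 ^ (R + 1)).card : ℝ) /
    2 ^ (ps J).card with hP
  have hp : (0 : ℝ) < 2 ^ (ps J).card := by positivity
  set T : ℕ → ℝ := fun k => (∑ σ : ps J → ZMod 2,
    In k (Module.finrank (ZMod 2) (Kr (pt N (sx σ)) k0))) / 2 ^ (ps J).card with hT
  set c : ℕ → ℝ := fun k => (-1) ^ k * (1 / 2 : ℝ) ^ (R * k) / (mm k * In R R) with hc
  have hTb : ∀ k, |T k - 1| ≤ 2 ^ (k ^ 2 + k + 4) / 2 ^ V1 := by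
    intro k
    rw [le_div_iff₀ (by positivity)]
    exact T_bound hw hu h3 h4 h5 k0 k V1 (by omega)
  have hPs : ((univ.filter fun σ : ps J → ZMod 2 => sl (pt N (sx σ)) = 2 ^ (R + 1)).card : ℝ) =
      ∑ σ : ps J → ZMod 2,
        if Module.finrank (ZMod 2) (Kr (pt N (sx σ)) k0) = R then (1 : ℝ) else 0 := by
    rw [card_filter, Nat.cast_sum]
    refine sum_congr rfl fun σ _ => ?_
    have hs := sl_Kr (pt N (sx σ)) k0
    by_cases h : sl (pt N (sx σ)) = 2 ^ (R + 1)
    · rw [if_pos h, if_pos, Nat.cast_one]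
      rw [hs] at h
      have := Nat.pow_right_injective (le_refl 2) h
      omega
    · rw [if_neg h, if_neg, Nat.cast_zero]
      intro h'
      exact h (by rw [hs, h'])
  have hsw : ∀ n : ℕ, ∑ k ∈ range n, c k * T (R + k) =
      (∑ σ : ps J → ZMod 2, ∑ k ∈ range n,
        c k * In (R + k) (Module.finrank (ZMod 2) (Kr (pt N (sx σ)) k0))) /
        2 ^ (ps J).card := by
    intro n
    rw [sum_comm, sum_div]
    refine sum_congr rfl fun k _ => ?_
    rw [hT]
    simp only
    rw [← mul_sum]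
    ring
  have hup : P ≤ ∑ k ∈ range (K + 1), c k * T (R + k) := by
    rw [hsw, hP, hPs]
    refine div_le_div_of_nonneg_right (sum_le_sum fun σ _ => ?_) hp.le
    exact up ⟨K0, by omega⟩ R _
  have hlo : ∑ k ∈ range (K + 2), c k * T (R + k) ≤ P := by
    rw [hsw, hP, hPs]
    refine div_le_div_of_nonneg_right (sum_le_sum fun σ _ => ?_) hp.le
    exact lo (K := K + 1) ⟨K0, by omega⟩ R _
  have herr : ∀ n : ℕ, n ≤ K + 2 → |∑ k ∈ range n, c k * T (R + k) -
      ∑ k ∈ range n, c k| ≤ ε / 2 := by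
    intro n hn
    rw [← sum_sub_distrib]
    refine (abs_sum_le_sum_abs _ _).trans ?_
    have h1 : ∀ k ∈ range n, |c k * T (R + k) - c k| ≤
        2 ^ ((R + k) ^ 2 + (R + k) + 4) / In R R / 2 ^ V1 := by
      intro k _
      have h2 : c k * T (R + k) - c k = c k * (T (R + k) - 1) := by ring
      have h6 : |c k| ≤ 1 / In R R := by
        rw [hc]
        simp only
        have hm := mm_pos k
        rw [abs_div, abs_mul, abs_pow, abs_neg, abs_one, one_pow, one_mul,
          abs_of_pos (mul_pos hm hI), abs_of_nonneg (by positivity)]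
        have h7 : (1 / 2 : ℝ) ^ (R * k) ≤ 1 := pow_le_one₀ (by norm_num) (by norm_num)
        have h8 : In R R ≤ mm k * In R R := le_mul_of_one_le_left hI.le (mm_one_le k)
        exact div_le_div₀ zero_le_one h7 hI h8
      rw [h2, abs_mul]
      calc |c k| * |T (R + k) - 1| ≤ 1 / In R R * (2 ^ ((R + k) ^ 2 + (R + k) + 4) / 2 ^ V1) :=
            mul_le_mul h6 (hTb _) (abs_nonneg _) (by positivity)
        _ = _ := by ring
    refine (sum_le_sum h1).trans ?_
    rw [← sum_div]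
    have h2 : ∑ k ∈ range n, (2 : ℝ) ^ ((R + k) ^ 2 + (R + k) + 4) / In R R ≤ A := by
      rw [hA]
      refine sum_le_sum_of_subset_of_nonneg (fun k hk => ?_) fun k _ _ => by positivity
      rw [mem_range] at hk ⊢
      omega
    rw [div_le_iff₀ (by positivity)]
    refine h2.trans ?_
    rw [div_lt_iff₀ (by linarith)] at hV1
    linarith
  have h6 := hK0 (K + 1) (by omega)
  have h7 := hK0 (K + 2) (by omega)
  rw [Real.dist_eq] at h6 h7
  have h8 := herr (K + 1) (by omega)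
  have h9 := herr (K + 2) le_rfl
  rw [abs_le] at h8 h9 ⊢
  rw [abs_lt] at h6 h7
  constructor
  · linarith [h9.1, h7.1]
  · linarith [h8.2, h6.2]

end Pool.Agent.N873.UT.LAR
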