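import Pool.Agent.N873.UT.Stm
import Pool.Agent.N875.X15.Main

/-!
# The order of the Selmer group `SA n`
-/

set_option autoImplicit false

namespace Pool.Agent.N873.UT

open NumberField
open Pool.Agent.N875.X15 (even_val sq_cancel val_zero val_one not_sq jac_of_sq sq_of_zmod
  dvd_of_primes)
open Pool.Agent.Y755.FK (S_AMB1 S_AMB S_SQ S_LEG Rn)

namespace CA

/-- the two conditions modulo the primes dividing the factors -/
def Two (b c : ℕ) : Prop := (∀ p : ℕ, p.Prime → p ∣ c → jacobiSym b p = 1) ∧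
  ∀ p : ℕ, p.Prime → p ∣ b → jacobiSym c p = 1

theorem rep_iff {n : ℕ} (hn : Squarefree n) (h4 : n % 4 = 3) (b c : ℕ) (hbc : b * c = n) :
    Pool.Agent.Y473.FK.Alg.Rep n b ↔ Two b c := by
  have hL : S_LEG := Pool.Agent.Y168.FK.t_LEG
  have hodd : ∀ p : ℕ, p.Prime → p ∣ n → p ≠ 2 := by
    rintro p hp hpn rfl
    omega
  have h1 := hL.1 b c (by rw [hbc]; exact hn)
  rw [hbc] at h1
  refine h1.trans ?_
  constructor
  · rintro ⟨h3, h4⟩
    exact ⟨fun p hp hpc => h3 p hp (hodd p hp (hpc.trans ⟨b, by rw [← hbc, mul_comm]⟩)) hpc,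
      fun p hp hpb => h4 p hp (hodd p hp (hpb.trans ⟨c, hbc.symm⟩)) hpb⟩
  · rintro ⟨h3, h4⟩
    exact ⟨fun p hp _ hpc => h3 p hp hpc, fun p hp _ hpb => h4 p hp hpb⟩

theorem two_of {n b c : ℕ} (hn : Squarefree n) (hc : n = b * c)
    (hloc : ∀ (p : ℕ) [Fact p.Prime], p ∣ n →
      IsSquare (((b : ℤ)) : ℚ_[p]) ∨ IsSquare ((((b : ℤ)) : ℚ_[p]) * n)) : Two b c := by
  have hbs : Squarefree b := hn.squarefree_of_dvd ⟨c, hc⟩
  have hcop : Nat.Coprime b c := by
    rw [hc] at hn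
    exact Nat.coprime_of_squarefree_mul hn
  refine ⟨fun p hp hpc => ?_, fun p hp hpb => ?_⟩
  · have : Fact p.Prime := ⟨hp⟩
    have hpn : p ∣ n := hpc.trans ⟨b, by rw [hc, mul_comm]⟩
    have hpb : ¬ (p : ℤ) ∣ (b : ℤ) := by
      intro h1
      have h2 : p ∣ b := by exact_mod_cast h1
      exact hp.one_lt.ne' (Nat.eq_one_of_dvd_coprimes hcop h2 hpc)
    rcases hloc p hpn with h1 | h1
    · exact jac_of_sq hpb h1
    · exfalso
      push_cast at h1
      have hb0 : ((b : ℕ) : ℚ_[p]) ≠ 0 := by exact_mod_cast hbs.ne_zero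
      have h2 := even_val (mul_ne_zero hb0 (by exact_mod_cast hn.ne_zero)) h1
      have h3 := val_zero (p := p) hpb
      have h4' := val_one (p := p) (n := (n : ℤ)) (by exact_mod_cast hpn)
        (Int.squarefree_natCast.2 hn)
      push_cast at h3 h4'
      rw [Padic.valuation_mul hb0 (by exact_mod_cast hn.ne_zero), h3, h4'] at h2
      exact absurd h2 (by decide)
  · have : Fact p.Prime := ⟨hp⟩
    have hpn : p ∣ n := hpb.trans ⟨c, hc⟩
    have hpc : ¬ (p : ℤ) ∣ (c : ℤ) := by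
      intro h1
      have h2 : p ∣ c := by exact_mod_cast h1
      exact hp.one_lt.ne' (Nat.eq_one_of_dvd_coprimes hcop hpb h2)
    rcases hloc p hpn with h1 | h1
    · exact absurd h1 (not_sq (Int.squarefree_natCast.2 hbs) (by exact_mod_cast hpb))
    · refine jac_of_sq hpc ?_
      push_cast at h1 ⊢
      have hb0 : ((b : ℕ) : ℚ_[p]) ≠ 0 := by exact_mod_cast hbs.ne_zero
      have e : (b : ℚ_[p]) * (n : ℚ_[p]) = (b * b) * c := by
        rw [hc]; push_cast; ring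
      rw [e] at h1
      exact sq_cancel (mul_ne_zero hb0 hb0) (IsSquare.mul_self _) h1

theorem loc_of {n b c : ℕ} (hn : Squarefree n) (h4 : n % 4 = 3) (hc : n = b * c)
    (h : Two b c) (p : ℕ) [hp : Fact p.Prime] (hpn : p ∣ n) :
    IsSquare (((b : ℤ)) : ℚ_[p]) ∨ IsSquare ((((b : ℤ)) : ℚ_[p]) * n) := by
  have hp2 : p ≠ 2 := by
    rintro rfl
    omega
  have hcop : Nat.Coprime b c := by
    rw [hc] at hn
    exact Nat.coprime_of_squarefree_mul hn
  have key : ∀ a : ℕ, ¬ p ∣ a → jacobiSym a p = 1 → IsSquare ((a : ℤ) : ℚ_[p]) := by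
    intro a hpa hj
    have hpa' : ¬ (p : ℤ) ∣ (a : ℤ) := by
      intro h1
      exact hpa (by exact_mod_cast h1)
    refine sq_of_zmod hp2 hpa' ?_
    rw [← jacobiSym.legendreSym.to_jacobiSym] at hj
    exact (legendreSym.eq_one_iff p (fun h0 =>
      hpa' ((ZMod.intCast_zmod_eq_zero_iff_dvd (a : ℤ) p).1 h0))).1 hj
  have hpn' := hpn
  rw [hc] at hpn'
  rcases hp.out.dvd_mul.1 hpn' with h1 | h1
  · right
    have h2 : ¬ p ∣ c := fun h3 => hp.out.one_lt.ne' (Nat.eq_one_of_dvd_coprimes hcop h1 h3)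
    have h3 := key c h2 (h.2 p hp.out h1)
    push_cast at h3 ⊢
    have e : (b : ℚ_[p]) * (n : ℚ_[p]) = (b * b) * c := by
      rw [hc]; push_cast; ring
    rw [e]
    exact (IsSquare.mul_self _).mul h3
  · left
    have h2 : ¬ p ∣ b := fun h3 => hp.out.one_lt.ne' (Nat.eq_one_of_dvd_coprimes hcop h3 h1)
    exact key b h2 (h.1 p hp.out h1)

open scoped Classical in
theorem SA_eq {n : ℕ} (hn : Squarefree n) (h4 : n % 4 = 3) :
    SA n = (fun b : ℕ => (b : ℤ)) ''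
      ((n.divisors.filter fun b => Pool.Agent.Y473.FK.Alg.Rep n b : Finset ℕ) : Set ℕ) := by
  have hn0 := hn.ne_zero
  ext d
  constructor
  · rintro ⟨hds, hd, hsup, hloc⟩
    obtain ⟨b, rfl⟩ := Int.eq_ofNat_of_zero_le hd.le
    have hbs : Squarefree b := Int.squarefree_natCast.1 hds
    have hbn : b ∣ n := dvd_of_primes hbs (fun p hp hpb => hsup p hp (by exact_mod_cast hpb))
    obtain ⟨c, hc⟩ := hbn
    refine ⟨b, ?_, rfl⟩
    rw [Finset.mem_coe, Finset.mem_filter, Nat.mem_divisors]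
    exact ⟨⟨⟨c, hc⟩, hn0⟩, (rep_iff hn h4 b c hc.symm).2 (two_of hn hc hloc)⟩
  · rintro ⟨b, hb, rfl⟩
    rw [Finset.mem_coe, Finset.mem_filter, Nat.mem_divisors] at hb
    obtain ⟨⟨⟨c, hc⟩, -⟩, hb2⟩ := hb
    have hb0 : b ≠ 0 := by rintro rfl; rw [zero_mul] at hc; omega
    have hbs : Squarefree b := hn.squarefree_of_dvd ⟨c, hc⟩
    refine ⟨Int.squarefree_natCast.2 hbs, Int.natCast_pos.2 (Nat.pos_of_ne_zero hb0),
      fun p _ hp => (Int.natCast_dvd_natCast.1 hp).trans ⟨c, hc⟩, ?_⟩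
    intro p hp hpn
    exact loc_of hn h4 hc ((rep_iff hn h4 b c hc.symm).1 hb2) p hpn

end CA

open scoped Classical in
/-- UT-CA -/
theorem t_CA : S_CA := by
  intro n hn h4 K _ _ h2 hs
  have hA1 : S_AMB1 := Pool.Agent.Y486.FK.t_AMB1
  have hA : S_AMB := Pool.Agent.Y688.FK.t_AMB2 hA1
  have hS : S_SQ := Pool.Agent.Y629.FK.t_SQ
  have hc := Pool.Agent.Y473.FK.Alg.count K hA1 hA hS h2 n hn hs
  have hRn : Rn n = n := by
    unfold Rn
    rw [if_neg (by omega)]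
  rw [hRn] at hc
  rw [CA.SA_eq hn h4]
  refine ⟨(Finset.finite_toSet _).image _, ?_⟩
  rw [Set.ncard_image_of_injective _ Nat.cast_injective, Set.ncard_coe_finset]
  unfold r4
  exact hc

end Pool.Agent.N873.UT
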