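import Pool.Agent.N873.UT.Stm
import Pool.Agent.N875.X15.Trans

/-!
# Project UT (helper873): the two systems of Redei have the same number of solutions (helper756)
-/

set_option autoImplicit false
set_option linter.unusedVariables false

open scoped Classical

namespace Pool.Agent.N873.UT.CB

open Finset Pool.Agent.N875.X15

/-! ### linear algebra -/

section lin

variable {ι : Type} [Fintype ι] [DecidableEq ι]

/-- the vector of a set -/
noncomputable def vv (s : Finset ι) : ι → ZMod 2 := fun p => if p ∈ s then 1 else 0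

lemma h01 : ∀ c : ZMod 2, c = 0 ∨ c = 1 := by decide

/-- sets and vectors -/
noncomputable def ev (ι : Type) [Fintype ι] [DecidableEq ι] : Finset ι ≃ (ι → ZMod 2) where
  toFun := vv
  invFun y := univ.filter fun p => y p = 1
  left_inv s := by
    ext p
    by_cases h : p ∈ s <;> simp [vv, h]
  right_inv y := by
    funext p
    unfold vv
    rcases h01 (y p) with h | h <;> simp [h]

/-- the matrix -/
noncomputable def Bm (b : ι → ι → ZMod 2) : Matrix ι ι (ZMod 2) := Matrix.of fun q p =>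
  if q = p then ∑ r ∈ univ.erase q, b q r else b q p

lemma Bm_T {a : ι → ι → ZMod 2}
    (h : ∀ q, ∑ r ∈ univ.erase q, a q r = ∑ r ∈ univ.erase q, a r q) :
    (Bm a).transpose = Bm fun q p => a p q := by
  ext q p
  show (if p = q then ∑ r ∈ univ.erase p, a p r else a p q) =
    if q = p then ∑ r ∈ univ.erase q, a r q else a p q
  by_cases hpq : p = q
  · subst hpq
    rw [if_pos rfl, if_pos rfl, h]
  · rw [if_neg hpq, if_neg (Ne.symm hpq)]

/-- the equations in terms of sets -/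
def cond (b : ι → ι → ZMod 2) (s : Finset ι) : Prop :=
  ∀ q, (q ∉ s → ∑ p ∈ s, b q p = 0) ∧ (q ∈ s → ∑ p ∈ sᶜ, b q p = 0)

lemma Bm_mulVec (b : ι → ι → ZMod 2) (s : Finset ι) : (Bm b).mulVec (vv s) = 0 ↔ cond b s := by
  have hcc : ∀ c : ZMod 2, c + c = 0 := by decide
  have hM : ∀ q : ι, (Bm b).mulVec (vv s) q =
      (∑ r ∈ univ.erase q, b q r) * vv s q + ∑ p ∈ s.erase q, b q p := by
    intro q
    rw [Matrix.mulVec, dotProduct, ← Finset.add_sum_erase _ _ (Finset.mem_univ q)]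
    congr 1
    · show (if q = q then _ else _) * _ = _
      rw [if_pos rfl]
    · have e1 : ∑ x ∈ univ.erase q, Bm b q x * vv s x = ∑ x ∈ univ.erase q, if x ∈ s then b q x else 0 := by
        refine Finset.sum_congr rfl fun p hp => ?_
        show (if q = p then _ else _) * (if p ∈ s then _ else _) = _
        rw [if_neg (Finset.ne_of_mem_erase hp).symm]
        split_ifs
        · rw [mul_one]
        · rw [mul_zero]
      rw [e1, ← Finset.sum_filter]
      congr 1
      ext p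
      simp only [mem_filter, mem_erase, mem_univ, and_true]
  rw [funext_iff]
  unfold cond
  refine forall_congr' fun q => ?_
  rw [hM, Pi.zero_apply]
  by_cases hq : q ∈ s
  · have h3 : vv s q = 1 := by simp [vv, hq]
    have h4 : ∑ r ∈ univ.erase q, b q r + ∑ p ∈ s.erase q, b q p = ∑ p ∈ sᶜ, b q p := by
      have h5 : (univ.erase q : Finset ι) = s.erase q ∪ sᶜ := by
        ext p
        simp only [mem_erase, mem_univ, and_true, mem_union, mem_compl]
        constructor
        · intro h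
          by_cases hp : p ∈ s
          · exact Or.inl ⟨h, hp⟩
          · exact Or.inr hp
        · rintro (h | h)
          · exact h.1
          · rintro rfl
            exact h hq
      have h6 : Disjoint (s.erase q) sᶜ := by
        rw [Finset.disjoint_left]
        intro p hp hp'
        exact (mem_compl.1 hp') (mem_of_mem_erase hp)
      rw [h5, sum_union h6, add_comm (∑ p ∈ s.erase q, b q p), add_assoc, hcc, add_zero]
    rw [h3, mul_one, h4]
    exact ⟨fun h => ⟨fun h' => absurd hq h', fun _ => h⟩, fun h => h.2 hq⟩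
  · have h3 : vv s q = 0 := by simp [vv, hq]
    rw [h3, mul_zero, zero_add, Finset.erase_eq_of_notMem hq]
    exact ⟨fun h => ⟨fun _ => h, fun h' => absurd h' hq⟩, fun h => h.1 hq⟩

omit [DecidableEq ι] in
lemma ker_card (M : Matrix ι ι (ZMod 2)) :
    Nat.card {y // M.mulVec y = 0} = Nat.card {y // M.transpose.mulVec y = 0} := by
  have e1 := LinearMap.finrank_range_add_finrank_ker (Matrix.mulVecLin M.transpose)
  have e2 := LinearMap.finrank_range_add_finrank_ker (Matrix.mulVecLin M)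
  have e3 : Module.finrank (ZMod 2) (LinearMap.range (Matrix.mulVecLin M.transpose)) =
    Module.finrank (ZMod 2) (LinearMap.range (Matrix.mulVecLin M)) := Matrix.rank_transpose M
  have k1 : Nat.card {y // M.mulVec y = 0} = Nat.card (LinearMap.ker (Matrix.mulVecLin M)) := rfl
  have k2 : Nat.card {y // M.transpose.mulVec y = 0} =
    Nat.card (LinearMap.ker (Matrix.mulVecLin M.transpose)) := rfl
  rw [k1, k2, Module.natCard_eq_pow_finrank (K := ZMod 2),
    Module.natCard_eq_pow_finrank (K := ZMod 2) (V := LinearMap.ker (Matrix.mulVecLin M.transpose))]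
  congr 1
  omega

lemma cond_card {a : ι → ι → ZMod 2}
    (h : ∀ q, ∑ r ∈ univ.erase q, a q r = ∑ r ∈ univ.erase q, a r q) :
    {s | cond a s}.ncard = {s | cond (fun q p => a p q) s}.ncard := by
  have key : ∀ b : ι → ι → ZMod 2, {s | cond b s}.ncard = Nat.card {y // (Bm b).mulVec y = 0} := by
    intro b
    rw [← Nat.card_coe_set_eq]
    refine Nat.card_congr (Equiv.subtypeEquiv (ev ι) fun s => ?_)
    exact (Bm_mulVec b s).symm
  rw [key, key, ker_card, Bm_T h]

end lin

/-! ### the prime factors -/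

section pf

variable {n : ℕ}

/-- the prime factors -/
abbrev Io (n : ℕ) : Type := {p : ℕ // p ∈ n.primeFactors}

/-- the product of a set of prime factors -/
def NN (s : Finset (Io n)) : ℕ := ∏ p ∈ s, (p : ℕ)

lemma io_odd (h4 : n % 4 = 3) (p : Io n) : (p : ℕ).Prime ∧ (p : ℕ) % 2 = 1 ∧ (p : ℕ) ∣ n := by
  have hp := Nat.mem_primeFactors.1 p.2
  refine ⟨hp.1, ?_, hp.2.1⟩
  rcases hp.1.eq_two_or_odd with h1 | h1
  · exfalso
    have := hp.2.1
    rw [h1] at this
    omega
  · exact h1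

lemma io_co (h4 : n % 4 = 3) (p q : Io n) (hpq : p ≠ q) : IsCoprime (((p : ℕ) : ℤ)) ((q : ℕ) : ℤ) := by
  rw [Nat.isCoprime_iff_coprime]
  exact (Nat.coprime_primes (io_odd h4 p).1 (io_odd h4 q).1).2 (fun h => hpq (Subtype.ext h))

/-- the additive symbol -/
noncomputable def aa (n : ℕ) (p q : Io n) : ZMod 2 := ad ((p : ℕ) : ℤ) (q : ℕ)

lemma hprod (h4 : n % 4 = 3) (q : Io n) (s : Finset (Io n)) (hs : q ∉ s) :
    sg (∑ p ∈ s, aa n p q) = jacobiSym ((NN s : ℕ) : ℤ) (q : ℕ) := by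
  unfold NN
  rw [sg_sum, Nat.cast_prod]
  have : ∀ (s : Finset (Io n)), jacobiSym (∏ p ∈ s, ((p : ℕ) : ℤ)) (q : ℕ) =
      ∏ p ∈ s, jacobiSym ((p : ℕ) : ℤ) (q : ℕ) := by
    intro s
    induction s using Finset.induction_on with
    | empty => simp [jacobiSym.one_left]
    | insert a s ha ih => rw [Finset.prod_insert ha, Finset.prod_insert ha, jacobiSym.mul_left, ih]
  rw [this]
  refine Finset.prod_congr rfl fun p hp => ?_
  exact sg_ad (io_co h4 p q (fun h => hs (h ▸ hp)))

lemma hprod' (h4 : n % 4 = 3) (q : Io n) (s : Finset (Io n)) (hs : q ∉ s) :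
    sg (∑ p ∈ s, aa n q p) = jacobiSym ((q : ℕ) : ℤ) (NN s) := by
  unfold NN
  rw [sg_sum]
  have : ∀ (s : Finset (Io n)), jacobiSym ((q : ℕ) : ℤ) (∏ p ∈ s, (p : ℕ)) =
      ∏ p ∈ s, jacobiSym ((q : ℕ) : ℤ) (p : ℕ) := by
    intro s
    induction s using Finset.induction_on with
    | empty => simp [jacobiSym.one_right]
    | insert a s ha ih =>
      have : NeZero (a : ℕ) := ⟨(io_odd h4 a).1.ne_zero⟩
      have : NeZero (∏ p ∈ s, (p : ℕ)) := ⟨Finset.prod_ne_zero_iff.2
        (fun p _ => (io_odd h4 p).1.ne_zero)⟩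
      rw [Finset.prod_insert ha, Finset.prod_insert ha, jacobiSym.mul_right, ih]
  rw [this]
  refine Finset.prod_congr rfl fun p hp => ?_
  exact sg_ad (io_co h4 q p (fun h => hs (h ▸ hp)))

lemma NN_univ (hn : Squarefree n) : NN (univ : Finset (Io n)) = n := by
  have h1 : ∏ p : Io n, (p : ℕ) = ∏ p ∈ n.primeFactors, p :=
    Finset.prod_coe_sort n.primeFactors (fun p => p)
  unfold NN
  rw [h1]
  exact Nat.prod_primeFactors_of_squarefree hn

lemma NN_compl (hn : Squarefree n) (s : Finset (Io n)) : NN s * NN sᶜ = n := by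
  have := NN_univ hn
  unfold NN at this ⊢
  rw [Finset.prod_mul_prod_compl, this]

lemma hdiag (hn : Squarefree n) (h4 : n % 4 = 3) (q : Io n) :
    ∑ r ∈ univ.erase q, aa n q r = ∑ r ∈ univ.erase q, aa n r q := by
  have h1 : sg (∑ r ∈ Finset.univ.erase q, aa n q r) = sg (∑ r ∈ Finset.univ.erase q, aa n r q) := by
    rw [hprod h4 q _ (Finset.notMem_erase _ _), hprod' h4 q _ (Finset.notMem_erase _ _)]
    set k := NN (Finset.univ.erase q) with hk
    have hqk : (q : ℕ) * k = n := by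
      rw [hk]
      unfold NN
      rw [Finset.mul_prod_erase _ _ (Finset.mem_univ q)]
      exact NN_univ hn
    have hq2 := (io_odd h4 q).2.1
    have hk2 : k % 2 = 1 := by
      rcases Nat.mod_two_eq_zero_or_one k with h | h
      · exfalso
        have : (q : ℕ) * k % 2 = 0 := by rw [Nat.mul_mod, h, mul_zero, Nat.zero_mod]
        omega
      · exact h
    have h5 : (q : ℕ) % 4 * (k % 4) % 4 = 3 := by rw [← Nat.mul_mod, hqk, h4]
    have h6 : (q : ℕ) % 4 = 1 ∨ k % 4 = 1 := by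
      have h7 : (q : ℕ) % 4 = 1 ∨ (q : ℕ) % 4 = 3 := by omega
      have h8 : k % 4 = 1 ∨ k % 4 = 3 := by omega
      rcases h7 with h7 | h7
      · exact Or.inl h7
      · rcases h8 with h8 | h8
        · exact Or.inr h8
        · rw [h7, h8] at h5
          omega
    rcases h6 with h6 | h6
    · exact jacobiSym.quadratic_reciprocity_one_mod_four h6 (Nat.odd_iff.2 hk2)
    · exact (jacobiSym.quadratic_reciprocity_one_mod_four h6 (Nat.odd_iff.2 hq2)).symm
  have h01 : ∀ x y : ZMod 2, sg x = sg y → x = y := by decide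
  exact h01 _ _ h1

lemma condA_iff (h4 : n % 4 = 3) (s : Finset (Io n)) : cond (fun q p => aa n p q) s ↔
    ∀ q : Io n, (q ∉ s → jacobiSym (NN s : ℤ) (q : ℕ) = 1) ∧
      (q ∈ s → jacobiSym (NN sᶜ : ℤ) (q : ℕ) = 1) := by
  unfold cond
  refine forall_congr' fun q => and_congr (imp_congr_right fun hq => ?_) (imp_congr_right fun hq => ?_)
  · rw [← hprod h4 q s hq, sg_inj]
  · rw [← hprod h4 q sᶜ (by simpa using hq), sg_inj]

lemma condB_iff (h4 : n % 4 = 3) (s : Finset (Io n)) : cond (aa n) s ↔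
    ∀ q : Io n, (q ∉ s → jacobiSym (q : ℕ) (NN s) = 1) ∧
      (q ∈ s → jacobiSym (q : ℕ) (NN sᶜ) = 1) := by
  unfold cond
  refine forall_congr' fun q => and_congr (imp_congr_right fun hq => ?_) (imp_congr_right fun hq => ?_)
  · rw [← hprod' h4 q s hq, sg_inj]
  · rw [← hprod' h4 q sᶜ (by simpa using hq), sg_inj]

lemma dvd_NN (h4 : n % 4 = 3) (s : Finset (Io n)) (q : Io n) : (q : ℕ) ∣ NN s ↔ q ∈ s := by
  unfold NN
  constructor
  · intro h
    obtain ⟨p, hp, hpq⟩ := (Prime.dvd_finsetProd_iff (io_odd h4 q).1.prime _).1 h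
    have := (Nat.prime_dvd_prime_iff_eq (io_odd h4 q).1 (io_odd h4 p).1).1 hpq
    rw [Subtype.ext this]
    exact hp
  · intro h
    exact Finset.dvd_prod_of_mem (fun q : Io n => (q : ℕ)) h

lemma NN_dvd (hn : Squarefree n) (s : Finset (Io n)) : NN s ∣ n := ⟨NN sᶜ, (NN_compl hn s).symm⟩

lemma NN_inj (h4 : n % 4 = 3) {s t : Finset (Io n)} (h : NN s = NN t) : s = t := by
  ext q
  rw [← dvd_NN h4, ← dvd_NN h4, h]

lemma exists_NN (hn : Squarefree n) {b : ℕ} (hb : b ∣ n) : ∃ s : Finset (Io n), NN s = b := by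
  have hbs : Squarefree b := hn.squarefree_of_dvd hb
  refine ⟨univ.filter fun p : Io n => (p : ℕ) ∣ b, ?_⟩
  have h1 : NN (univ.filter fun p : Io n => (p : ℕ) ∣ b) = ∏ p ∈ b.primeFactors, p := by
    unfold NN
    refine Finset.prod_bij (fun p _ => (p : ℕ)) ?_ ?_ ?_ ?_
    · intro p hp
      rw [Finset.mem_filter] at hp
      exact Nat.mem_primeFactors.2 ⟨(Nat.mem_primeFactors.1 p.2).1, hp.2, hbs.ne_zero⟩
    · intro p _ q _ h1
      exact Subtype.ext h1
    · intro p hp
      rw [Nat.mem_primeFactors] at hp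
      refine ⟨⟨p, Nat.mem_primeFactors.2 ⟨hp.1, hp.2.1.trans hb, hn.ne_zero⟩⟩, ?_, rfl⟩
      rw [Finset.mem_filter]
      exact ⟨Finset.mem_univ _, hp.2.1⟩
    · intro p _
      rfl
  rw [h1]
  exact Nat.prod_primeFactors_of_squarefree hbs

end pf

/-! ### the local conditions -/

section loc

variable {p : ℕ} [hp : Fact p.Prime]

lemma loc_iff (hp2 : p ≠ 2) {m : ℤ} (hm : ¬ (p : ℤ) ∣ m) :
    IsSquare (m : ℚ_[p]) ↔ jacobiSym m p = 1 := by
  refine ⟨jac_of_sq hm, fun h => sq_of_zmod hp2 hm ?_⟩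
  rw [← jacobiSym.legendreSym.to_jacobiSym] at h
  rwa [legendreSym.eq_one_iff p (fun h0 => hm ((ZMod.intCast_zmod_eq_zero_iff_dvd m p).1 h0))] at h

lemma loc2 (hp2 : p ≠ 2) {d e N : ℤ} (hde : d * e = N) (hN : Squarefree N) (hpN : (p : ℤ) ∣ N) :
    (IsSquare (d : ℚ_[p]) ∨ IsSquare ((d : ℚ_[p]) * N)) ↔
      (¬ (p : ℤ) ∣ d → jacobiSym d p = 1) ∧ ((p : ℤ) ∣ d → jacobiSym e p = 1) := by
  have hd : Squarefree d := hN.squarefree_of_dvd ⟨e, hde.symm⟩
  have he : Squarefree e := hN.squarefree_of_dvd ⟨d, by rw [mul_comm]; exact hde.symm⟩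
  have hd0 : (d : ℚ_[p]) ≠ 0 := by exact_mod_cast hd.ne_zero
  have hpp : Prime (p : ℤ) := Nat.prime_iff_prime_int.1 hp.1
  have hnot : ¬ ((p : ℤ) ∣ d ∧ (p : ℤ) ∣ e) := by
    rintro ⟨h1, h2⟩
    have h3 : (p : ℤ) * p ∣ N := by
      rw [← hde]
      exact mul_dvd_mul h1 h2
    exact hpp.not_isUnit (hN _ h3)
  have hsq : IsSquare ((d : ℚ_[p]) * N) ↔ IsSquare (e : ℚ_[p]) := by
    have h1 : (d : ℚ_[p]) * N = (d * d) * e := by
      rw [← hde]
      push_cast
      ring
    rw [h1]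
    constructor
    · intro h
      exact sq_cancel (mul_ne_zero hd0 hd0) (IsSquare.mul_self _) h
    · intro h
      exact (IsSquare.mul_self _).mul h
  rw [hsq]
  by_cases hpd : (p : ℤ) ∣ d
  · have hpe : ¬ (p : ℤ) ∣ e := fun h => hnot ⟨hpd, h⟩
    rw [loc_iff hp2 hpe]
    constructor
    · rintro (h | h)
      · exact absurd h (not_sq hd hpd)
      · exact ⟨fun h' => absurd hpd h', fun _ => h⟩
    · intro h
      exact Or.inr (h.2 hpd)
  · have hpe : (p : ℤ) ∣ e := by
      rw [← hde] at hpN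
      exact (hpp.dvd_or_dvd hpN).resolve_left hpd
    rw [loc_iff hp2 hpd]
    constructor
    · rintro (h | h)
      · exact ⟨fun _ => h, fun h' => absurd h' hpd⟩
      · exact absurd h (not_sq he hpe)
    · intro h
      exact Or.inl (h.1 hpd)

end loc

section main

variable {n : ℕ}

/-- the number `± b` which is `1` modulo `4` -/
def s4 (b : ℕ) : ℤ := if b % 4 = 1 then b else -b

lemma s4_abs (b : ℕ) : (s4 b).natAbs = b := by
  unfold s4
  split_ifs <;> omega

lemma s4_mod {b : ℕ} (hb : b % 2 = 1) : s4 b % 4 = 1 := by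
  unfold s4
  split_ifs <;> omega

lemma s4_eq {d : ℤ} (hd : d % 4 = 1) : s4 d.natAbs = d := by
  unfold s4
  split_ifs <;> omega

lemma NN_odd (h4 : n % 4 = 3) (hn : Squarefree n) (s : Finset (Io n)) : NN s % 2 = 1 := by
  rcases Nat.mod_two_eq_zero_or_one (NN s) with h | h
  · exfalso
    have h1 := NN_compl hn s
    have h2 : NN s * NN sᶜ % 2 = 0 := by rw [Nat.mul_mod, h, zero_mul, Nat.zero_mod]
    omega
  · exact h

lemma s4_mul (h4 : n % 4 = 3) (hn : Squarefree n) (s : Finset (Io n)) :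
    s4 (NN s) * s4 (NN sᶜ) = -(n : ℤ) := by
  have h1 : (s4 (NN s) * s4 (NN sᶜ)).natAbs = n := by
    rw [Int.natAbs_mul, s4_abs, s4_abs, NN_compl hn]
  have h2 : s4 (NN s) * s4 (NN sᶜ) % 4 = 1 := by
    rw [Int.mul_emod, s4_mod (NN_odd h4 hn s), s4_mod (NN_odd h4 hn sᶜ)]
    rfl
  omega

theorem SA_eq (hn : Squarefree n) (h4 : n % 4 = 3) :
    SA n = (fun s : Finset (Io n) => (NN s : ℤ)) '' {s | cond (fun q p => aa n p q) s} := by
  have hnz : Squarefree (n : ℤ) := Int.squarefree_natCast.2 hn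
  have key : ∀ s : Finset (Io n), ((∀ (p : ℕ) [Fact p.Prime], p ∣ n →
      IsSquare (((NN s : ℤ)) : ℚ_[p]) ∨ IsSquare ((((NN s : ℤ)) : ℚ_[p]) * n)) ↔
      cond (fun q p => aa n p q) s) := by
    intro s
    rw [condA_iff h4]
    have hde : (NN s : ℤ) * (NN sᶜ : ℤ) = (n : ℤ) := by exact_mod_cast NN_compl hn s
    constructor
    · intro h q
      have : Fact (q : ℕ).Prime := ⟨(io_odd h4 q).1⟩
      have hq2 : (q : ℕ) ≠ 2 := by
        have := (io_odd h4 q).2.1
        omega
      have h1 := h (q : ℕ) (io_odd h4 q).2.2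
      have h2 := (loc2 hq2 hde hnz (Int.natCast_dvd_natCast.2 (io_odd h4 q).2.2)).1
        (by exact_mod_cast h1)
      rw [Int.natCast_dvd_natCast, dvd_NN h4] at h2
      exact h2
    · intro h p hp hpn
      have hq : p ∈ n.primeFactors := Nat.mem_primeFactors.2 ⟨hp.1, hpn, hn.ne_zero⟩
      have hq2 : p ≠ 2 := by
        have := (io_odd h4 ⟨p, hq⟩).2.1
        simp only at this
        omega
      have h2 := h ⟨p, hq⟩
      rw [← dvd_NN h4, ← Int.natCast_dvd_natCast] at h2
      have h3 := (loc2 hq2 hde hnz (Int.natCast_dvd_natCast.2 hpn)).2 h2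
      exact_mod_cast h3
  ext d
  constructor
  · rintro ⟨h1, h2, h3, h5⟩
    obtain ⟨b, rfl⟩ := Int.eq_ofNat_of_zero_le h2.le
    have hbs : Squarefree b := Int.squarefree_natCast.1 h1
    have hbn : b ∣ n := dvd_of_primes hbs fun p hp hpb => h3 p hp (by exact_mod_cast hpb)
    obtain ⟨s, hs⟩ := exists_NN hn hbn
    refine ⟨s, (key s).1 ?_, ?_⟩
    · rw [hs]
      exact h5
    · simp only [hs]
  · rintro ⟨s, hs, rfl⟩
    refine ⟨Int.squarefree_natCast.2 (hn.squarefree_of_dvd (NN_dvd hn s)), ?_, ?_, (key s).2 hs⟩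
    · have := NN_odd h4 hn s
      show (0 : ℤ) < (NN s : ℤ)
      omega
    · intro p _ hpd
      have hpd' : (p : ℤ) ∣ (NN s : ℤ) := hpd
      exact (Int.natCast_dvd_natCast.1 hpd').trans (NN_dvd hn s)

theorem SB_eq (hn : Squarefree n) (h4 : n % 4 = 3) :
    SB n = (fun s : Finset (Io n) => s4 (NN s)) '' {s | cond (aa n) s} := by
  have hnz : Squarefree (-(n : ℤ)) := by
    intro x hx
    rw [dvd_neg] at hx
    exact Int.squarefree_natCast.2 hn x hx
  have key : ∀ s : Finset (Io n), ((∀ (p : ℕ) [Fact p.Prime], p ∣ n →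
      IsSquare ((s4 (NN s)) : ℚ_[p]) ∨ IsSquare (((s4 (NN s)) : ℚ_[p]) * (-n))) ↔
      cond (aa n) s) := by
    intro s
    rw [condB_iff h4]
    have hde := s4_mul h4 hn s
    have hdv : ∀ q : Io n, (((q : ℕ) : ℤ) ∣ s4 (NN s) ↔ q ∈ s) := by
      intro q
      rw [Int.natCast_dvd, s4_abs, dvd_NN h4]
    have hr : ∀ (q : Io n) (t : Finset (Io n)), jacobiSym (s4 (NN t)) (q : ℕ) =
        jacobiSym (q : ℕ) (NN t) := by
      intro q t
      rw [recip (s4_mod (NN_odd h4 hn t)) (Nat.odd_iff.2 (io_odd h4 q).2.1), s4_abs]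
    constructor
    · intro h q
      have : Fact (q : ℕ).Prime := ⟨(io_odd h4 q).1⟩
      have hq2 : (q : ℕ) ≠ 2 := by
        have := (io_odd h4 q).2.1
        omega
      have h1 := h (q : ℕ) (io_odd h4 q).2.2
      have h2 := (loc2 hq2 hde hnz (dvd_neg.2 (Int.natCast_dvd_natCast.2 (io_odd h4 q).2.2))).1
        (by
          push_cast
          exact h1)
      rw [hdv, hr, hr] at h2
      exact h2
    · intro h p hp hpn
      have hq : p ∈ n.primeFactors := Nat.mem_primeFactors.2 ⟨hp.1, hpn, hn.ne_zero⟩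
      have hq2 : p ≠ 2 := by
        have := (io_odd h4 ⟨p, hq⟩).2.1
        simp only at this
        omega
      have h2 := h ⟨p, hq⟩
      rw [← hdv, ← hr, ← hr] at h2
      have h3 := (loc2 hq2 hde hnz (dvd_neg.2 (Int.natCast_dvd_natCast.2 hpn))).2 h2
      push_cast at h3
      exact h3
  ext d
  constructor
  · rintro ⟨h1, h2, h3, h5⟩
    have hbs : Squarefree d.natAbs := Int.squarefree_natAbs.2 h1
    have hbn : d.natAbs ∣ n := dvd_of_primes hbs fun p hp hpb => h3 p hp (Int.natCast_dvd.2 hpb)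
    obtain ⟨s, hs⟩ := exists_NN hn hbn
    have hd : s4 (NN s) = d := by rw [hs, s4_eq h2]
    refine ⟨s, (key s).1 ?_, hd⟩
    rw [hd]
    exact h5
  · rintro ⟨s, hs, rfl⟩
    refine ⟨?_, s4_mod (NN_odd h4 hn s), ?_, (key s).2 hs⟩
    · rw [← Int.squarefree_natAbs]
      show Squarefree (s4 (NN s)).natAbs
      rw [s4_abs]
      exact hn.squarefree_of_dvd (NN_dvd hn s)
    · intro p _ hpd
      have h1 : p ∣ (s4 (NN s)).natAbs := Int.natCast_dvd.1 hpd
      rw [s4_abs] at h1
      exact h1.trans (NN_dvd hn s)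

end main

end Pool.Agent.N873.UT.CB

namespace Pool.Agent.N873.UT

open Pool.Agent.N873.UT.CB

theorem t_CB : S_CB := by
  intro n hn h4
  rw [SB_eq hn h4, SA_eq hn h4]
  refine ⟨(Set.toFinite _).image _, ?_⟩
  rw [Set.ncard_image_of_injective, Set.ncard_image_of_injective]
  · exact cond_card (hdiag hn h4)
  · intro s t h
    have h1 : (NN s : ℤ) = (NN t : ℤ) := h
    exact NN_inj h4 (by exact_mod_cast h1)
  · intro s t h
    have h1 := congrArg Int.natAbs h
    simp only [s4_abs] at h1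
    exact NN_inj h4 h1

end Pool.Agent.N873.UT
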