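import Pool.Agent.N873.UT.Stm
import Pool.Agent.N875.X15.Conv

/-!
# Project UT (helper873), part CV: the converse (by helper273)
-/

set_option autoImplicit false

namespace Pool.Agent.N873.UT.CV

open Pool.Agent.Z702 (LocI WZ coc S_COC S_LOT S_COB)
open Pool.Agent.TH841.SH.D (shaCoc cob Coch Sha cob_zero)

/-- a nontrivial element of `Ш[2]` from an everywhere locally trivial class -/
theorem sha_ex {a b d : ℤ} (hb : b ≠ 0) (hab : a ^ 2 - 4 * b ≠ 0)
    (hsq : IsSquare ((a : ℚ) ^ 2 - 4 * b)) (hd : d ≠ 0)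
    (n1 : ¬ IsSquare (d : ℚ)) (n2 : ¬ LocI ℚ a b d)
    (hl : ∀ (p : ℕ) [Fact p.Prime], LocI ℚ_[p] a b d) (hr : LocI ℝ a b d) :
    ∃ x : Sha (WZ a b), x ≠ 0 ∧ x + x = 0 := by
  have h1 : S_COC := Pool.Agent.Z488.t_COC
  have h2 : S_LOT := Pool.Agent.Y210.Z702.t_LOT
  have h3 : S_COB := Pool.Agent.Z290.COBf.t_COB
  have hc : coc hb d ∈ shaCoc (WZ a b) := ⟨(h1 _ _ hb d).1,
    fun p _ => h2 _ _ hb d hab hd ℚ_[p] (hl p), h2 _ _ hb d hab hd ℝ hr⟩
  let N : AddSubgroup (shaCoc (WZ a b)) := (cob (WZ a b)).addSubgroupOf (shaCoc (WZ a b))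
  let y : shaCoc (WZ a b) := ⟨coc hb d, hc⟩
  refine ⟨(QuotientAddGroup.mk y : shaCoc (WZ a b) ⧸ N), ?_, ?_⟩
  · intro h0
    have h0' : (QuotientAddGroup.mk y : shaCoc (WZ a b) ⧸ N) = 0 := h0
    rw [QuotientAddGroup.eq_zero_iff, AddSubgroup.mem_addSubgroupOf] at h0'
    rcases h3 _ _ hb d hab hd h0' with h | h | h
    · exact n1 h
    · apply n1
      obtain ⟨s, hs⟩ := hsq
      obtain ⟨r, hr'⟩ := h
      have hs0 : s ≠ 0 := by
        rintro rfl
        rw [mul_zero] at hs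
        exact hab (by exact_mod_cast hs)
      refine ⟨r / s, ?_⟩
      rw [hs] at hr'
      field_simp
      linear_combination hr'
    · exact n2 h
  · have h5 : (QuotientAddGroup.mk (y + y) : shaCoc (WZ a b) ⧸ N) = 0 := by
      rw [QuotientAddGroup.eq_zero_iff, AddSubgroup.mem_addSubgroupOf]
      have h6 : ((y + y : shaCoc (WZ a b)) : Coch (WZ a b)) = 0 := (h1 _ _ hb d).2
      rw [h6]
      exact cob_zero _
    exact h5

theorem eq_wz (n a b : ℤ) :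
    EQ n a b = WZ (-(n * (a ^ 2 + b ^ 2))) (n ^ 2 * a ^ 2 * b ^ 2) := by
  simp only [EQ, WZ, Em, WeierstrassCurve.map, Pool.Agent.Y668.Wt]
  congr 1

/-- squarefree integers which are squares of rational numbers -/
theorem sqz (n : ℤ) (hn : Squarefree n) (hsq : IsSquare (n : ℚ)) : n = 1 := by
  rw [Rat.isSquare_intCast_iff] at hsq
  obtain ⟨r, hr⟩ := hsq
  have h1 : IsUnit r := hn r ⟨1, by rw [hr]; ring⟩
  rcases Int.isUnit_iff.1 h1 with h | h <;> rw [hr, h] <;> norm_num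

end Pool.Agent.N873.UT.CV

namespace Pool.Agent.N873.UT

open Pool.Agent.Z702 (LocI WZ)
open Pool.Agent.TH841.SH.D (Sha)

/-- **UT-CV.** -/
theorem t_CV : S_CV := by
  intro hLI hTO n a b hA hf hs d hd
  have hn0 : (n : ℤ) ≠ 0 := by exact_mod_cast hA.sqf.ne_zero
  have ha0 : a ≠ 0 := by
    rintro rfl
    have := hA.a2
    omega
  have hb0 := hA.b0
  have hne : a ^ 2 - b ^ 2 ≠ 0 := by
    intro h
    have h1 := hA.a2
    have h2 := hA.b2
    have h3 : a = b ∨ a = -b := sq_eq_sq_iff_eq_or_eq_neg.1 (by linarith)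
    rcases h3 with h3 | h3 <;> omega
  have hB : ((n : ℤ) ^ 2 * a ^ 2 * b ^ 2) ≠ 0 :=
    mul_ne_zero (mul_ne_zero (pow_ne_zero 2 hn0) (pow_ne_zero 2 ha0)) (pow_ne_zero 2 hb0)
  have hAB : (-((n : ℤ) * (a ^ 2 + b ^ 2))) ^ 2 - 4 * ((n : ℤ) ^ 2 * a ^ 2 * b ^ 2) ≠ 0 := by
    have e : (-((n : ℤ) * (a ^ 2 + b ^ 2))) ^ 2 - 4 * ((n : ℤ) ^ 2 * a ^ 2 * b ^ 2) =
        ((n : ℤ) * (a ^ 2 - b ^ 2)) ^ 2 := by ring
    rw [e]
    exact pow_ne_zero 2 (mul_ne_zero hn0 hne)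
  by_contra hcon
  have hcon' : d ≠ 1 ∧ d ≠ -(n : ℤ) := by
    rw [Set.mem_insert_iff, Set.mem_singleton_iff, not_or] at hcon
    exact hcon
  obtain ⟨l1, l2⟩ := hLI n a b hA d hd
  obtain ⟨hds, hd4, hsup, -⟩ := hd
  have hd0 : d ≠ 0 := by
    rintro rfl
    omega
  have hns : Squarefree (n : ℤ) := Int.squarefree_natCast.2 hA.sqf
  have n1 : ¬ IsSquare (d : ℚ) := fun h => hcon'.1 (CV.sqz d hds h)
  have hdm : d ∣ (n : ℤ) := by
    have h1 : d.natAbs ∣ n :=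
      Pool.Agent.N875.X15.dvd_of_primes (Int.squarefree_natAbs.2 hds)
        (fun p hp hpd => hsup p hp (Int.natCast_dvd.2 hpd))
    exact Int.natAbs_dvd.1 (by exact_mod_cast h1)
  have n2 : ¬ IsSquare ((d : ℚ) * (-n)) := by
    intro h
    obtain ⟨c, hc⟩ := hdm
    have hd' : (d : ℚ) ≠ 0 := by exact_mod_cast hd0
    have hcQ : (n : ℚ) = d * c := by exact_mod_cast hc
    have h1 : IsSquare (((-c : ℤ)) : ℚ) := by
      have e : (d : ℚ) * (-n) = (d * d) * (((-c : ℤ)) : ℚ) := by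
        rw [hcQ]; push_cast; ring
      rw [e] at h
      exact Pool.Agent.N875.X15.sq_cancel (mul_ne_zero hd' hd') (IsSquare.mul_self _) h
    have hcs : Squarefree (-c) := by
      intro x hx
      refine hns x ?_
      rw [hc]
      rw [dvd_neg] at hx
      exact hx.mul_left d
    have h2 := CV.sqz _ hcs h1
    apply hcon'.2
    have : c = -1 := by omega
    rw [hc, this]
    ring
  rw [CV.eq_wz] at hf hs
  have hT := hTO n a b hA hf d
  obtain ⟨x, hx, hxx⟩ := CV.sha_ex hB hAB ⟨(n : ℚ) * (a ^ 2 - b ^ 2), by push_cast; ring⟩ hd0 n1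
    (fun h => by
      rcases hT h with h | h
      · exact n1 h
      · exact n2 h) (fun p _ => l1 p) l2
  exact hx (hs x hxx)

end Pool.Agent.N873.UT
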