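import Pool.Agent.N873.UT.Stm
import Pool.Agent.N875.X15.Conv

/-!
# Project UT (helper873), job UT/LI: local solubility for the converse

`E' : y² = x (x + A) (x + B)`, `A = n (a + b)²`, `B = n (a - b)²`. Generalisation of
`Pool.Agent.N875.X15.loc_all`.
-/

set_option autoImplicit false

namespace Pool.Agent.N873.UT.LI

open Pool.Agent.Z702 (LocI)
open Pool.Agent.N875.X15 (sq_of_zmod sq_of_mod8)

/-- the cubic polynomial -/
lemma LocI_mk {K : Type} [Field K] (n : ℕ) (a b d : ℤ) {X Y r : K} (hX : X ≠ 0)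
    (hY : Y ^ 2 = X * (X + n * (a + b) ^ 2) * (X + n * (a - b) ^ 2)) (hr : X = d * r ^ 2) :
    LocI K (-(n * (a ^ 2 + b ^ 2))) (n ^ 2 * a ^ 2 * b ^ 2) d := by
  refine ⟨X, Y, r, hX, ?_, hr⟩
  rw [hY]
  push_cast
  ring

section loc

variable {p : ℕ} [hp : Fact p.Prime] {n : ℕ} {a b d : ℤ}

/-- points such that all the factors are squares -/
lemma pt_all (p : ℕ) [hp : Fact p.Prime] (A B : ℤ) : ∃ X Y r0 : ℚ_[p], X = r0 ^ 2 ∧
    Y ^ 2 = X * (X + A) * (X + B) ∧ r0 ≠ 0 := by
  obtain ⟨x, y, hy, hxy, ⟨r0, h0⟩, -, -⟩ := Pool.Agent.TH841.SH.pt_pad p 0 (-A) (-B)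
  push_cast at h0 hxy
  have hne : (x - 0) * (x - -(A : ℚ_[p])) * (x - -(B : ℚ_[p])) ≠ 0 := by
    rw [← hxy]; exact pow_ne_zero 2 hy
  refine ⟨x, y, r0, ?_, ?_, ?_⟩
  · linear_combination h0
  · rw [hxy]; ring
  · rintro rfl
    rw [h0] at hne
    simp at hne

lemma locI_sq (hd : d ≠ 0) (h : IsSquare (d : ℚ_[p])) :
    LocI ℚ_[p] (-(n * (a ^ 2 + b ^ 2))) (n ^ 2 * a ^ 2 * b ^ 2) d := by
  obtain ⟨X, Y, r0, e0, eY, n0⟩ := pt_all p (n * (a + b) ^ 2) (n * (a - b) ^ 2)
  obtain ⟨e, he⟩ := h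
  have hd' : (d : ℚ_[p]) ≠ 0 := by exact_mod_cast hd
  have he0 : e ≠ 0 := by
    rintro rfl
    apply hd'
    rw [he, mul_zero]
  refine LocI_mk n a b d (X := X) (Y := Y) (r := r0 / e) (by rw [e0]; exact pow_ne_zero 2 n0) ?_ ?_
  · push_cast at eY
    exact eY
  · rw [e0, he]
    field_simp

/-- the class of `(-A, 0)` -/
lemma locI_neg {K : Type} [Field K] [CharZero K] (hn : n ≠ 0) (hab : a + b ≠ 0) (hd : d ≠ 0)
    (h : IsSquare ((d : K) * (-n))) :
    LocI K (-(n * (a ^ 2 + b ^ 2))) (n ^ 2 * a ^ 2 * b ^ 2) d := by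
  obtain ⟨e, he⟩ := h
  have hd' : (d : K) ≠ 0 := by exact_mod_cast hd
  have hn' : (n : K) ≠ 0 := by exact_mod_cast hn
  have hab' : (a : K) + b ≠ 0 := by exact_mod_cast hab
  refine LocI_mk n a b d (X := -(n * (a + b) ^ 2)) (Y := 0) (r := e * (a + b) / d)
    (neg_ne_zero.2 (mul_ne_zero hn' (pow_ne_zero 2 hab'))) ?_ ?_
  · ring
  · field_simp
    linear_combination (1 : K) * he

end loc

/-- a sum of a nonzero square and of `c²` that is not a square -/
lemma ex_ns {p : ℕ} [hp : Fact p.Prime] (h1 : ¬ IsSquare (-1 : ZMod p)) {c : ZMod p} (hc : c ≠ 0) :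
    ∃ s : ZMod p, s ≠ 0 ∧ ¬ IsSquare (s ^ 2 + c ^ 2) := by
  by_contra hcon
  push Not at hcon
  have key : ∀ k : ℕ, IsSquare (k : ZMod p) := by
    intro k
    induction k with
    | zero => exact ⟨0, by simp⟩
    | succ k ih =>
      obtain ⟨z, hz⟩ := ih
      by_cases hz0 : z = 0
      · refine ⟨1, ?_⟩
        push_cast
        rw [hz, hz0]
        ring
      · obtain ⟨w, hw⟩ := hcon (z * c) (mul_ne_zero hz0 hc)
        refine ⟨w / c, ?_⟩
        push_cast
        rw [hz]
        field_simp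
        linear_combination hw
  apply h1
  have h2 := key (p - 1)
  have h3 : ((p - 1 : ℕ) : ZMod p) = -1 := by
    rw [Nat.cast_sub hp.out.one_lt.le]
    simp
  rwa [h3] at h2

/-- `J(u | p) ≠ 1` in terms of squares -/
lemma ns_of_jac {p : ℕ} [hp : Fact p.Prime] {u : ℤ} (h : jacobiSym u p ≠ 1)
    (hu : ((u : ℤ) : ZMod p) ≠ 0) : ¬ IsSquare ((u : ℤ) : ZMod p) := by
  intro h1
  apply h
  rw [← jacobiSym.legendreSym.to_jacobiSym]
  exact (legendreSym.eq_one_iff p hu).2 h1

/-- the primes dividing `a + b` -/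
lemma loc_node {p : ℕ} [hp : Fact p.Prime] {n : ℕ} {a b d : ℤ} (hp2 : p ≠ 2) (hd : d ≠ 0)
    (hpn : ¬ (p : ℤ) ∣ (n : ℤ)) (hpab : (p : ℤ) ∣ a + b) (hpa : ¬ (p : ℤ) ∣ a)
    (hdn : ¬ IsSquare ((d : ℤ) : ZMod p)) (hn1 : IsSquare ((-(n : ℤ) : ℤ) : ZMod p))
    (hn2 : ¬ IsSquare (((n : ℤ) : ℤ) : ZMod p)) :
    LocI ℚ_[p] (-(n * (a ^ 2 + b ^ 2))) (n ^ 2 * a ^ 2 * b ^ 2) d := by
  have hpr : Prime (p : ℤ) := Nat.prime_iff_prime_int.1 hp.out
  have hz : ∀ k : ℤ, ¬ (p : ℤ) ∣ k → ((k : ℤ) : ZMod p) ≠ 0 := fun k hk h =>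
    hk ((ZMod.intCast_zmod_eq_zero_iff_dvd k p).1 h)
  have hzd : ∀ k : ℤ, ((k : ℤ) : ZMod p) ≠ 0 → ¬ (p : ℤ) ∣ k := fun k hk h =>
    hk ((ZMod.intCast_zmod_eq_zero_iff_dvd k p).2 h)
  obtain ⟨t, ht⟩ := hn1
  have hn0 : ((n : ℤ) : ZMod p) ≠ 0 := hz _ hpn
  have ht0 : t ≠ 0 := by
    rintro rfl
    apply hn0
    rw [mul_zero] at ht
    push_cast at ht ⊢
    exact neg_eq_zero.1 ht
  have h1 : ¬ IsSquare (-1 : ZMod p) := by
    rintro ⟨i, hi⟩
    apply hn2
    refine ⟨i * t, ?_⟩
    push_cast at ht ⊢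
    linear_combination (-1 : ZMod p) * ht + (t * t) * hi
  have hpm : ¬ (p : ℤ) ∣ a - b := by
    intro h
    have h2 : (p : ℤ) ∣ 2 * a := by
      have := dvd_add hpab h
      have e : a + b + (a - b) = 2 * a := by ring
      rwa [e] at this
    rcases hpr.dvd_or_dvd h2 with h3 | h3
    · apply hp2
      have h4 : p ∣ 2 := by exact_mod_cast h3
      exact (Nat.prime_dvd_prime_iff_eq hp.out Nat.prime_two).1 h4
    · exact hpa h3
  have hm0 := hz _ hpm
  have hc : t * ((a - b : ℤ) : ZMod p) ≠ 0 := mul_ne_zero ht0 hm0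
  obtain ⟨s, hs0, hs⟩ := ex_ns h1 hc
  set s' : ℤ := (s.val : ℤ) with hs'
  have hss : ((s' : ℤ) : ZMod p) = s := by
    rw [hs']
    simp
  have habz : ((a : ZMod p) + b) = 0 := by
    have := (ZMod.intCast_zmod_eq_zero_iff_dvd (a + b) p).2 hpab
    push_cast at this
    exact this
  set X : ℤ := s' ^ 2 - n * (a - b) ^ 2 with hX
  have eX : ((X : ℤ) : ZMod p) = s ^ 2 + (t * ((a - b : ℤ) : ZMod p)) ^ 2 := by
    rw [hX]
    push_cast at hss ht ⊢
    rw [hss]
    linear_combination ((a : ZMod p) - b) ^ 2 * ht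
  have hXns : ¬ IsSquare ((X : ℤ) : ZMod p) := by rw [eX]; exact hs
  have hX0 : ((X : ℤ) : ZMod p) ≠ 0 := by
    intro h
    apply hXns
    rw [h]
    exact ⟨0, by simp⟩
  have hd0 : ((d : ℤ) : ZMod p) ≠ 0 := by
    intro h
    apply hdn
    rw [h]
    exact ⟨0, by simp⟩
  -- `X d` is a square
  have hXd : IsSquare (((X * d : ℤ)) : ZMod p) := by
    have c1 : quadraticChar (ZMod p) ((X : ℤ) : ZMod p) = -1 := by
      rcases quadraticChar_dichotomy hX0 with h | h
      · exfalso
        exact hXns ((quadraticChar_one_iff_isSquare hX0).1 h)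
      · exact h
    have c2 : quadraticChar (ZMod p) ((d : ℤ) : ZMod p) = -1 := by
      rcases quadraticChar_dichotomy hd0 with h | h
      · exfalso
        exact hdn ((quadraticChar_one_iff_isSquare hd0).1 h)
      · exact h
    have hXd0 : (((X * d : ℤ)) : ZMod p) ≠ 0 := by
      push_cast
      exact mul_ne_zero hX0 hd0
    rw [← quadraticChar_one_iff_isSquare hXd0]
    push_cast
    rw [map_mul, c1, c2]
    norm_num
  have hXdv : ¬ (p : ℤ) ∣ X * d := by
    apply hzd
    push_cast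
    exact mul_ne_zero hX0 hd0
  obtain ⟨e, he⟩ := sq_of_zmod hp2 hXdv hXd
  -- the cubic
  set Q : ℤ := X * (X + n * (a + b) ^ 2) * (X + n * (a - b) ^ 2) with hQ
  have eQ : ((Q : ℤ) : ZMod p) = (((X : ℤ) : ZMod p) * s) * (((X : ℤ) : ZMod p) * s) := by
    have e1 : ((X + n * (a - b) ^ 2 : ℤ) : ZMod p) = s ^ 2 := by
      rw [hX]
      push_cast at hss ⊢
      rw [hss]
      ring
    rw [hQ, Int.cast_mul, e1]
    push_cast
    rw [habz]
    ring
  have hQ0 : ¬ (p : ℤ) ∣ Q := by
    apply hzd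
    rw [eQ]
    exact mul_ne_zero (mul_ne_zero hX0 hs0) (mul_ne_zero hX0 hs0)
  obtain ⟨Y, hY⟩ := sq_of_zmod hp2 hQ0 ⟨_, eQ⟩
  have hd' : (d : ℚ_[p]) ≠ 0 := by exact_mod_cast hd
  have hX' : (X : ℚ_[p]) ≠ 0 := by
    have : X ≠ 0 := by
      intro h
      rw [h] at hX0
      simp at hX0
    exact_mod_cast this
  refine LocI_mk n a b d (X := (X : ℚ_[p])) (Y := Y) (r := e / d) hX' ?_ ?_
  · rw [hQ] at hY
    push_cast at hY
    rw [sq, ← hY]
  · push_cast at he
    field_simp
    linear_combination he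

end LI

open Pool.Agent.Z702 (LocI)
open Pool.Agent.N875.X15 (sq_of_zmod sq_of_mod8)

/-- job UT/LI -/
theorem t_LI : S_LI := by
  intro n a b hadm d hd
  obtain ⟨hds, hd4, hsup, hloc⟩ := hd
  have hn8 := hadm.n8
  have hn0 : n ≠ 0 := by omega
  have ha2 := hadm.a2
  have hb2 := hadm.b2
  have hab1 : a + b ≠ 0 := by omega
  have hd0 : d ≠ 0 := by omega
  refine ⟨fun p hp => ?_, ?_⟩
  · by_cases hpn : p ∣ n
    · rcases hloc p hpn with h | h
      · exact LI.locI_sq hd0 h
      · exact LI.locI_neg hn0 hab1 hd0 h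
    · by_cases hp2 : p = 2
      · subst hp2
        have sq8 : ∀ k : ℤ, k % 8 = 1 → IsSquare (k : ℚ_[2]) := by
          intro k hk
          have h1 : PadicInt.toZModPow (p := 2) 3 (k : ℤ_[2]) = 1 := by
            rw [map_intCast]
            have h2 : ((8 : ℕ) : ℤ) ∣ k - 1 := by push_cast; omega
            have h3 := (ZMod.intCast_zmod_eq_zero_iff_dvd (k - 1) 8).2 h2
            push_cast at h3
            exact sub_eq_zero.1 h3
          have h2 := sq_of_mod8 _ h1
          simpa using h2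
        have h5 : d % 8 = 1 ∨ d % 8 = 5 := by omega
        rcases h5 with h5 | h5
        · exact LI.locI_sq hd0 (sq8 d h5)
        · refine LI.locI_neg hn0 hab1 hd0 ?_
          have h6 : (d * -(n : ℤ)) % 8 = 1 := by
            rw [Int.mul_emod, h5]
            have : (-(n : ℤ)) % 8 = 5 := by omega
            rw [this]
            norm_num
          have := sq8 _ h6
          push_cast at this
          exact this
      · have hpr : Prime (p : ℤ) := Nat.prime_iff_prime_int.1 hp.out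
        have hpn' : ¬ (p : ℤ) ∣ (n : ℤ) := fun h => hpn (by exact_mod_cast h)
        have hpd : ¬ (p : ℤ) ∣ d := fun h => hpn (hsup p hp.out h)
        have hz : ∀ k : ℤ, ¬ (p : ℤ) ∣ k → ((k : ℤ) : ZMod p) ≠ 0 := fun k hk h =>
          hk ((ZMod.intCast_zmod_eq_zero_iff_dvd k p).1 h)
        by_cases hsq : IsSquare ((d : ℤ) : ZMod p)
        · exact LI.locI_sq hd0 (sq_of_zmod hp2 hpd hsq)
        · by_cases hsq' : IsSquare (((d * -(n : ℤ) : ℤ)) : ZMod p)
          · refine LI.locI_neg hn0 hab1 hd0 ?_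
            have h1 : ¬ (p : ℤ) ∣ d * -(n : ℤ) := by
              intro h
              rcases hpr.dvd_or_dvd h with h3 | h3
              · exact hpd h3
              · exact hpn' (by rwa [dvd_neg] at h3)
            have := sq_of_zmod hp2 h1 hsq'
            push_cast at this
            exact this
          · -- `-n` is a square
            have hnz : ((-(n : ℤ) : ℤ) : ZMod p) ≠ 0 := hz _ (by rwa [dvd_neg])
            have cd : quadraticChar (ZMod p) ((d : ℤ) : ZMod p) = -1 := by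
              rcases quadraticChar_dichotomy (hz d hpd) with h | h
              · exfalso
                exact hsq ((quadraticChar_one_iff_isSquare (hz d hpd)).1 h)
              · exact h
            have hns : IsSquare ((-(n : ℤ) : ℤ) : ZMod p) := by
              by_contra hcon
              have c2 : quadraticChar (ZMod p) ((-(n : ℤ) : ℤ) : ZMod p) = -1 := by
                rcases quadraticChar_dichotomy hnz with h | h
                · exfalso
                  exact hcon ((quadraticChar_one_iff_isSquare hnz).1 h)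
                · exact h
              apply hsq'
              have h0 : (((d * -(n : ℤ) : ℤ)) : ZMod p) ≠ 0 := by
                rw [Int.cast_mul]
                exact mul_ne_zero (hz d hpd) hnz
              rw [← quadraticChar_one_iff_isSquare h0, Int.cast_mul, map_mul, cd, c2]
              norm_num
            have hpab : ¬ (p : ℤ) ∣ a * b := by
              intro h
              have h1 := hadm.ab p hp.out hp2 h
              exact LI.ns_of_jac h1 hnz hns
            have hpa : ¬ (p : ℤ) ∣ a := fun h => hpab (h.mul_right b)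
            by_cases hpc : (p : ℤ) ∣ a ^ 2 - b ^ 2
            · have h1 := hadm.dd p hp.out hp2 hpc
              have hn2 := LI.ns_of_jac h1 (hz _ hpn')
              have e : a ^ 2 - b ^ 2 = (a + b) * (a - b) := by ring
              rw [e] at hpc
              rcases hpr.dvd_or_dvd hpc with h3 | h3
              · exact LI.loc_node hp2 hd0 hpn' h3 hpa hsq hns hn2
              · have := LI.loc_node (b := -b) hp2 hd0 hpn' (by rwa [← sub_eq_add_neg]) hpa hsq hns hn2
                rwa [neg_sq] at this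
            · have hb : ((n ^ 2 * a ^ 2 * b ^ 2 : ℤ) : ZMod p) ≠ 0 := by
                apply hz
                intro h
                have e : (n : ℤ) ^ 2 * a ^ 2 * b ^ 2 = n ^ 2 * (a * b) ^ 2 := by ring
                rw [e] at h
                rcases hpr.dvd_or_dvd h with h3 | h3
                · exact hpn' (hpr.dvd_of_dvd_pow h3)
                · exact hpab (hpr.dvd_of_dvd_pow h3)
              refine Pool.Agent.Z894.LG.aux p (-(n * (a ^ 2 + b ^ 2))) (n ^ 2 * a ^ 2 * b ^ 2) d hp2 hb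
                ?_ hd0 cd
              have e : (((-(n * (a ^ 2 + b ^ 2)) : ℤ) : ZMod p)) ^ 2 -
                  4 * ((n ^ 2 * a ^ 2 * b ^ 2 : ℤ) : ZMod p) =
                  (((n * (a ^ 2 - b ^ 2) : ℤ)) : ZMod p) ^ 2 := by
                push_cast; ring
              rw [e]
              apply quadraticChar_sq_one'
              apply hz
              intro h
              rcases hpr.dvd_or_dvd h with h3 | h3
              · exact hpn' h3
              · exact hpc h3
  · -- the real place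
    rcases lt_or_gt_of_ne hd0 with hneg | hpos
    · refine LI.locI_neg hn0 hab1 hd0 ?_
      have h1 : (0 : ℝ) ≤ (d : ℝ) * (-n) := by
        have h2 : (d : ℝ) < 0 := by exact_mod_cast hneg
        have h3 : (0 : ℝ) ≤ n := Nat.cast_nonneg n
        nlinarith
      exact ⟨Real.sqrt ((d : ℝ) * (-n)), (Real.mul_self_sqrt h1).symm⟩
    · obtain ⟨x, y, hy, hxy, ⟨r0, h0⟩, -, -⟩ :=
        Pool.Agent.TH841.SH.pt_real 0 (-(n * (a + b) ^ 2)) (-(n * (a - b) ^ 2))
      push_cast at h0 hxy
      have hx0 : x ≠ 0 := by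
        rintro rfl
        apply hy
        have : y ^ 2 = 0 := by rw [hxy]; ring
        exact pow_eq_zero_iff (two_ne_zero) |>.1 this
      have hx1 : x = r0 * r0 := by linear_combination h0
      have hdR : (0 : ℝ) < d := by exact_mod_cast hpos
      refine LI.LocI_mk n a b d (X := x) (Y := y) (r := r0 / Real.sqrt d) hx0 ?_ ?_
      · rw [hxy]
        ring
      · rw [div_pow, Real.sq_sqrt hdR.le, hx1]
        field_simp

end Pool.Agent.N873.UT
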