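import Mathlib
import Pool.Agent.N873.UT.Stm
import Pool.Agent.N856.JL.Tr

/-!
# UT: the admissible numbers have positive lower density

The numbers are `P m`, `P` the product of the primes `3` modulo `4` in question, `m` squarefree in a residue
class prime to the modulus (`Pool.Agent.N856.JL.Tr.lowM`).
-/

set_option autoImplicit false
set_option linter.all false

open scoped Classical

namespace Pool.Agent.N873.UT

open Finset
open Pool.Agent.N856.JL.Tr (lowM)

namespace LOW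

/-! ### The odd primes of the pairs -/

/-- the number attached to a pair -/
def dc (c : ℤ × ℤ) : ℕ := (c.1 * c.2 * (c.1 ^ 2 - c.2 ^ 2)).natAbs

/-- the odd primes -/
def Lp (F : Finset (ℤ × ℤ)) : Finset ℕ := (∏ c ∈ F, dc c).primeFactors.erase 2

theorem dc_pos {c : ℤ × ℤ} (h : Pr c) : 0 < dc c := by
  obtain ⟨-, h1, h2, h3⟩ := h
  unfold dc
  rw [Int.natAbs_pos]
  refine mul_ne_zero (mul_ne_zero ?_ h3) ?_
  · intro h0
    rw [h0] at h1
    norm_num at h1
  · intro h0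
    have h4 : c.1 ^ 2 = c.2 ^ 2 := by linarith
    have h5 : Odd (c.1 ^ 2) := (Int.odd_iff.2 h1).pow
    have h6 : Even (c.2 ^ 2) := (Int.even_iff.2 h2).pow_of_ne_zero two_ne_zero
    rw [h4] at h5
    exact (Int.not_even_iff_odd.2 h5) h6

theorem mem_Lp {F : Finset (ℤ × ℤ)} (hF : ∀ c ∈ F, Pr c) {c : ℤ × ℤ} (hc : c ∈ F) {p : ℕ}
    (hp : p.Prime) (hp2 : p ≠ 2)
    (h : (p : ℤ) ∣ c.1 * c.2 ∨ (p : ℤ) ∣ c.1 ^ 2 - c.2 ^ 2) : p ∈ Lp F := by
  have h1 : p ∣ dc c := by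
    unfold dc
    rw [← Int.natCast_dvd]
    rcases h with h | h
    · exact h.mul_right _
    · exact h.mul_left _
  refine mem_erase.2 ⟨hp2, Nat.mem_primeFactors.2 ⟨hp, h1.trans (dvd_prod_of_mem dc hc), ?_⟩⟩
  exact (prod_pos fun c hc => dc_pos (hF c hc)).ne'

theorem Lp_prime {F : Finset (ℤ × ℤ)} {p : ℕ} (h : p ∈ Lp F) : p.Prime ∧ p ≠ 2 :=
  ⟨Nat.prime_of_mem_primeFactors (mem_erase.1 h).2, (mem_erase.1 h).1⟩

/-! ### The residue class -/

theorem exists_ns {l P : ℕ} (hl : l.Prime) (hl2 : l ≠ 2) (hP : ¬ l ∣ P) :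
    ∃ s : ℕ, ¬ IsSquare ((P * s : ℕ) : ZMod l) := by
  haveI : Fact l.Prime := ⟨hl⟩
  obtain ⟨x, hx⟩ := FiniteField.exists_nonsquare (F := ZMod l) (by rwa [ZMod.ringChar_zmod_n])
  have hP0 : (P : ZMod l) ≠ 0 := by
    rwa [Ne, ZMod.natCast_eq_zero_iff]
  refine ⟨(x * (P : ZMod l)⁻¹).val, ?_⟩
  have h : ((P * (x * (P : ZMod l)⁻¹).val : ℕ) : ZMod l) = x := by
    rw [Nat.cast_mul, ZMod.natCast_zmod_val]
    field_simp
  rw [h]
  exact hx

/-- the class of `m` -/
theorem cls (L : Finset ℕ) (hL : ∀ p ∈ L, p.Prime ∧ p ≠ 2) :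
    ∃ a : ℕ, 0 < a ∧ a < 8 * ∏ p ∈ L, p ∧ a.Coprime (8 * ∏ p ∈ L, p) ∧
      ∀ m, m % (8 * ∏ p ∈ L, p) = a →
        ((∏ p ∈ L.filter fun p => p % 4 = 3, p) * m) % 8 = 3 ∧
        ∀ p ∈ L, p % 4 = 1 → ¬ IsSquare (((∏ p ∈ L.filter fun p => p % 4 = 3, p) * m : ℕ) : ZMod p) := by
  set P := ∏ p ∈ L.filter fun p => p % 4 = 3, p with hP
  set R := ∏ p ∈ L, p with hR
  have hPo : P % 2 = 1 := by
    rw [← Nat.odd_iff, hP]
    refine Finset.prod_induction _ Odd (fun a b => Odd.mul) odd_one fun p hp => ?_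
    obtain ⟨h1, h2⟩ := hL p (mem_filter.1 hp).1
    exact h1.odd_of_ne_two h2
  have hPn : ∀ p ∈ L, p % 4 = 1 → ¬ p ∣ P := by
    intro p hp h4 hd
    obtain ⟨q, hq, hpq⟩ := (Prime.dvd_finset_prod_iff (hL p hp).1.prime _).1 hd
    have h1 := (Nat.prime_dvd_prime_iff_eq (hL p hp).1 (hL q (mem_filter.1 hq).1).1).1 hpq
    have h2 := (mem_filter.1 hq).2
    omega
  choose! s hs using fun (p : ℕ) (h : p ∈ L ∧ p % 4 = 1) =>
    exists_ns (hL p h.1).1 (hL p h.1).2 (hPn p h.1 h.2)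
  have hR0 : 0 < R := prod_pos fun p hp => (hL p hp).1.pos
  have hcop : Set.Pairwise (↑(insert 2 L) : Set ℕ) (Function.onFun Nat.Coprime fun p => if p = 2 then 8 else p) := by
    intro p hp q hq hpq
    have hpr : ∀ p ∈ insert 2 L, p.Prime := by
      intro p hp
      rcases mem_insert.1 hp with rfl | h
      · exact Nat.prime_two
      · exact (hL p h).1
    have h8 : ∀ p q : ℕ, p.Prime → q.Prime → p ≠ q →
        Nat.Coprime (if p = 2 then 8 else p) (if q = 2 then 8 else q) := by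
      intro p q hp hq hne
      have h := (Nat.coprime_primes hp hq).2 hne
      by_cases h1 : p = 2
      · by_cases h2 : q = 2
        · exact absurd (h1.trans h2.symm) hne
        · rw [if_pos h1, if_neg h2]
          subst h1
          exact Nat.Coprime.pow_left 3 h
      · by_cases h2 : q = 2
        · rw [if_neg h1, if_pos h2]
          subst h2
          exact Nat.Coprime.pow_right 3 h
        · rw [if_neg h1, if_neg h2]
          exact h
    exact h8 p q (hpr p hp) (hpr q hq) hpq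
  obtain ⟨k, hk⟩ := Nat.chineseRemainderOfFinset
    (fun p => if p = 2 then 3 * P else if p % 4 = 1 then s p else 1)
    (fun p => if p = 2 then 8 else p) (insert 2 L) (by
      intro p hp
      show (if p = 2 then 8 else p) ≠ 0
      split_ifs with h
      · norm_num
      · rcases mem_insert.1 hp with rfl | h'
        · exact absurd rfl h
        · exact (hL p h').1.ne_zero) hcop
  have k8 : k ≡ 3 * P [MOD 8] := by
    have := hk 2 (mem_insert_self _ _)
    simpa using this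
  have kp : ∀ p ∈ L, k ≡ (if p % 4 = 1 then s p else 1) [MOD p] := by
    intro p hp
    have := hk p (mem_insert_of_mem hp)
    simpa [(hL p hp).2] using this
  have hM : 0 < 8 * R := by positivity
  have key : ∀ m, m ≡ k [MOD 8 * R] → (P * m) % 8 = 3 ∧
      ∀ p ∈ L, p % 4 = 1 → ¬ IsSquare ((P * m : ℕ) : ZMod p) := by
    intro m hm
    refine ⟨?_, fun p hp h4 => ?_⟩
    · have h1 : m ≡ 3 * P [MOD 8] := (hm.of_dvd (Dvd.intro _ rfl)).trans k8
      have h2 : P * m ≡ P * (3 * P) [MOD 8] := h1.mul_left P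
      have h3 : P * (3 * P) % 8 = 3 := by
        have h4 : P % 8 = 1 ∨ P % 8 = 3 ∨ P % 8 = 5 ∨ P % 8 = 7 := by omega
        rcases h4 with h | h | h | h <;> simp [Nat.mul_mod, h]
      exact (show P * m % 8 = P * (3 * P) % 8 from h2).trans h3
    · have h1 : m ≡ s p [MOD p] := by
        have h2 := (hm.of_dvd ((dvd_prod_of_mem (fun p => p) hp).mul_left 8)).trans (kp p hp)
        rwa [if_pos h4] at h2
      have h3 : ((P * m : ℕ) : ZMod p) = ((P * s p : ℕ) : ZMod p) :=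
        (ZMod.natCast_eq_natCast_iff _ _ _).2 (h1.mul_left P)
      rw [h3]
      exact hs p ⟨hp, h4⟩
  have hkc : k.Coprime (8 * R) := by
    refine Nat.Coprime.mul_right ?_ ?_
    · have h1 : k % 2 = 1 := by
        have h2 : k % 8 = (3 * P) % 8 := k8
        omega
      exact Nat.Coprime.pow_right 3 (Nat.coprime_two_right.2 (Nat.odd_iff.2 h1))
    · refine Nat.Coprime.prod_right fun p hp => ?_
      rw [Nat.coprime_comm, Nat.Prime.coprime_iff_not_dvd (hL p hp).1]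
      intro hd
      by_cases h4 : p % 4 = 1
      · refine (key k rfl).2 p hp h4 ?_
        have : ((P * k : ℕ) : ZMod p) = 0 := by
          rw [ZMod.natCast_eq_zero_iff]
          exact hd.mul_left P
        rw [this]
        exact IsSquare.zero
      · have h5 := kp p hp
        rw [if_neg h4] at h5
        have h6 : p ∣ 1 := (Nat.ModEq.dvd_iff h5 (dvd_refl p)).1 hd
        exact (hL p hp).1.one_lt.ne' (Nat.dvd_one.1 h6)
  have hkc' : (k % (8 * R)).Coprime (8 * R) := by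
    have h2 : (k % (8 * R)).gcd (8 * R) = k.gcd (8 * R) :=
      Nat.ModEq.gcd_eq (Nat.mod_modEq k (8 * R))
    exact h2.trans hkc
  refine ⟨k % (8 * R), ?_, Nat.mod_lt _ hM, hkc', fun m hm => key m ?_⟩
  · rcases Nat.eq_zero_or_pos (k % (8 * R)) with h | h
    · rw [h, Nat.coprime_zero_left] at hkc'
      omega
    · exact h
  · exact hm

/-! ### The numbers of the class are admissible -/

theorem ne_one_of_dvd {p : ℕ} (hp : p.Prime) {z : ℤ} (h : (p : ℤ) ∣ z) : jacobiSym z p ≠ 1 := by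
  haveI : Fact p.Prime := ⟨hp⟩
  rw [← jacobiSym.legendreSym.to_jacobiSym]
  have : legendreSym p z = 0 := by
    rw [legendreSym.eq_zero_iff]
    exact (ZMod.intCast_zmod_eq_zero_iff_dvd z p).2 h
  rw [this]
  norm_num

theorem ne_one_of_ns {p : ℕ} (hp : p.Prime) {z : ℤ} (h : ¬ IsSquare (z : ZMod p)) :
    jacobiSym z p ≠ 1 := by
  haveI : Fact p.Prime := ⟨hp⟩
  exact fun h' => h (ZMod.isSquare_of_jacobiSym_eq_one h')

theorem both {L : Finset ℕ} (hL : ∀ p ∈ L, p.Prime ∧ p ≠ 2) {n : ℕ}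
    (h3 : ∀ p ∈ L, p % 4 = 3 → p ∣ n) (h1 : ∀ p ∈ L, p % 4 = 1 → ¬ IsSquare ((n : ℕ) : ZMod p))
    {p : ℕ} (hp : p ∈ L) : jacobiSym (-(n : ℤ)) p ≠ 1 ∧ jacobiSym (n : ℤ) p ≠ 1 := by
  obtain ⟨hpp, hp2⟩ := hL p hp
  haveI : Fact p.Prime := ⟨hpp⟩
  have h2 : p % 2 = 1 := hpp.eq_two_or_odd.resolve_left hp2
  have h4 : p % 4 = 1 ∨ p % 4 = 3 := by omega
  rcases h4 with h4 | h4
  · have h5 := h1 p hp h4
    refine ⟨ne_one_of_ns hpp fun h => h5 ?_, ne_one_of_ns hpp ?_⟩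
    · have h6 : IsSquare (-1 : ZMod p) := ZMod.exists_sq_eq_neg_one_iff.2 (by omega)
      have h7 := h6.mul h
      push_cast at h7
      rwa [neg_mul_neg, one_mul] at h7
    · push_cast
      exact h5
  · have h5 : (p : ℤ) ∣ (n : ℤ) := Int.natCast_dvd_natCast.2 (h3 p hp h4)
    exact ⟨ne_one_of_dvd hpp ((dvd_neg).2 h5), ne_one_of_dvd hpp h5⟩

theorem memNF {F : Finset (ℤ × ℤ)} (hF : ∀ c ∈ F, Pr c) {n : ℕ} (hn : Squarefree n)
    (h8 : n % 8 = 3) (h3 : ∀ p ∈ Lp F, p % 4 = 3 → p ∣ n)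
    (h1 : ∀ p ∈ Lp F, p % 4 = 1 → ¬ IsSquare ((n : ℕ) : ZMod p)) : n ∈ NF F := by
  refine ⟨hn, h8, fun c hc => ?_⟩
  obtain ⟨p1, p2, p3, p4⟩ := hF c hc
  exact ⟨hn, h8, p1, p2, p3, p4,
    fun p hp hp2 hd => (both (fun p hp => Lp_prime hp) h3 h1 (mem_Lp hF hc hp hp2 (Or.inl hd))).1,
    fun p hp hp2 hd => (both (fun p hp => Lp_prime hp) h3 h1 (mem_Lp hF hc hp hp2 (Or.inr hd))).2⟩

end LOW

open LOW in
theorem t_LOW : S_LOW := by
  intro F hF
  set L := Lp F with hLdef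
  have hL : ∀ p ∈ L, p.Prime ∧ p ≠ 2 := fun p hp => Lp_prime hp
  obtain ⟨a, ha, ha', hc, hm⟩ := cls L hL
  set P := ∏ p ∈ L.filter fun p => p % 4 = 3, p with hP
  set R := ∏ p ∈ L, p with hR
  have hR0 : 0 < R := prod_pos fun p hp => (hL p hp).1.pos
  have hP0 : 0 < P := prod_pos fun p hp => (hL p (mem_filter.1 hp).1).1.pos
  have hPR : P ∣ R := prod_dvd_prod_of_subset _ _ _ (filter_subset _ _)
  have hPsq : Squarefree P := by
    refine Finset.squarefree_prod_of_pairwise_isCoprime (fun p hp q hq hpq => ?_)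
      fun p hp => (hL p (mem_filter.1 hp).1).1.squarefree
    show IsRelPrime p q
    rw [← Nat.coprime_iff_isRelPrime]
    exact (Nat.coprime_primes (hL p (mem_filter.1 hp).1).1 (hL q (mem_filter.1 hq).1).1).mpr hpq
  have hM : 0 < 8 * R := by positivity
  refine ⟨1 / (4 * (8 * R : ℕ)) * (1 / (2 * P)), by positivity,
    P * ((4 * (8 * R) + 4) * (4 * (8 * R) + 4)) + 2 * P, fun X hX => ?_⟩
  have hXP : (4 * (8 * R) + 4) * (4 * (8 * R) + 4) ≤ X / P := by
    rw [Nat.le_div_iff_mul_le hP0, mul_comm]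
    omega
  have h1 := lowM hM ⟨4 * R, by ring⟩ ha ha' hc (X / P) hXP
  have h2 : ((Icc 1 (X / P)).filter fun D => Squarefree D ∧ D % (8 * R) = a).card ≤
      ((Icc 1 X).filter fun n => n ∈ NF F).card := by
    refine card_le_card_of_injOn (fun m => P * m) ?_ ?_
    · intro m hm'
      obtain ⟨m1, m2, m3⟩ := mem_filter.1 (mem_coe.1 hm')
      obtain ⟨m4, m5⟩ := mem_Icc.1 m1
      have hcm : Nat.Coprime P m := by
        have h3 : Nat.Coprime (8 * R) m := by
          rw [Nat.Coprime, Nat.gcd_rec, m3]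
          exact hc
        exact Nat.Coprime.coprime_dvd_left (hPR.mul_left 8) h3
      refine mem_coe.2 (mem_filter.2 ⟨mem_Icc.2 ⟨Nat.mul_pos hP0 m4, ?_⟩, ?_⟩)
      · exact (Nat.mul_le_mul_left P m5).trans (Nat.mul_div_le X P)
      · refine memNF hF ((Nat.squarefree_mul hcm).2 ⟨hPsq, m2⟩) (hm m m3).1 ?_ (hm m m3).2
        intro p hp h4
        exact (dvd_prod_of_mem (fun p => p) (mem_filter.2 ⟨hp, h4⟩)).mul_right m
    · intro x _ y _ h
      exact Nat.eq_of_mul_eq_mul_left hP0 h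
  have h3 : (X : ℝ) / P * (1 / 2) ≤ ((X / P : ℕ) : ℝ) := by
    have h4 : (X : ℝ) / P < ((X / P : ℕ) : ℝ) + 1 := by
      rw [div_lt_iff₀ (by exact_mod_cast hP0)]
      have : X < (X / P + 1) * P := by
        rw [Nat.add_mul, Nat.one_mul]
        exact Nat.lt_div_mul_add hP0
      exact_mod_cast this
    have h5 : (2 : ℝ) ≤ (X : ℝ) / P := by
      rw [le_div_iff₀ (by exact_mod_cast hP0)]
      have : 2 * P ≤ X := by omega
      exact_mod_cast this
    linarith
  have h4 : (((Icc 1 (X / P)).filter fun D => Squarefree D ∧ D % (8 * R) = a).card : ℝ) ≤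
      (((Icc 1 X).filter fun n => n ∈ NF F).card : ℝ) := by exact_mod_cast h2
  refine le_trans ?_ (h1.trans h4)
  have h5 : (0 : ℝ) < 1 / (4 * ((8 * R : ℕ) : ℝ)) := by positivity
  calc 1 / (4 * ((8 * R : ℕ) : ℝ)) * (1 / (2 * (P : ℝ))) * X =
      1 / (4 * ((8 * R : ℕ) : ℝ)) * ((X : ℝ) / P * (1 / 2)) := by
        field_simp
    _ ≤ 1 / (4 * ((8 * R : ℕ) : ℝ)) * ((X / P : ℕ) : ℝ) := by gcongr

end Pool.Agent.N873.UT
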