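import Pool.Agent.N873.UT.Stm
import Pool.Agent.N875.X15.Odd
import Pool.Agent.N875.X15.Glob

/-!
# UT-RAM: local images at the odd primes dividing `n` (helper136)
-/

set_option autoImplicit false

namespace Pool.Agent.N873.UT.RAM

open Pool.Agent.N875.X15

variable {p : ℕ} [hp : Fact p.Prime]

lemma val_neg (x : ℚ_[p]) : (-x).valuation = x.valuation := by
  by_cases hx : x = 0
  · rw [hx, neg_zero]
  exact (norm_eq_iff (neg_ne_zero.2 hx) hx).1 (norm_neg x)

lemma core (hp2 : p ≠ 2) {u v w n a b : ℚ_[p]} (hu : u ≠ 0) (hv : v ≠ 0) (hw : w ≠ 0)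
    (hs : IsSquare (u * v * w)) (hn : n ≠ 0) (ha : a ≠ 0) (hb : b ≠ 0) (huv : u - v = n * a ^ 2)
    (huw : u - w = n * b ^ 2) (vn : n.valuation = 1) (vb : b.valuation = 0)
    (va : 0 ≤ a.valuation) :
    (IsSquare u ∧ IsSquare v ∧ IsSquare w) ∨
      (IsSquare u ∧ IsSquare (v * (-n)) ∧ IsSquare (w * (-n))) ∨ IsSquare (u * n) := by
  have hsum : Even (u.valuation + v.valuation + w.valuation) := by
    have := even_val (mul_ne_zero (mul_ne_zero hu hv) hw) hs
    rwa [Padic.valuation_mul (mul_ne_zero hu hv) hw, Padic.valuation_mul hu hv] at this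
  obtain ⟨e, he⟩ := hsum
  obtain ⟨A, hA⟩ : ∃ A, A = n * a ^ 2 := ⟨_, rfl⟩
  obtain ⟨B, hB⟩ : ∃ B, B = n * b ^ 2 := ⟨_, rfl⟩
  rw [← hA] at huv
  rw [← hB] at huw
  have hA0 : A ≠ 0 := by rw [hA]; exact mul_ne_zero hn (pow_ne_zero 2 ha)
  have hB0 : B ≠ 0 := by rw [hB]; exact mul_ne_zero hn (pow_ne_zero 2 hb)
  have vA : A.valuation = 1 + 2 * a.valuation := by
    rw [hA, pow_two, Padic.valuation_mul hn (mul_ne_zero ha ha), Padic.valuation_mul ha ha, vn]
    ring
  have vB : B.valuation = 1 := by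
    rw [hB, pow_two, Padic.valuation_mul hn (mul_ne_zero hb hb), Padic.valuation_mul hb hb, vn, vb]
    ring
  have sA : IsSquare (A * n) := ⟨n * a, by rw [hA]; ring⟩
  have sB : IsSquare (B * n) := ⟨n * b, by rw [hB]; ring⟩
  have sA' : IsSquare ((-A) * (-n)) := by rwa [neg_mul_neg]
  have sB' : IsSquare ((-B) * (-n)) := by rwa [neg_mul_neg]
  have hA0' : -A ≠ 0 := neg_ne_zero.2 hA0
  have hB0' : -B ≠ 0 := neg_ne_zero.2 hB0
  have e1 : v - u = -A := by rw [← huv]; ring
  have e2 : w - u = -B := by rw [← huw]; ring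
  have e3 : v - -A = u := by rw [← huv]; ring
  have e4 : w - -B = u := by rw [← huw]; ring
  have e5 : u - A = v := by rw [← huv]; ring
  have e6 : u - B = w := by rw [← huw]; ring
  -- the close pairs
  have c1 : u.valuation < A.valuation → IsSquare (v * u) ∧ v.valuation = u.valuation := fun h =>
    closeV hp2 hv hu (by rw [e1]; exact hA0') (by rw [e1, val_neg]; exact h)
  have c2 : u.valuation < B.valuation → IsSquare (w * u) ∧ w.valuation = u.valuation := fun h =>
    closeV hp2 hw hu (by rw [e2]; exact hB0') (by rw [e2, val_neg]; exact h)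
  have c3 : A.valuation < u.valuation → IsSquare (v * (-n)) ∧ v.valuation = A.valuation := by
    intro h
    obtain ⟨h1, h2⟩ := closeV hp2 hv hA0' (by rw [e3]; exact hu) (by rw [e3, val_neg]; exact h)
    rw [val_neg] at h2
    exact ⟨sq_trans hA0' h1 sA', h2⟩
  have c4 : B.valuation < u.valuation → IsSquare (w * (-n)) ∧ w.valuation = B.valuation := by
    intro h
    obtain ⟨h1, h2⟩ := closeV hp2 hw hB0' (by rw [e4]; exact hu) (by rw [e4, val_neg]; exact h)
    rw [val_neg] at h2
    exact ⟨sq_trans hB0' h1 sB', h2⟩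
  have c5 : A.valuation < v.valuation → IsSquare (u * n) := fun h =>
    sq_trans hA0 (closeV hp2 hu hA0 (by rw [e5]; exact hv) (by rw [e5]; exact h)).1 sA
  have c6 : B.valuation < w.valuation → IsSquare (u * n) := fun h =>
    sq_trans hB0 (closeV hp2 hu hB0 (by rw [e6]; exact hw) (by rw [e6]; exact h)).1 sB
  have g1 : ∀ k : ℤ, k ≤ u.valuation → k ≤ A.valuation → k ≤ v.valuation := by
    intro k h1 h2
    have h3 : u + -A = v := by rw [← huv]; ring
    have := val_add_ge (x := u) (y := -A) (by rw [h3]; exact hv) h1 (by rw [val_neg]; exact h2)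
    rwa [h3] at this
  have g2 : ∀ k : ℤ, k ≤ u.valuation → k ≤ B.valuation → k ≤ w.valuation := by
    intro k h1 h2
    have h3 : u + -B = w := by rw [← huw]; ring
    have := val_add_ge (x := u) (y := -B) (by rw [h3]; exact hw) h1 (by rw [val_neg]; exact h2)
    rwa [h3] at this
  rw [vA] at c1 c3 c5 g1
  rw [vB] at c2 c4 c6 g2
  rcases le_or_gt u.valuation 0 with h0 | h0
  · -- all three are close
    left
    obtain ⟨a1, -⟩ := c1 (by omega)
    obtain ⟨a2, -⟩ := c2 (by omega)
    have a3 : IsSquare u := by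
      have h5 : IsSquare ((v * u) * (w * u) * u) := by
        have e : (v * u) * (w * u) * u = (u * u) * (u * v * w) := by ring
        rw [e]
        exact (IsSquare.mul_self u).mul hs
      exact sq_cancel (mul_ne_zero (mul_ne_zero hv hu) (mul_ne_zero hw hu)) (a1.mul a2) h5
    exact ⟨a3, sq_cancel hu a3 (by rwa [mul_comm]), sq_cancel hu a3 (by rwa [mul_comm])⟩
  · rcases lt_trichotomy u.valuation (1 + 2 * a.valuation) with h1 | h1 | h1
    · obtain ⟨a1, a2⟩ := c1 h1
      rcases eq_or_lt_of_le (show (1 : ℤ) ≤ u.valuation by omega) with h2 | h2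
      · right; right
        apply c6
        have h3 := g2 1 (by omega) (by omega)
        omega
      · exfalso
        obtain ⟨-, a4⟩ := c4 (by omega)
        omega
    · rcases eq_or_lt_of_le (show (1 : ℤ) ≤ u.valuation by omega) with h2 | h2
      · right; right
        have h3 := g2 1 (by omega) (by omega)
        have h4 := g1 1 (by omega) (by omega)
        by_cases h5 : (1 : ℤ) < w.valuation
        · exact c6 h5
        · exact c5 (by omega)
      · right; right
        obtain ⟨-, a4⟩ := c4 (by omega)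
        apply c5
        have h4 := g1 (1 + 2 * a.valuation) (by omega) (by omega)
        omega
    · right; left
      obtain ⟨a1, -⟩ := c3 h1
      obtain ⟨a2, -⟩ := c4 (by omega)
      refine ⟨?_, a1, a2⟩
      have h3 : IsSquare (v * w) := sq_trans (y := -n) (neg_ne_zero.2 hn) a1 (by rwa [mul_comm])
      refine sq_cancel (mul_ne_zero hv hw) h3 ?_
      have e : v * w * u = u * v * w := by ring
      rwa [e]

lemma val_nonneg (a : ℤ) : 0 ≤ (a : ℚ_[p]).valuation := by
  by_cases ha : (a : ℚ_[p]) = 0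
  · rw [ha, Padic.valuation_zero]
  · have h1 : ‖(a : ℚ_[p])‖ ≤ ‖(1 : ℚ_[p])‖ := by rw [norm_one]; exact Padic.norm_int_le_one a
    rw [norm_le_iff ha one_ne_zero, Padic.valuation_one] at h1
    exact h1

end Pool.Agent.N873.UT.RAM

namespace Pool.Agent.N873.UT

open Pool.Agent.N875.X15 RAM

/-- **UT-RAM.** -/
theorem t_RAM : S_RAM := by
  intro n a b h p _ hpn u v w hP
  have hpp : p.Prime := Fact.out
  have hp2 : p ≠ 2 := by
    rintro rfl
    have := h.n8
    omega
  have hn0 : n ≠ 0 := h.sqf.ne_zero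
  have hnc : (n : ℚ_[p]) ≠ 0 := by exact_mod_cast hn0
  have ha : a ≠ 0 := by
    rintro rfl
    have := h.a2
    omega
  have hac : (a : ℚ_[p]) ≠ 0 := by exact_mod_cast ha
  have hbc : (b : ℚ_[p]) ≠ 0 := by exact_mod_cast h.b0
  have vn : (n : ℚ_[p]).valuation = 1 := by
    have h1 := val_one (p := p) (n := (n : ℤ)) (by exact_mod_cast hpn)
      (Int.squarefree_natCast.2 h.sqf)
    simpa using h1
  have huv : u - v = (n : ℚ_[p]) * (a : ℚ_[p]) ^ 2 := by
    have := hP.uv
    push_cast at this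
    exact this
  have huw : u - w = (n : ℚ_[p]) * (b : ℚ_[p]) ^ 2 := by
    have := hP.uw
    push_cast at this
    exact this
  have key : (IsSquare u ∧ IsSquare v) ∨ (IsSquare u ∧ IsSquare (v * (-(n : ℚ_[p])))) ∨
      IsSquare (u * n) := by
    by_cases hpb : (p : ℤ) ∣ b
    · have hpa : ¬ (p : ℤ) ∣ a := by
        intro hpa
        have h1 := h.cop.isUnit_of_dvd' hpa hpb
        rw [Int.isUnit_iff] at h1
        have := hpp.two_le
        omega
      have hs' : IsSquare (u * w * v) := by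
        have e : u * w * v = u * v * w := by ring
        rw [e]
        exact hP.sq
      rcases core hp2 hP.u0 hP.w0 hP.v0 hs' hnc hbc hac huw huv vn (val_zero hpa)
        (val_nonneg b) with h1 | h1 | h1
      · exact Or.inl ⟨h1.1, h1.2.2⟩
      · exact Or.inr (Or.inl ⟨h1.1, h1.2.2⟩)
      · exact Or.inr (Or.inr h1)
    · rcases core hp2 hP.u0 hP.v0 hP.w0 hP.sq hnc hac hbc huv huw vn (val_zero hpb)
        (val_nonneg a) with h1 | h1 | h1
      · exact Or.inl ⟨h1.1, h1.2.1⟩
      · exact Or.inr (Or.inl ⟨h1.1, h1.2.1⟩)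
      · exact Or.inr (Or.inr h1)
  rcases key with ⟨h1, h2⟩ | ⟨h1, h2⟩ | h1
  · exact ⟨Or.inl h1, fun _ => Or.inl h2⟩
  · exact ⟨Or.inl h1, fun _ => Or.inr h2⟩
  · refine ⟨Or.inr h1, fun h2 => ?_⟩
    exfalso
    have h3 := sq_cancel hP.u0 h2 h1
    have h4 := even_val hnc h3
    rw [vn] at h4
    obtain ⟨r, hr⟩ := h4
    omega

end Pool.Agent.N873.UT
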