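import Pool.Agent.N873.UT.Stm

/-!
# Project UT: rank and `Ш` from the 2-Selmer group
-/

set_option autoImplicit false

open scoped Classical

namespace Pool.Agent.N873.UT.RK

open WeierstrassCurve
open Pool.Agent.TH841.SH (LocC SelG IsR)
open Pool.Agent.W262.SH (Sha)
open Pool.Agent.H437R2.Man.MW (crv pt_fg)

lemma isR (n a b : ℤ) :
    IsR (EQ n a b) ((0 : ℤ) : ℚ) ((n * a ^ 2 : ℤ) : ℚ) ((n * b ^ 2 : ℤ) : ℚ) := by
  refine ⟨?_, ?_, ?_, ?_, ?_⟩ <;> simp [Em] <;> ring

/-- the roots are different -/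
structure Dst (n a b : ℤ) : Prop where
  n0 : (n : ℚ) ≠ 0
  a0 : (a : ℚ) ≠ 0
  b0 : (b : ℚ) ≠ 0
  ab : (a : ℚ) ^ 2 - (b : ℚ) ^ 2 ≠ 0

lemma dst {n : ℕ} {a b : ℤ} (h : Adm n a b) : Dst n a b := by
  have h1 := h.a2
  have h2 := h.b2
  refine ⟨?_, ?_, ?_, ?_⟩
  · exact_mod_cast h.sqf.ne_zero
  · have : a ≠ 0 := by rintro rfl; omega
    exact_mod_cast this
  · exact_mod_cast h.b0
  · have h3 : a ^ 2 - b ^ 2 ≠ 0 := by
      intro h3
      have h4 : a ^ 2 = b ^ 2 := by linarith
      rcases sq_eq_sq_iff_eq_or_eq_neg.1 h4 with h5 | h5 <;> omega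
    exact_mod_cast h3

variable {n a b : ℤ}

/-- a point of order two -/
lemma nonsing (h : Dst n a b) {x : ℚ} (hx : x * (x - n * a ^ 2) * (x - n * b ^ 2) = 0) :
    (EQ n a b).toAffine.Nonsingular x 0 := by
  have hn := h.n0
  rw [Affine.nonsingular_iff, Affine.equation_iff]
  simp only [Em, map_a₁, map_a₂, map_a₃, map_a₄, map_a₆, eq_intCast]
  push_cast
  constructor
  · linear_combination -hx
  · left
    intro h'
    rcases mul_eq_zero.1 hx with h1 | h1
    · rcases mul_eq_zero.1 h1 with h2 | h2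
      · rw [h2] at h'
        have h3 : (n : ℚ) ^ 2 * a ^ 2 * b ^ 2 = 0 := by linear_combination -h'
        exact mul_ne_zero (mul_ne_zero (pow_ne_zero 2 hn) (pow_ne_zero 2 h.a0))
          (pow_ne_zero 2 h.b0) h3
      · have h4 : x = n * a ^ 2 := by linear_combination h2
        rw [h4] at h'
        have h3 : (n : ℚ) ^ 2 * a ^ 2 * (a ^ 2 - b ^ 2) = 0 := by linear_combination -h'
        exact mul_ne_zero (mul_ne_zero (pow_ne_zero 2 hn) (pow_ne_zero 2 h.a0)) h.ab h3
    · have h4 : x = n * b ^ 2 := by linear_combination h1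
      rw [h4] at h'
      have h3 : (n : ℚ) ^ 2 * b ^ 2 * (a ^ 2 - b ^ 2) = 0 := by linear_combination h'
      exact mul_ne_zero (mul_ne_zero (pow_ne_zero 2 hn) (pow_ne_zero 2 h.b0)) h.ab h3

/-- the points of order two -/
noncomputable def T4 (h : Dst n a b) : Finset (EQ n a b).toAffine.Point :=
  {0, .some 0 0 (nonsing h (by simp)), .some (n * a ^ 2) 0 (nonsing h (by ring)),
    .some (n * b ^ 2) 0 (nonsing h (by ring))}

lemma T4_card (h : Dst n a b) : (T4 h).card = 4 := by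
  have hn := h.n0
  unfold T4
  have e : ∀ (x y : ℚ) (h : (EQ n a b).toAffine.Nonsingular x 0)
      (h' : (EQ n a b).toAffine.Nonsingular y 0),
      (Affine.Point.some x 0 h : (EQ n a b).toAffine.Point) = .some y 0 h' → x = y := by
    intro x y h h' h1
    injection h1
  rw [Finset.card_insert_of_notMem, Finset.card_insert_of_notMem, Finset.card_insert_of_notMem,
    Finset.card_singleton]
  · rw [Finset.mem_singleton]
    intro h'
    have h1 := e _ _ _ _ h'
    refine mul_ne_zero hn h.ab ?_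
    linear_combination h1
  · rw [Finset.mem_insert, Finset.mem_singleton]
    rintro (h' | h')
    · have h1 := e _ _ _ _ h'
      exact mul_ne_zero hn (pow_ne_zero 2 h.a0) h1.symm
    · have h1 := e _ _ _ _ h'
      exact mul_ne_zero hn (pow_ne_zero 2 h.b0) h1.symm
  · rw [Finset.mem_insert, Finset.mem_insert, Finset.mem_singleton]
    rintro (h | h | h)
    · exact absurd h.symm (Affine.Point.some_ne_zero _)
    · exact absurd h.symm (Affine.Point.some_ne_zero _)
    · exact absurd h.symm (Affine.Point.some_ne_zero _)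

lemma T4_two (h : Dst n a b) : ∀ g ∈ T4 h, g + g = 0 := by
  intro g hg
  unfold T4 at hg
  have key : ∀ (x : ℚ) (h : (EQ n a b).toAffine.Nonsingular x 0),
      (Affine.Point.some x 0 h : (EQ n a b).toAffine.Point) + .some x 0 h = 0 := by
    intro x h
    refine Affine.Point.add_of_Y_eq rfl ?_
    rw [Affine.negY]
    simp [Em]
  rw [Finset.mem_insert, Finset.mem_insert, Finset.mem_insert, Finset.mem_singleton] at hg
  rcases hg with rfl | rfl | rfl | rfl
  · exact add_zero 0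
  · exact key _ _
  · exact key _ _
  · exact key _ _

lemma fg_E (hd : Dst n a b) : AddGroup.FG (EQ n a b).toAffine.Point := by
  have h := isR n a b
  have hW : EQ n a b = crv (-(((0 : ℤ)) : ℚ)) (-((n * a ^ 2 : ℤ) : ℚ)) (-((n * b ^ 2 : ℤ) : ℚ)) := by
    apply WeierstrassCurve.ext
    · rw [h.h1]
      rfl
    · rw [h.h2]
      show _ = -(((0 : ℤ)) : ℚ) + -((n * a ^ 2 : ℤ) : ℚ) + -((n * b ^ 2 : ℤ) : ℚ)
      ring
    · rw [h.h3]
      rfl
    · rw [h.h4]
      show _ = -(((0 : ℤ)) : ℚ) * -((n * a ^ 2 : ℤ) : ℚ) + -(((0 : ℤ)) : ℚ) * -((n * b ^ 2 : ℤ) : ℚ) +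
        -((n * a ^ 2 : ℤ) : ℚ) * -((n * b ^ 2 : ℤ) : ℚ)
      ring
    · rw [h.h6]
      show _ = -(((0 : ℤ)) : ℚ) * -((n * a ^ 2 : ℤ) : ℚ) * -((n * b ^ 2 : ℤ) : ℚ)
      ring
  rw [hW]
  refine pt_fg ?_ ?_ ?_
  · intro h1
    push_cast at h1
    refine mul_ne_zero hd.n0 (pow_ne_zero 2 hd.a0) ?_
    linear_combination h1
  · intro h1
    push_cast at h1
    refine mul_ne_zero hd.n0 (pow_ne_zero 2 hd.b0) ?_
    linear_combination h1
  · intro h1
    push_cast at h1
    refine mul_ne_zero hd.n0 hd.ab ?_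
    linear_combination -h1

theorem t_RK : S_RK := by
  intro n a b hA N hfin hcard
  have hd := dst hA
  have c1 : (0 : ℤ) ≠ n * a ^ 2 := by
    intro h1
    refine mul_ne_zero hd.n0 (pow_ne_zero 2 hd.a0) ?_
    exact_mod_cast h1.symm
  have c2 : (0 : ℤ) ≠ n * b ^ 2 := by
    intro h1
    refine mul_ne_zero hd.n0 (pow_ne_zero 2 hd.b0) ?_
    exact_mod_cast h1.symm
  have c3 : (n : ℤ) * a ^ 2 ≠ n * b ^ 2 := by
    intro h1
    refine mul_ne_zero hd.n0 hd.ab ?_
    have h2 : (n : ℤ) * (a ^ 2 - b ^ 2) = 0 := by linear_combination h1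
    exact_mod_cast h2
  obtain ⟨h1, h2⟩ := Pool.Agent.Y667.SHA.main4 (EQ n a b) 0 (n * a ^ 2) (n * b ^ 2) (isR n a b)
    c1 c2 c3 hfin (T4 hd) (T4_card hd).ge (T4_two hd)
  have h3 := h2.trans hcard
  have hpos : 0 < Nat.card {x : Sha (EQ n a b) // x + x = 0} := by
    have : Nonempty {x : Sha (EQ n a b) // x + x = 0} := ⟨⟨0, add_zero 0⟩⟩
    exact Nat.card_pos
  let e : {x : Pool.Agent.TH841.SH.D.Sha (EQ n a b) // x + x = 0} ≃
      {x : Sha (EQ n a b) // x + x = 0} :=
    { toFun := fun x => ⟨Pool.Agent.TH841.SH.D.eSha (EQ n a b) x.1, by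
        rw [← map_add, x.2, map_zero]⟩
      invFun := fun x => ⟨(Pool.Agent.TH841.SH.D.eSha (EQ n a b)).symm x.1, by
        rw [← map_add, x.2, map_zero]⟩
      left_inv := fun x => Subtype.ext (by simp)
      right_inv := fun x => Subtype.ext (by simp) }
  have hce := Nat.card_congr e
  refine ⟨Finite.of_equiv _ e.symm, ?_, ?_⟩
  · rw [hce]
    have h4 : 4 * (2 ^ Module.finrank ℤ (EQ n a b).toAffine.Point *
        Nat.card {x : Sha (EQ n a b) // x + x = 0}) ≤ 4 * N ^ 2 := by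
      calc _ = 2 ^ (Module.finrank ℤ (EQ n a b).toAffine.Point + 2) *
          Nat.card {x : Sha (EQ n a b) // x + x = 0} := by ring
        _ ≤ (2 * N) ^ 2 := h3
        _ = 4 * N ^ 2 := by ring
    omega
  · rintro rfl
    have h5 : 2 ^ (Module.finrank ℤ (EQ n a b).toAffine.Point + 2) ≤ 2 ^ 2 :=
      (Nat.le_mul_of_pos_right _ hpos).trans h3
    have h6 := (Nat.pow_le_pow_iff_right (by norm_num : 1 < 2)).1 h5
    have h7 : Module.finrank ℤ (EQ n a b).toAffine.Point = 0 := by omega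
    refine ⟨Pool.Agent.N875.X15.fin_of_rank (fg_E hd) h7, ?_⟩
    rw [h7] at h3
    have h8 : Nat.card {x : Sha (EQ n a b) // x + x = 0} ≤ 1 := by omega
    have h9 : ∀ x : Sha (EQ n a b), x + x = 0 → x = 0 := by
      intro x hx
      have h10 : Subsingleton {x : Sha (EQ n a b) // x + x = 0} := by
        rw [← Finite.card_le_one_iff_subsingleton]
        exact h8
      have := h10.elim ⟨x, hx⟩ ⟨0, add_zero 0⟩
      exact congrArg Subtype.val this
    refine fun k => Pool.Agent.Y667.SHA.no_tor (fun x hx => ?_) k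
    have h11 := h9 (Pool.Agent.TH841.SH.D.eSha (EQ n a b) x) (by rw [← map_add, hx, map_zero])
    rwa [EmbeddingLike.map_eq_zero_iff] at h11

end Pool.Agent.N873.UT.RK
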