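import Pool.Agent.N873.UT.Stm
import Pool.Agent.TH841.SH.Kum

/-!
# Project UT (helper873), part SEL: the 2-Selmer group
-/

set_option autoImplicit false


namespace Pool.Agent.N873.UT

open Pool.Agent.TH841.SH (LocC SelG exists_sqf)
open Pool.Agent.N875.X15 (even_val val_zero not_dvd_of_even sq_cancel sq_trans sq_of_mod8
  unit_part unit_odd)
open Pool.Agent.Y667.RP (mod_of_sq)

namespace SEL

section fld

variable {K : Type} [Field K]

/-- combination of the local classes of the second coordinate -/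
lemma comb {c v v' f : K} (hc : c ≠ 0) (hv : v ≠ 0) (hv' : v' ≠ 0)
    (h1 : IsSquare v ∨ IsSquare (v * c)) (h2 : IsSquare v' ∨ IsSquare (v' * c))
    (h : IsSquare (v * v' * f)) : IsSquare f ∨ IsSquare (f * c) := by
  have hvv : v * v' ≠ 0 := mul_ne_zero hv hv'
  rcases h1 with h1 | h1 <;> rcases h2 with h2 | h2
  · left
    exact sq_cancel hvv (h1.mul h2) h
  · right
    have h3 := (h.mul (h1.mul h2))
    have e : v * v' * f * (v * (v' * c)) = (v * v') * (v * v') * (f * c) := by ring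
    rw [e] at h3
    exact sq_cancel (mul_ne_zero hvv hvv) (IsSquare.mul_self _) h3
  · right
    have h3 := (h.mul (h1.mul h2))
    have e : v * v' * f * (v * c * v') = (v * v') * (v * v') * (f * c) := by ring
    rw [e] at h3
    exact sq_cancel (mul_ne_zero hvv hvv) (IsSquare.mul_self _) h3
  · left
    have h3 := (h.mul (h1.mul h2))
    have e : v * v' * f * (v * c * (v' * c)) = (v * v' * c) * (v * v' * c) * f := by ring
    rw [e] at h3
    exact sq_cancel (mul_ne_zero (mul_ne_zero hvv hc) (mul_ne_zero hvv hc))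
      (IsSquare.mul_self _) h3

/-- the sum with the point `(n a², 0)` -/
lemma shift {n a b : ℤ} {u v w : K} (h : Pt3 n a b u v w) (hn : (n : K) ≠ 0) (ha : (a : K) ≠ 0)
    (hab : (a : K) ^ 2 - (b : K) ^ 2 ≠ 0) :
    Pt3 n a b ((n : K) * a ^ 2 * w / v) ((n : K) ^ 2 * a ^ 2 * ((a : K) ^ 2 - b ^ 2) / v)
      ((n : K) * ((a : K) ^ 2 - b ^ 2) * u / v) := by
  have hv := h.v0
  have h1 := h.uv
  have h2 := h.uw
  have e1 : v = u - n * a ^ 2 := by rw [← h1]; ring
  have e2 : w = u - n * b ^ 2 := by rw [← h2]; ring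
  refine ⟨?_, ?_, ?_, ?_, ?_, ?_⟩
  · exact div_ne_zero (mul_ne_zero (mul_ne_zero hn (pow_ne_zero 2 ha)) h.w0) hv
  · exact div_ne_zero (mul_ne_zero (mul_ne_zero (pow_ne_zero 2 hn) (pow_ne_zero 2 ha)) hab) hv
  · exact div_ne_zero (mul_ne_zero (mul_ne_zero hn hab) h.u0) hv
  · rw [div_sub_div_same, div_eq_iff hv, e1, e2]
    ring
  · rw [div_sub_div_same, div_eq_iff hv, e1, e2]
    ring
  · have h3 : IsSquare (((n : K) ^ 2 * a ^ 2 * ((a : K) ^ 2 - b ^ 2) / v ^ 2) *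
        ((n : K) ^ 2 * a ^ 2 * ((a : K) ^ 2 - b ^ 2) / v ^ 2) * (u * v * w)) :=
      (IsSquare.mul_self _).mul h.sq
    have e : ((n : K) ^ 2 * a ^ 2 * ((a : K) ^ 2 - b ^ 2) / v ^ 2) *
        ((n : K) ^ 2 * a ^ 2 * ((a : K) ^ 2 - b ^ 2) / v ^ 2) * (u * v * w) =
        ((n : K) * a ^ 2 * w / v) * ((n : K) ^ 2 * a ^ 2 * ((a : K) ^ 2 - b ^ 2) / v) *
      ((n : K) * ((a : K) ^ 2 - b ^ 2) * u / v) := by
      field_simp
    rwa [e] at h3

lemma shift_u {n a b : ℤ} {u v w : K} (h : Pt3 n a b u v w) :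
    IsSquare (((n : K) * a ^ 2 * w / v) * (u * n)) := by
  have hv := h.v0
  have h3 : IsSquare (((n : K) * a / v) * ((n : K) * a / v) * (u * v * w)) :=
    (IsSquare.mul_self _).mul h.sq
  have e : ((n : K) * a / v) * ((n : K) * a / v) * (u * v * w) =
      ((n : K) * a ^ 2 * w / v) * (u * n) := by
    field_simp
  rwa [e] at h3

lemma shift_v {n a b : ℤ} {v v' f : K} (hv : v ≠ 0) (hv' : v' ≠ 0)
    (h : IsSquare (v * v' * f)) :
    IsSquare (((n : K) ^ 2 * a ^ 2 * ((a : K) ^ 2 - b ^ 2) / v) *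
      ((n : K) ^ 2 * a ^ 2 * ((a : K) ^ 2 - b ^ 2) / v') * f) := by
  have h3 : IsSquare (((n : K) ^ 2 * a ^ 2 * ((a : K) ^ 2 - b ^ 2) / (v * v')) *
        ((n : K) ^ 2 * a ^ 2 * ((a : K) ^ 2 - b ^ 2) / (v * v')) * (v * v' * f)) :=
      (IsSquare.mul_self _).mul h
  have e : ((n : K) ^ 2 * a ^ 2 * ((a : K) ^ 2 - b ^ 2) / (v * v')) *
        ((n : K) ^ 2 * a ^ 2 * ((a : K) ^ 2 - b ^ 2) / (v * v')) * (v * v' * f) =
      ((n : K) ^ 2 * a ^ 2 * ((a : K) ^ 2 - b ^ 2) / v) *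
      ((n : K) ^ 2 * a ^ 2 * ((a : K) ^ 2 - b ^ 2) / v') * f := by
    field_simp
  rwa [e] at h3

lemma loc_pt {n a b d1 d2 : ℤ} (h : LocC K 0 (n * a ^ 2) (n * b ^ 2) d1 d2) :
    ∃ u v w : K, Pt3 n a b u v w ∧ IsSquare (u * d1) ∧ IsSquare (v * d2) := by
  obtain ⟨x, y, hy, hxy, h1, h2⟩ := h
  push_cast at hxy h1 h2
  rw [sub_zero] at hxy h1
  have h0 : x * (x - n * a ^ 2) * (x - n * b ^ 2) ≠ 0 := by
    rw [← hxy]
    exact pow_ne_zero 2 hy
  exact ⟨x, x - n * a ^ 2, x - n * b ^ 2,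
    ⟨left_ne_zero_of_mul (left_ne_zero_of_mul h0), right_ne_zero_of_mul (left_ne_zero_of_mul h0),
      right_ne_zero_of_mul h0, by ring, by ring, ⟨y, by rw [← hxy, pow_two]⟩⟩, h1, h2⟩

lemma two_sq' {x y z : K} (hz : z ≠ 0) (h1 : IsSquare (x * z)) (h2 : IsSquare (y * z)) :
    IsSquare (x * y) := by
  rw [mul_comm y] at h2
  exact sq_trans hz h1 h2

lemma cls [CharZero K] {v v' : K} {d2 e2 f : ℤ} {r : ℚ} (hr : r ≠ 0)
    (hf : (d2 : ℚ) * e2 = f * r ^ 2) (h1 : IsSquare (v * d2)) (h2 : IsSquare (v' * e2)) :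
    IsSquare (v * v' * f) := by
  have h3 := congrArg (Rat.cast : ℚ → K) hf
  push_cast at h3
  have hr' : (r : K) ≠ 0 := by exact_mod_cast hr
  have h4 := h1.mul h2
  have e : v * (d2 : K) * (v' * e2) = ((r : K) * r) * (v * v' * f) := by
    calc v * (d2 : K) * (v' * e2) = v * v' * ((d2 : K) * e2) := by ring
      _ = _ := by rw [h3]; ring
  rw [e] at h4
  exact sq_cancel (mul_ne_zero hr' hr') (IsSquare.mul_self _) h4

end fld

/-- squarefree integers in the same class -/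
lemma sqf_uniq {a b s : ℤ} (ha : Squarefree a) (hb : Squarefree b) (h : a * b = s * s) :
    a = b := by
  have h1 : a ∣ s ^ 2 := ⟨b, by rw [pow_two, h]⟩
  have h2 : a ∣ s := (ha.dvd_pow_iff_dvd two_ne_zero).1 h1
  obtain ⟨t, rfl⟩ := h2
  have h3 : b = a * (t * t) := by
    have h4 : a * b = a * (a * (t * t)) := by rw [h]; ring
    exact mul_left_cancel₀ ha.ne_zero h4
  have h5 : IsUnit t := hb t ⟨a, by rw [h3]; ring⟩
  rw [h3]
  rcases Int.isUnit_iff.1 h5 with h6 | h6 <;> rw [h6] <;> ring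

lemma two_cls {u : ℚ_[2]} (hu : u ≠ 0) (h : Even u.valuation) :
    (IsSquare u ∨ IsSquare (5 * u)) ∨ IsSquare (3 * u) ∨ IsSquare (7 * u) := by
  obtain ⟨s, hs, he⟩ := unit_part hu
  obtain ⟨k, hk⟩ := h
  have h2 : IsSquare ((2 : ℚ_[2]) ^ u.valuation) := by
    refine ⟨(2 : ℚ_[2]) ^ k, ?_⟩
    rw [← zpow_add₀ (by norm_num : (2 : ℚ_[2]) ≠ 0), hk]
  have hc : ∀ (c : ℤ), (c : ZMod (2 ^ 3)) * (c : ZMod (2 ^ 3)) = 1 →
      PadicInt.toZModPow 3 s = (c : ZMod (2 ^ 3)) → IsSquare ((c : ℚ_[2]) * u) := by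
    intro c hc1 hc2
    have h3 : IsSquare ((((c : ℤ_[2]) * s : ℤ_[2])) : ℚ_[2]) := by
      apply sq_of_mod8
      rw [map_mul, map_intCast, hc2, hc1]
    have h4 := h2.mul h3
    have e : (2 : ℚ_[2]) ^ u.valuation * ((((c : ℤ_[2]) * s : ℤ_[2])) : ℚ_[2]) = (c : ℚ_[2]) * u := by
      conv_rhs => rw [he]
      push_cast
      ring
    rwa [e] at h4
  have h5 := unit_odd hs
  simp only [Set.mem_insert_iff, Set.mem_singleton_iff] at h5
  rcases h5 with h5 | h5 | h5 | h5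
  · left; left
    have := hc 1 (by decide) (by rw [h5]; rfl)
    simpa using this
  · right; left
    have := hc 3 (by decide) (by rw [h5]; rfl)
    simpa using this
  · left; right
    have := hc 5 (by decide) (by rw [h5]; rfl)
    simpa using this
  · right; right
    have := hc 7 (by decide) (by rw [h5]; rfl)
    simpa using this

lemma sq_int8 {c : ℤ} (h : c % 8 = 1) : IsSquare (c : ℚ_[2]) := by
  have h1 : IsSquare (((c : ℤ_[2])) : ℚ_[2]) := by
    apply sq_of_mod8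
    rw [map_intCast]
    have h2 : ((8 : ℕ) : ℤ) ∣ c - 1 := by push_cast; omega
    have h3 := (ZMod.intCast_zmod_eq_zero_iff_dvd (c - 1) 8).2 h2
    push_cast at h3
    exact sub_eq_zero.1 h3
  simpa using h1

/-- at `2`: if `u` is not `1, 5` then `n u` is -/
lemma two_n {n : ℕ} (hn : n % 8 = 3) {u : ℚ_[2]} (hu : u ≠ 0) (h : Even u.valuation) :
    (IsSquare u ∨ IsSquare (5 * u)) ∨ (IsSquare (u * n) ∨ IsSquare (5 * (u * n))) := by
  have h3 : IsSquare (((3 * n : ℤ)) : ℚ_[2]) := sq_int8 (by omega)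
  have h105 : IsSquare (((105 : ℤ)) : ℚ_[2]) := sq_int8 (by norm_num)
  push_cast at h3 h105
  rcases two_cls hu h with h1 | h1 | h1
  · exact Or.inl h1
  · right; left
    have h4 := h1.mul h3
    have e : 3 * u * (3 * (n : ℚ_[2])) = (3 * 3) * (u * n) := by ring
    rw [e] at h4
    exact sq_cancel (by norm_num) (IsSquare.mul_self _) h4
  · right; right
    have h4 := (h1.mul h3).mul h105
    have e : 7 * u * (3 * (n : ℚ_[2])) * 105 = (21 * 21) * (5 * (u * n)) := by ring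
    rw [e] at h4
    exact sq_cancel (by norm_num) (IsSquare.mul_self _) h4

lemma adm_n0 {n : ℕ} {a b : ℤ} (h : Adm n a b) : n ≠ 0 := h.sqf.ne_zero

lemma adm_a0 {n : ℕ} {a b : ℤ} (h : Adm n a b) : a ≠ 0 := by
  rintro rfl
  have := h.a2
  norm_num at this

lemma adm_ab0 {n : ℕ} {a b : ℤ} (h : Adm n a b) : a ^ 2 - b ^ 2 ≠ 0 := by
  intro h0
  have h1 := h.a2
  have h2 := h.b2
  have h3 : a = b ∨ a = -b := sq_eq_sq_iff_eq_or_eq_neg.1 (by linarith)
  omega

/-- `n` is not a square in `ℚ_p` for `p ∣ a² - b²` -/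
lemma nonsq {n : ℕ} {a b : ℤ} (h : Adm n a b) (p : ℕ) [hp : Fact p.Prime] (hp2 : p ≠ 2)
    (hpn : ¬ p ∣ n) (hpd : (p : ℤ) ∣ a ^ 2 - b ^ 2) : ¬ IsSquare (n : ℚ_[p]) := by
  rintro ⟨r, hr⟩
  apply h.dd p hp.out hp2 hpd
  have h1 : ‖r‖ ≤ 1 := by
    by_contra hcon
    push Not at hcon
    have h2 : ‖((n : ℤ) : ℚ_[p])‖ ≤ 1 := Padic.norm_int_le_one n
    have h2' : ‖(n : ℚ_[p])‖ ≤ 1 := by exact_mod_cast h2
    rw [hr, norm_mul] at h2'
    nlinarith
  obtain ⟨v, hv⟩ : ∃ v : ℤ_[p], (v : ℚ_[p]) = r := ⟨⟨r, h1⟩, rfl⟩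
  have h2 : ((n : ℕ) : ℤ_[p]) = v * v := by
    apply Subtype.ext
    rw [PadicInt.coe_mul, hv, PadicInt.coe_natCast]
    exact hr
  have h3 := congrArg (PadicInt.toZMod (p := p)) h2
  rw [map_mul, map_natCast] at h3
  have hn0 : ((n : ℤ) : ZMod p) ≠ 0 := by
    intro h0
    apply hpn
    rw [ZMod.intCast_zmod_eq_zero_iff_dvd] at h0
    exact_mod_cast h0
  have hprime : Fact p.Prime := hp
  rw [← jacobiSym.legendreSym.to_jacobiSym, legendreSym.eq_one_iff p hn0]
  refine ⟨PadicInt.toZMod v, ?_⟩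
  push_cast
  exact h3

section main

variable {n : ℕ} {a b : ℤ}

/-- the first coordinate -/
lemma fst_mem (hR : S_RAM) (hU : S_UNR) (hT : S_TWO) (h : Adm n a b) {d1 d2 : ℤ}
    (hd : (d1, d2) ∈ SelG 0 (n * a ^ 2) (n * b ^ 2)) : d1 ∈ SA n := by
  obtain ⟨s1, s2, hr, hp⟩ := hd
  simp only at s1 s2 hr hp
  have hn0 := adm_n0 h
  have ha0 := adm_a0 h
  refine ⟨s1, ?_, ?_, ?_⟩
  · obtain ⟨u, v, w, hP, h1, -⟩ := loc_pt hr
    have k1 : 0 ≤ u * d1 := by
      obtain ⟨r, hr⟩ := h1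
      rw [hr]
      exact mul_self_nonneg r
    have k3 : 0 < u * v * w := by
      obtain ⟨r, hr⟩ := hP.sq
      refine lt_of_le_of_ne ?_ (mul_ne_zero (mul_ne_zero hP.u0 hP.v0) hP.w0).symm
      rw [hr]
      exact mul_self_nonneg r
    have e1 := hP.uv
    have e2 := hP.uw
    have k4 : (0 : ℝ) ≤ ((n : ℤ) : ℝ) * (a : ℝ) ^ 2 := by positivity
    have k5 : (0 : ℝ) ≤ ((n : ℤ) : ℝ) * (b : ℝ) ^ 2 := by positivity
    have hu : 0 < u := by
      by_contra hcon
      push Not at hcon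
      have hv : v ≤ 0 := by linarith
      have hw : w ≤ 0 := by linarith
      have : u * v * w ≤ 0 := mul_nonpos_of_nonneg_of_nonpos (mul_nonneg_of_nonpos_of_nonpos hcon hv) hw
      linarith
    by_contra hcon
    have h3 : (d1 : ℝ) < 0 := by
      have h4 := s1.ne_zero
      have : d1 < 0 := by omega
      exact_mod_cast this
    nlinarith
  · intro p hpp hpd
    have : Fact p.Prime := ⟨hpp⟩
    by_contra hpn
    obtain ⟨u, v, w, hP, h1, -⟩ := loc_pt (hp p)
    have he : Even u.valuation := by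
      by_cases hp2 : p = 2
      · subst hp2
        exact (hT n a b h u v w hP).1
      · exact (hU n a b h p hp2 hpn u v w hP).1
    exact not_dvd_of_even hP.u0 he s1 h1 hpd
  · intro p hpp hpn
    obtain ⟨u, v, w, hP, h1, -⟩ := loc_pt (hp p)
    rcases (hR n a b h p hpn u v w hP).1 with h2 | h2
    · left
      exact sq_cancel hP.u0 h2 h1
    · right
      rw [mul_comm] at h1
      exact sq_trans hP.u0 h1 h2

/-- the quotient of two classes -/
lemma snd_mem (hR : S_RAM) (hU : S_UNR) (hT : S_TWO) (h : Adm n a b) {d1 d2 e2 f : ℤ} {r : ℚ}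
    (hd : (d1, d2) ∈ SelG 0 (n * a ^ 2) (n * b ^ 2))
    (he : (d1, e2) ∈ SelG 0 (n * a ^ 2) (n * b ^ 2)) (hr : r ≠ 0) (hsf : Squarefree f)
    (hf : (d2 : ℚ) * e2 = f * r ^ 2) : f ∈ SB n := by
  obtain ⟨s1, s2, -, hp⟩ := hd
  obtain ⟨-, s3, -, hp'⟩ := he
  simp only at s1 s2 s3 hp hp'
  have hn0 := adm_n0 h
  have ha0 := adm_a0 h
  have hab0 := adm_ab0 h
  -- local data
  have loc : ∀ (p : ℕ) [Fact p.Prime], ∃ u v w u' v' w' : ℚ_[p], Pt3 n a b u v w ∧
      Pt3 n a b u' v' w' ∧ IsSquare (u * u') ∧ IsSquare (v * v' * f) := by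
    intro p hpp
    obtain ⟨u, v, w, hP, h1, h2⟩ := loc_pt (hp p)
    obtain ⟨u', v', w', hP', h1', h2'⟩ := loc_pt (hp' p)
    have hd1 : (d1 : ℚ_[p]) ≠ 0 := by exact_mod_cast s1.ne_zero
    exact ⟨u, v, w, u', v', w', hP, hP', two_sq' hd1 h1 h1', cls hr hf h2 h2'⟩
  have shf : ∀ (p : ℕ) [Fact p.Prime] (u v w u' v' w' : ℚ_[p]), Pt3 n a b u v w →
      Pt3 n a b u' v' w' → IsSquare (v * v' * f) →
      ∃ U V W U' V' W' : ℚ_[p], Pt3 n a b U V W ∧ Pt3 n a b U' V' W' ∧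
        IsSquare (U * (u * n)) ∧ IsSquare (U' * (u' * n)) ∧ IsSquare (V * V' * f) := by
    intro p hpp u v w u' v' w' hP hP' h1
    have hn' : (((n : ℤ)) : ℚ_[p]) ≠ 0 := by exact_mod_cast hn0
    have ha' : (a : ℚ_[p]) ≠ 0 := by exact_mod_cast ha0
    have hab' : (a : ℚ_[p]) ^ 2 - (b : ℚ_[p]) ^ 2 ≠ 0 := by exact_mod_cast hab0
    have q1 := shift_u hP
    have q2 := shift_u hP'
    rw [Int.cast_natCast] at q1 q2
    exact ⟨_, _, _, _, _, _, shift hP hn' ha' hab', shift hP' hn' ha' hab', by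
      rw [Int.cast_natCast]; exact q1, by rw [Int.cast_natCast]; exact q2,
      shift_v hP.v0 hP'.v0 h1⟩
  -- the prime 2
  have f4 : f % 4 = 1 := by
    obtain ⟨u, v, w, u', v', w', hP, hP', huu, hvv⟩ := loc 2
    have h5 : (5 : ℚ_[2]) ≠ 0 := by norm_num
    have key : IsSquare (f : ℚ_[2]) ∨ IsSquare ((f : ℚ_[2]) * 5) := by
      have tr : ∀ {x y : ℚ_[2]}, x ≠ 0 → IsSquare (x * y) → (IsSquare x ∨ IsSquare (5 * x)) →
          (IsSquare y ∨ IsSquare (5 * y)) := by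
        intro x y hx hxy h1
        rcases h1 with h1 | h1
        · left
          exact sq_cancel hx h1 hxy
        · right
          exact sq_trans hx h1 hxy
      have fin : ∀ {u v w u' v' w' : ℚ_[2]}, Pt3 n a b u v w → Pt3 n a b u' v' w' →
          IsSquare (v * v' * f) → (IsSquare u ∨ IsSquare (5 * u)) →
          (IsSquare u' ∨ IsSquare (5 * u')) → IsSquare (f : ℚ_[2]) ∨ IsSquare ((f : ℚ_[2]) * 5) := by
        intro u v w u' v' w' hP hP' hvv c1 c2
        have g1 := (hT n a b h u v w hP).2 c1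
        have g2 := (hT n a b h u' v' w' hP').2 c2
        rw [mul_comm (5 : ℚ_[2])] at g1 g2
        exact comb h5 hP.v0 hP'.v0 g1 g2 hvv
      rcases two_n h.n8 hP.u0 (hT n a b h u v w hP).1 with c1 | c1
      · exact fin hP hP' hvv c1 (tr hP.u0 huu c1)
      · obtain ⟨U, V, W, U', V', W', hQ, hQ', g1, g2, g3⟩ := shf 2 u v w u' v' w' hP hP' hvv
        have hn' : (n : ℚ_[2]) ≠ 0 := by exact_mod_cast hn0
        have hun : u * (n : ℚ_[2]) ≠ 0 := mul_ne_zero hP.u0 hn'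
        have hun' : u' * (n : ℚ_[2]) ≠ 0 := mul_ne_zero hP'.u0 hn'
        have c2 : IsSquare (u' * (n : ℚ_[2])) ∨ IsSquare (5 * (u' * (n : ℚ_[2]))) := by
          refine tr hun ?_ c1
          have := (IsSquare.mul_self (n : ℚ_[2])).mul huu
          have e : (n : ℚ_[2]) * n * (u * u') = u * n * (u' * n) := by ring
          rwa [e] at this
        rw [mul_comm] at g1 g2
        exact fin hQ hQ' g3 (tr hun g1 c1) (tr hun' g2 c2)
    rcases key with key | key
    · have h9 : ¬ ((2 : ℕ) : ℤ) ∣ f := by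
        have h10 : IsSquare ((1 : ℚ_[2]) * f) := by rwa [one_mul]
        exact not_dvd_of_even one_ne_zero (by rw [Padic.valuation_one]; exact Even.zero) hsf h10
      have := mod_of_sq (by exact_mod_cast h9) key
      omega
    · have h10 : IsSquare ((5 : ℚ_[2]) * f) := by rwa [mul_comm]
      have h9 : ¬ ((2 : ℕ) : ℤ) ∣ f := by
        refine not_dvd_of_even h5 ?_ hsf h10
        have : ((5 : ℤ) : ℚ_[2]).valuation = 0 := val_zero (by norm_num)
        have h5' : (5 : ℚ_[2]).valuation = 0 := by exact_mod_cast this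
        rw [h5']
        exact Even.zero
      have h11 := mod_of_sq (d := 5 * f) (by push_cast at h9; omega) (by push_cast; exact h10)
      omega
  refine ⟨hsf, f4, ?_, ?_⟩
  · -- the primes not dividing `n`
    intro p hpp hpf
    have : Fact p.Prime := ⟨hpp⟩
    by_contra hpn
    obtain ⟨u, v, w, u', v', w', hP, hP', huu, hvv⟩ := loc p
    by_cases hp2 : p = 2
    · subst hp2
      push_cast at hpf
      omega
    · have ev : ∀ {v v' : ℚ_[p]}, v ≠ 0 → v' ≠ 0 → IsSquare (v * v' * f) → Even v.valuation →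
          Even v'.valuation → False := by
        intro v v' hv hv' h1 h2 h3
        refine not_dvd_of_even (mul_ne_zero hv hv') ?_ hsf h1 hpf
        rw [Padic.valuation_mul hv hv']
        exact h2.add h3
      have hn' : (n : ℚ_[p]) ≠ 0 := by exact_mod_cast hn0
      by_cases hpd : (p : ℤ) ∣ a ^ 2 - b ^ 2
      · have hns := nonsq h p hp2 hpn hpd
        by_cases hun : IsSquare (u * (n : ℚ_[p]))
        · obtain ⟨U, V, W, U', V', W', hQ, hQ', g1, g2, g3⟩ := shf p u v w u' v' w' hP hP' hvv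
          have hun' : IsSquare (u' * (n : ℚ_[p])) := by
            have h1 : IsSquare (u' * u) := by rwa [mul_comm]
            exact sq_trans hP.u0 h1 hun
          have q1 : IsSquare U := by
            rw [mul_comm] at g1
            exact sq_cancel (mul_ne_zero hP.u0 hn') hun g1
          have q2 : IsSquare U' := by
            rw [mul_comm] at g2
            exact sq_cancel (mul_ne_zero hP'.u0 hn') hun' g2
          have r1 : Even V.valuation := by
            rcases (hU n a b h p hp2 hpn U V W hQ).2 with h1 | h1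
            · exact h1
            · exact absurd (sq_cancel hQ.u0 q1 h1.2) hns
          have r2 : Even V'.valuation := by
            rcases (hU n a b h p hp2 hpn U' V' W' hQ').2 with h1 | h1
            · exact h1
            · exact absurd (sq_cancel hQ'.u0 q2 h1.2) hns
          exact ev hQ.v0 hQ'.v0 g3 r1 r2
        · have hun' : ¬ IsSquare (u' * (n : ℚ_[p])) := by
            intro h1
            exact hun (sq_trans hP'.u0 huu h1)
          refine ev hP.v0 hP'.v0 hvv ?_ ?_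
          · rcases (hU n a b h p hp2 hpn u v w hP).2 with h1 | h1
            · exact h1
            · exact absurd h1.2 hun
          · rcases (hU n a b h p hp2 hpn u' v' w' hP').2 with h1 | h1
            · exact h1
            · exact absurd h1.2 hun'
      · refine ev hP.v0 hP'.v0 hvv ?_ ?_
        · rcases (hU n a b h p hp2 hpn u v w hP).2 with h1 | h1
          · exact h1
          · exact absurd h1.1 hpd
        · rcases (hU n a b h p hp2 hpn u' v' w' hP').2 with h1 | h1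
          · exact h1
          · exact absurd h1.1 hpd
  · -- the primes dividing `n`
    intro p hpp hpn
    obtain ⟨u, v, w, u', v', w', hP, hP', huu, hvv⟩ := loc p
    have hn' : (-(n : ℚ_[p])) ≠ 0 := neg_ne_zero.2 (by exact_mod_cast hn0)
    have fin : ∀ {u v w u' v' w' : ℚ_[p]}, Pt3 n a b u v w → Pt3 n a b u' v' w' →
        IsSquare (v * v' * f) → IsSquare u → IsSquare u' →
        IsSquare (f : ℚ_[p]) ∨ IsSquare ((f : ℚ_[p]) * (-n)) := by
      intro u v w u' v' w' hP hP' hvv c1 c2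
      exact comb hn' hP.v0 hP'.v0 ((hR n a b h p hpn u v w hP).2 c1)
        ((hR n a b h p hpn u' v' w' hP').2 c2) hvv
    rcases (hR n a b h p hpn u v w hP).1 with c1 | c1
    · exact fin hP hP' hvv c1 (sq_cancel hP.u0 c1 huu)
    · obtain ⟨U, V, W, U', V', W', hQ, hQ', g1, g2, g3⟩ := shf p u v w u' v' w' hP hP' hvv
      have hn'' : (n : ℚ_[p]) ≠ 0 := by exact_mod_cast hn0
      have c2 : IsSquare (u' * (n : ℚ_[p])) := by
        have h1 : IsSquare (u' * u) := by rwa [mul_comm]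
        exact sq_trans hP.u0 h1 c1
      rw [mul_comm] at g1 g2
      exact fin hQ hQ' g3 (sq_cancel (mul_ne_zero hP.u0 hn'') c1 g1)
        (sq_cancel (mul_ne_zero hP'.u0 hn'') c2 g2)

open scoped Classical in
/-- the squarefree part -/
noncomputable def sqf (q : ℚ) : ℤ := if h : q = 0 then 1 else (exists_sqf q h).choose

lemma sqf_spec {q : ℚ} (hq : q ≠ 0) : Squarefree (sqf q) ∧ ∃ r : ℚ, r ≠ 0 ∧ q = sqf q * r ^ 2 := by
  rw [sqf, dif_neg hq]
  obtain ⟨r, h1, h2, h3⟩ := (exists_sqf q hq).choose_spec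
  exact ⟨h1, r, h2, h3⟩

end main

end SEL

open SEL in
theorem t_SEL : S_SEL := by
  classical
  intro hR hU hT n a b h hA hB
  set S := SelG 0 (n * a ^ 2) (n * b ^ 2) with hS
  -- a chosen second coordinate
  have hch : ∀ d1 : ℤ, ∃ e2 : ℤ, (∃ d2, (d1, d2) ∈ S) → (d1, e2) ∈ S := by
    intro d1
    by_cases hd : ∃ d2, (d1, d2) ∈ S
    · obtain ⟨d2, hd2⟩ := hd
      exact ⟨d2, fun _ => hd2⟩
    · exact ⟨1, fun h => absurd h hd⟩
  choose e he using hch
  set Φ : ℤ × ℤ → ℤ × ℤ := fun d => (d.1, sqf ((d.2 : ℚ) * e d.1)) with hΦ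
  have hne : ∀ d ∈ S, (d.2 : ℚ) * (e d.1 : ℚ) ≠ 0 := by
    intro d hd
    have h1 : (d.1, e d.1) ∈ S := he d.1 ⟨d.2, hd⟩
    have h2 : Squarefree d.2 := hd.2.1
    have h3 : Squarefree (e d.1) := h1.2.1
    exact mul_ne_zero (by exact_mod_cast h2.ne_zero) (by exact_mod_cast h3.ne_zero)
  have hmaps : ∀ d ∈ S, Φ d ∈ SA n ×ˢ SB n := by
    intro d hd
    have h1 : (d.1, e d.1) ∈ S := he d.1 ⟨d.2, hd⟩
    obtain ⟨h2, r, hr, h3⟩ := sqf_spec (hne d hd)
    exact Set.mk_mem_prod (fst_mem hR hU hT h hd) (snd_mem hR hU hT h hd h1 hr h2 h3)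
  have hinj : Set.InjOn Φ S := by
    intro d hd d' hd' hdd
    have e1 : (Φ d).1 = (Φ d').1 := congrArg Prod.fst hdd
    have e2 : (Φ d).2 = (Φ d').2 := congrArg Prod.snd hdd
    change d.1 = d'.1 at e1
    change sqf ((d.2 : ℚ) * e d.1) = sqf ((d'.2 : ℚ) * e d'.1) at e2
    obtain ⟨-, r, hr, h3⟩ := sqf_spec (hne d hd)
    obtain ⟨-, r', hr', h3'⟩ := sqf_spec (hne d' hd')
    rw [← e2, ← e1] at h3'
    have he0 : (e d.1 : ℚ) ≠ 0 := right_ne_zero_of_mul (hne d hd)
    have hsq : IsSquare (((d.2 * d'.2 : ℤ)) : ℚ) := by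
      refine ⟨(sqf ((d.2 : ℚ) * e d.1) : ℚ) * r * r' / e d.1, ?_⟩
      have h4 : (d.2 : ℚ) * d'.2 * ((e d.1 : ℚ) * e d.1) =
          (sqf ((d.2 : ℚ) * e d.1) * r ^ 2) * (sqf ((d.2 : ℚ) * e d.1) * r' ^ 2) := by
        rw [← h3, ← h3']
        ring
      push_cast
      field_simp
      linear_combination h4
    rw [Rat.isSquare_intCast_iff] at hsq
    obtain ⟨s, hs⟩ := hsq
    have e3 : d.2 = d'.2 := sqf_uniq hd.2.1 hd'.2.1 hs
    exact Prod.ext e1 e3
  have hfin : (SA n ×ˢ SB n).Finite := hA.prod hB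
  refine ⟨Set.Finite.of_injOn (fun d hd => hmaps d hd) hinj hfin, ?_⟩
  rw [← Set.ncard_prod]
  exact Set.ncard_le_ncard_of_injOn Φ (fun d hd => hmaps d hd) hinj hfin

end Pool.Agent.N873.UT
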