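import Pool.Agent.N873.UT.Stm
import Pool.Agent.Y545.Z702.Tor

/-!
# Project UT (helper873), job UT/TO: rational points of the isogenous curve `y² = x (x + A) (x + B)`,
`A = n (a + b)²`, `B = n (a - b)²`

Generalisation of `Pool.Agent.N875.X15.tor4`.
-/

set_option autoImplicit false

namespace Pool.Agent.N873.UT.TO

open WeierstrassCurve Pool.Agent.Y668 Pool.Agent.Y545.Z702

section

variable {A B N : ℚ}

/-- the curve `y² = x (x + A) (x + B)` -/
abbrev EI (A B : ℚ) : WeierstrassCurve ℚ := Wt (A + B) (A * B)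

lemma disc_ne (hAB : A ≠ B) : (A + B) ^ 2 - 4 * (A * B) ≠ 0 := by
  have : (A + B) ^ 2 - 4 * (A * B) = (A - B) ^ 2 := by ring
  rw [this]
  exact pow_ne_zero 2 (sub_ne_zero.2 hAB)

lemma C_ne (hA : 0 < A) (hB : 0 < B) : A * B ≠ 0 := mul_ne_zero hA.ne' hB.ne'

/-- the point with abscissa `r` -/
noncomputable def P2 (hA : 0 < A) (hB : 0 < B) (hAB : A ≠ B) (r : ℚ)
    (h : (0 : ℚ) ^ 2 = r ^ 3 + (A + B) * r ^ 2 + A * B * r) :
    (EI A B).toAffine.Point := Affine.Point.some r 0 (ns_of (C_ne hA hB) (disc_ne hAB) h)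

/-- the double of a point that is not killed by two -/
lemma dbl_x {x y : ℚ} (h : (EI A B).toAffine.Nonsingular x y) (hy : y ≠ 0) :
    ∃ x' y' h', (Affine.Point.some x y h + .some x y h : (EI A B).toAffine.Point) =
      .some x' y' h' ∧ IsSquare (x' + A) := by
  have hneg : y ≠ (EI A B).toAffine.negY x y := by
    intro h1
    apply hy
    simp only [Affine.negY, Wt] at h1
    linarith
  rw [Affine.Point.add_self_of_Y_ne hneg]
  refine ⟨_, _, _, rfl, ?_⟩
  have q1 := Wt_eqn.mp h.1
  have h2y : 2 * y ≠ 0 := mul_ne_zero two_ne_zero hy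
  set s := (EI A B).toAffine.slope x x y y with hs
  have hslope : s * (2 * y) = 3 * x ^ 2 + 2 * (A + B) * x + A * B := by
    rw [hs, Affine.slope_of_Y_ne rfl hneg]
    simp only [Affine.negY, Wt]
    have e3' : y - (-y - 0 * x - 0) = 2 * y := by ring
    rw [e3', div_mul_cancel₀ _ h2y]
    ring
  have hX : (EI A B).toAffine.addX x x s = s ^ 2 - (A + B) - 2 * x := by
    simp only [Affine.addX, Wt]; ring
  rw [hX]
  refine ⟨(x ^ 2 + 2 * A * x + A * B) / (2 * y), ?_⟩
  have h5 : (s * (2 * y)) ^ 2 = (3 * x ^ 2 + 2 * (A + B) * x + A * B) ^ 2 := by rw [hslope]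
  have key : (s ^ 2 - (A + B) - 2 * x + A) * (2 * y) ^ 2 = (x ^ 2 + 2 * A * x + A * B) ^ 2 := by
    linear_combination h5 + (-4 * B - 8 * x) * q1
  field_simp
  linear_combination key

/-- **Every point is the sum of a point of order two and of the double of a point.** -/
lemma half4 (hA : 0 < A) (hB : 0 < B) (hAB : A ≠ B) (hns : ¬ IsSquare A) (hsq : IsSquare (A * B))
    (hAN : IsSquare (A * N)) (hBN : IsSquare (B * N)) (hf : Finite (EI A B).toAffine.Point)
    (P : (EI A B).toAffine.Point) :
    ∃ (T : (EI A B).toAffine.Point) (Q : (EI A B).toAffine.Point), P = T + (Q + Q) ∧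
      (IsSquare (al (A + B) (A * B) T) ∨ IsSquare (al (A + B) (A * B) T * (-N))) := by
  classical
  have hC := C_ne hA hB
  have hnA : -A ≠ 0 := neg_ne_zero.2 hA.ne'
  have hnB : -B ≠ 0 := neg_ne_zero.2 hB.ne'
  set T0 := P2 hA hB hAB 0 (by ring) with hT0
  set T1 := P2 hA hB hAB (-A) (by ring) with hT1
  set T2 := P2 hA hB hAB (-B) (by ring) with hT2
  let f : (EI A B).toAffine.Point →+ (EI A B).toAffine.Point := AddMonoidHom.id _ + AddMonoidHom.id _
  have hfa : ∀ Q, f Q = Q + Q := fun Q => rfl
  have hdbl : ∀ (r : ℚ) (h), P2 hA hB hAB r h + P2 hA hB hAB r h = 0 := by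
    intro r h
    have h1 : P2 hA hB hAB r h = -P2 hA hB hAB r h := by
      unfold P2
      rw [Affine.Point.neg_some]
      congr 1
      simp [Affine.negY, Wt]
    nth_rewrite 2 [h1]
    exact add_neg_cancel _
  have hker : (f.ker : Set (EI A B).toAffine.Point) = {0, T0, T1, T2} := by
    ext Q
    simp only [SetLike.mem_coe, AddMonoidHom.mem_ker, hfa, Set.mem_insert_iff,
      Set.mem_singleton_iff]
    constructor
    · intro h
      cases Q with
      | zero => left; rfl
      | some x y hn =>
        right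
        have h1 : (Affine.Point.some x y hn : (EI A B).toAffine.Point) =
            -Affine.Point.some x y hn := eq_neg_of_add_eq_zero_left h
        rw [Affine.Point.neg_some] at h1
        have h2 : y = (EI A B).toAffine.negY x y := by
          simpa using h1
        have h3 : y = 0 := by
          simp only [Affine.negY, Wt] at h2
          linarith
        subst h3
        have h4 := Wt_eqn.mp hn.1
        have h5 : x * ((x + A) * (x + B)) = 0 := by linear_combination -h4
        rcases mul_eq_zero.1 h5 with h6 | h6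
        · left; subst h6; rfl
        · right
          rcases mul_eq_zero.1 h6 with h7 | h7
          · left
            have : x = -A := by linear_combination h7
            subst this; rfl
          · right
            have : x = -B := by linear_combination h7
            subst this; rfl
    · rintro (rfl | rfl | rfl | rfl)
      · exact add_zero 0
      · exact hdbl _ _
      · exact hdbl _ _
      · exact hdbl _ _
  have hinj : ∀ (r r' : ℚ) (h h'), P2 hA hB hAB r h = P2 hA hB hAB r' h' → r = r' := by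
    intro r r' h h' h1
    unfold P2 at h1
    injection h1
  have hne0 : ∀ (r : ℚ) (h), P2 hA hB hAB r h ≠ 0 := fun r h => Affine.Point.some_ne_zero _
  have hcard : Nat.card f.ker = 4 := by
    have e : Nat.card f.ker = Nat.card (f.ker : Set (EI A B).toAffine.Point) := rfl
    rw [e, hker, Nat.card_coe_set_eq, Set.ncard_insert_of_notMem, Set.ncard_insert_of_notMem,
      Set.ncard_pair]
    · intro h
      have := hinj _ _ _ _ h
      apply hAB
      linear_combination -this
    · rintro (h | h)
      · have := hinj _ _ _ _ h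
        exact hnA this.symm
      · have := hinj _ _ _ _ h
        exact hnB this.symm
    · rintro (h | h | h)
      · exact hne0 _ _ h.symm
      · exact hne0 _ _ h.symm
      · exact hne0 _ _ h.symm
  -- the points of order two are not doubles
  have hnd : ∀ T ∈ f.ker, T ∈ f.range → T = 0 := by
    intro T hT hR
    obtain ⟨Q, hQ⟩ := hR
    rw [hfa] at hQ
    have hal := al_add (two_ne_zero (α := ℚ)) Q Q
    rw [hQ] at hal
    have hα : al (A + B) (A * B) Q ≠ 0 := al_ne hC Q
    have hsq : IsSquare (al (A + B) (A * B) T) := by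
      obtain ⟨r, hr⟩ := hal
      refine ⟨r / al (A + B) (A * B) Q, ?_⟩
      field_simp
      linear_combination hr
    have hT' : T ∈ (f.ker : Set (EI A B).toAffine.Point) := hT
    rw [hker] at hT'
    have hal2 : ∀ (r : ℚ) (h), r ≠ 0 → al (A + B) (A * B) (P2 hA hB hAB r h) = r := by
      intro r h hr
      unfold P2
      rw [al_some, if_neg hr]
    rcases hT' with h | h | h | h
    · exact h
    · exfalso
      cases Q with
      | zero =>
        have h1 : (0 : (EI A B).toAffine.Point) + 0 = T := hQ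
        rw [add_zero, h] at h1
        exact hne0 _ _ h1.symm
      | some x y hn =>
        by_cases hy : y = 0
        · have h1 : (Affine.Point.some x y hn : (EI A B).toAffine.Point) + .some x y hn = 0 := by
            subst hy
            refine Affine.Point.add_of_Y_eq rfl ?_
            simp [Affine.negY, Wt]
          rw [h1] at hQ
          rw [h] at hQ
          exact hne0 _ _ hQ.symm
        · obtain ⟨x', y', h', e1, e2⟩ := dbl_x hn hy
          rw [hQ, h] at e1
          rw [hT0] at e1
          unfold P2 at e1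
          injection e1 with e3 e4
          rw [← e3, zero_add] at e2
          exact hns e2
    · exfalso
      rw [h, hT1, hal2 _ _ hnA] at hsq
      obtain ⟨r, hr⟩ := hsq
      nlinarith [mul_self_nonneg r]
    · exfalso
      rw [h, hT2, hal2 _ _ hnB] at hsq
      obtain ⟨r, hr⟩ := hsq
      nlinarith [mul_self_nonneg r]
  -- counting
  let g : f.ker × f.range → (EI A B).toAffine.Point := fun x => x.1 + x.2
  have hginj : Function.Injective g := by
    rintro ⟨k, h⟩ ⟨k', h'⟩ he
    have he' : (k : (EI A B).toAffine.Point) + h = k' + h' := he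
    have h1 : (k : (EI A B).toAffine.Point) - k' = h' - h := by
      rw [sub_eq_sub_iff_add_eq_add, he']
      abel
    have h2 : (k : (EI A B).toAffine.Point) - k' = 0 :=
      hnd _ (f.ker.sub_mem k.2 k'.2) (by rw [h1]; exact f.range.sub_mem h'.2 h.2)
    have h3 : k = k' := Subtype.ext (sub_eq_zero.1 h2)
    have h4 : h = h' := by
      rw [h2] at h1
      exact Subtype.ext (sub_eq_zero.1 h1.symm).symm
    rw [h3, h4]
  have hgcard : Nat.card (f.ker × f.range) = Nat.card (EI A B).toAffine.Point := by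
    rw [Nat.card_prod]
    have h1 := f.ker.card_mul_index
    rw [AddSubgroup.index_ker] at h1
    exact h1
  have hgs : Function.Surjective g :=
    (hginj.bijective_of_nat_card_le hgcard.ge).2
  obtain ⟨⟨k, h⟩, hkh⟩ := hgs P
  obtain ⟨Q, hQ⟩ := h.2
  refine ⟨k, Q, ?_, ?_⟩
  · rw [← hkh, ← hfa, hQ]
  · have hk : (k : (EI A B).toAffine.Point) ∈ (f.ker : Set (EI A B).toAffine.Point) := k.2
    rw [hker] at hk
    rcases hk with h | h | h | h
    · left
      rw [h, al_zero]
      exact IsSquare.one
    · left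
      rw [h, hT0]
      unfold P2
      rw [al_some, if_pos rfl]
      exact hsq
    · right
      rw [h, hT1]
      unfold P2
      rw [al_some, if_neg hnA, neg_mul_neg]
      exact hAN
    · right
      rw [h, hT2]
      unfold P2
      rw [al_some, if_neg hnB, neg_mul_neg]
      exact hBN

end

/-- a squarefree integer different from `1` is not a rational square -/
lemma ns_n {n : ℕ} (hn : Squarefree n) (h8 : n % 8 = 3) : ¬ IsSquare (n : ℚ) := by
  intro h
  have h1 : IsSquare n := by
    have := (Rat.isSquare_natCast_iff).1 h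
    exact this
  obtain ⟨r, hr⟩ := h1
  have h2 : IsUnit r := hn r ⟨1, by rw [hr]; ring⟩
  rw [Nat.isUnit_iff] at h2
  rw [h2] at hr
  omega

end TO

open WeierstrassCurve Pool.Agent.Y668 Pool.Agent.Y545.Z702

/-- job UT/TO -/
theorem t_TO : S_TO := by
  intro n a b hadm hfin d hloc
  obtain ⟨X, Y, r, hX, hY, hXd⟩ := hloc
  have hn0 : (0 : ℚ) < n := by
    have := hadm.n8
    have h1 : 0 < n := by omega
    exact_mod_cast h1
  have hab1 : ((a : ℚ) + b) ≠ 0 := by
    have h1 := hadm.a2
    have h2 := hadm.b2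
    have : a + b ≠ 0 := by omega
    exact_mod_cast this
  have hab2 : ((a : ℚ) - b) ≠ 0 := by
    have h1 := hadm.a2
    have h2 := hadm.b2
    have : a - b ≠ 0 := by omega
    exact_mod_cast this
  have ha0 : (a : ℚ) ≠ 0 := by
    have h1 := hadm.a2
    have : a ≠ 0 := by omega
    exact_mod_cast this
  have hb0 : (b : ℚ) ≠ 0 := by exact_mod_cast hadm.b0
  set A : ℚ := n * (a + b) ^ 2 with hAdef
  set B : ℚ := n * (a - b) ^ 2 with hBdef
  have hA : 0 < A := by positivity
  have hB : 0 < B := by positivity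
  have hAB : A ≠ B := by
    intro h
    have h1 : 4 * (n : ℚ) * a * b = 0 := by
      rw [hAdef, hBdef] at h
      linear_combination h
    exact mul_ne_zero (mul_ne_zero (mul_ne_zero (by norm_num) hn0.ne') ha0) hb0 h1
  have hns : ¬ IsSquare A := by
    rintro ⟨s, hs⟩
    apply TO.ns_n hadm.sqf hadm.n8
    refine ⟨s / (a + b), ?_⟩
    rw [hAdef] at hs
    field_simp
    linear_combination hs
  have hsqAB : IsSquare (A * B) := ⟨n * (a + b) * (a - b), by rw [hAdef, hBdef]; ring⟩
  have hAN : IsSquare (A * n) := ⟨n * (a + b), by rw [hAdef]; ring⟩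
  have hBN : IsSquare (B * n) := ⟨n * (a - b), by rw [hBdef]; ring⟩
  have hb' : ((n ^ 2 * a ^ 2 * b ^ 2 : ℤ) : ℚ) ≠ 0 := by
    push_cast
    exact mul_ne_zero (mul_ne_zero (pow_ne_zero 2 hn0.ne') (pow_ne_zero 2 ha0)) (pow_ne_zero 2 hb0)
  have e2 : ((-(n * (a ^ 2 + b ^ 2)) : ℤ) : ℚ) ^ 2 - 4 * ((n ^ 2 * a ^ 2 * b ^ 2 : ℤ) : ℚ) =
      A * B := by
    rw [hAdef, hBdef]
    push_cast; ring
  have hc' : ((-(n * (a ^ 2 + b ^ 2)) : ℤ) : ℚ) ^ 2 - 4 * ((n ^ 2 * a ^ 2 * b ^ 2 : ℤ) : ℚ) ≠ 0 := by
    rw [e2]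
    exact mul_ne_zero hA.ne' hB.ne'
  have hf := fin_iso hb' hc' hfin
  have e1 : -2 * ((-(n * (a ^ 2 + b ^ 2)) : ℤ) : ℚ) = A + B := by
    rw [hAdef, hBdef]
    push_cast; ring
  rw [e1, e2] at hf
  have hY' : Y ^ 2 = X ^ 3 + (A + B) * X ^ 2 + (A * B) * X := by
    rw [hY, e2]
    have : (2 : ℚ) * ((-(n * (a ^ 2 + b ^ 2)) : ℤ) : ℚ) = -(A + B) := by
      linear_combination (-1) * e1
    rw [this]
    ring
  have hn := ns_of (TO.C_ne hA hB) (TO.disc_ne hAB) hY'
  have hr : r ≠ 0 := by
    rintro rfl
    apply hX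
    rw [hXd]; ring
  have hal : al (A + B) (A * B) (Affine.Point.some X Y hn) = X := by
    rw [al_some]
    simp [hX]
  obtain ⟨T, Q, hQ, hT⟩ := TO.half4 (N := (n : ℚ)) hA hB hAB hns hsqAB hAN hBN hf
    (Affine.Point.some X Y hn)
  have h1 := al_add (two_ne_zero (α := ℚ)) Q Q
  have h3 := al_add (two_ne_zero (α := ℚ)) T (Q + Q)
  rw [← hQ, hal] at h3
  obtain ⟨s, hs⟩ := h1
  obtain ⟨t, ht⟩ := h3
  set α := al (A + B) (A * B) Q
  set β := al (A + B) (A * B) (Q + Q)
  set γ := al (A + B) (A * B) T
  have hα : α ≠ 0 := al_ne (TO.C_ne hA hB) Q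
  have hβ : β ≠ 0 := al_ne (TO.C_ne hA hB) (Q + Q)
  have hγ : γ ≠ 0 := al_ne (TO.C_ne hA hB) T
  -- `X γ` is a square
  have hXγ : IsSquare (X * γ) := by
    refine ⟨s * t / (α * β), ?_⟩
    field_simp
    linear_combination (X * γ * β) * hs + s * s * ht
  obtain ⟨w, hw⟩ := hXγ
  rcases hT with ⟨z, hz⟩ | ⟨z, hz⟩
  · left
    have hz0 : z ≠ 0 := by
      rintro rfl
      apply hγ
      rw [hz]; ring
    refine ⟨w / (z * r), ?_⟩
    rw [hXd, hz] at hw
    field_simp
    linear_combination hw
  · right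
    have hz0 : z ≠ 0 := by
      rintro rfl
      rw [mul_zero] at hz
      exact mul_ne_zero hγ (neg_ne_zero.2 hn0.ne') hz
    refine ⟨w * z / (γ * r), ?_⟩
    rw [hXd] at hw
    field_simp
    linear_combination (-(n : ℚ) * γ) * hw + w ^ 2 * hz

end Pool.Agent.N873.UT
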