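import Mathlib
import Pool.Agent.N873.UT.Stm
import Pool.Agent.N916.GB.Tr

/-!
# UT: the translation to numbers (after `Pool/Agent/N916/GB/Tr.lean`)
-/

set_option autoImplicit false
set_option linter.all false

open scoped Classical

namespace Pool.Agent.N873.UT.TR

open Finset
open Pool.Agent.N873.UT
open Pool.Agent.N916.GB (Po Gd eta Gd_iff_Qc)
open Pool.Agent.N969.P15 (Qc)

/-! ### The bijection between sets of primes and squarefree numbers -/

theorem clM_iff {M : ℕ} {K : Finset ℕ} (hok : OkM M K) {D : ℕ} (hD : Squarefree D) :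
    ClM M K D.primeFactors ↔ D % M ∈ K := by
  obtain ⟨hM, h4, hK⟩ := hok
  unfold ClM
  rw [Nat.prod_primeFactors_of_squarefree hD]
  constructor
  · exact fun h => h.2
  · intro h
    refine ⟨fun p hp => ?_, h⟩
    obtain ⟨hpp, hpd, _⟩ := Nat.mem_primeFactors.1 hp
    refine ⟨hpp, ?_⟩
    rintro rfl
    have h1 := (hK _ h).2
    rw [Nat.mod_mod_of_dvd D h4] at h1
    omega

theorem card_eqM {M : ℕ} {K : Finset ℕ} (hok : OkM M K) (X : ℕ) (Q : Finset ℕ → Prop) :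
    ((Icc 1 X).filter fun D => Squarefree D ∧ D % M ∈ K ∧ Q D.primeFactors).card =
      ((SM M K X).filter Q).card := by
  refine Finset.card_bij (fun D _ => D.primeFactors) ?_ ?_ ?_
  · intro D hD
    obtain ⟨h1, h2, h3, h4⟩ := Finset.mem_filter.1 hD
    obtain ⟨h5, h6⟩ := Finset.mem_Icc.1 h1
    refine Finset.mem_filter.2 ⟨Finset.mem_filter.2 ⟨?_, (clM_iff hok h2).2 h3, ?_⟩, h4⟩
    · rw [Finset.mem_powerset]
      intro p hp
      have := Nat.le_of_dvd (by omega) (Nat.dvd_of_mem_primeFactors hp)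
      exact Finset.mem_range.2 (by omega)
    · rw [Nat.prod_primeFactors_of_squarefree h2]
      exact h6
  · intro D hD E hE h
    have h2 := (Finset.mem_filter.1 hD).2.1
    have h3 := (Finset.mem_filter.1 hE).2.1
    have h' : D.primeFactors = E.primeFactors := h
    rw [← Nat.prod_primeFactors_of_squarefree h2, ← Nat.prod_primeFactors_of_squarefree h3, h']
  · intro S hS
    obtain ⟨h1, h2⟩ := Finset.mem_filter.1 hS
    obtain ⟨h3, h4, h5⟩ := Finset.mem_filter.1 h1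
    have hpr : ∀ p ∈ S, p.Prime := fun p hp => (h4.1 p hp).1
    have hpf : (∏ p ∈ S, p).primeFactors = S := Nat.primeFactors_prod hpr
    have hsq : Squarefree (∏ p ∈ S, p) := by
      refine Finset.squarefree_prod_of_pairwise_isCoprime (fun p hp q hq hpq => ?_)
        fun p hp => (hpr p hp).squarefree
      show IsRelPrime p q
      rw [← Nat.coprime_iff_isRelPrime]
      exact (Nat.coprime_primes (hpr p hp) (hpr q hq)).mpr hpq
    refine ⟨∏ p ∈ S, p, ?_, hpf⟩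
    have hcl : ClM M K (∏ p ∈ S, p).primeFactors := by rw [hpf]; exact h4
    have c1 := (clM_iff hok hsq).1 hcl
    refine Finset.mem_filter.2 ⟨Finset.mem_Icc.2 ⟨?_, h5⟩, hsq, c1, ?_⟩
    · exact Nat.one_le_iff_ne_zero.2 hsq.ne_zero
    · rw [hpf]
      exact h2

/-! ### The modulus -/

/-- the number attached to a pair -/
def dc (c : ℤ × ℤ) : ℕ := (c.1 * c.2 * (c.1 ^ 2 - c.2 ^ 2)).natAbs

/-- the modulus -/
def md (F : Finset (ℤ × ℤ)) : ℕ := 8 * ∏ c ∈ F, dc c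

/-- the condition on the residue -/
def Cn (F : Finset (ℤ × ℤ)) (r : ℕ) : Prop := ∀ c ∈ F,
  (∀ p : ℕ, p.Prime → p ≠ 2 → (p : ℤ) ∣ c.1 * c.2 → jacobiSym (-(r : ℤ)) p ≠ 1) ∧
  (∀ p : ℕ, p.Prime → p ≠ 2 → (p : ℤ) ∣ c.1 ^ 2 - c.2 ^ 2 → jacobiSym (r : ℤ) p ≠ 1)

/-- the residues -/
noncomputable def Kr (F : Finset (ℤ × ℤ)) : Finset ℕ :=
  (range (md F)).filter fun r => r % 8 = 3 ∧ Cn F r

theorem dc_pos {c : ℤ × ℤ} (h : Pr c) : 0 < dc c := by
  obtain ⟨-, h1, h2, h3⟩ := h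
  unfold dc
  rw [Int.natAbs_pos]
  refine mul_ne_zero (mul_ne_zero ?_ h3) ?_
  · intro h0
    rw [h0] at h1
    norm_num at h1
  · intro h0
    have h4 : c.1 ^ 2 = c.2 ^ 2 := by linarith
    have h5 : Odd (c.1 ^ 2) := (Int.odd_iff.2 h1).pow
    have h6 : Even (c.2 ^ 2) := (Int.even_iff.2 h2).pow_of_ne_zero two_ne_zero
    rw [h4] at h5
    exact (Int.not_even_iff_odd.2 h5) h6

theorem md_pos {F : Finset (ℤ × ℤ)} (hF : ∀ c ∈ F, Pr c) : 0 < md F := by
  unfold md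
  exact Nat.mul_pos (by norm_num) (prod_pos fun c hc => dc_pos (hF c hc))

theorem ok (F : Finset (ℤ × ℤ)) (hF : ∀ c ∈ F, Pr c) : OkM (md F) (Kr F) := by
  refine ⟨md_pos hF, ⟨2 * ∏ c ∈ F, dc c, by unfold md; ring⟩, fun a ha => ?_⟩
  obtain ⟨h1, h2, -⟩ := mem_filter.1 ha
  exact ⟨mem_range.1 h1, by omega⟩

/-- the symbols depend on the residue only -/
theorem jac_mod {M n p : ℕ} (hp : p ∣ M) :
    jacobiSym (-((n % M : ℕ) : ℤ)) p = jacobiSym (-(n : ℤ)) p ∧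
      jacobiSym ((n % M : ℕ) : ℤ) p = jacobiSym (n : ℤ) p := by
  have h : ((n % M : ℕ) : ℤ) ≡ (n : ℤ) [ZMOD p] := by
    have h1 : n % M ≡ n [MOD p] := (Nat.mod_modEq n M).of_dvd hp
    exact (Int.natCast_modEq_iff).2 h1
  exact ⟨jacobiSym.mod_left' h.neg, jacobiSym.mod_left' h⟩

theorem dvd_md {F : Finset (ℤ × ℤ)} {c : ℤ × ℤ} (hc : c ∈ F) {p : ℕ}
    (h : (p : ℤ) ∣ c.1 * c.2 ∨ (p : ℤ) ∣ c.1 ^ 2 - c.2 ^ 2) : p ∣ md F := by
  have h1 : p ∣ dc c := by
    unfold dc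
    rw [← Int.natCast_dvd]
    rcases h with h | h
    · exact h.mul_right _
    · exact h.mul_left _
  exact (h1.trans (dvd_prod_of_mem dc hc)).mul_left 8

theorem Cn_iff (F : Finset (ℤ × ℤ)) (n : ℕ) : Cn F (n % md F) ↔ Cn F n := by
  unfold Cn
  refine forall₂_congr fun c hc => and_congr ?_ ?_
  · refine forall₄_congr fun p hp hp2 hd => ?_
    rw [(jac_mod (dvd_md hc (Or.inl hd))).1]
  · refine forall₄_congr fun p hp hp2 hd => ?_
    rw [(jac_mod (dvd_md hc (Or.inr hd))).2]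

theorem mem_NF (F : Finset (ℤ × ℤ)) (hF : ∀ c ∈ F, Pr c) (n : ℕ) :
    n ∈ NF F ↔ Squarefree n ∧ n % md F ∈ Kr F := by
  have h8 : n % md F % 8 = n % 8 := Nat.mod_mod_of_dvd n ⟨_, rfl⟩
  constructor
  · rintro ⟨h1, h2, h3⟩
    refine ⟨h1, mem_filter.2 ⟨mem_range.2 (Nat.mod_lt _ (md_pos hF)), by omega, ?_⟩⟩
    rw [Cn_iff]
    exact fun c hc => ⟨(h3 c hc).ab, (h3 c hc).dd⟩
  · rintro ⟨h1, h2⟩
    obtain ⟨h3, h4, h5⟩ := mem_filter.1 h2
    rw [Cn_iff] at h5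
    have h6 : n % 8 = 3 := by omega
    refine ⟨h1, h6, fun c hc => ?_⟩
    obtain ⟨p1, p2, p3, p4⟩ := hF c hc
    exact ⟨h1, h6, p1, p2, p3, p4, (h5 c hc).1, (h5 c hc).2⟩

end Pool.Agent.N873.UT.TR

namespace Pool.Agent.N873.UT

open Finset TR
open Pool.Agent.N916.GB (Po Gd eta Gd_iff_Qc)
open Pool.Agent.N969.P15 (Qc)

theorem t_TR : S_TR := by
  intro hDM F hF ε hε
  obtain ⟨X₀, hX₀⟩ := hDM (md F) (Kr F) (ok F hF) ε hε
  refine ⟨X₀, fun X hX => ?_⟩
  have h1 := hX₀ X hX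
  have e1 := card_eqM (ok F hF) X (Gd false 0 0)
  have e2 := card_eqM (ok F hF) X (fun _ => True)
  rw [Finset.filter_true] at e2
  simp only [and_true] at e2
  rw [← e1, ← e2] at h1
  have f1 : ((Icc 1 X).filter fun n => n ∈ NF F ∧ Qc n) =
      (Icc 1 X).filter fun D => Squarefree D ∧ D % md F ∈ Kr F ∧ Gd false 0 0 D.primeFactors := by
    refine filter_congr fun n _ => ?_
    rw [mem_NF F hF n]
    constructor
    · rintro ⟨⟨a1, a2⟩, a3⟩
      have h4 : n % 4 = 3 := by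
        have := ((ok F hF).2.2 _ a2).2
        rwa [Nat.mod_mod_of_dvd n (ok F hF).2.1] at this
      exact ⟨a1, a2, (Gd_iff_Qc a1 h4).2 a3⟩
    · rintro ⟨a1, a2, a3⟩
      have h4 : n % 4 = 3 := by
        have := ((ok F hF).2.2 _ a2).2
        rwa [Nat.mod_mod_of_dvd n (ok F hF).2.1] at this
      exact ⟨⟨a1, a2⟩, (Gd_iff_Qc a1 h4).1 a3⟩
  have f2 : ((Icc 1 X).filter fun n => n ∈ NF F) =
      (Icc 1 X).filter fun D => Squarefree D ∧ D % md F ∈ Kr F := by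
    refine filter_congr fun n _ => ?_
    rw [mem_NF F hF n]
  rw [f1, f2]
  exact h1

end Pool.Agent.N873.UT
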