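import Pool.Agent.N873.UT.Stm
import Pool.Agent.N875.X15.Two

/-!
# UT-TWO: the local images at the prime 2
-/

set_option autoImplicit false

namespace Pool.Agent.N873.UT.TWO

open Pool.Agent.N875.X15 (close2 sq_of_mod8 unit_part unit_odd int_of_sq val_add_eq even_val
  sq_cancel norm_lt_iff norm_eq_iff norm_le_iff)

lemma sq_mod8 {t : ℤ_[2]} (h : IsSquare (t : ℚ_[2])) :
    ∃ r : ZMod (2 ^ 3), PadicInt.toZModPow 3 t = r ^ 2 := by
  obtain ⟨y, hy⟩ := h
  obtain ⟨r, hr⟩ := int_of_sq (t := t) (y := y) (by rw [pow_two, hy])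
  exact ⟨PadicInt.toZModPow 3 r, by rw [← hr, map_pow]⟩

lemma mod3 {m : ℤ} (hm : m % 8 = 3) : PadicInt.toZModPow (p := 2) 3 (m : ℤ_[2]) = 3 := by
  rw [map_intCast]
  have h1 : ((8 : ℕ) : ℤ) ∣ m - 3 := by push_cast; omega
  have h2 := (ZMod.intCast_zmod_eq_zero_iff_dvd (m - 3) 8).2 h1
  push_cast at h2
  exact sub_eq_zero.1 h2

lemma two_mod : PadicInt.toZModPow (p := 2) 3 2 = 2 := map_ofNat (PadicInt.toZModPow (p := 2) 3) 2

lemma pow_odd {S : ℕ} (h : Odd S) : (2 : ZMod (2 ^ 3)) ^ S = 2 ∨ (2 : ZMod (2 ^ 3)) ^ S = 0 := by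
  obtain ⟨k, rfl⟩ := h
  rcases Nat.eq_zero_or_pos k with rfl | hk
  · left; rfl
  · right
    obtain ⟨j, rfl⟩ : ∃ j, k = j + 1 := ⟨k - 1, by omega⟩
    have e : 2 * (j + 1) + 1 = 3 + 2 * j := by ring
    rw [e, pow_add]
    have : (2 : ZMod (2 ^ 3)) ^ 3 = 0 := by decide
    rw [this, zero_mul]

lemma pow_even {k : ℕ} (h : 1 ≤ k) : (2 : ZMod (2 ^ 3)) ^ (2 * k) = 4 ∨ (2 : ZMod (2 ^ 3)) ^ (2 * k) = 0 := by
  rcases Nat.lt_or_ge k 2 with h1 | h1
  · have : k = 1 := by omega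
    subst this
    left; decide
  · right
    obtain ⟨j, rfl⟩ : ∃ j, k = j + 2 := ⟨k - 2, by omega⟩
    have e : 2 * (j + 2) = 3 + (2 * j + 1) := by ring
    rw [e, pow_add]
    have : (2 : ZMod (2 ^ 3)) ^ 3 = 0 := by decide
    rw [this, zero_mul]

lemma val_unit {m : ℤ} (hm : m % 8 = 3) : (m : ℚ_[2]) ≠ 0 ∧ (m : ℚ_[2]).valuation = 0 := by
  have hn0 : (m : ℚ_[2]) ≠ 0 := by
    have : m ≠ 0 := by rintro rfl; simp at hm
    exact_mod_cast this
  have h1 : ‖(m : ℚ_[2])‖ = 1 := by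
    refine le_antisymm (Padic.norm_int_le_one m) ?_
    rw [← not_lt, Padic.norm_intCast_lt_one_iff]
    push_cast
    omega
  have h2 : ‖(m : ℚ_[2])‖ = ‖(1 : ℚ_[2])‖ := by rw [h1, norm_one]
  rw [norm_eq_iff hn0 one_ne_zero] at h2
  exact ⟨hn0, by rw [h2, Padic.valuation_one]⟩

lemma neg_val (x : ℚ_[2]) : (-x).valuation = x.valuation := by
  by_cases hx : x = 0
  · rw [hx, neg_zero]
  exact (norm_eq_iff (neg_ne_zero.2 hx) hx).1 (norm_neg x)

lemma val_pow2 (j : ℕ) : ((2 : ℚ_[2]) ^ j).valuation = j := by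
  have v2 : ((2 : ℚ_[2])).valuation = 1 := by
    have : (2 : ℚ_[2]) = ((2 : ℕ) : ℚ_[2]) := by norm_num
    rw [this, Padic.valuation_p]
  rw [Padic.valuation_pow, v2, mul_one]

theorem core {A β : ℤ} {k : ℕ} (hA : A % 8 = 3) (hβ : β % 8 = 3) (hk : 1 ≤ k) {u v w : ℚ_[2]}
    (hu : u ≠ 0) (hv : v ≠ 0) (hw : w ≠ 0) (uv : v = u - A) (uw : w = u - 2 ^ (2 * k) * β)
    (sq : IsSquare (u * v * w)) :
    Even u.valuation ∧ (IsSquare u ∨ IsSquare (5 * u) → IsSquare v ∨ IsSquare (5 * v)) := by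
  obtain ⟨A0, vA⟩ := val_unit hA
  obtain ⟨β0, vβ⟩ := val_unit hβ
  have hB0 : (2 : ℚ_[2]) ^ (2 * k) * β ≠ 0 := mul_ne_zero (pow_ne_zero _ two_ne_zero) β0
  have vB : ((2 : ℚ_[2]) ^ (2 * k) * β).valuation = ((2 * k : ℕ) : ℤ) := by
    rw [Padic.valuation_mul (pow_ne_zero _ two_ne_zero) β0, vβ, val_pow2, add_zero]
  have hsum : Even (u.valuation + v.valuation + w.valuation) := by
    have := even_val (mul_ne_zero (mul_ne_zero hu hv) hw) sq
    rwa [Padic.valuation_mul (mul_ne_zero hu hv) hw, Padic.valuation_mul hu hv] at this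
  obtain ⟨μ, hμ1, hμ2⟩ := unit_part hu
  have hodd : ∀ t, t = PadicInt.toZModPow (p := 2) 3 μ → t = 1 ∨ t = 3 ∨ t = 5 ∨ t = 7 := by
    intro t ht
    have := unit_odd hμ1
    rw [← ht] at this
    simpa using this
  rcases lt_trichotomy u.valuation 0 with c | c | c
  · -- negative valuation
    obtain ⟨h1, -⟩ := close2 hw hu (by
      rw [uw, sub_sub_cancel_left]
      exact neg_ne_zero.2 hB0) (by
      rw [uw, sub_sub_cancel_left, neg_val, vB]
      push_cast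
      omega)
    have h2 : IsSquare v := by
      have e : u * v * w = (w * u) * v := by ring
      rw [e] at sq
      exact sq_cancel (mul_ne_zero hw hu) h1 sq
    have h3 : v.valuation = u.valuation := by
      have e : v = u + (-(A : ℚ_[2])) := by rw [uv, sub_eq_add_neg]
      rw [e]
      exact val_add_eq hu (neg_ne_zero.2 A0) (by rwa [← e]) (by rw [neg_val, vA]; exact c)
    refine ⟨?_, fun _ => Or.inl h2⟩
    rw [← h3]
    exact even_val hv h2
  · -- valuation zero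
    refine ⟨by rw [c]; exact Even.zero, fun hsq => ?_⟩
    exfalso
    rw [c, zpow_zero, one_mul] at hμ2
    have d5 : ((5 : ℤ_[2]) : ℚ_[2]) = 5 := rfl
    have d2 : ((2 : ℤ_[2]) : ℚ_[2]) = 2 := rfl
    have c5 : PadicInt.toZModPow (p := 2) 3 5 = 5 := map_ofNat (PadicInt.toZModPow (p := 2) 3) 5
    have h1 : PadicInt.toZModPow (p := 2) 3 μ = 1 ∨ PadicInt.toZModPow (p := 2) 3 μ = 5 := by
      rcases hsq with h | h
      · left
        rw [hμ2] at h
        obtain ⟨r, hr⟩ := sq_mod8 h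
        have h2 : ∀ t r : ZMod (2 ^ 3), (t = 1 ∨ t = 3 ∨ t = 5 ∨ t = 7) → t = r ^ 2 → t = 1 := by decide
        exact h2 _ r (hodd _ rfl) hr
      · right
        rw [hμ2] at h
        have h3 : IsSquare ((5 * μ : ℤ_[2]) : ℚ_[2]) := by
          push_cast
          rw [d5]
          exact h
        obtain ⟨r, hr⟩ := sq_mod8 h3
        rw [map_mul, c5] at hr
        have h2 : ∀ t r : ZMod (2 ^ 3), (t = 1 ∨ t = 3 ∨ t = 5 ∨ t = 7) → 5 * t = r ^ 2 → t = 5 := by decide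
        exact h2 _ r (hodd _ rfl) hr
    have h4 : IsSquare ((μ * (μ - A) * (μ - 2 ^ (2 * k) * β) : ℤ_[2]) : ℚ_[2]) := by
      push_cast
      rw [d2, ← hμ2, ← uv, ← uw]
      exact sq
    obtain ⟨r, hr⟩ := sq_mod8 h4
    rw [map_mul, map_mul, map_sub, map_sub, map_mul, map_pow, two_mod, mod3 hA, mod3 hβ] at hr
    have h5 : ∀ t r x : ZMod (2 ^ 3), (t = 1 ∨ t = 5) → (x = 4 ∨ x = 0) →
      t * (t - 3) * (t - x * 3) ≠ r ^ 2 := by decide
    exact h5 _ r _ h1 (pow_even hk) hr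
  · -- positive valuation
    obtain ⟨S, hS⟩ : ∃ S : ℕ, u.valuation = S := ⟨u.valuation.toNat, by omega⟩
    rw [hS, zpow_natCast] at hμ2
    have hS1 : 1 ≤ S := by omega
    have d2 : ((2 : ℤ_[2]) : ℚ_[2]) = 2 := rfl
    have hEv : Even S := by
      by_contra hne
      rw [Nat.not_even_iff_odd] at hne
      rcases lt_trichotomy S (2 * k) with h1 | h1 | h1
      · obtain ⟨m, hm⟩ : ∃ m, 2 * k = S + m := ⟨2 * k - S, by omega⟩
        have hmo : Odd m := by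
          obtain ⟨j, hj⟩ := hne
          exact ⟨k - j - 1, by omega⟩
        have h2 : IsSquare ((μ * (2 ^ S * μ - A) * (μ - 2 ^ m * β) : ℤ_[2]) : ℚ_[2]) := by
          push_cast
          rw [d2]
          have e : u * v * w = (2 ^ S * 2 ^ S) * (μ * (2 ^ S * μ - A) * (μ - 2 ^ m * β)) := by
            rw [uv, uw, hm, pow_add, hμ2]
            ring
          rw [e] at sq
          exact sq_cancel (mul_ne_zero (pow_ne_zero _ two_ne_zero) (pow_ne_zero _ two_ne_zero))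
            (IsSquare.mul_self _) sq
        obtain ⟨r, hr⟩ := sq_mod8 h2
        rw [map_mul, map_mul, map_sub, map_sub, map_mul, map_mul, map_pow, map_pow, two_mod, mod3 hA,
          mod3 hβ] at hr
        have h5 : ∀ t r x y : ZMod (2 ^ 3), (t = 1 ∨ t = 3 ∨ t = 5 ∨ t = 7) → (x = 2 ∨ x = 0) →
          (y = 2 ∨ y = 0) → t * (x * t - 3) * (t - y * 3) ≠ r ^ 2 := by decide
        exact h5 _ r _ _ (hodd _ rfl) (pow_odd hne) (pow_odd hmo) hr
      · rw [h1] at hne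
        exact absurd (even_two_mul k) (Nat.not_even_iff_odd.2 hne)
      · have e1 : v.valuation = 0 := by
          have e : v = -(A : ℚ_[2]) + u := by rw [uv]; ring
          rw [e, val_add_eq (neg_ne_zero.2 A0) hu (by rwa [← e]) (by rw [neg_val, vA]; exact c),
            neg_val, vA]
        have e2 : w.valuation = ((2 * k : ℕ) : ℤ) := by
          have e : w = -((2 : ℚ_[2]) ^ (2 * k) * β) + u := by rw [uw]; ring
          rw [e, val_add_eq (neg_ne_zero.2 hB0) hu (by rwa [← e]) (by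
            rw [neg_val, vB, hS]
            exact_mod_cast h1), neg_val, vB]
        rw [hS, e1, e2] at hsum
        obtain ⟨r, hr⟩ := hsum
        obtain ⟨j, hj⟩ := hne
        push_cast at hr
        omega
    refine ⟨by rw [hS]; exact_mod_cast hEv, fun _ => ?_⟩
    obtain ⟨T, hT⟩ : ∃ T, S = 2 + T := ⟨S - 2, by
      obtain ⟨j, hj⟩ := hEv
      omega⟩
    have d5 : ((5 : ℤ_[2]) : ℚ_[2]) = 5 := rfl
    have c5 : PadicInt.toZModPow (p := 2) 3 5 = 5 := map_ofNat (PadicInt.toZModPow (p := 2) 3) 5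
    have hv2 : v = ((2 ^ 2 * (2 ^ T * μ) - A : ℤ_[2]) : ℚ_[2]) := by
      push_cast
      rw [d2, uv, hμ2, hT, pow_add]
      ring
    have h6 : ∀ t : ZMod (2 ^ 3), 2 ^ 2 * t - 3 = 1 ∨ 5 * (2 ^ 2 * t - 3) = 1 := by decide
    have h7 := h6 (PadicInt.toZModPow (p := 2) 3 (2 ^ T * μ))
    have h8 : PadicInt.toZModPow (p := 2) 3 (2 ^ 2 * (2 ^ T * μ) - A) =
        2 ^ 2 * PadicInt.toZModPow (p := 2) 3 (2 ^ T * μ) - 3 := by
      rw [map_sub, map_mul, map_pow, two_mod, mod3 hA]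
    rcases h7 with h7 | h7
    · left
      rw [hv2]
      exact sq_of_mod8 _ (by rw [h8, h7])
    · right
      have h9 : 5 * v = ((5 * (2 ^ 2 * (2 ^ T * μ) - A) : ℤ_[2]) : ℚ_[2]) := by
        rw [PadicInt.coe_mul, ← hv2, d5]
      rw [h9]
      exact sq_of_mod8 _ (by rw [map_mul, h8, c5, h7])

end Pool.Agent.N873.UT.TWO

namespace Pool.Agent.N873.UT

theorem t_TWO : S_TWO := by
  intro n a b hn u v w h
  obtain ⟨c, hc, hc2⟩ := (Int.finiteMultiplicity_iff.2 ⟨by norm_num, hn.b0⟩ :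
    FiniteMultiplicity (2 : ℤ) b).exists_eq_pow_mul_and_not_dvd
  set k := multiplicity (2 : ℤ) b with hk
  have hk1 : 1 ≤ k := by
    by_contra h0
    have h1 : k = 0 := by omega
    rw [h1, pow_zero, one_mul] at hc
    have := hn.b2
    rw [hc] at this
    exact hc2 (Int.dvd_of_emod_eq_zero this)
  have hsq8 : ∀ x : ℤ, x % 2 = 1 → x ^ 2 % 8 = 1 := by
    intro x hx
    obtain ⟨j, hj⟩ : ∃ j, x = 2 * j + 1 := ⟨x / 2, by omega⟩
    rw [hj]
    have e : (2 * j + 1) ^ 2 = 4 * (j * (j + 1)) + 1 := by ring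
    rw [e]
    obtain ⟨i, hi⟩ := Int.even_mul_succ_self j
    rw [hi]
    omega
  have hn8 : (n : ℤ) % 8 = 3 := by
    have := hn.n8
    omega
  have hA : ((n : ℤ) * a ^ 2) % 8 = 3 := by
    rw [Int.mul_emod, hn8, hsq8 a hn.a2]
    norm_num
  have hβ : ((n : ℤ) * c ^ 2) % 8 = 3 := by
    rw [Int.mul_emod, hn8, hsq8 c (by omega)]
    norm_num
  refine TWO.core hA hβ hk1 h.u0 h.v0 h.w0 ?_ ?_ h.sq
  · have e : (((n : ℤ) * a ^ 2 : ℤ) : ℚ_[2]) = ((n : ℤ) : ℚ_[2]) * (a : ℚ_[2]) ^ 2 := by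
      push_cast
      ring
    rw [e, ← h.uv]
    ring
  · have e : (2 : ℚ_[2]) ^ (2 * k) * ((((n : ℤ) * c ^ 2 : ℤ)) : ℚ_[2]) = ((n : ℤ) : ℚ_[2]) * (b : ℚ_[2]) ^ 2 := by
      rw [hc]
      push_cast
      ring
    rw [e, ← h.uw]
    ring

end Pool.Agent.N873.UT
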