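import Mathlib
import Pool.Agent.N873.UT.Fin
import Pool.Agent.N873.UT.ASY
import Pool.Agent.N873.UT.CA
import Pool.Agent.N873.UT.CB
import Pool.Agent.N873.UT.CV
import Pool.Agent.N873.UT.KEY
import Pool.Agent.N873.UT.LI
import Pool.Agent.N873.UT.LOW
import Pool.Agent.N873.UT.RAM
import Pool.Agent.N873.UT.RK
import Pool.Agent.N873.UT.SEL
import Pool.Agent.N873.UT.TO
import Pool.Agent.N873.UT.TR
import Pool.Agent.N873.UT.TWO
import Pool.Agent.N873.UT.UNR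
import Pool.Agent.N218.GB.Fin

/-!
# Project UT: the parts, 4-rank zero (helpers 97, 136, 273, 368, 603, 614, 615, 700, 747, 756, 873, 891)
-/

set_option autoImplicit false

namespace Pool.Agent.N873.UT

theorem t_DM : S_DM :=
  t_ASYM Pool.Agent.N19.GB.t_BIL Pool.Agent.N19.GB.t_EQ Pool.Agent.N916.GB.t_LA
    Pool.Agent.N958.GB.t_BOX KEY.t_KEYM Pool.Agent.N502.GB.CNT.t_CNT
    Pool.Agent.Y488.CX.t_SIE Pool.Agent.N148.GB.t_HAL Pool.Agent.N19.GB.t_ME8
    Pool.Agent.N148.GB.t_BAD Pool.Agent.N502.GB.FE1.t_FE1 Pool.Agent.N509.GB.FE2.t_FE2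
    Pool.Agent.N19.GB.t_ND

theorem parts : Parts where
  ca := t_CA
  cb := t_CB
  sel := t_SEL t_RAM t_UNR t_TWO
  rk := RK.t_RK
  cv := t_CV t_LI t_TO
  low := t_LOW
  tr := t_TR t_DM

end Pool.Agent.N873.UT
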