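import Pool.Agent.N873.UT.Stm2
import Pool.Agent.N873.UT.CB

/-!
# Project UT (helper873): the solutions of the system of Redei and the group `SB n` (helper887)
-/

set_option autoImplicit false
set_option linter.unusedVariables false

open scoped Classical

namespace Pool.Agent.N873.UT.SLN

open Finset Pool.Agent.N875.X15 Pool.Agent.N873.UT.CB
open Pool.Agent.Y703.CQ (nr)

section lin

variable {ι : Type} [Fintype ι] [DecidableEq ι]

/-- the system in terms of sets -/
lemma sys_iff (N : ι → ι → ZMod 2) (s : Finset ι) :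
    (∀ q, ∑ p, (vv s p + vv s q) * N q p = 0) ↔ cond N s := by
  unfold CB.cond
  refine forall_congr' fun q => ?_
  have hcc : (1 : ZMod 2) + 1 = 0 := by decide
  by_cases hq : q ∈ s
  · have h1 : ∑ p, (vv s p + vv s q) * N q p = ∑ p ∈ sᶜ, N q p := by
      have h2 : ∀ p : ι, (vv s p + vv s q) * N q p = if p ∈ sᶜ then N q p else 0 := by
        intro p
        by_cases hp : p ∈ s
        · simp [vv, hp, hq, hcc]
        · simp [vv, hp, hq]
      rw [Finset.sum_congr rfl fun p _ => h2 p, Finset.sum_ite_mem, Finset.univ_inter]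
    rw [h1]
    exact ⟨fun h => ⟨fun h' => absurd hq h', fun _ => h⟩, fun h => h.2 hq⟩
  · have h1 : ∑ p, (vv s p + vv s q) * N q p = ∑ p ∈ s, N q p := by
      have h2 : ∀ p : ι, (vv s p + vv s q) * N q p = if p ∈ s then N q p else 0 := by
        intro p
        by_cases hp : p ∈ s
        · simp [vv, hp, hq]
        · simp [vv, hp, hq]
      rw [Finset.sum_congr rfl fun p _ => h2 p, Finset.sum_ite_mem, Finset.univ_inter]
    rw [h1]
    exact ⟨fun h => ⟨fun _ => h, fun h' => absurd h' hq⟩, fun h => h.1 hq⟩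

/-- the number of solutions in terms of sets -/
lemma sl_eq (N : ι → ι → ZMod 2) : sl N = {s : Finset ι | cond N s}.ncard := by
  have h1 : {x : ι → ZMod 2 | ∀ q, ∑ p, (x p + x q) * N q p = 0} =
      (ev ι) '' {s : Finset ι | cond N s} := by
    ext x
    constructor
    · intro hx
      refine ⟨(ev ι).symm x, ?_, (ev ι).apply_symm_apply x⟩
      refine (sys_iff N _).1 ?_
      have h2 : vv ((ev ι).symm x) = x := (ev ι).apply_symm_apply x
      rw [h2]
      exact hx
    · rintro ⟨s, hs, rfl⟩
      exact (sys_iff N s).2 hs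
  have h3 : sl N = {x : ι → ZMod 2 | ∀ q, ∑ p, (x p + x q) * N q p = 0}.ncard := by
    unfold sl
    rw [← Set.ncard_coe_finset]
    congr 1
    ext x
    simp
  rw [h3, h1, Set.ncard_image_of_injective _ (ev ι).injective]

lemma cond_congr {N M : ι → ι → ZMod 2} (h : ∀ q p, q ≠ p → N q p = M q p) (s : Finset ι) :
    cond N s ↔ cond M s := by
  unfold CB.cond
  refine forall_congr' fun q => and_congr (imp_congr_right fun hq => ?_)
    (imp_congr_right fun hq => ?_)
  · rw [Finset.sum_congr rfl fun p hp => h q p (by rintro rfl; exact hq hp)]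
  · rw [Finset.sum_congr rfl fun p hp => h q p (by rintro rfl; exact (mem_compl.1 hp) hq)]

end lin

lemma nr_eq {p q : ℕ} (hp : p.Prime) (hq : q.Prime) (h : q ≠ p) : nr p q = ad (q : ℤ) p := by
  have : Fact p.Prime := ⟨hp⟩
  unfold nr ad
  rw [← jacobiSym.legendreSym.to_jacobiSym]
  have h0 : (((q : ℕ) : ℤ) : ZMod p) ≠ 0 := by
    intro h1
    rw [Int.cast_natCast, ZMod.natCast_eq_zero_iff] at h1
    exact h (((Nat.prime_dvd_prime_iff_eq hp hq).1 h1).symm)
  have h2 := legendreSym.eq_one_iff p h0
  rw [Int.cast_natCast] at h2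
  by_cases hs : IsSquare ((q : ℕ) : ZMod p)
  · rw [if_pos hs, if_pos (h2.2 hs)]
  · rw [if_neg hs, if_neg (fun h3 => hs (h2.1 h3))]

end Pool.Agent.N873.UT.SLN

namespace Pool.Agent.N873.UT

open Pool.Agent.Y703.CQ (nr)
open Pool.Agent.N873.UT.CB Pool.Agent.N873.UT.SLN

theorem t_SLN : S_SLN := by
  intro n hn h4
  have h1 : (SB n).ncard = {s : Finset (Io n) | cond (aa n) s}.ncard := by
    rw [SB_eq hn h4]
    refine Set.ncard_image_of_injective _ ?_
    intro s t h
    have h1 := congrArg Int.natAbs h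
    simp only [s4_abs] at h1
    exact NN_inj h4 h1
  have h2 : sl (fun q p : Io n => nr (p : ℕ) (q : ℕ)) =
      {s : Finset (Io n) | cond (aa n) s}.ncard := by
    rw [sl_eq]
    congr 1
    ext s
    refine cond_congr (fun q p hqp => ?_) s
    exact nr_eq (io_odd h4 p).1 (io_odd h4 q).1 (fun h => hqp (Subtype.ext h))
  rw [h1]
  exact h2

end Pool.Agent.N873.UT
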