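import Mathlib
import Pool.Agent.N873.UT.LAR

/-!
# UT-TAIL: the tail of the law of the 4-rank
-/

set_option autoImplicit false
set_option linter.all false

open scoped Classical

namespace Pool.Agent.N873.UT.TAIL2

open Finset Filter
open Pool.Agent.N916.GB
open Pool.Agent.N873.UT.LAR

/-- the model -/
noncomputable def Nm (m : ℕ) (x y : Empty ⊕ Fin (2 * m + 1)) : ZMod 2 :=
  Sum.elim (fun _ => 0) (fun i => Sum.elim (fun _ => 0) (fun j => if i < j then 1 else 0) y) x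

theorem In_mono {k d : ℕ} (h : k ≤ d) : In k k ≤ In k d := by
  unfold In
  refine prod_le_prod (fun i hi => ?_) fun i hi => ?_
  · rw [mem_range] at hi
    have : (2 : ℝ) ^ i ≤ 2 ^ k := pow_le_pow_right₀ (by norm_num) hi.le
    linarith
  · have : (2 : ℝ) ^ k ≤ 2 ^ d := pow_le_pow_right₀ (by norm_num) h
    linarith

theorem ind_le (R d : ℕ) : 1 - ∑ r ∈ range (R + 1), (if d = r then (1 : ℝ) else 0) ≤
    In (R + 1) d / In (R + 1) (R + 1) := by
  rw [sum_ite_eq (range (R + 1)) d fun _ => (1 : ℝ)]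
  by_cases h : d ∈ range (R + 1)
  · rw [if_pos h, sub_self]
    exact div_nonneg (In_nonneg _ _) (In_nonneg _ _)
  · rw [if_neg h, sub_zero]
    rw [mem_range, not_lt] at h
    rw [le_div_iff₀ (In_self_pos _), one_mul]
    exact In_mono h

theorem ind_nonneg (R d : ℕ) : 0 ≤ 1 - ∑ r ∈ range (R + 1), (if d = r then (1 : ℝ) else 0) := by
  rw [sum_ite_eq (range (R + 1)) d fun _ => (1 : ℝ)]
  by_cases h : d ∈ range (R + 1)
  · rw [if_pos h, sub_self]
  · rw [if_neg h, sub_zero]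
    exact zero_le_one

theorem qq_ge (k : ℕ) : 1 / 4 + (1 / 2 : ℝ) ^ (k + 2) ≤
    ∏ i ∈ range (k + 1), (1 - (1 / 2 : ℝ) ^ (i + 1)) := by
  induction k with
  | zero => norm_num
  | succ k ih =>
    rw [prod_range_succ]
    have h1 : (0 : ℝ) < (1 / 2 : ℝ) ^ (k + 2) := by positivity
    have h2 : (1 / 2 : ℝ) ^ (k + 2) ≤ 1 / 4 := by
      calc (1 / 2 : ℝ) ^ (k + 2) ≤ (1 / 2 : ℝ) ^ 2 :=
            pow_le_pow_of_le_one (by norm_num) (by norm_num) (by omega)
        _ = 1 / 4 := by norm_num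
    have h3 : (1 / 2 : ℝ) ^ (k + 1 + 2) = (1 / 2 : ℝ) ^ (k + 2) / 2 := by ring
    have h4 : (1 / 2 : ℝ) ^ (k + 1 + 1) = (1 / 2 : ℝ) ^ (k + 2) := rfl
    rw [h3, h4]
    set x := (1 / 2 : ℝ) ^ (k + 2) with hx
    have h5 : (1 / 4 + x) * (1 - x) ≤ (∏ i ∈ range (k + 1), (1 - (1 / 2 : ℝ) ^ (i + 1))) * (1 - x) :=
      mul_le_mul_of_nonneg_right ih (by linarith)
    nlinarith

theorem In_ge (k : ℕ) : (2 : ℝ) ^ (k + 1) ^ 2 / 4 ≤ In (k + 1) (k + 1) := by
  rw [In_self]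
  have h1 := qq_ge k
  have h2 : (0 : ℝ) < (1 / 2 : ℝ) ^ (k + 2) := by positivity
  have h3 : (0 : ℝ) < 2 ^ (k + 1) ^ 2 := by positivity
  calc (2 : ℝ) ^ (k + 1) ^ 2 / 4 = 2 ^ (k + 1) ^ 2 * (1 / 4) := by ring
    _ ≤ _ := by
      refine mul_le_mul_of_nonneg_left ?_ h3.le
      linarith

section gen

variable {U J : Type} [Fintype U] [Fintype J] [LinearOrder J]

theorem step (N : U ⊕ J → U ⊕ J → ZMod 2) (k0 : J) (R : ℕ) (ε : ℝ)
    (hP : ∀ r ∈ range (R + 1), |((univ.filter fun σ : ps J → ZMod 2 =>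
      sl (pt N (sx σ)) = 2 ^ (r + 1)).card : ℝ) / 2 ^ (ps J).card - etaR r| ≤ ε)
    (hT : (∑ σ : ps J → ZMod 2, In (R + 1) (Module.finrank (ZMod 2) (Kr (pt N (sx σ)) k0))) /
      2 ^ (ps J).card ≤ 1 + ε) :
    -((R + 1 : ℕ) * ε) ≤ 1 - ∑ r ∈ range (R + 1), etaR r ∧
    1 - ∑ r ∈ range (R + 1), etaR r ≤ (1 + ε) / In (R + 1) (R + 1) + (R + 1 : ℕ) * ε := by
  have hp : (0 : ℝ) < 2 ^ (ps J).card := by positivity
  set D : (ps J → ZMod 2) → ℕ := fun σ =>
    Module.finrank (ZMod 2) (Kr (pt N (sx σ)) k0) with hD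
  have hP' : ∀ r ∈ range (R + 1), |(∑ σ : ps J → ZMod 2,
      (if D σ = r then (1 : ℝ) else 0)) / 2 ^ (ps J).card - etaR r| ≤ ε := by
    intro r hr
    have h6 := hP r hr
    have h7 : ((univ.filter fun σ : ps J → ZMod 2 =>
        sl (pt N (sx σ)) = 2 ^ (r + 1)).card : ℝ) =
        ∑ σ : ps J → ZMod 2, (if D σ = r then (1 : ℝ) else 0) := by
      rw [card_filter, Nat.cast_sum]
      refine sum_congr rfl fun σ _ => ?_
      have hs := sl_Kr (pt N (sx σ)) k0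
      by_cases h : sl (pt N (sx σ)) = 2 ^ (r + 1)
      · rw [if_pos h, if_pos, Nat.cast_one]
        rw [hs] at h
        have h8 := Nat.pow_right_injective (le_refl 2) h
        have h9 : D σ + 1 = r + 1 := h8
        omega
      · rw [if_neg h, if_neg, Nat.cast_zero]
        intro h'
        have h9 : Module.finrank (ZMod 2) (Kr (pt N (sx σ)) k0) = r := h'
        exact h (by rw [hs, h9])
    rw [h7] at h6
    exact h6
  set T : ℝ := (∑ σ : ps J → ZMod 2, In (R + 1) (D σ)) / 2 ^ (ps J).card with hTd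
  have hT1 : T ≤ 1 + ε := hT
  set Q : ℝ := ∑ r ∈ range (R + 1), (∑ σ : ps J → ZMod 2,
      (if D σ = r then (1 : ℝ) else 0)) / 2 ^ (ps J).card with hQ
  have hQe : 1 - Q = (∑ σ : ps J → ZMod 2,
      (1 - ∑ r ∈ range (R + 1), (if D σ = r then (1 : ℝ) else 0))) / 2 ^ (ps J).card := by
    have h6 : ((univ : Finset (ps J → ZMod 2)).card : ℝ) = 2 ^ (ps J).card := by
      rw [card_univ, Fintype.card_fun, ZMod.card, Fintype.card_coe]
      push_cast
      rfl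
    rw [sum_sub_distrib, sum_const, nsmul_eq_mul, mul_one, h6, sub_div, div_self hp.ne', hQ,
      ← sum_div, sum_comm]
  have hQ0 : 0 ≤ 1 - Q := by
    rw [hQe]
    exact div_nonneg (sum_nonneg fun σ _ => ind_nonneg R (D σ)) hp.le
  have hQ1 : 1 - Q ≤ T / In (R + 1) (R + 1) := by
    have h6 : T / In (R + 1) (R + 1) =
        (∑ σ : ps J → ZMod 2, In (R + 1) (D σ) / In (R + 1) (R + 1)) / 2 ^ (ps J).card := by
      rw [← sum_div, hTd, div_right_comm]
    rw [hQe, h6]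
    exact div_le_div_of_nonneg_right (sum_le_sum fun σ _ => ind_le R (D σ)) hp.le
  have hQ2 : |Q - ∑ r ∈ range (R + 1), etaR r| ≤ (R + 1 : ℕ) * ε := by
    rw [hQ, ← sum_sub_distrib]
    refine (abs_sum_le_sum_abs _ _).trans ?_
    refine (sum_le_sum hP').trans ?_
    rw [sum_const, card_range, nsmul_eq_mul]
  rw [abs_le] at hQ2
  have hI := In_self_pos (R + 1)
  have h9 : T / In (R + 1) (R + 1) ≤ (1 + ε) / In (R + 1) (R + 1) :=
    div_le_div_of_nonneg_right hT1 hI.le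
  constructor
  · linarith [hQ2.2]
  · linarith [hQ2.1]

end gen

/-- **The approximate tail.** -/
theorem approx (h : S_LAR) (R : ℕ) (ε : ℝ) (hε : 0 < ε) :
    -((R + 1 : ℕ) * ε) ≤ 1 - ∑ r ∈ range (R + 1), etaR r ∧
    1 - ∑ r ∈ range (R + 1), etaR r ≤ (1 + ε) / In (R + 1) (R + 1) + (R + 1 : ℕ) * ε := by
  choose V hV using fun r : ℕ => h r ε hε
  obtain ⟨V1, hV1⟩ := pow_unbounded_of_one_lt
    ((2 : ℝ) ^ ((R + 1) ^ 2 + (R + 1) + 4) / ε) (by norm_num : (1 : ℝ) < 2)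
  obtain ⟨m, hm⟩ : ∃ m : ℕ, m = V1 + ∑ r ∈ range (R + 1), V r := ⟨_, rfl⟩
  have hVm : ∀ r ∈ range (R + 1), V r ≤ m := by
    intro r hr
    have := single_le_sum (f := V) (fun i _ => Nat.zero_le _) hr
    omega
  have hw : ∀ k : Fin (2 * m + 1), (fun _ : Empty ⊕ Fin (2 * m + 1) => (1 : ZMod 2)) (Sum.inr k) = 1 :=
    fun _ => rfl
  have hu : ∑ i : Empty ⊕ Fin (2 * m + 1), (fun _ : Empty ⊕ Fin (2 * m + 1) => (1 : ZMod 2)) i = 1 := by
    rw [sum_const, card_univ, Fintype.card_sum, Fintype.card_fin, nsmul_eq_mul, mul_one]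
    have h1 : Fintype.card Empty = 0 := Fintype.card_eq_zero
    rw [h1, zero_add]
    push_cast
    have h2 : (2 : ZMod 2) = 0 := by decide
    rw [h2, zero_mul, zero_add]
  have h3 : ∀ i j : Empty ⊕ Fin (2 * m + 1), i ≠ j →
      (fun _ : Empty ⊕ Fin (2 * m + 1) => (1 : ZMod 2)) i * Nm m i j +
      (fun _ : Empty ⊕ Fin (2 * m + 1) => (1 : ZMod 2)) j * Nm m j i =
      (fun _ : Empty ⊕ Fin (2 * m + 1) => (1 : ZMod 2)) i *
      (fun _ : Empty ⊕ Fin (2 * m + 1) => (1 : ZMod 2)) j := by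
    rintro (i | i) (j | j) hij
    · exact i.elim
    · exact i.elim
    · exact j.elim
    · simp only [one_mul]
      unfold Nm
      simp only [Sum.elim_inr]
      rcases lt_trichotomy i j with h1 | h1 | h1
      · rw [if_pos h1, if_neg h1.not_gt, add_zero]
      · exact absurd (congrArg Sum.inr h1) hij
      · rw [if_pos h1, if_neg h1.not_gt, zero_add]
  have h4 : ∀ v : Empty, (fun _ : Empty ⊕ Fin (2 * m + 1) => (1 : ZMod 2)) (Sum.inl v) = 0 →
      (fun _ : Empty ⊕ Fin (2 * m + 1) => (1 : ZMod 2)) (Sum.inl v) = 1 ∧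
      ∀ v' : Empty, (fun _ : Empty ⊕ Fin (2 * m + 1) => (1 : ZMod 2)) (Sum.inl v') = 0 → v = v' :=
    fun v => v.elim
  have h5 : ∀ (b : Empty → ZMod 2) (s : ZMod 2), ((∃ v, b v ≠ 0) ∨ s ≠ 0) →
      ∃ k : Fin (2 * m + 1), ∑ v, b v * Nm m (Sum.inl v) (Sum.inr k) +
        s * (fun _ : Empty ⊕ Fin (2 * m + 1) => (1 : ZMod 2)) (Sum.inr k) ≠ 0 := by
    rintro b s (⟨v, -⟩ | hs)
    · exact v.elim
    · refine ⟨0, ?_⟩
      rw [Fintype.sum_empty, zero_add, mul_one]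
      exact hs
  have hcard : (univ.filter fun k : Fin (2 * m + 1) =>
      (fun _ : Empty ⊕ Fin (2 * m + 1) => (1 : ZMod 2)) (Sum.inr k) = 1).card = 2 * m + 1 := by
    rw [filter_true_of_mem fun _ _ => rfl, card_univ, Fintype.card_fin]
  have hE : Fintype.card Empty = 0 := Fintype.card_eq_zero
  refine step (Nm m) (0 : Fin (2 * m + 1)) R ε (fun r hr => ?_) ?_
  · exact hV r Empty (Fin (2 * m + 1)) (fun _ => 1) (fun _ => 1) (Nm m) hw hu h3 h4 h5 (by
      rw [hcard, hE]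
      have := hVm r hr
      omega)
  · have hT := T_bound (w := fun _ => (1 : ZMod 2)) (u := fun _ => (1 : ZMod 2)) (N := Nm m)
      hw hu h3 h4 h5 (0 : Fin (2 * m + 1)) (R + 1) V1 (by
        rw [hcard, hE]
        omega)
    have h7 : (0 : ℝ) < 2 ^ V1 := by positivity
    rw [← le_div_iff₀ h7] at hT
    rw [div_lt_iff₀ hε] at hV1
    have h8 : (2 : ℝ) ^ ((R + 1) ^ 2 + (R + 1) + 4) / 2 ^ V1 ≤ ε := by
      rw [div_le_iff₀ h7]
      linarith
    have h9 := (abs_le.1 (hT.trans h8)).2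
    linarith

/-- **UT-TAIL** -/
theorem t_TAIL (h : S_LAR) : S_TAIL := by
  intro R
  have hI := In_self_pos (R + 1)
  constructor
  · refine le_of_forall_pos_le_add fun δ hδ => ?_
    have h1 : (0 : ℝ) < (R + 1 : ℕ) := by positivity
    have h2 := (approx h R (δ / (R + 1 : ℕ)) (by positivity)).1
    rw [mul_div_cancel₀ _ h1.ne'] at h2
    linarith
  · have h3 : 1 - ∑ r ∈ range (R + 1), etaR r ≤ 1 / In (R + 1) (R + 1) := by
      refine le_of_forall_pos_le_add fun δ hδ => ?_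
      have h1 : (0 : ℝ) < 1 / In (R + 1) (R + 1) + (R + 1 : ℕ) := by positivity
      have h2 := (approx h R (δ / (1 / In (R + 1) (R + 1) + (R + 1 : ℕ))) (by positivity)).2
      set e := δ / (1 / In (R + 1) (R + 1) + (R + 1 : ℕ)) with he
      have h4 : e * (1 / In (R + 1) (R + 1) + (R + 1 : ℕ)) = δ := div_mul_cancel₀ _ h1.ne'
      have h5 : (1 + e) / In (R + 1) (R + 1) + (R + 1 : ℕ) * e =
          1 / In (R + 1) (R + 1) + e * (1 / In (R + 1) (R + 1) + (R + 1 : ℕ)) := by ring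
      rw [h5, h4] at h2
      exact h2
    refine h3.trans ?_
    have h4 := In_ge R
    rw [div_le_iff₀ hI]
    have h5 : (1 / 2 : ℝ) ^ (R + 1) ^ 2 * 2 ^ (R + 1) ^ 2 = 1 := by
      rw [← mul_pow]
      norm_num
    have h6 : (0 : ℝ) < (1 / 2 : ℝ) ^ (R + 1) ^ 2 := by positivity
    calc (1 : ℝ) = 4 * (1 / 2 : ℝ) ^ (R + 1) ^ 2 * (2 ^ (R + 1) ^ 2 / 4) := by
          linear_combination -h5
      _ ≤ _ := by gcongr

end Pool.Agent.N873.UT.TAIL2
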