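import Mathlib
import Pool.Agent.N873.UT.Stm2
import Pool.Agent.N873.UT.TR

/-!
# UT2: the translation of the full law to numbers (helper767)
-/

set_option autoImplicit false

open scoped Classical

namespace Pool.Agent.N873.UT

open Finset TR
open Pool.Agent.Y703.CQ (nr sg)

theorem t_TRR : S_TRR := by
  intro R e hD F hF ε hε
  obtain ⟨X₀, hX₀⟩ := hD (md F) (Kr F) (ok F hF) ε hε
  refine ⟨X₀, fun X hX => ?_⟩
  have h1 := hX₀ X hX
  have e1 := card_eqM (ok F hF) X (Gr R)
  have e2 := card_eqM (ok F hF) X (fun _ => True)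
  rw [Finset.filter_true] at e2
  simp only [and_true] at e2
  rw [← e1, ← e2] at h1
  have f1 : ((Icc 1 X).filter fun n => n ∈ NF F ∧
      sl (fun q p : n.primeFactors => nr (p : ℕ) (q : ℕ)) = 2 ^ (R + 1)) =
      (Icc 1 X).filter fun D => Squarefree D ∧ D % md F ∈ Kr F ∧ Gr R D.primeFactors := by
    refine filter_congr fun n _ => ?_
    rw [mem_NF F hF n, and_assoc]
    rfl
  have f2 : ((Icc 1 X).filter fun n => n ∈ NF F) =
      (Icc 1 X).filter fun D => Squarefree D ∧ D % md F ∈ Kr F := by
    refine filter_congr fun n _ => ?_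
    rw [mem_NF F hF n]
  rw [f1, f2]
  exact h1

end Pool.Agent.N873.UT
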