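import Mathlib
import Pool.Agent.N873.UT.Parts1
import Pool.Agent.N873.UT.Fin2
import Pool.Agent.N873.UT.ASYG
import Pool.Agent.N873.UT.BOXR
import Pool.Agent.N873.UT.KEYG2
import Pool.Agent.N873.UT.LAR
import Pool.Agent.N873.UT.SLN
import Pool.Agent.N873.UT.TAIL2
import Pool.Agent.N873.UT.TRR

/-!
# Project UT: the parts, full law (also helpers 519, 767, 887, 966)
-/

set_option autoImplicit false

open scoped Classical

namespace Pool.Agent.N873.UT

open Finset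
open Pool.Agent.N916.GB (eta)

theorem etaR_nonneg (R : ℕ) : 0 ≤ etaR R := by
  unfold etaR
  refine div_nonneg Pool.Agent.N218.GB.Asy.eta_mem.1 ?_
  positivity

theorem t_TAIL' : S_TAIL := TAIL2.t_TAIL LAR.t_LAR

theorem etaR_le_one (R : ℕ) : etaR R ≤ 1 := by
  have h1 := (t_TAIL' R).1
  have h2 : etaR R ≤ ∑ r ∈ range (R + 1), etaR r :=
    single_le_sum (f := etaR) (fun r _ => etaR_nonneg r) (mem_range.2 (Nat.lt_succ_self R))
  linarith

theorem t_DMP (R : ℕ) : DMP (Gr R) (etaR R) :=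
  t_ASYG (Gr R) (etaR R) (etaR_nonneg R) (etaR_le_one R)
    (KEYG2.keyG Pool.Agent.N19.GB.t_BIL (Gr R) (etaR R) (etaR_nonneg R) (etaR_le_one R)
      (t_BOXR Pool.Agent.N19.GB.t_EQ LAR.t_LAR R))
    Pool.Agent.N502.GB.CNT.t_CNT
    Pool.Agent.Y488.CX.t_SIE Pool.Agent.N148.GB.t_HAL Pool.Agent.N19.GB.t_ME8
    Pool.Agent.N148.GB.t_BAD Pool.Agent.N502.GB.FE1.t_FE1 Pool.Agent.N509.GB.FE2.t_FE2
    Pool.Agent.N19.GB.t_ND

theorem parts2 : Parts2 where
  p := parts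
  sln := t_SLN
  tail := t_TAIL'
  trr := fun R F hF ε hε => t_TRR R (etaR R) (t_DMP R) F hF ε hε

end Pool.Agent.N873.UT
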