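import Pool.Agent.N873.UT.Stm3
import Pool.Agent.N873.UT.SEL

/-!
# Project UT (helper873), part FA: upper bound for the first 2-isogeny Selmer group

(co-author: helper433)
-/

set_option autoImplicit false

namespace Pool.Agent.N873.UT

open Pool.Agent.N875.X15 (val_zero not_dvd_of_even sq_cancel sq_trans)

namespace FA

/-- a solution of the quartic: `d` is a square, or `n` times a square, or the class of a point -/
lemma cases3 {K : Type} [Field K] [CharZero K] {n : ℕ} {a b d : ℤ} (h : Adm n a b) (hd0 : d ≠ 0)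
    (hd : d ∣ (n : ℤ) ^ 2 * a ^ 2 * b ^ 2)
    (hq : QS K (-(n * (a ^ 2 + b ^ 2))) (n ^ 2 * a ^ 2 * b ^ 2) d) :
    IsSquare (d : K) ∨ IsSquare ((d : K) * n) ∨
      ∃ u v w : K, Pt3 n a b u v w ∧ IsSquare (u * d) := by
  obtain ⟨N, M, e, hMe, hN⟩ := hq
  have hn0 : (n : K) ≠ 0 := by exact_mod_cast SEL.adm_n0 h
  have ha0 : (a : K) ≠ 0 := by exact_mod_cast SEL.adm_a0 h
  have hb0 : (b : K) ≠ 0 := by exact_mod_cast h.b0
  have hdK : (d : K) ≠ 0 := by exact_mod_cast hd0
  obtain ⟨c, hc⟩ := hd
  have hc' : ((n : ℤ) ^ 2 * a ^ 2 * b ^ 2) / d = c := by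
    rw [hc]
    exact Int.mul_ediv_cancel_left c hd0
  rw [hc'] at hN
  push_cast at hN
  have hcK : (d : K) * c = n ^ 2 * a ^ 2 * b ^ 2 := by exact_mod_cast hc.symm
  by_cases he : e = 0
  · left
    subst he
    have hM : M ≠ 0 := by simpa using hMe
    refine ⟨N / M ^ 2, ?_⟩
    field_simp
    linear_combination -hN
  · by_cases hM : M = 0
    · left
      subst hM
      have hN0 : N ≠ 0 := by
        rintro rfl
        have h1 : (c : K) * e ^ 4 = 0 := by linear_combination -hN
        have h2 : (c : K) ≠ 0 := by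
          intro h2
          rw [h2, mul_zero] at hcK
          exact mul_ne_zero (mul_ne_zero (pow_ne_zero 2 hn0) (pow_ne_zero 2 ha0))
            (pow_ne_zero 2 hb0) hcK.symm
        exact mul_ne_zero h2 (pow_ne_zero 4 he) h1
      refine ⟨n * a * b * e ^ 2 / N, ?_⟩
      field_simp
      linear_combination (d : K) * hN + e ^ 4 * hcK
    · right
      by_cases hN0 : N = 0
      · left
        subst hN0
        have h1 : ((d : K) * M ^ 2 - n * a ^ 2 * e ^ 2) * ((d : K) * M ^ 2 - n * b ^ 2 * e ^ 2) = 0 := by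
          linear_combination -(d : K) * hN - e ^ 4 * hcK
        rcases mul_eq_zero.1 h1 with h1 | h1
        · refine ⟨n * a * e / M, ?_⟩
          field_simp
          linear_combination h1
        · refine ⟨n * b * e / M, ?_⟩
          field_simp
          linear_combination h1
      · right
        have hsq : ((d : K) * (M / e) ^ 2) * ((d : K) * (M / e) ^ 2 - n * a ^ 2) *
            ((d : K) * (M / e) ^ 2 - n * b ^ 2) = ((d : K) * M * N / e ^ 3) ^ 2 := by
          field_simp
          linear_combination -(d : K) * hN - e ^ 4 * hcK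
        have hne : ((d : K) * (M / e) ^ 2) * ((d : K) * (M / e) ^ 2 - n * a ^ 2) *
            ((d : K) * (M / e) ^ 2 - n * b ^ 2) ≠ 0 := by
          rw [hsq]
          exact pow_ne_zero 2 (div_ne_zero (mul_ne_zero (mul_ne_zero hdK hM) hN0)
            (pow_ne_zero 3 he))
        refine ⟨(d : K) * (M / e) ^ 2, (d : K) * (M / e) ^ 2 - n * a ^ 2,
          (d : K) * (M / e) ^ 2 - n * b ^ 2, ⟨?_, ?_, ?_, ?_, ?_, ?_⟩, ?_⟩
        · exact left_ne_zero_of_mul (left_ne_zero_of_mul hne)
        · exact right_ne_zero_of_mul (left_ne_zero_of_mul hne)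
        · exact right_ne_zero_of_mul hne
        · rw [Int.cast_natCast]; ring
        · rw [Int.cast_natCast]; ring
        · rw [hsq, pow_two]
          exact IsSquare.mul_self _
        · refine ⟨(d : K) * (M / e), ?_⟩
          ring

end FA

open FA in
theorem t_FA : S_FA := by
  intro hR hU hT n a b h d hd
  obtain ⟨s1, hdb, hreal, hp⟩ := hd
  have hn0 := SEL.adm_n0 h
  have ha0 := SEL.adm_a0 h
  have hnR : (0 : ℝ) < n := by exact_mod_cast Nat.pos_of_ne_zero hn0
  refine ⟨s1, ?_, ?_, ?_⟩
  · have hd0 : (d : ℝ) ≠ 0 := by exact_mod_cast s1.ne_zero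
    have hge : (0 : ℝ) ≤ d := by
      rcases cases3 h s1.ne_zero hdb hreal with ⟨r, hr⟩ | ⟨r, hr⟩ | ⟨u, v, w, hP, h1⟩
      · rw [hr]
        exact mul_self_nonneg r
      · by_contra hcon
        push Not at hcon
        nlinarith [mul_self_nonneg r]
      · have k1 : 0 ≤ u * d := by
          obtain ⟨r, hr⟩ := h1
          rw [hr]
          exact mul_self_nonneg r
        have k3 : 0 < u * v * w := by
          obtain ⟨r, hr⟩ := hP.sq
          refine lt_of_le_of_ne ?_ (mul_ne_zero (mul_ne_zero hP.u0 hP.v0) hP.w0).symm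
          rw [hr]
          exact mul_self_nonneg r
        have e1 := hP.uv
        have e2 := hP.uw
        have k4 : (0 : ℝ) ≤ ((n : ℤ) : ℝ) * (a : ℝ) ^ 2 := by positivity
        have k5 : (0 : ℝ) ≤ ((n : ℤ) : ℝ) * (b : ℝ) ^ 2 := by positivity
        have hu : 0 < u := by
          by_contra hcon
          push Not at hcon
          have hv : v ≤ 0 := by linarith
          have hw : w ≤ 0 := by linarith
          have : u * v * w ≤ 0 :=
            mul_nonpos_of_nonneg_of_nonpos (mul_nonneg_of_nonpos_of_nonpos hcon hv) hw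
          linarith
        by_contra hcon
        push Not at hcon
        nlinarith
    have hgt : (0 : ℝ) < d := lt_of_le_of_ne hge hd0.symm
    exact_mod_cast hgt
  · intro p hpp hpd
    have : Fact p.Prime := ⟨hpp⟩
    by_contra hpn
    rcases cases3 h s1.ne_zero hdb (hp p) with h1 | h1 | ⟨u, v, w, hP, h1⟩
    · refine not_dvd_of_even (u := (1 : ℚ_[p])) one_ne_zero ?_ s1 (by rwa [one_mul]) hpd
      rw [Padic.valuation_one]
      exact Even.zero
    · have hn1 : ((n : ℤ) : ℚ_[p]) ≠ 0 := by exact_mod_cast hn0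
      refine not_dvd_of_even (u := ((n : ℤ) : ℚ_[p])) hn1 ?_ s1 ?_ hpd
      · rw [val_zero (by exact_mod_cast hpn)]
        exact Even.zero
      · rw [Int.cast_natCast, mul_comm]
        exact h1
    · have he : Even u.valuation := by
        by_cases hp2 : p = 2
        · subst hp2
          exact (hT n a b h u v w hP).1
        · exact (hU n a b h p hp2 hpn u v w hP).1
      exact not_dvd_of_even hP.u0 he s1 h1 hpd
  · intro p hpp hpn
    rcases cases3 h s1.ne_zero hdb (hp p) with h1 | h1 | ⟨u, v, w, hP, h1⟩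
    · exact Or.inl h1
    · exact Or.inr h1
    · rcases (hR n a b h p hpn u v w hP).1 with h2 | h2
      · left
        exact sq_cancel hP.u0 h2 h1
      · right
        rw [mul_comm] at h1
        exact sq_trans hP.u0 h1 h2

end Pool.Agent.N873.UT
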