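import Pool.Agent.N873.UT.Stm3
import Pool.Agent.N873.UT.SEL

/-!
# Project UT (helper873), part FB (helper531): upper bound, second isogeny
-/

set_option autoImplicit false

namespace Pool.Agent.N873.UT

open Pool.Agent.N875.X15 (even_val val_zero val_one not_dvd_of_even sq_cancel sq_trans)
open Pool.Agent.Y667.RP (mod_of_sq)
open SEL (adm_n0 adm_a0 adm_ab0 nonsq sq_int8)

namespace FB

/-- the cases of a solution of the quartic -/
lemma cases {K : Type} [Field K] [CharZero K] {n : ℕ} {a b d : ℤ} (h : Adm n a b) (hd : d ≠ 0)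
    (hdvd : d ∣ (n : ℤ) ^ 2 * (a ^ 2 - b ^ 2) ^ 2)
    (hQ : QS K (2 * (n * (a ^ 2 + b ^ 2))) (n ^ 2 * (a ^ 2 - b ^ 2) ^ 2) d) :
    IsSquare (d : K) ∨ IsSquare ((d : K) * (-n)) ∨
    (∃ u v w : K, Pt3 n a b u v w ∧ IsSquare u ∧ IsSquare (v * d)) ∨
    (IsSquare (n : K) ∧ ∃ s : K, s ≠ 0 ∧
      (((n * (a ^ 2 - b ^ 2) : ℤ) : K) = d * s ^ 2 ∨ ((-(n * (a ^ 2 - b ^ 2)) : ℤ) : K) = d * s ^ 2)) := by
  obtain ⟨N, M, e, hMe, hN⟩ := hQ
  obtain ⟨c, hc⟩ := hdvd
  have hdiv : (n : ℤ) ^ 2 * (a ^ 2 - b ^ 2) ^ 2 / d = c := by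
    rw [hc]
    exact Int.mul_ediv_cancel_left c hd
  rw [hdiv] at hN
  have hcK : (n : K) ^ 2 * ((a : K) ^ 2 - (b : K) ^ 2) ^ 2 = d * c := by
    have := congrArg (Int.cast : ℤ → K) hc
    push_cast at this
    exact this
  have hn : (n : K) ≠ 0 := by exact_mod_cast adm_n0 h
  have ha : (a : K) ≠ 0 := by exact_mod_cast adm_a0 h
  have hb : (b : K) ≠ 0 := by exact_mod_cast h.b0
  have hab : (a : K) ^ 2 - (b : K) ^ 2 ≠ 0 := by exact_mod_cast adm_ab0 h
  have hdK : (d : K) ≠ 0 := by exact_mod_cast hd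
  have hcK0 : (c : K) ≠ 0 := by
    intro h0
    rw [h0, mul_zero] at hcK
    exact mul_ne_zero (pow_ne_zero 2 hn) (pow_ne_zero 2 hab) hcK
  have h2 : (2 : K) ≠ 0 := two_ne_zero
  by_cases hM : M = 0
  · left
    have he : e ≠ 0 := by
      rcases hMe with h1 | h1
      · exact absurd hM h1
      · exact h1
    have hN' : N ^ 2 = c * e ^ 4 := by
      rw [hN, hM]
      ring
    have hN0 : N ≠ 0 := by
      intro h0
      rw [h0] at hN'
      exact mul_ne_zero hcK0 (pow_ne_zero 4 he) (by rw [← hN']; ring)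
    refine ⟨(n : K) * ((a : K) ^ 2 - (b : K) ^ 2) * e ^ 2 / N, ?_⟩
    rw [div_mul_div_comm, eq_div_iff (mul_ne_zero hN0 hN0), ← pow_two N, hN']
    calc (d : K) * (c * e ^ 4) = (d * c) * e ^ 4 := by ring
      _ = _ := by rw [← hcK]; ring
  by_cases he : e = 0
  · left
    refine ⟨N / M ^ 2, ?_⟩
    rw [div_mul_div_comm, eq_div_iff (mul_ne_zero (pow_ne_zero 2 hM) (pow_ne_zero 2 hM)),
      ← pow_two N, hN, he]
    ring
  -- the point
  obtain ⟨s, hs⟩ : ∃ s : K, s = M / e := ⟨_, rfl⟩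
  have hs0 : s ≠ 0 := by rw [hs]; exact div_ne_zero hM he
  obtain ⟨X, hX⟩ : ∃ X : K, X = d * s ^ 2 := ⟨_, rfl⟩
  have hX0 : X ≠ 0 := by rw [hX]; exact mul_ne_zero hdK (pow_ne_zero 2 hs0)
  obtain ⟨Y, hY⟩ : ∃ Y : K, Y = d * M * N / e ^ 3 := ⟨_, rfl⟩
  have hXY : Y ^ 2 = X * (X ^ 2 + 2 * n * ((a : K) ^ 2 + (b : K) ^ 2) * X +
      (n : K) ^ 2 * ((a : K) ^ 2 - (b : K) ^ 2) ^ 2) := by
    rw [hcK, hY, hX, hs, div_pow, mul_pow, mul_pow, hN]
    push_cast
    field_simp
  have hXY' : Y ^ 2 = X * ((X + n * ((a : K) + b) ^ 2) * (X + n * ((a : K) - b) ^ 2)) := by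
    rw [hXY]
    ring
  by_cases hN0 : N = 0
  · right; left
    have hY0 : Y = 0 := by rw [hY, hN0]; simp
    rw [hY0] at hXY'
    have h3 : (X + n * ((a : K) + b) ^ 2) * (X + n * ((a : K) - b) ^ 2) = 0 := by
      have h4 : X * ((X + n * ((a : K) + b) ^ 2) * (X + n * ((a : K) - b) ^ 2)) = 0 := by
        rw [← hXY']; ring
      exact (mul_eq_zero.1 h4).resolve_left hX0
    have key : ∀ r : K, X + n * r ^ 2 = 0 → IsSquare ((d : K) * (-n)) := by
      intro r hr
      refine ⟨n * r / s, ?_⟩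
      rw [div_mul_div_comm, eq_div_iff (mul_ne_zero hs0 hs0)]
      have h4 : (d : K) * s ^ 2 = -(n * r ^ 2) := by
        rw [← hX]
        exact eq_neg_of_add_eq_zero_left hr
      calc (d : K) * (-n) * (s * s) = (-n) * (d * s ^ 2) := by ring
        _ = _ := by rw [h4]; ring
    rcases mul_eq_zero.1 h3 with h4 | h4
    · exact key _ h4
    · exact key _ h4
  have hY0 : Y ≠ 0 := by
    rw [hY]
    exact div_ne_zero (mul_ne_zero (mul_ne_zero hdK hM) hN0) (pow_ne_zero 3 he)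
  by_cases h3 : X = n * ((a : K) ^ 2 - (b : K) ^ 2)
  · right; right; right
    refine ⟨⟨Y / (2 * a * X), ?_⟩, s, hs0, Or.inl ?_⟩
    · rw [div_mul_div_comm, eq_div_iff (mul_ne_zero (mul_ne_zero (mul_ne_zero h2 ha) hX0)
        (mul_ne_zero (mul_ne_zero h2 ha) hX0)), ← pow_two Y, hXY]
      have h4 : (n : K) ^ 2 * ((a : K) ^ 2 - (b : K) ^ 2) ^ 2 = X * (n * ((a : K) ^ 2 - (b : K) ^ 2)) := by
        rw [h3]; ring
      have h5 : X ^ 2 = X * (n * ((a : K) ^ 2 - (b : K) ^ 2)) := by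
        rw [pow_two]
        congr 1
      rw [h4, h5]
      ring
    · push_cast
      rw [← hX, h3]
  by_cases h3' : X = -(n * ((a : K) ^ 2 - (b : K) ^ 2))
  · right; right; right
    refine ⟨⟨Y / (2 * b * X), ?_⟩, s, hs0, Or.inr ?_⟩
    · rw [div_mul_div_comm, eq_div_iff (mul_ne_zero (mul_ne_zero (mul_ne_zero h2 hb) hX0)
        (mul_ne_zero (mul_ne_zero h2 hb) hX0)), ← pow_two Y, hXY]
      have h4 : (n : K) ^ 2 * ((a : K) ^ 2 - (b : K) ^ 2) ^ 2 =
          X * -(n * ((a : K) ^ 2 - (b : K) ^ 2)) := by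
        rw [h3']; ring
      have h5 : X ^ 2 = X * -(n * ((a : K) ^ 2 - (b : K) ^ 2)) := by
        rw [pow_two]
        congr 1
      rw [h4, h5]
      ring
    · push_cast
      rw [← hX, h3']
  right; right; left
  have q1 : X - n * ((a : K) ^ 2 - (b : K) ^ 2) ≠ 0 := sub_ne_zero.2 h3
  have q2 : X + n * ((a : K) ^ 2 - (b : K) ^ 2) ≠ 0 := by
    intro h0
    exact h3' (eq_neg_of_add_eq_zero_left h0)
  have h4 : (4 : K) ≠ 0 := by norm_num
  refine ⟨(Y / (2 * X)) ^ 2, (X - n * ((a : K) ^ 2 - (b : K) ^ 2)) ^ 2 / (4 * X),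
    (X + n * ((a : K) ^ 2 - (b : K) ^ 2)) ^ 2 / (4 * X), ⟨?_, ?_, ?_, ?_, ?_, ?_⟩, ?_, ?_⟩
  · exact pow_ne_zero 2 (div_ne_zero hY0 (mul_ne_zero h2 hX0))
  · exact div_ne_zero (pow_ne_zero 2 q1) (mul_ne_zero h4 hX0)
  · exact div_ne_zero (pow_ne_zero 2 q2) (mul_ne_zero h4 hX0)
  · rw [div_pow, hXY]
    push_cast
    field_simp
    ring
  · rw [div_pow, hXY]
    push_cast
    field_simp
    ring
  · refine ⟨Y / (2 * X) * ((X - n * ((a : K) ^ 2 - (b : K) ^ 2)) *
      (X + n * ((a : K) ^ 2 - (b : K) ^ 2)) / (4 * X)), ?_⟩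
    ring
  · exact ⟨Y / (2 * X), by ring⟩
  · refine ⟨(X - n * ((a : K) ^ 2 - (b : K) ^ 2)) / (2 * s), ?_⟩
    have h5 : (d : K) = X / s ^ 2 := by
      rw [hX]
      field_simp
    rw [h5]
    field_simp
    norm_num

end FB

theorem t_FB : S_FB := by
  intro hR hU hT n a b h d hd
  obtain ⟨hsf, hdvd, -, hp⟩ := hd
  have hn0 := adm_n0 h
  have hn2 : ¬ (2 : ℕ) ∣ n := by
    have := h.n8
    omega
  have hd0 : d ≠ 0 := hsf.ne_zero
  have loc := fun (p : ℕ) (hpp : Fact p.Prime) => FB.cases (K := ℚ_[p]) h hd0 hdvd (hp p)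
  have hmod : d % 4 = 1 := by
    have h5 : (5 : ℚ_[2]) ≠ 0 := by norm_num
    have hnK : (n : ℚ_[2]) ≠ 0 := by exact_mod_cast hn0
    have key : IsSquare (d : ℚ_[2]) ∨ IsSquare ((d : ℚ_[2]) * 5) := by
      rcases loc 2 inferInstance with h1 | h1 | ⟨u, v, w, hP, hu, hv⟩ | ⟨h1, -⟩
      · exact Or.inl h1
      · right
        have h3 : IsSquare (((-5 * n : ℤ)) : ℚ_[2]) := sq_int8 (by have := h.n8; omega)
        push_cast at h3
        have h4 := h1.mul h3
        have e : (d : ℚ_[2]) * (-n) * (-5 * n) = (n * n) * (d * 5) := by ring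
        rw [e] at h4
        exact sq_cancel (mul_ne_zero hnK hnK) (IsSquare.mul_self _) h4
      · rcases (hT n a b h u v w hP).2 (Or.inl hu) with h1 | h1
        · left
          exact sq_cancel hP.v0 h1 hv
        · right
          rw [mul_comm (d : ℚ_[2]) 5]
          exact sq_trans hP.v0 h1 hv
      · exfalso
        have h2 : IsSquare (((n : ℤ)) : ℚ_[2]) := by
          rw [Int.cast_natCast]
          exact h1
        have h3 := mod_of_sq (d := (n : ℤ)) (by have := h.n8; omega) h2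
        have := h.n8
        omega
    rcases key with key | key
    · have h9 : ¬ ((2 : ℕ) : ℤ) ∣ d := by
        have h10 : IsSquare ((1 : ℚ_[2]) * d) := by rwa [one_mul]
        exact not_dvd_of_even one_ne_zero (by rw [Padic.valuation_one]; exact Even.zero) hsf h10
      have := mod_of_sq (by exact_mod_cast h9) key
      omega
    · have h10 : IsSquare ((5 : ℚ_[2]) * d) := by rwa [mul_comm]
      have h9 : ¬ ((2 : ℕ) : ℤ) ∣ d := by
        refine not_dvd_of_even h5 ?_ hsf h10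
        have : ((5 : ℤ) : ℚ_[2]).valuation = 0 := val_zero (by norm_num)
        have h5' : (5 : ℚ_[2]).valuation = 0 := by exact_mod_cast this
        rw [h5']
        exact Even.zero
      have h11 := mod_of_sq (d := 5 * d) (by push_cast at h9; omega) (by push_cast; exact h10)
      omega
  refine ⟨hsf, hmod, ?_, ?_⟩
  · intro p hpp hpd
    have hf : Fact p.Prime := ⟨hpp⟩
    by_contra hpn
    have hp2 : p ≠ 2 := by
      rintro rfl
      push_cast at hpd
      omega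
    have hint : ∀ m : ℤ, ¬ (p : ℤ) ∣ m → IsSquare ((m : ℚ_[p]) * d) → False := by
      intro m hm hmd
      have hm0 : (m : ℚ_[p]) ≠ 0 := by
        have : m ≠ 0 := by rintro rfl; simp at hm
        exact_mod_cast this
      exact not_dvd_of_even hm0 (by rw [val_zero hm]; exact Even.zero) hsf hmd hpd
    have hpn' : ¬ (p : ℤ) ∣ (n : ℤ) := by
      intro h0
      exact hpn (by exact_mod_cast h0)
    rcases loc p hf with h1 | h1 | ⟨u, v, w, hP, hu, hv⟩ | ⟨h1, s, hs0, hs⟩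
    · refine hint 1 ?_ (by simpa using h1)
      intro h0
      have := Int.natCast_dvd_natCast.1 (by simpa using h0 : (p : ℤ) ∣ ((1 : ℕ) : ℤ))
      exact hpp.one_lt.ne' (Nat.dvd_one.1 this)
    · refine hint (-n) (by rwa [dvd_neg]) ?_
      push_cast
      rwa [mul_comm]
    · rcases (hU n a b h p hp2 hpn u v w hP).2 with h1 | ⟨h1, h2⟩
      · exact not_dvd_of_even hP.v0 h1 hsf hv hpd
      · exact nonsq h p hp2 hpn h1 (sq_cancel hP.u0 hu h2)
    · by_cases hpab : (p : ℤ) ∣ a ^ 2 - b ^ 2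
      · exact nonsq h p hp2 hpn hpab h1
      · have hpr : Prime (p : ℤ) := Nat.prime_iff_prime_int.1 hpp
        have h2 : ¬ (p : ℤ) ∣ (n : ℤ) * (a ^ 2 - b ^ 2) := by
          intro h0
          rcases hpr.dvd_or_dvd h0 with h3 | h3
          · exact hpn' h3
          · exact hpab h3
        rcases hs with hs | hs
        · refine hint _ h2 ?_
          rw [hs]
          exact ⟨d * s, by ring⟩
        · refine hint (-(n * (a ^ 2 - b ^ 2))) (by rwa [dvd_neg]) ?_
          rw [hs]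
          exact ⟨d * s, by ring⟩
  · intro p hf hpn
    rcases loc p hf with h1 | h1 | ⟨u, v, w, hP, hu, hv⟩ | ⟨h1, -⟩
    · exact Or.inl h1
    · exact Or.inr h1
    · rcases (hR n a b h p hpn u v w hP).2 hu with h1 | h1
      · left
        exact sq_cancel hP.v0 h1 hv
      · right
        rw [mul_comm] at hv
        exact sq_trans hP.v0 hv h1
    · exfalso
      have hpn' : (p : ℤ) ∣ (n : ℤ) := by exact_mod_cast hpn
      have hsn : Squarefree (n : ℤ) := Int.squarefree_natCast.2 h.sqf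
      have h2 : IsSquare (((n : ℤ)) : ℚ_[p]) := by
        rw [Int.cast_natCast]
        exact h1
      have hn0' : (((n : ℤ)) : ℚ_[p]) ≠ 0 := by exact_mod_cast hn0
      have h3 := even_val hn0' h2
      rw [val_one hpn' hsn] at h3
      exact absurd h3 (by decide)

end Pool.Agent.N873.UT
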