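import Mathlib
import Pool.Agent.N873.UT.Stm

/-!
# Project UT (helper873): the two 2-isogeny Selmer groups, exactly

Third list of statements (hard page MP_e2b281_nt). For `E : y² = x³ + a x² + b x`, `a = -n (A² + B²)`,
`b = n² A² B²`, and the 2-isogenous curve, with the definitions of the page (quartics), the two groups of the
classes with everywhere locally solvable quartics are `SA n` and `SB n`.
The parts are independent of each other.
-/

set_option autoImplicit false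
set_option linter.unusedVariables false

open scoped Classical

namespace Pool.Agent.N873.UT

/-- the quartic `N² = d M⁴ + a M² e² + (b / d) e⁴` has a solution with `(M, e) ≠ (0, 0)` -/
def QS (K : Type) [Field K] (a b d : ℤ) : Prop := ∃ N M e : K, (M ≠ 0 ∨ e ≠ 0) ∧
  N ^ 2 = (d : K) * M ^ 4 + (a : K) * M ^ 2 * e ^ 2 + ((b / d : ℤ) : K) * e ^ 4

/-- the squarefree divisors of `b` with everywhere locally solvable quartics -/
def F1 (a b : ℤ) : Set ℤ := {d | Squarefree d ∧ d ∣ b ∧ QS ℝ a b d ∧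
  ∀ (p : ℕ) [Fact p.Prime], QS ℚ_[p] a b d}

/-- UT-QS2: the prime `2`. Let `d ∈ SA n`: odd and positive. The classes of the abscissas of the points of
`E : y² = x (x - n a²) (x - n b²)` over `ℚ_2`: `O`: `1`; `(n a², 0)`: `n ~ 3`; `x = 20 b²`: here
`x - n a² ≡ 5 mod 8` (`b` is even) and `x - n b² = b² (20 - n)`, `20 - n ≡ 1 mod 8`, so the product is
`20 b² * 5 * 1 ~ 1`, a point of the class `5`; the sum of the last two points has the abscissa
`n a² w / v`, `v = 20 b² - n a²`, `w = 20 b² - n b²`, of the class `7` (identity: for `u v w` a square,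
`u' = n a² w / v`, `u' - n a² = n² a² (a² - b²) / v`, `u' - n b² = n (a² - b²) u / v`). A point `(x, y)` with
`x = d r²`, `r ≠ 0`, gives the solution `M = r`, `e = 1`, `N = y / (d r)` of the quartic. -/
def S_QS2 : Prop := ∀ (n : ℕ) (a b : ℤ), Adm n a b → ∀ d ∈ SA n,
  QS ℚ_[2] (-(n * (a ^ 2 + b ^ 2))) (n ^ 2 * a ^ 2 * b ^ 2) d

/-- UT-QSO: the odd primes and the real place. `p ∣ n`: `d ~ 1` or `d ~ n`, the classes of `O` and `(n a², 0)`
(`(n b², 0)` if ...: the class of `n a²` is that of `n` in any case, `a ≠ 0`). `p ∤ n`: `d` is a unit; clear if `d ~ 1`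
or `d ~ n`. So let `d` be a non-square unit and `n` a square in `ℚ_p`. `p ∣ a² - b²`: impossible (`Adm.dd`).
`p ∣ a b`: `-n` is not a square (`Adm.ab`), so `-1` is not a square; say `p ∣ a` (`p ∣ b`: the same with `a`, `b`
exchanged). There are `s, t` modulo `p` with `d s² - t² = n b²` (a conic, always solvable: `ZMod` lemma
on sums of two squares, or counting), `s ≠ 0` since `-n` is not a square modulo `p`, so if `t ≠ 0` take
`u = d s²`: `v = u - n a² ~ u` (`p ∣ a`), `w = u - n b² ≡ t²`: the product is a square. `t ≠ 0` since `d s² = n b²`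
would make `d` a square modulo `p`. `p` not dividing `2 n a b (a² - b²)`: `Pool.Agent.Z894.LG.aux` for the
curve `E` (as in `N873/UT/LI.lean`, for the dual curve). The real place: `d > 0`: a large `x`, or `M = 1`,
`e = 0`. -/
def S_QSO : Prop := ∀ (n : ℕ) (a b : ℤ), Adm n a b → ∀ d ∈ SA n,
  QS ℝ (-(n * (a ^ 2 + b ^ 2))) (n ^ 2 * a ^ 2 * b ^ 2) d ∧
  ∀ (p : ℕ) [Fact p.Prime], p ≠ 2 →
    QS ℚ_[p] (-(n * (a ^ 2 + b ^ 2))) (n ^ 2 * a ^ 2 * b ^ 2) d

/-- UT-QSB: the other isogeny: from `S_LI`. `LocI K a b d` is a point `(X, Y)` of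
`Y² = X³ - 2 a X² + (a² - 4 b) X` with `X = d r²`, `r ≠ 0`; then `M = r`, `e = 1`, `N = Y / (d r)`. -/
def S_QSB : Prop := S_LI → ∀ (n : ℕ) (a b : ℤ), Adm n a b → ∀ d ∈ SB n,
  QS ℝ (2 * (n * (a ^ 2 + b ^ 2))) (n ^ 2 * (a ^ 2 - b ^ 2) ^ 2) d ∧
  ∀ (p : ℕ) [Fact p.Prime], QS ℚ_[p] (2 * (n * (a ^ 2 + b ^ 2))) (n ^ 2 * (a ^ 2 - b ^ 2) ^ 2) d

/-- UT-FA: upper bound, first isogeny. Let `d` be squarefree, `d ∣ b'`, `b' = n² a² b²`, and let `N, M, e` be a
solution over `K = ℚ_p` or `ℝ`. `e = 0`: `d` is a square. `M = 0`: `b' / d` is a square, so `d` is one. Otherwise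
`u = d (M / e)²` satisfies `u v w = (d M N / e³)²`, `v = u - n a²`, `w = u - n b²` (`v w = u² + a' u + b'`). If `N ≠ 0`
then `Pt3`: `S_RAM`, `S_UNR`, `S_TWO` give: `d ~ 1` or `n` for `p ∣ n`, `u` (so `d`) has even valuation for
`p ∤ n` and for `p = 2`, so `p ∤ d` (`d` squarefree). If `N = 0` then `u = n a²` or `u = n b²`, and `d ~ n`. Real place:
`u v w ≥ 0` implies `u ≥ 0` (`n a²`, `n b² > 0`), so `d > 0`. -/
def S_FA : Prop := S_RAM → S_UNR → S_TWO → ∀ (n : ℕ) (a b : ℤ), Adm n a b →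
  F1 (-(n * (a ^ 2 + b ^ 2))) (n ^ 2 * a ^ 2 * b ^ 2) ⊆ SA n

/-- UT-FB: upper bound, second isogeny. Let `N, M, e` be a solution of
`N² = d M⁴ + 2 n (a² + b²) M² e² + (n² (a² - b²)² / d) e⁴` over `K = ℚ_p`. `M = 0` or `e = 0`: `d` is a square.
Otherwise `X = d (M / e)²`, `Y = d M N / e³` is a point of
`Y² = X (X + n (a + b)²) (X + n (a - b)²) = X (X² + 2 n (a² + b²) X + n² (a² - b²)²)`. If `Y ≠ 0`:
`u = (Y / (2 X))²`, `v = u - n a² = (X - n (a² - b²))² / (4 X)`, `w = u - n b² = (X + n (a² - b²))² / (4 X)`. If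
`X ≠ ± n (a² - b²)` this is a `Pt3` with `u` a square and `v ~ X ~ d`: `S_RAM`: `d ~ 1` or `-n` (`p ∣ n`); `S_UNR`:
`d` has even valuation (if `p ∣ a² - b²` and `n` were a square: `Adm.dd`), so `p ∤ d` for `p ∤ 2 n`; `S_TWO`:
`d ~ 1` or `5` over `ℚ_2`, so `d` is odd and `d ≡ 1 mod 4` (`d ~ 5 d'`...: a squarefree integer which is a
square or `5` times a square in `ℚ_2` is `1 mod 4`). `Y = 0`: `X = -n (a ± b)²`, `d ~ -n` (`-n ≡ 5 mod 8`). The cases
`X = ± n (a² - b²)`: replace the solution by a nearby one, or directly: `X = n (a² - b²)` gives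
`Y² = X² (2 X + 2 n (a² + b²)) = X² 4 n a²`, so `n` is a square in `ℚ_p`: impossible for `p ∣ n`, for `p = 2` and
for `p ∣ a² - b²`; otherwise `p ∤ 2 n (a² - b²)` and `X` is a unit; the same for `X = -n (a² - b²)`
(`Y² = X² 4 n b²`). -/
def S_FB : Prop := S_RAM → S_UNR → S_TWO → ∀ (n : ℕ) (a b : ℤ), Adm n a b →
  F1 (2 * (n * (a ^ 2 + b ^ 2))) (n ^ 2 * (a ^ 2 - b ^ 2) ^ 2) ⊆ SB n

end Pool.Agent.N873.UT
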