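import Mathlib
import Pool.Agent.N873.UT.Fin2
import Pool.Agent.N873.UT.Stm3

/-!
# Project UT: assembly, the two Selmer groups of the isogenies (helper873)
-/

set_option autoImplicit false

open scoped Classical

namespace Pool.Agent.N873.UT

open Finset Filter NumberField
open Pool.Agent.N969.P15 (Qc)
open Pool.Agent.TH841.SH.D (Sha)

/-- the parts -/
structure Parts3 : Prop where
  p : Parts2
  qs2 : S_QS2
  qso : S_QSO
  qsb : ∀ (n : ℕ) (a b : ℤ), Adm n a b → ∀ d ∈ SB n,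
    QS ℝ (2 * (n * (a ^ 2 + b ^ 2))) (n ^ 2 * (a ^ 2 - b ^ 2) ^ 2) d ∧
    ∀ (p : ℕ) [Fact p.Prime], QS ℚ_[p] (2 * (n * (a ^ 2 + b ^ 2))) (n ^ 2 * (a ^ 2 - b ^ 2) ^ 2) d
  fa : ∀ (n : ℕ) (a b : ℤ), Adm n a b →
    F1 (-(n * (a ^ 2 + b ^ 2))) (n ^ 2 * a ^ 2 * b ^ 2) ⊆ SA n
  fb : ∀ (n : ℕ) (a b : ℤ), Adm n a b →
    F1 (2 * (n * (a ^ 2 + b ^ 2))) (n ^ 2 * (a ^ 2 - b ^ 2) ^ 2) ⊆ SB n

lemma dvd_n {n : ℕ} {d : ℤ} (hs : Squarefree d)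
    (hp : ∀ p : ℕ, p.Prime → (p : ℤ) ∣ d → p ∣ n) : d ∣ (n : ℤ) := by
  have h1 : Squarefree d.natAbs := Int.squarefree_natAbs.2 hs
  have h2 : d.natAbs ∣ n := by
    rw [← Nat.prod_primeFactors_of_squarefree h1]
    apply Finset.prod_primes_dvd
    · intro p hp1
      exact (Nat.prime_of_mem_primeFactors hp1).prime
    · intro p hp1
      apply hp p (Nat.prime_of_mem_primeFactors hp1)
      exact Int.natCast_dvd.2 (Nat.dvd_of_mem_primeFactors hp1)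
  exact Int.natAbs_dvd.1 (Int.natCast_dvd_natCast.2 h2)

theorem F1_eqA (P : Parts3) {n : ℕ} {a b : ℤ} (h : Adm n a b) :
    F1 (-(n * (a ^ 2 + b ^ 2))) (n ^ 2 * a ^ 2 * b ^ 2) = SA n := by
  refine Set.Subset.antisymm (P.fa n a b h) fun d hd => ?_
  have h2 := P.qs2 n a b h d hd
  obtain ⟨h3, h4⟩ := P.qso n a b h d hd
  obtain ⟨h5, h6, h7, -⟩ := hd
  refine ⟨h5, ?_, h3, fun p hp => ?_⟩
  · rw [mul_assoc]
    exact Dvd.dvd.mul_right (dvd_pow (dvd_n h5 h7) (by norm_num)) _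
  · by_cases hp2 : p = 2
    · subst hp2
      exact h2
    · exact h4 p hp2

theorem F1_eqB (P : Parts3) {n : ℕ} {a b : ℤ} (h : Adm n a b) :
    F1 (2 * (n * (a ^ 2 + b ^ 2))) (n ^ 2 * (a ^ 2 - b ^ 2) ^ 2) = SB n := by
  refine Set.Subset.antisymm (P.fb n a b h) fun d hd => ?_
  obtain ⟨h3, h4⟩ := P.qsb n a b h d hd
  obtain ⟨h5, h6, h7, -⟩ := hd
  refine ⟨h5, ?_, h3, h4⟩
  exact Dvd.dvd.mul_right (dvd_pow (dvd_n h5 h7) (by norm_num)) _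

/-- the orders of the two groups -/
theorem F1_card (P : Parts3) {n : ℕ} {a b : ℤ} (h : Adm n a b) (K : Type) [Field K] [NumberField K]
    (h2 : Module.finrank ℚ K = 2) (hs : ∃ s : K, s ^ 2 = -(n : K)) :
    (F1 (-(n * (a ^ 2 + b ^ 2))) (n ^ 2 * a ^ 2 * b ^ 2)).ncard = 2 * r4 K ∧
    (F1 (2 * (n * (a ^ 2 + b ^ 2))) (n ^ 2 * (a ^ 2 - b ^ 2) ^ 2)).ncard = 2 * r4 K := by
  have h4 : n % 4 = 3 := by
    have := h.n8
    omega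
  rw [F1_eqA P h, F1_eqB P h, (P.p.p.cb n h.sqf h4).2]
  exact ⟨(P.p.p.ca n h.sqf h4 K h2 hs).2, (P.p.p.ca n h.sqf h4 K h2 hs).2⟩

end Pool.Agent.N873.UT
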