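import Mathlib
import Pool.Agent.N873.UT.Stm3

/-!
# Project UT, part QS2: the quartics of the first isogeny over `ℚ_2`

By helper488, for the project of helper873.
-/

set_option autoImplicit false
set_option linter.unusedVariables false

open scoped Classical

namespace Pool.Agent.N873.UT

namespace QS2

/-- integers congruent to `1` modulo `8` are squares in `ℚ_2` -/
theorem sq_int {z : ℤ} (h : z % 8 = 1) : ∃ t : ℚ_[2], t ^ 2 = (z : ℚ_[2]) := by
  have h1 := Pool.Agent.N875.X15.sq_of_mod8 (z : ℤ_[2]) (by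
    rw [map_intCast]
    have e : z = 8 * (z / 8) + 1 := by omega
    rw [e]
    push_cast
    have : (8 : ZMod (2 ^ 3)) = 0 := by decide
    rw [this]
    ring)
  obtain ⟨t, ht⟩ := h1
  refine ⟨t, ?_⟩
  rw [pow_two, ← ht]
  simp

/-- squarefree numbers -/
theorem dvd_of_sqf {n : ℕ} {d : ℤ} (hd : Squarefree d)
    (h : ∀ p : ℕ, p.Prime → (p : ℤ) ∣ d → p ∣ n) : d ∣ (n : ℤ) := by
  have h1 : ∏ p ∈ d.natAbs.primeFactors, p = d.natAbs :=
    Nat.prod_primeFactors_of_squarefree (Int.squarefree_natAbs.2 hd)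
  have h2 : ∏ p ∈ d.natAbs.primeFactors, p ∣ n := by
    refine Finset.prod_primes_dvd n (fun p hp => ?_) (fun p hp => ?_)
    · exact (Nat.mem_primeFactors.1 hp).1.prime
    · obtain ⟨h3, h4, -⟩ := Nat.mem_primeFactors.1 hp
      exact h p h3 (Int.natCast_dvd.2 h4)
  rw [h1] at h2
  exact Int.natAbs_dvd.1 (by exact_mod_cast h2)

/-- from a point to a solution of the quartic -/
theorem mk {n : ℕ} {a b d : ℤ} (hd0 : d ≠ 0) (hdn : d ∣ (n : ℤ)) (M N : ℚ_[2])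
    (h : N ^ 2 * d = (d * M ^ 2 - n * a ^ 2) * (d * M ^ 2 - n * b ^ 2)) :
    QS ℚ_[2] (-(n * (a ^ 2 + b ^ 2))) (n ^ 2 * a ^ 2 * b ^ 2) d := by
  have hd : (d : ℚ_[2]) ≠ 0 := by exact_mod_cast hd0
  have hdv : d ∣ (n : ℤ) ^ 2 * a ^ 2 * b ^ 2 :=
    ((hdn.trans (dvd_pow_self _ two_ne_zero)).mul_right _).mul_right _
  refine ⟨N, M, 1, Or.inr one_ne_zero, ?_⟩
  have e : ((((n : ℤ) ^ 2 * a ^ 2 * b ^ 2 / d : ℤ)) : ℚ_[2]) * d =
      (n : ℚ_[2]) ^ 2 * a ^ 2 * b ^ 2 := by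
    rw [← Int.cast_mul, Int.ediv_mul_cancel hdv]
    push_cast
    ring
  apply mul_right_cancel₀ hd
  rw [h, add_mul, mul_assoc _ ((1 : ℚ_[2]) ^ 4), mul_comm ((1 : ℚ_[2]) ^ 4), ← mul_assoc, e]
  push_cast
  ring

end QS2

open QS2 in
/-- **The quartics over `ℚ_2`.** -/
theorem t_QS2 : S_QS2 := by
  rintro n a b h d ⟨sd, hpos, hsup, -⟩
  have hdn := dvd_of_sqf sd hsup
  have hd0 := hpos.ne'
  have hd : (d : ℚ_[2]) ≠ 0 := by exact_mod_cast hd0
  have hn8 := h.n8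
  have hn0 : n ≠ 0 := by omega
  have hn : (n : ℚ_[2]) ≠ 0 := by exact_mod_cast hn0
  have hd2 : d % 2 = 1 := by
    obtain ⟨k, hk⟩ := hdn
    by_contra h2
    have h3 : d % 2 = 0 := by omega
    obtain ⟨j, hj⟩ := Int.dvd_of_emod_eq_zero h3
    have h4 : (n : ℤ) = 2 * (j * k) := by rw [hk, hj]; ring
    omega
  have ha2 := h.a2
  have hb2 := h.b2
  -- the integer `v`
  have ha8 : a ^ 2 % 8 = 1 := by
    have h1 : a % 8 = 1 ∨ a % 8 = 3 ∨ a % 8 = 5 ∨ a % 8 = 7 := by omega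
    rcases h1 with h1 | h1 | h1 | h1 <;> rw [pow_two, Int.mul_emod, h1] <;> norm_num
  have hv8 : (20 * b ^ 2 - n * a ^ 2) % 8 = 5 := by
    obtain ⟨c, hc⟩ := Int.dvd_of_emod_eq_zero hb2
    have h1 : ((n : ℤ) * a ^ 2) % 8 = 3 := by
      rw [Int.mul_emod, ha8]
      have : (n : ℤ) % 8 = 3 := by omega
      rw [this]
      norm_num
    have h2 : 20 * b ^ 2 = 8 * (10 * c ^ 2) := by rw [hc]; ring
    rw [h2]
    generalize (n : ℤ) * a ^ 2 = A at h1 ⊢
    generalize c ^ 2 = B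
    omega
  have hv0 : (20 * b ^ 2 - n * a ^ 2 : ℤ) ≠ 0 := by
    intro h1
    rw [h1] at hv8
    norm_num at hv8
  have hv : (20 * (b : ℚ_[2]) ^ 2 - n * (a : ℚ_[2]) ^ 2) ≠ 0 := by exact_mod_cast hv0
  have hw8 : (20 - (n : ℤ)) % 8 = 1 := by omega
  set V : ℤ := 20 * b ^ 2 - n * a ^ 2 with hV
  have eV : (V : ℚ_[2]) = 20 * (b : ℚ_[2]) ^ 2 - n * (a : ℚ_[2]) ^ 2 := by
    rw [hV]
    push_cast
    ring
  rw [← eV] at hv
  have hcase : d % 8 = 1 ∨ d % 8 = 3 ∨ d % 8 = 5 ∨ d % 8 = 7 := by omega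
  rcases hcase with h8 | h8 | h8 | h8
  · obtain ⟨t, ht⟩ := sq_int h8
    refine ⟨t, 1, 0, Or.inl one_ne_zero, ?_⟩
    rw [ht]
    ring
  · obtain ⟨t, ht⟩ := sq_int (z := n * d) (by
      rw [Int.mul_emod, h8]
      have : (n : ℤ) % 8 = 3 := by omega
      rw [this]
      norm_num)
    push_cast at ht
    refine mk hd0 hdn (t * a / d) 0 ?_
    have e : (d : ℚ_[2]) * (t * a / d) ^ 2 = n * a ^ 2 := by
      field_simp
      linear_combination (a : ℚ_[2]) ^ 2 * ht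
    rw [e]
    ring
  · obtain ⟨t, ht⟩ := sq_int (z := 5 * d) (by omega)
    obtain ⟨t', ht'⟩ := sq_int (z := V * (20 - n) * d) (by
      rw [Int.mul_emod, Int.mul_emod V, hw8, hv8, h8]
      norm_num)
    push_cast at ht ht'
    refine mk hd0 hdn (2 * b * t / d) (b * t' / d) ?_
    have e : (d : ℚ_[2]) * (2 * b * t / d) ^ 2 = 20 * b ^ 2 := by
      field_simp
      linear_combination 4 * (b : ℚ_[2]) ^ 2 * ht
    rw [e, ← eV]
    field_simp
    linear_combination (b : ℚ_[2]) ^ 2 * ht'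
  · obtain ⟨t, ht⟩ := sq_int (z := n * (20 - n) * V * d) (by
      have h1 : ((n : ℤ) * (20 - n)) % 8 = 3 := by
        rw [Int.mul_emod, hw8]
        omega
      have h2 : (V * d) % 8 = 3 := by
        rw [Int.mul_emod, hv8, h8]
        norm_num
      rw [mul_assoc, Int.mul_emod, h1, h2]
      norm_num)
    obtain ⟨t', ht'⟩ := sq_int (z := 5 * (n * d)) (by
      have h1 : ((n : ℤ) * d) % 8 = 5 := by
        rw [Int.mul_emod, h8]
        have : (n : ℤ) % 8 = 3 := by omega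
        rw [this]
        norm_num
      omega)
    push_cast at ht ht'
    refine mk hd0 hdn (a * b * t / (V * d)) (2 * n * a * b * (a ^ 2 - b ^ 2) * t' / (V * d)) ?_
    have e : (d : ℚ_[2]) * (a * b * t / (V * d)) ^ 2 = n * a ^ 2 * b ^ 2 * (20 - n) / V := by
      field_simp
      linear_combination (a : ℚ_[2]) ^ 2 * b ^ 2 * ht
    rw [e]
    have e1 : (n : ℚ_[2]) * a ^ 2 * b ^ 2 * (20 - n) / V - n * a ^ 2 =
        n ^ 2 * a ^ 2 * (a ^ 2 - b ^ 2) / V := by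
      field_simp
      rw [eV]
      ring
    have e2 : (n : ℚ_[2]) * a ^ 2 * b ^ 2 * (20 - n) / V - n * b ^ 2 =
        n * (a ^ 2 - b ^ 2) * (20 * b ^ 2) / V := by
      field_simp
      rw [eV]
      ring
    rw [e1, e2]
    field_simp
    linear_combination 4 * (a : ℚ_[2]) ^ 2 * b ^ 2 * (a ^ 2 - b ^ 2) ^ 2 * ht'

end Pool.Agent.N873.UT
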