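import Pool.Agent.N873.UT.Stm3

/-!
# UT-QSB: the quartics of the second isogeny (helper700)
-/

set_option autoImplicit false

namespace Pool.Agent.N873.UT.QSB

open Pool.Agent.N873.UT
open Pool.Agent.Z702 (LocI)

lemma dvd_n {n : ℕ} {d : ℤ} (hs : Squarefree d)
    (hp : ∀ p : ℕ, p.Prime → (p : ℤ) ∣ d → p ∣ n) : d ∣ (n : ℤ) := by
  have h1 : Squarefree d.natAbs := Int.squarefree_natAbs.2 hs
  have h2 : d.natAbs ∣ n := by
    rw [← Nat.prod_primeFactors_of_squarefree h1]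
    apply Finset.prod_primes_dvd
    · intro p hp1
      exact (Nat.prime_of_mem_primeFactors hp1).prime
    · intro p hp1
      apply hp p (Nat.prime_of_mem_primeFactors hp1)
      exact Int.natCast_dvd.2 (Nat.dvd_of_mem_primeFactors hp1)
  exact Int.natAbs_dvd.1 (Int.natCast_dvd_natCast.2 h2)

lemma qs_of_loc {K : Type} [Field K] [CharZero K] {n : ℕ} {a b d : ℤ} (hd : d ≠ 0)
    (hdvd : d ∣ n ^ 2 * (a ^ 2 - b ^ 2) ^ 2)
    (h : LocI K (-(n * (a ^ 2 + b ^ 2))) (n ^ 2 * a ^ 2 * b ^ 2) d) :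
    QS K (2 * (n * (a ^ 2 + b ^ 2))) (n ^ 2 * (a ^ 2 - b ^ 2) ^ 2) d := by
  obtain ⟨X, Y, r, hX, hY, hr⟩ := h
  have hdK : (d : K) ≠ 0 := Int.cast_ne_zero.2 hd
  have hr0 : r ≠ 0 := by
    rintro rfl
    apply hX
    rw [hr]
    ring
  refine ⟨Y / (d * r), r, 1, Or.inl hr0, ?_⟩
  rw [Int.cast_div hdvd hdK]
  rw [div_pow, hY, hr]
  push_cast
  field_simp
  ring

end Pool.Agent.N873.UT.QSB

namespace Pool.Agent.N873.UT

theorem t_QSB : S_QSB := by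
  intro hLI n a b h d hd
  obtain ⟨h1, h2⟩ := hLI n a b h d hd
  obtain ⟨h3, _, h4, _⟩ := hd
  have hd0 : d ≠ 0 := h3.ne_zero
  have hdv : d ∣ n ^ 2 * (a ^ 2 - b ^ 2) ^ 2 :=
    Dvd.dvd.mul_right (dvd_pow (QSB.dvd_n h3 h4) (by norm_num)) _
  exact ⟨QSB.qs_of_loc hd0 hdv h2, fun p _ => QSB.qs_of_loc hd0 hdv (h1 p)⟩

end Pool.Agent.N873.UT
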