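import Pool.Agent.N873.UT.Stm3
import Pool.Agent.N873.UT.LI

/-!
# Project UT (helper873), job UT3/QSO: quartics of the first isogeny at the odd primes and over `ℝ`
-/

set_option autoImplicit false

namespace Pool.Agent.N873.UT.QSO

open Pool.Agent.Z702 (LocI)
open Pool.Agent.N875.X15 (sq_of_zmod)

/-- a point whose abscissa is `d r²` gives a solution of the quartic -/
lemma QS_mk {K : Type} [Field K] [CharZero K] (n : ℕ) (a b d : ℤ) (hd : d ≠ 0)
    (hdv : d ∣ n ^ 2 * a ^ 2 * b ^ 2) {X Y r : K} (hX : X ≠ 0)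
    (hY : Y ^ 2 = X * (X - n * a ^ 2) * (X - n * b ^ 2)) (hr : X = d * r ^ 2) :
    QS K (-(n * (a ^ 2 + b ^ 2))) (n ^ 2 * a ^ 2 * b ^ 2) d := by
  have hd' : (d : K) ≠ 0 := by exact_mod_cast hd
  have hr0 : r ≠ 0 := by
    rintro rfl
    apply hX
    rw [hr]
    ring
  refine ⟨Y / (d * r), r, 1, Or.inl hr0, ?_⟩
  obtain ⟨c, hc⟩ := hdv
  have e1 : ((n ^ 2 * a ^ 2 * b ^ 2 : ℤ) / d : ℤ) = c := by
    rw [hc]
    exact Int.mul_ediv_cancel_left c hd
  rw [e1]
  have e2 : (n : K) ^ 2 * a ^ 2 * b ^ 2 = d * c := by exact_mod_cast hc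
  rw [div_pow, hY, hr]
  push_cast
  field_simp
  linear_combination e2

/-- the squares -/
lemma QS_sq {K : Type} [Field K] (A B d : ℤ) (h : IsSquare (d : K)) : QS K A B d := by
  obtain ⟨e, he⟩ := h
  refine ⟨e, 1, 0, Or.inl one_ne_zero, ?_⟩
  rw [he]
  ring

/-- the class of `n` -/
lemma QS_n {K : Type} [Field K] [CharZero K] (n : ℕ) (a b d : ℤ) (hn : n ≠ 0) (ha : a ≠ 0)
    (hd : d ≠ 0) (hdv : d ∣ n ^ 2 * a ^ 2 * b ^ 2) (h : IsSquare ((d : K) * n)) :
    QS K (-(n * (a ^ 2 + b ^ 2))) (n ^ 2 * a ^ 2 * b ^ 2) d := by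
  obtain ⟨e, he⟩ := h
  have hd' : (d : K) ≠ 0 := by exact_mod_cast hd
  have hn' : (n : K) ≠ 0 := by exact_mod_cast hn
  have ha' : (a : K) ≠ 0 := by exact_mod_cast ha
  refine QS_mk n a b d hd hdv (X := n * a ^ 2) (Y := 0) (r := e * a / d)
    (mul_ne_zero hn' (pow_ne_zero 2 ha')) ?_ ?_
  · ring
  · field_simp
    linear_combination he

/-- the primes dividing `a` -/
lemma node {p : ℕ} [hp : Fact p.Prime] {n : ℕ} {a b d : ℤ} (hp2 : p ≠ 2) (hd : d ≠ 0)
    (hdv : d ∣ n ^ 2 * a ^ 2 * b ^ 2)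
    (hpn : ¬ (p : ℤ) ∣ (n : ℤ)) (hpa : (p : ℤ) ∣ a) (hpb : ¬ (p : ℤ) ∣ b)
    (hdn : ¬ IsSquare ((d : ℤ) : ZMod p)) (hn1 : IsSquare (((n : ℤ) : ℤ) : ZMod p))
    (hn2 : ¬ IsSquare ((-(n : ℤ) : ℤ) : ZMod p)) :
    QS ℚ_[p] (-(n * (a ^ 2 + b ^ 2))) (n ^ 2 * a ^ 2 * b ^ 2) d := by
  have hz : ∀ k : ℤ, ¬ (p : ℤ) ∣ k → ((k : ℤ) : ZMod p) ≠ 0 := fun k hk h =>
    hk ((ZMod.intCast_zmod_eq_zero_iff_dvd k p).1 h)
  have hzd : ∀ k : ℤ, ((k : ℤ) : ZMod p) ≠ 0 → ¬ (p : ℤ) ∣ k := fun k hk h =>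
    hk ((ZMod.intCast_zmod_eq_zero_iff_dvd k p).2 h)
  obtain ⟨t, ht⟩ := hn1
  have hn0 : ((n : ℤ) : ZMod p) ≠ 0 := hz _ hpn
  have ht0 : t ≠ 0 := by
    rintro rfl
    apply hn0
    rw [mul_zero] at ht
    exact ht
  have h1 : ¬ IsSquare (-1 : ZMod p) := by
    rintro ⟨i, hi⟩
    apply hn2
    refine ⟨i * t, ?_⟩
    push_cast at ht ⊢
    linear_combination (-1 : ZMod p) * ht + (t * t) * hi
  have hb0 := hz _ hpb
  have hc : t * ((b : ℤ) : ZMod p) ≠ 0 := mul_ne_zero ht0 hb0
  obtain ⟨s, hs0, hs⟩ := LI.ex_ns h1 hc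
  set s' : ℤ := (s.val : ℤ) with hs'
  have hss : ((s' : ℤ) : ZMod p) = s := by
    rw [hs']
    simp
  have haz : (a : ZMod p) = 0 := (ZMod.intCast_zmod_eq_zero_iff_dvd a p).2 hpa
  set X : ℤ := s' ^ 2 + n * b ^ 2 with hX
  have eX : ((X : ℤ) : ZMod p) = s ^ 2 + (t * ((b : ℤ) : ZMod p)) ^ 2 := by
    rw [hX]
    push_cast at hss ht ⊢
    rw [hss]
    linear_combination (b : ZMod p) ^ 2 * ht
  have hXns : ¬ IsSquare ((X : ℤ) : ZMod p) := by rw [eX]; exact hs
  have hX0 : ((X : ℤ) : ZMod p) ≠ 0 := by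
    intro h
    apply hXns
    rw [h]
    exact ⟨0, by simp⟩
  have hd0 : ((d : ℤ) : ZMod p) ≠ 0 := by
    intro h
    apply hdn
    rw [h]
    exact ⟨0, by simp⟩
  have hXd : IsSquare (((X * d : ℤ)) : ZMod p) := by
    have c1 : quadraticChar (ZMod p) ((X : ℤ) : ZMod p) = -1 := by
      rcases quadraticChar_dichotomy hX0 with h | h
      · exfalso
        exact hXns ((quadraticChar_one_iff_isSquare hX0).1 h)
      · exact h
    have c2 : quadraticChar (ZMod p) ((d : ℤ) : ZMod p) = -1 := by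
      rcases quadraticChar_dichotomy hd0 with h | h
      · exfalso
        exact hdn ((quadraticChar_one_iff_isSquare hd0).1 h)
      · exact h
    have hXd0 : (((X * d : ℤ)) : ZMod p) ≠ 0 := by
      push_cast
      exact mul_ne_zero hX0 hd0
    rw [← quadraticChar_one_iff_isSquare hXd0]
    push_cast
    rw [map_mul, c1, c2]
    norm_num
  have hXdv : ¬ (p : ℤ) ∣ X * d := by
    apply hzd
    push_cast
    exact mul_ne_zero hX0 hd0
  obtain ⟨e, he⟩ := sq_of_zmod hp2 hXdv hXd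
  set Q : ℤ := X * (X - n * a ^ 2) * (X - n * b ^ 2) with hQ
  have eQ : ((Q : ℤ) : ZMod p) = (((X : ℤ) : ZMod p) * s) * (((X : ℤ) : ZMod p) * s) := by
    have e1 : ((X - n * b ^ 2 : ℤ) : ZMod p) = s ^ 2 := by
      rw [hX]
      push_cast at hss ⊢
      rw [hss]
      ring
    rw [hQ, Int.cast_mul, e1]
    push_cast
    rw [haz]
    ring
  have hQ0 : ¬ (p : ℤ) ∣ Q := by
    apply hzd
    rw [eQ]
    exact mul_ne_zero (mul_ne_zero hX0 hs0) (mul_ne_zero hX0 hs0)
  obtain ⟨Y, hY⟩ := sq_of_zmod hp2 hQ0 ⟨_, eQ⟩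
  have hd' : (d : ℚ_[p]) ≠ 0 := by exact_mod_cast hd
  have hX' : (X : ℚ_[p]) ≠ 0 := by
    have : X ≠ 0 := by
      intro h
      rw [h] at hX0
      simp at hX0
    exact_mod_cast this
  refine QS_mk n a b d hd hdv (X := (X : ℚ_[p])) (Y := Y) (r := e / d) hX' ?_ ?_
  · rw [hQ] at hY
    push_cast at hY
    rw [sq, ← hY]
  · push_cast at he
    field_simp
    linear_combination he

end QSO

open Pool.Agent.Z702 (LocI)
open Pool.Agent.N875.X15 (sq_of_zmod)

/-- job UT3/QSO -/
theorem t_QSO : S_QSO := by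
  intro n a b hadm d hd
  obtain ⟨hds, hdpos, hsup, hloc⟩ := hd
  have hn8 := hadm.n8
  have hn0 : n ≠ 0 := by omega
  have ha2 := hadm.a2
  have ha0 : a ≠ 0 := by omega
  have hd0 : d ≠ 0 := by omega
  have hdn : d ∣ (n : ℤ) := by
    have h1 : d.natAbs ∣ n := by
      have hsf : Squarefree d.natAbs := Int.squarefree_natAbs.2 hds
      rw [← Nat.prod_primeFactors_of_squarefree hsf]
      apply Finset.prod_primes_dvd
      · intro q hq
        exact (Nat.prime_of_mem_primeFactors hq).prime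
      · intro q hq
        refine hsup q (Nat.prime_of_mem_primeFactors hq) ?_
        exact Int.natCast_dvd.2 (Nat.dvd_of_mem_primeFactors hq)
    exact Int.natAbs_dvd.1 (by exact_mod_cast h1)
  have hdv : d ∣ n ^ 2 * a ^ 2 * b ^ 2 := by
    have : (n : ℤ) ∣ n ^ 2 * a ^ 2 * b ^ 2 := ⟨n * a ^ 2 * b ^ 2, by ring⟩
    exact hdn.trans this
  refine ⟨?_, ?_⟩
  · apply QSO.QS_sq
    have h1 : (0 : ℝ) ≤ (d : ℝ) := by exact_mod_cast hdpos.le
    exact ⟨Real.sqrt d, (Real.mul_self_sqrt h1).symm⟩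
  · intro p hp hp2
    by_cases hpn : p ∣ n
    · rcases hloc p hpn with h | h
      · exact QSO.QS_sq _ _ d h
      · exact QSO.QS_n n a b d hn0 ha0 hd0 hdv h
    · have hpr : Prime (p : ℤ) := Nat.prime_iff_prime_int.1 hp.out
      have hpn' : ¬ (p : ℤ) ∣ (n : ℤ) := fun h => hpn (by exact_mod_cast h)
      have hpd : ¬ (p : ℤ) ∣ d := fun h => hpn (hsup p hp.out h)
      have hz : ∀ k : ℤ, ¬ (p : ℤ) ∣ k → ((k : ℤ) : ZMod p) ≠ 0 := fun k hk h =>
        hk ((ZMod.intCast_zmod_eq_zero_iff_dvd k p).1 h)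
      by_cases hsq : IsSquare ((d : ℤ) : ZMod p)
      · exact QSO.QS_sq _ _ d (sq_of_zmod hp2 hpd hsq)
      · by_cases hsq' : IsSquare (((d * (n : ℤ) : ℤ)) : ZMod p)
        · refine QSO.QS_n n a b d hn0 ha0 hd0 hdv ?_
          have h1 : ¬ (p : ℤ) ∣ d * (n : ℤ) := by
            intro h
            rcases hpr.dvd_or_dvd h with h3 | h3
            · exact hpd h3
            · exact hpn' h3
          have := sq_of_zmod hp2 h1 hsq'
          push_cast at this
          exact this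
        · have hnz : (((n : ℤ) : ℤ) : ZMod p) ≠ 0 := hz _ hpn'
          have hnz' : ((-(n : ℤ) : ℤ) : ZMod p) ≠ 0 := hz _ (by rwa [dvd_neg])
          have cd : quadraticChar (ZMod p) ((d : ℤ) : ZMod p) = -1 := by
            rcases quadraticChar_dichotomy (hz d hpd) with h | h
            · exfalso
              exact hsq ((quadraticChar_one_iff_isSquare (hz d hpd)).1 h)
            · exact h
          have hns : IsSquare (((n : ℤ) : ℤ) : ZMod p) := by
            by_contra hcon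
            have c2 : quadraticChar (ZMod p) (((n : ℤ) : ℤ) : ZMod p) = -1 := by
              rcases quadraticChar_dichotomy hnz with h | h
              · exfalso
                exact hcon ((quadraticChar_one_iff_isSquare hnz).1 h)
              · exact h
            apply hsq'
            have h0 : (((d * (n : ℤ) : ℤ)) : ZMod p) ≠ 0 := by
              rw [Int.cast_mul]
              exact mul_ne_zero (hz d hpd) hnz
            rw [← quadraticChar_one_iff_isSquare h0, Int.cast_mul, map_mul, cd, c2]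
            norm_num
          have hpc : ¬ (p : ℤ) ∣ a ^ 2 - b ^ 2 := by
            intro h
            exact LI.ns_of_jac (hadm.dd p hp.out hp2 h) hnz hns
          by_cases hpab : (p : ℤ) ∣ a * b
          · have hn2 := LI.ns_of_jac (hadm.ab p hp.out hp2 hpab) hnz'
            have hcop := hadm.cop
            have hnot : ¬ ((p : ℤ) ∣ a ∧ (p : ℤ) ∣ b) := by
              rintro ⟨h1, h2⟩
              exact hpr.not_isUnit (hcop.isUnit_of_dvd' h1 h2)
            rcases hpr.dvd_or_dvd hpab with h3 | h3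
            · exact QSO.node hp2 hd0 hdv hpn' h3 (fun h => hnot ⟨h3, h⟩) hsq hns hn2
            · have hdv' : d ∣ n ^ 2 * b ^ 2 * a ^ 2 := by
                have e : (n : ℤ) ^ 2 * b ^ 2 * a ^ 2 = n ^ 2 * a ^ 2 * b ^ 2 := by ring
                rw [e]
                exact hdv
              have h4 := QSO.node (a := b) (b := a) hp2 hd0 hdv' hpn' h3 (fun h => hnot ⟨h, h3⟩)
                hsq hns hn2
              have e1 : (-(n * (b ^ 2 + a ^ 2)) : ℤ) = -(n * (a ^ 2 + b ^ 2)) := by ring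
              have e2 : (n : ℤ) ^ 2 * b ^ 2 * a ^ 2 = n ^ 2 * a ^ 2 * b ^ 2 := by ring
              rw [e1, e2] at h4
              exact h4
          · have hb : ((n ^ 2 * (a ^ 2 - b ^ 2) ^ 2 : ℤ) : ZMod p) ≠ 0 := by
              apply hz
              intro h
              rcases hpr.dvd_or_dvd h with h3 | h3
              · exact hpn' (hpr.dvd_of_dvd_pow h3)
              · exact hpc (hpr.dvd_of_dvd_pow h3)
            have h4 : ¬ (p : ℤ) ∣ 4 := by
              intro h
              have h5 : (p : ℤ) ∣ 2 ^ 2 := by norm_num; exact h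
              have h6 := hpr.dvd_of_dvd_pow h5
              apply hp2
              have h7 : p ∣ 2 := by exact_mod_cast h6
              exact (Nat.prime_dvd_prime_iff_eq hp.out Nat.prime_two).1 h7
            have key := Pool.Agent.Z894.LG.aux p (2 * (n * (a ^ 2 + b ^ 2)))
              (n ^ 2 * (a ^ 2 - b ^ 2) ^ 2) d hp2 hb ?_ hd0 cd
            · obtain ⟨X, Y, r, hX, hY, hr⟩ := key
              refine QSO.QS_mk n a b d hd0 hdv (X := X / 4) (Y := Y / 8) (r := r / 2)
                (div_ne_zero hX (by norm_num)) ?_ ?_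
              · rw [div_pow, hY]
                push_cast
                ring
              · rw [hr]
                ring
            · have e : (((2 * (n * (a ^ 2 + b ^ 2)) : ℤ) : ZMod p)) ^ 2 -
                  4 * ((n ^ 2 * (a ^ 2 - b ^ 2) ^ 2 : ℤ) : ZMod p) =
                  (((4 * (n * (a * b)) : ℤ)) : ZMod p) ^ 2 := by
                push_cast; ring
              rw [e]
              apply quadraticChar_sq_one'
              apply hz
              intro h
              rcases hpr.dvd_or_dvd h with h3 | h3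
              · exact h4 h3
              · rcases hpr.dvd_or_dvd h3 with h5 | h5
                · exact hpn' h5
                · exact hpab h5

end Pool.Agent.N873.UT

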