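import Mathlib
import Pool.Agent.N873.UT.Parts2
import Pool.Agent.N873.UT.Fin3
import Pool.Agent.N873.UT.QS2
import Pool.Agent.N873.UT.QSO
import Pool.Agent.N873.UT.QSB
import Pool.Agent.N873.UT.FA
import Pool.Agent.N873.UT.FB

/-!
# Project UT: the parts, the Selmer groups of the isogenies (also helpers 433, 488, 531, 700, 966)
-/

set_option autoImplicit false

namespace Pool.Agent.N873.UT

theorem parts3 : Parts3 where
  p := parts2
  qs2 := t_QS2
  qso := t_QSO
  qsb := t_QSB t_LI
  fa := t_FA t_RAM t_UNR t_TWO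
  fb := t_FB t_RAM t_UNR t_TWO

end Pool.Agent.N873.UT
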