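import Pool.Agent.N873.UT.Stm
import Pool.Agent.N875.X15.Crit

/-!
# UT-UNR: the local images at the odd primes not dividing `n` (helper700)
-/

set_option autoImplicit false

namespace Pool.Agent.N873.UT.UNR

open Pool.Agent.N875.X15 (norm_eq_iff closeV val_add_ge even_val sq_cancel sq_trans loc_unr val_zero
  jac_of_sq)

variable {p : ℕ} [hp : Fact p.Prime]

lemma vneg (x : ℚ_[p]) : (-x).valuation = x.valuation := by
  by_cases hx : x = 0
  · rw [hx, neg_zero]
  exact (norm_eq_iff (neg_ne_zero.2 hx) hx).1 (norm_neg x)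

/-- a number of the class of a non-residue -/
lemma nsq {c : ℤ} (hc : ¬ (p : ℤ) ∣ c) (hj : jacobiSym c p ≠ 1) {t : ℚ_[p]} (ht : t ≠ 0) :
    ¬ IsSquare ((c : ℚ_[p]) * t ^ 2) := by
  intro h
  apply hj
  apply jac_of_sq hc
  refine sq_cancel (x := t * t) (mul_ne_zero ht ht) ⟨t, rfl⟩ ?_
  have e : t * t * (c : ℚ_[p]) = (c : ℚ_[p]) * t ^ 2 := by ring
  rwa [e]

/-- the valuation of `c t ^ 2`, `c` a unit -/
lemma val_cs {c : ℤ} (hc : ¬ (p : ℤ) ∣ c) {t : ℚ_[p]} (ht : t ≠ 0) :
    ((c : ℚ_[p]) * t ^ 2).valuation = 2 * t.valuation := by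
  have hc0 : (c : ℚ_[p]) ≠ 0 := by
    have : c ≠ 0 := by rintro rfl; simp at hc
    exact_mod_cast this
  rw [Padic.valuation_mul hc0 (pow_ne_zero 2 ht), val_zero hc, pow_two, Padic.valuation_mul ht ht]
  ring

/-- an integer has a valuation `≥ 0` -/
lemma val_nonneg {c : ℤ} (hc : c ≠ 0) : 0 ≤ (c : ℚ_[p]).valuation := by
  have h1 := Padic.norm_int_le_one (p := p) c
  have hc0 : (c : ℚ_[p]) ≠ 0 := by exact_mod_cast hc
  have h2 : ‖(c : ℚ_[p])‖ ≤ ‖(1 : ℚ_[p])‖ := by rw [norm_one]; exact h1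
  rw [Pool.Agent.N875.X15.norm_le_iff hc0 one_ne_zero, Padic.valuation_one] at h2
  exact h2

end Pool.Agent.N873.UT.UNR

namespace Pool.Agent.N873.UT

open UNR
open Pool.Agent.N875.X15 (norm_eq_iff closeV val_add_ge even_val sq_cancel sq_trans loc_unr val_zero
  jac_of_sq)

theorem t_UNR : S_UNR := by
  intro n a b h p hp hp2 hpn u v w P
  have hpn' : ¬ (p : ℤ) ∣ (n : ℤ) := by
    intro h1
    exact hpn (by exact_mod_cast h1)
  have hpm : ¬ (p : ℤ) ∣ -(n : ℤ) := by rwa [dvd_neg]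
  have ha0 : a ≠ 0 := by
    intro h1
    have := h.a2
    rw [h1] at this
    omega
  have hb0 : b ≠ 0 := h.b0
  have ha0' : (a : ℚ_[p]) ≠ 0 := by exact_mod_cast ha0
  have hb0' : (b : ℚ_[p]) ≠ 0 := by exact_mod_cast hb0
  have hn0' : ((n : ℤ) : ℚ_[p]) ≠ 0 := by
    have : (n : ℤ) ≠ 0 := by intro h1; rw [h1] at hpn'; simp at hpn'
    exact_mod_cast this
  have hab0 : a ^ 2 - b ^ 2 ≠ 0 := by
    intro h1
    have h2 := h.a2
    have h3 := h.b2
    have h4 : (a ^ 2 - b ^ 2) % 2 = 1 := by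
      rw [Int.sub_emod, pow_two, pow_two, Int.mul_emod, Int.mul_emod b b, h2, h3]
      norm_num
    rw [h1] at h4
    omega
  have hu := P.u0
  have hv := P.v0
  have hw := P.w0
  have e1 := P.uv
  have e2 := P.uw
  have hs := P.sq
  have e3 : w - v = ((a ^ 2 - b ^ 2 : ℤ) : ℚ_[p]) * (n : ℤ) := by
    push_cast
    push_cast at e1 e2
    linear_combination e1 - e2
  have vA : (u - v).valuation = 2 * (a : ℚ_[p]).valuation := by rw [e1]; exact val_cs hpn' ha0'
  have vB : (u - w).valuation = 2 * (b : ℚ_[p]).valuation := by rw [e2]; exact val_cs hpn' hb0'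
  have hab0' : ((a ^ 2 - b ^ 2 : ℤ) : ℚ_[p]) ≠ 0 := by exact_mod_cast hab0
  have vC : (w - v).valuation = ((a ^ 2 - b ^ 2 : ℤ) : ℚ_[p]).valuation := by
    rw [e3, Padic.valuation_mul hab0' hn0', val_zero hpn', add_zero]
  have huv : u - v ≠ 0 := by rw [e1]; exact mul_ne_zero hn0' (pow_ne_zero 2 ha0')
  have huw : u - w ≠ 0 := by rw [e2]; exact mul_ne_zero hn0' (pow_ne_zero 2 hb0')
  have hwv : w - v ≠ 0 := by rw [e3]; exact mul_ne_zero hab0' hn0'
  have hvu : v - u ≠ 0 := by rwa [← neg_ne_zero, neg_sub]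
  have hwu : w - u ≠ 0 := by rwa [← neg_ne_zero, neg_sub]
  have hvw : v - w ≠ 0 := by rwa [← neg_ne_zero, neg_sub]
  have vA' : (v - u).valuation = 2 * (a : ℚ_[p]).valuation := by rw [← vneg, neg_sub, vA]
  have vB' : (w - u).valuation = 2 * (b : ℚ_[p]).valuation := by rw [← vneg, neg_sub, vB]
  have ka : 0 ≤ (a : ℚ_[p]).valuation := val_nonneg ha0
  have kb : 0 ≤ (b : ℚ_[p]).valuation := val_nonneg hb0
  have nAB : (p : ℤ) ∣ a → ¬ (p : ℤ) ∣ b := by
    intro h1 h2
    obtain ⟨x, y, hxy⟩ := h.cop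
    have h3 : (p : ℤ) ∣ 1 := by
      rw [← hxy]
      exact dvd_add (Dvd.dvd.mul_left h1 x) (Dvd.dvd.mul_left h2 y)
    have h4 := Int.isUnit_iff.1 (isUnit_of_dvd_one h3)
    have := hp.out.two_le
    omega
  have pri : Prime (p : ℤ) := Nat.prime_iff_prime_int.1 hp.out
  by_cases hC : (p : ℤ) ∣ a ^ 2 - b ^ 2
  · -- `p ∣ a² - b²`
    have hpa : ¬ (p : ℤ) ∣ a := by
      intro h1
      have h2 : (p : ℤ) ∣ b ^ 2 := by
        have : b ^ 2 = a ^ 2 - (a ^ 2 - b ^ 2) := by ring
        rw [this]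
        exact dvd_sub (Dvd.dvd.pow h1 two_ne_zero) hC
      exact nAB h1 (pri.dvd_of_dvd_pow h2)
    have hpb : ¬ (p : ℤ) ∣ b := by
      intro h1
      have h2 : (p : ℤ) ∣ a ^ 2 := by
        have : a ^ 2 = (a ^ 2 - b ^ 2) + b ^ 2 := by ring
        rw [this]
        exact dvd_add hC (Dvd.dvd.pow h1 two_ne_zero)
      exact hpa (pri.dvd_of_dvd_pow h2)
    rw [val_zero hpa] at vA vA'
    rw [val_zero hpb] at vB vB'
    have hsum : Even (u.valuation + v.valuation + w.valuation) := by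
      have := even_val (mul_ne_zero (mul_ne_zero hu hv) hw) hs
      rwa [Padic.valuation_mul (mul_ne_zero hu hv) hw, Padic.valuation_mul hu hv] at this
    obtain ⟨r, hr⟩ := hsum
    rcases lt_trichotomy u.valuation 0 with c | c | c
    · obtain ⟨-, a1⟩ := closeV hp2 hv hu hvu (by omega)
      obtain ⟨-, a2⟩ := closeV hp2 hw hu hwu (by omega)
      have h1 : Even u.valuation := ⟨r - u.valuation, by omega⟩
      exact ⟨h1, Or.inl (by rw [a1]; exact h1)⟩
    · refine ⟨by rw [c]; exact Even.zero, ?_⟩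
      by_cases hv1 : Even v.valuation
      · exact Or.inl hv1
      right
      refine ⟨hC, ?_⟩
      have h1 : 0 ≤ v.valuation := by
        have := val_add_ge (x := v - u) (y := u) (by rwa [sub_add_cancel]) (k := 0)
          (by omega) (by omega)
        rwa [sub_add_cancel] at this
      have h2 : v.valuation ≠ 0 := by
        intro h3
        rw [h3] at hv1
        exact hv1 Even.zero
      obtain ⟨a1, -⟩ := closeV hp2 (x := u) (y := u - v) hu huv
        (by rw [sub_sub_cancel]; exact hv) (by rw [sub_sub_cancel]; omega)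
      rw [e1] at a1
      refine sq_cancel (x := (a : ℚ_[p]) * a) (mul_ne_zero ha0' ha0') ⟨_, rfl⟩ ?_
      have e : (a : ℚ_[p]) * a * (u * (n : ℚ_[p])) = u * (((n : ℤ) : ℚ_[p]) * a ^ 2) := by
        push_cast; ring
      rwa [e]
    · obtain ⟨-, a1⟩ := closeV hp2 (x := v) (y := v - u) hv hvu
        (by rw [sub_sub_cancel]; exact hu) (by rw [sub_sub_cancel]; omega)
      obtain ⟨-, a2⟩ := closeV hp2 (x := w) (y := w - u) hw hwu
        (by rw [sub_sub_cancel]; exact hu) (by rw [sub_sub_cancel]; omega)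
      exact ⟨⟨r, by omega⟩, Or.inl (by rw [a1, vA']; exact ⟨0, by norm_num⟩)⟩
  · have vC0 : (w - v).valuation = 0 := by rw [vC]; exact val_zero hC
    by_cases hA : (p : ℤ) ∣ a
    · have hpb := nAB hA
      rw [val_zero hpb] at vB'
      have h1 := loc_unr hp2 hu hv hw hs hvu hwu hwv (l := 2 * (a : ℚ_[p]).valuation) (k := 0) vA'
        (by rw [vB']; norm_num) vC0 (by omega) Even.zero ⟨_, two_mul _⟩ (by
          intro _ h2
          have h3 : ¬ IsSquare (((-(n : ℤ) : ℤ) : ℚ_[p]) * (b : ℚ_[p]) ^ 2) :=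
            nsq hpm (h.ab p hp.out hp2 (Dvd.dvd.mul_right hA b)) hb0'
          apply h3
          have e : ((-(n : ℤ) : ℤ) : ℚ_[p]) * (b : ℚ_[p]) ^ 2 = w - u := by
            push_cast
            push_cast at e2
            linear_combination e2
          rwa [e])
      exact ⟨h1.1, Or.inl h1.2.1⟩
    · rw [val_zero hA] at vA'
      have h1 := loc_unr hp2 hu hw hv (by rwa [mul_right_comm]) hwu hvu hvw
        (l := 2 * (b : ℚ_[p]).valuation) (k := 0) vB' (by rw [vA']; norm_num)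
        (by rw [← vneg, neg_sub, vC0]) (by omega) Even.zero ⟨_, two_mul _⟩ (by
          intro h5 h2
          have hB : (p : ℤ) ∣ b := by
            by_contra hB
            rw [val_zero hB] at h5
            omega
          have h3 : ¬ IsSquare (((-(n : ℤ) : ℤ) : ℚ_[p]) * (a : ℚ_[p]) ^ 2) :=
            nsq hpm (h.ab p hp.out hp2 (Dvd.dvd.mul_left hB a)) ha0'
          apply h3
          have e : ((-(n : ℤ) : ℤ) : ℚ_[p]) * (a : ℚ_[p]) ^ 2 = v - u := by
            push_cast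
            push_cast at e1
            linear_combination e1
          rwa [e])
      exact ⟨h1.1, Or.inl h1.2.2⟩

end Pool.Agent.N873.UT
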